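import Pool.Agent.MP_e23604_nt.Gal

/-!
Auxiliary definitions for the bound on the p-torsion of Sha of a CM curve.
-/

open WeierstrassCurve NumberField

namespace Pool.Agent.MP_e23604_nt.B

section

variable {F : Type} [Field F]

/-- The coefficients of W are integral at v. -/
def Intg (v : AbsoluteValue F ℝ) (W : WeierstrassCurve F) : Prop :=
  v W.a₁ ≤ 1 ∧ v W.a₂ ≤ 1 ∧ v W.a₃ ≤ 1 ∧ v W.a₄ ≤ 1 ∧ v W.a₆ ≤ 1

/-- The local parameter z = -x/y at the origin. -/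
noncomputable def zz {W : WeierstrassCurve F} : W.toAffine.Point → F
  | .zero => 0
  | .some x y _ => -x / y

/-- The kernel of reduction at v. -/
def E1 (v : AbsoluteValue F ℝ) {W : WeierstrassCurve F} : W.toAffine.Point → Prop
  | .zero => True
  | .some x _ _ => 1 < v x

/-- The point (x, y) has nonsingular reduction at v. -/
def NS (v : AbsoluteValue F ℝ) (W : WeierstrassCurve F) (x y : F) : Prop :=
  1 ≤ v (3 * x ^ 2 + 2 * W.a₂ * x + W.a₄ - W.a₁ * y) ∨ 1 ≤ v (2 * y + W.a₁ * x + W.a₃)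

/-- τ lies in the inertia group of v. -/
def Inr (v : AbsoluteValue F ℝ) (τ : F → F) : Prop := ∀ x, v x ≤ 1 → v (τ x - x) < 1

@[simp] lemma zz_zero {W : WeierstrassCurve F} : zz (0 : W.toAffine.Point) = 0 := rfl

@[simp] lemma zz_some {W : WeierstrassCurve F} {x y : F} (h : W.toAffine.Nonsingular x y) :
    zz (Affine.Point.some x y h) = -x / y := rfl

@[simp] lemma E1_zero (v : AbsoluteValue F ℝ) {W : WeierstrassCurve F} :
    E1 v (0 : W.toAffine.Point) := trivial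

@[simp] lemma E1_some (v : AbsoluteValue F ℝ) {W : WeierstrassCurve F} {x y : F}
    (h : W.toAffine.Nonsingular x y) : E1 v (Affine.Point.some x y h) ↔ 1 < v x := Iff.rfl

end

/-- The absolute value x ↦ |emb (g x)|_q on Qbar. -/
noncomputable def nv (q : ℕ) [Fact q.Prime] (g : GQ) : AbsoluteValue Qb ℝ :=
  (NormedField.toAbsoluteValue (PadicAlgCl q)).comp
    (f := (emb ℚ_[q]).comp (g : Qb →+* Qb)) (RingHom.injective _)

lemma nv_apply (q : ℕ) [Fact q.Prime] (g : GQ) (x : Qb) : nv q g x = ‖emb ℚ_[q] (g x)‖ := rfl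

lemma nv_mul (q : ℕ) [Fact q.Prime] (g σ : GQ) (x : Qb) : nv q (g * σ) x = nv q g (σ x) := rfl

lemma nv_na (q : ℕ) [Fact q.Prime] (g : GQ) : IsNonarchimedean (nv q g) := fun x y => by
  simp only [nv_apply, map_add]
  exact IsUltrametricDist.norm_add_le_max _ _

lemma nv_lt (q : ℕ) [Fact q.Prime] (g : GQ) : nv q g q < 1 := by
  rw [nv_apply, map_natCast, map_natCast, ← map_natCast (algebraMap ℚ_[q] (PadicAlgCl q)),
    norm_algebraMap']
  exact Padic.norm_p_lt_one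

/-- The number field data: L is cyclic of degree p - 1 over the imaginary quadratic field Q(α),
with generator g, unramified outside c p and at (p, α - a), with bounded ramification at c. -/
structure NFS (t N : ℤ) (c N₀ p : ℕ) (L : Type) [Field L] [NumberField L] (g : L ≃ₐ[ℚ] L)
    (α : 𝓞 L) (a : ℤ) : Prop where
  ord : orderOf g = p - 1
  deg : Module.finrank ℚ L = 2 * (p - 1)
  fix : g • α = α
  eqn : α ^ 2 - t * α + N = 0
  ex : ∃ Q : Ideal (𝓞 L), Q.IsMaximal ∧ (p : 𝓞 L) ∈ Q ∧ α - a ∈ Q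
  in1 : ∀ Q : Ideal (𝓞 L), Q.IsMaximal → ∀ j : ℕ, (∀ x : 𝓞 L, (g ^ j) • x - x ∈ Q) →
    ((c * p : ℕ) : 𝓞 L) ∉ Q → g ^ j = 1
  in2 : ∀ Q : Ideal (𝓞 L), Q.IsMaximal → ∀ j : ℕ, (∀ x : 𝓞 L, (g ^ j) • x - x ∈ Q) →
    (p : 𝓞 L) ∉ Q → (g ^ j) ^ N₀ = 1
  in3 : ∀ Q : Ideal (𝓞 L), Q.IsMaximal → ∀ j : ℕ, (∀ x : 𝓞 L, (g ^ j) • x - x ∈ Q) →
    (p : 𝓞 L) ∈ Q → α - a ∈ Q → g ^ j = 1

open scoped Pointwise nonZeroDivisors in
/-- The class c contains an ideal I such that I * s(I) has a generator fixed by s. -/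
def MinusCl {L : Type} [Field L] [NumberField L] (s : L ≃ₐ[ℚ] L) (c : ClassGroup (𝓞 L)) : Prop :=
  ∃ (I : (Ideal (𝓞 L))⁰) (δ : 𝓞 L), ClassGroup.mk0 I = c ∧ s • δ = δ ∧
    I.1 * s • I.1 = Ideal.span {δ}

end Pool.Agent.MP_e23604_nt.B
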