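import Pool.Agent.MP_e23604_nt.Defs

/-!
Complex multiplication of a Weierstrass curve over Q.
-/

open WeierstrassCurve Polynomial
open scoped Classical

namespace Pool.Agent.MP_e23604_nt

/-- W has complex multiplication by a root of X^2 - tX + N (negative discriminant): there is an
additive endomorphism φ of E(Qbar) with φ^2 - tφ + N = 0 which is given by rational functions,
φ(x, y) = (f(x) / d(x), (g(x) y + h(x)) / d(x)) wherever d(x) ≠ 0. The degrees are those of an
isogeny in characteristic 0. -/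
def HasCM (W : WeierstrassCurve ℚ) (t N : ℤ) : Prop :=
  t ^ 2 < 4 * N ∧ ∃ φ : Pts W Qb →+ Pts W Qb, (∀ P, φ (φ P) - t • φ P + N • P = 0) ∧
    ∃ f g h d : Qb[X], d ≠ 0 ∧ g ≠ 0 ∧ f.natDegree = d.natDegree + 1 ∧
      g.natDegree = d.natDegree ∧ h.natDegree ≤ d.natDegree + 1 ∧
      ∀ (x y : Qb) (hxy : (W.baseChange Qb).toAffine.Nonsingular x y), d.eval x ≠ 0 →
        ∃ h', φ (.some x y hxy) =
          .some (f.eval x / d.eval x) ((g.eval x * y + h.eval x) / d.eval x) h'

end Pool.Agent.MP_e23604_nt
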