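import Pool.Agent.MP_e23604_nt.BDefs

/-!
The n-torsion of the Tate-Shafarevich group.
-/

open scoped Classical

namespace Pool.Agent.MP_e23604_nt

/-- Sha(E/Q)[n]. -/
def shaTors (W : WeierstrassCurve ℚ) (n : ℕ) : Set (H1 (galQ W)) := {c | c ∈ Sha W ∧ n • c = 0}

end Pool.Agent.MP_e23604_nt
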