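import Mathlib

/-!
Finite generation of E(Q) from finiteness of E(Q)/3E(Q), and the rank.
-/

open WeierstrassCurve Height

noncomputable section

namespace Pool.Agent.MP_e23604_nt

section par

variable {K : Type} [Field K] [DecidableEq K] {W : WeierstrassCurve K} [W.IsElliptic]

lemma addSub_self (P : W.toAffine.Point) : ∃ c : K, c ≠ 0 ∧
    (fun i => (addSubMap W i).eval (P.sym2x P)) = c • (P + P).sym2x 0 := by
  rcases P with _ | ⟨x, y, h⟩
  · refine ⟨1, one_ne_zero, ?_⟩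
    rw [← Affine.Point.zero_def]
    ext i; fin_cases i <;> simp [addSubMap]
  have e := (Affine.equation_iff _ _).1 h.1
  by_cases hy : y = W.toAffine.negY x y
  · rw [Affine.Point.add_self_of_Y_eq hy]
    have hne := addSubMap_ne_zero W (Affine.Point.sym2x_ne_zero (.some x y h) (.some x y h))
    have e1 : (addSubMap W 1).eval ((Affine.Point.some x y h).sym2x (.some x y h)) = 0 := by
      simp only [Affine.negY] at hy
      simp [addSubMap, b₂, b₄, b₆]
      linear_combination (2 * y + W.a₁ * x + W.a₃) * hy - 4 * e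
    have e2 : (addSubMap W 2).eval ((Affine.Point.some x y h).sym2x (.some x y h)) = 0 := by
      simp [addSubMap]; ring
    refine ⟨(addSubMap W 0).eval ((Affine.Point.some x y h).sym2x (.some x y h)), fun e0 => hne ?_,
      ?_⟩
    · ext i; fin_cases i
      · exact e0
      · exact e1
      · exact e2
    · ext i; fin_cases i
      · simp
      · simpa using e1
      · simpa using e2
  · rw [Affine.Point.add_self_of_Y_ne hy]
    have h0 : y - W.toAffine.negY x y ≠ 0 := sub_ne_zero.2 hy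
    refine ⟨(y - W.toAffine.negY x y) ^ 2, pow_ne_zero _ h0, ?_⟩
    have hl : W.toAffine.slope x x y y * (y - W.toAffine.negY x y)
        = 3 * x ^ 2 + 2 * W.a₂ * x + W.a₄ - W.a₁ * y := by
      rw [Affine.slope_of_Y_ne rfl hy, div_mul_cancel₀ _ h0]
    ext i; fin_cases i
    · simp only [addSubMap, b₂, b₄, b₆, b₈, Affine.Point.sym2x_some_some,
        Affine.Point.sym2x_some_zero, Affine.addX]
      generalize W.toAffine.slope x x y y = l at *
      simp only [Affine.negY] at hl ⊢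
      simp
      linear_combination (W.a₁ ^ 2 + 4 * W.a₂ + 8 * x) * e - (l * (2 * y + W.a₁ * x + W.a₃) +
        (3 * x ^ 2 + 2 * W.a₂ * x + W.a₄ - W.a₁ * y) + W.a₁ * (2 * y + W.a₁ * x + W.a₃)) * hl
    · simp [addSubMap, b₂, b₄, b₆, Affine.negY]
      linear_combination (-4 : K) * e
    · simp [addSubMap]; ring

lemma addSub (P Q : W.toAffine.Point) : ∃ c : K, c ≠ 0 ∧
    (fun i => (addSubMap W i).eval (P.sym2x Q)) = c • (P + Q).sym2x (P - Q) := by
  by_cases h1 : Q = P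
  · subst h1; rw [sub_self]; exact addSub_self Q
  by_cases h2 : Q = -P
  · subst h2
    rw [sub_neg_eq_add, add_neg_cancel, Affine.Point.sym2x_neg_right, Affine.Point.sym2x_comm 0]
    exact addSub_self P
  rcases P with _ | ⟨x₁, y₁, hP⟩
  · rcases Q with _ | ⟨x₂, y₂, hQ⟩
    · exact absurd rfl h1
    · refine ⟨1, one_ne_zero, ?_⟩
      rw [← Affine.Point.zero_def, zero_add, zero_sub, Affine.Point.sym2x_neg_right]
      ext i; fin_cases i <;> simp [addSubMap] <;> ring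
  rcases Q with _ | ⟨x₂, y₂, hQ⟩
  · refine ⟨1, one_ne_zero, ?_⟩
    rw [← Affine.Point.zero_def, add_zero, sub_zero]
    ext i; fin_cases i <;> simp [addSubMap] <;> ring
  have hx : x₁ ≠ x₂ := fun e => by
    rcases Affine.Point.X_eq_iff.1 e.symm with e | e
    · exact h1 e
    · exact h2 e
  have e₁ := (Affine.equation_iff _ _).1 hP.1
  have e₂ := (Affine.equation_iff _ _).1 hQ.1
  have h0 : x₁ - x₂ ≠ 0 := sub_ne_zero.2 hx
  rw [sub_eq_add_neg, Affine.Point.neg_some, Affine.Point.add_of_X_ne hx,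
    Affine.Point.add_of_X_ne hx]
  have l1 : W.toAffine.slope x₁ x₂ y₁ y₂ * (x₁ - x₂) = y₁ - y₂ := by
    rw [Affine.slope_of_X_ne hx, div_mul_cancel₀ _ h0]
  have l2 : W.toAffine.slope x₁ x₂ y₁ (W.toAffine.negY x₂ y₂) * (x₁ - x₂)
      = y₁ + y₂ + W.a₁ * x₂ + W.a₃ := by
    rw [Affine.slope_of_X_ne hx, div_mul_cancel₀ _ h0, Affine.negY]; ring
  have A1 : (x₁ - x₂) ^ 2 * W.toAffine.addX x₁ x₂ (W.toAffine.slope x₁ x₂ y₁ y₂)
      = (y₁ - y₂) ^ 2 + W.a₁ * (y₁ - y₂) * (x₁ - x₂) - (W.a₂ + x₁ + x₂) * (x₁ - x₂) ^ 2 := by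
    rw [← l1, Affine.addX]; ring
  have A2 : (x₁ - x₂) ^ 2 * W.toAffine.addX x₁ x₂
      (W.toAffine.slope x₁ x₂ y₁ (W.toAffine.negY x₂ y₂))
      = (y₁ + y₂ + W.a₁ * x₂ + W.a₃) ^ 2 + W.a₁ * (y₁ + y₂ + W.a₁ * x₂ + W.a₃) * (x₁ - x₂)
        - (W.a₂ + x₁ + x₂) * (x₁ - x₂) ^ 2 := by
    rw [← l2, Affine.addX]; ring
  refine ⟨(x₁ - x₂) ^ 2, pow_ne_zero _ h0, ?_⟩
  simp only [Affine.Point.sym2x_some_some]
  generalize W.toAffine.addX x₁ x₂ (W.toAffine.slope x₁ x₂ y₁ y₂) = X₁ at *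
  generalize W.toAffine.addX x₁ x₂ (W.toAffine.slope x₁ x₂ y₁ (W.toAffine.negY x₂ y₂)) = X₂ at *
  ext i; fin_cases i
  · simp [addSubMap, b₄, b₆, b₈]
    apply mul_left_cancel₀ (pow_ne_zero 2 h0)
    linear_combination (-W.a₁ * W.a₃ * x₁ + W.a₁ * W.a₃ * x₂ - W.a₁ * x₁ * y₁ + 2 * W.a₁ * x₂ * y₂
      - W.a₁ ^ 2 * x₁ * x₂ + W.a₁ ^ 2 * x₂ ^ 2 - 4 * W.a₂ * x₁ * x₂ + W.a₂ * x₁ ^ 2
      + 2 * W.a₂ * x₂ ^ 2 - W.a₃ * y₁ + 2 * W.a₃ * y₂ - W.a₄ * x₁ - W.a₆ - 2 * x₁ * x₂ ^ 2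
      - 2 * x₁ ^ 2 * x₂ + x₁ ^ 3 + 2 * x₂ ^ 3 - y₁ ^ 2 + 2 * y₂ ^ 2) * e₁ + (W.a₁ * W.a₃ * x₁
      - W.a₁ * W.a₃ * x₂ - W.a₁ * x₂ * y₂ - W.a₁ ^ 2 * x₁ * x₂ + W.a₁ ^ 2 * x₁ ^ 2
      - 4 * W.a₂ * x₁ * x₂ + 4 * W.a₂ * x₁ ^ 2 + W.a₂ * x₂ ^ 2 - W.a₃ * y₂ + 2 * W.a₄ * x₁
      - W.a₄ * x₂ + W.a₆ - 2 * x₁ * x₂ ^ 2 - 2 * x₁ ^ 2 * x₂ + 4 * x₁ ^ 3 + x₂ ^ 3 - y₂ ^ 2) * e₂
      - ((x₁ - x₂) ^ 2 * X₂) * A1 - ((y₁ - y₂) ^ 2 + W.a₁ * (y₁ - y₂) * (x₁ - x₂)
        - (W.a₂ + x₁ + x₂) * (x₁ - x₂) ^ 2) * A2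
  · simp [addSubMap, b₂, b₄, b₆]
    linear_combination -2 * e₁ - 2 * e₂ - A1 - A2
  · simp [addSubMap]; ring

end par

lemma fg_of_three [DecidableEq ℚ] (W : WeierstrassCurve ℚ) [W.IsElliptic]
    (H : (nsmulAddMonoidHom (α := W.toAffine.Point) 3).range.FiniteIndex) :
    AddGroup.FG W.toAffine.Point := by
  let h : W.toAffine.Point → ℝ := fun P => logHeight P.xRep
  obtain ⟨C₁, h1⟩ := abs_logHeight_addSubMap_sub_two_mul_logHeight_le W
  obtain ⟨C₂, h2⟩ := abs_logHeight_sym2_sub_le ℚ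
  have h3 : ∀ P Q : W.toAffine.Point, |logHeight (P.sym2x Q) - (h P + h Q)| ≤ C₂ := by
    intro P Q
    have e : ∀ v : Fin 2 → ℚ, ![v 0, v 1] = v := fun v => by ext i; fin_cases i <;> rfl
    have := h2 (a := P.xRep 0) (b := P.xRep 1) (c := Q.xRep 0) (d := Q.xRep 1)
      (by rw [e]; exact P.xRep_ne_zero) (by rw [e]; exact Q.xRep_ne_zero)
    rwa [e, e] at this
  have par : ∀ P Q : W.toAffine.Point,
      |h (P + Q) + h (P - Q) - 2 * (h P + h Q)| ≤ C₁ + 3 * C₂ := by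
    intro P Q
    obtain ⟨c, c0, hc⟩ := addSub P Q
    have a1 := h1 (P.sym2x Q)
    rw [hc, logHeight_smul_eq_logHeight _ c0] at a1
    have a2 := h3 P Q
    have a3 := h3 (P + Q) (P - Q)
    rw [abs_le] at *
    constructor <;> linarith [a1.1, a1.2, a2.1, a2.2, a3.1, a3.2]
  have pos : ∀ P, 0 ≤ h P := fun P => logHeight_nonneg _
  have : Northcott h := ⟨fun B => by
    have f1 : {v : Fin 2 → ℚ | v = ![1, 0] ∨ ∃ x ∈ {x : ℚ | logHeight₁ x ≤ B}, ![x, 1] = v}.Finite :=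
      (Set.finite_singleton _).union ((Northcott.finite_le B).image _)
    refine (f1.preimage' (f := fun P : W.toAffine.Point => P.xRep) fun v _ => ?_).subset ?_
    · by_cases hv : ∃ P : W.toAffine.Point, P.xRep = v
      · obtain ⟨P, rfl⟩ := hv
        exact (Set.toFinite {P, -P}).subset fun Q hQ => Affine.Point.xRep_eq_xRep_iff.1 hQ
      · convert Set.finite_empty
        ext Q
        simpa using fun e => hv ⟨Q, e⟩
    · rintro (_ | ⟨x, y, hP⟩) hB
      · exact Or.inl rfl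
      · exact Or.inr ⟨x, (logHeight₁_eq_logHeight x).trans_le hB, rfl⟩⟩
  refine AddCommGroup.fg_of_descent (n := 3) (h := h) (a := 2) (b := 9)
    (c₀ := 2 * h 0 + 3 * (C₁ + 3 * C₂)) (c := fun g => 2 * h g + (C₁ + 3 * C₂)) (by norm_num)
    (by norm_num) H (fun g x => ?_) (fun x => ?_)
  · have := par (g + x) g
    rw [add_sub_cancel_left, abs_le] at this
    linarith [this.2, pos (g + x + g)]
  · have a1 := par x x
    have a2 := par (x + x) x
    rw [sub_self, abs_le] at a1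
    rw [add_sub_cancel_right, abs_le] at a2
    rw [show (3 : ℕ) • x = x + x + x by abel]
    linarith [a1.1, a2.1]

lemma rank_eq {A : Type} [AddCommGroup A] (hfg : AddGroup.FG A) {κ : Type} [Fintype κ]
    (C : κ → A) (t : A) (ht : (3 : ℕ) • t = 0)
    (gen : ∀ P, ∃ (R : A) (m : κ → ℤ) (j : ℤ), P = (3 : ℕ) • R + ∑ k, m k • C k + j • t)
    (ind : ∀ (R : A) (m : κ → ℤ) (j : ℤ), (3 : ℕ) • R = ∑ k, m k • C k + j • t →
      (∀ k, 3 ∣ m k) ∧ 3 ∣ j)
    (tor : ∀ P : A, (3 : ℕ) • P = 0 → ∃ j : ℤ, P = j • t) :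
    Module.finrank ℤ A = Fintype.card κ := by
  have : Module.Finite ℤ A := Module.Finite.iff_addGroup_fg.2 hfg
  have ht' : (3 : ℤ) • t = 0 := by exact_mod_cast ht
  have li : LinearIndependent ℤ C := by
    have key : ∀ (n : ℕ) (m : κ → ℤ) (j : ℤ), ∑ k, m k • C k + j • t = 0 → ∀ k, 3 ^ n ∣ m k := by
      intro n
      induction n with
      | zero => simp
      | succ n ih =>
        intro m j h
        obtain ⟨h1, j', rfl⟩ := ind 0 m j (by rw [h, nsmul_zero])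
        choose m' hm' using h1
        obtain ⟨i, hi⟩ := tor (∑ k, m' k • C k) (by
          rw [mul_comm, mul_smul, ht', smul_zero, add_zero] at h
          rw [← h, Finset.smul_sum]
          refine Finset.sum_congr rfl fun k _ => ?_
          rw [hm', mul_smul]; norm_cast)
        intro k
        rw [hm', pow_succ']
        exact mul_dvd_mul_left _ (ih m' (-i) (by rw [hi, neg_smul, add_neg_cancel]) k)
    rw [Fintype.linearIndependent_iff]
    intro m hm k
    refine Int.eq_zero_of_abs_lt_dvd (key (m k).natAbs m 0 (by simp [hm]) k) ?_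
    rw [Int.abs_eq_natAbs]
    exact_mod_cast Nat.lt_pow_self (by norm_num)
  set N := Submodule.span ℤ (Set.range C) with hN
  have tq : Module.finrank ℤ (A ⧸ N) = 0 := by
    let N' := N ⊔ Submodule.span ℤ {t}
    obtain ⟨r, hr1, hr⟩ := Submodule.exists_sub_one_mem_and_smul_eq_zero_of_fg_of_le_smul
      (Ideal.span {(3 : ℤ)}) (⊤ : Submodule ℤ (A ⧸ N')) Module.Finite.fg_top (by
        rintro x -
        obtain ⟨P, rfl⟩ := N'.mkQ_surjective x
        obtain ⟨R, m, j, rfl⟩ := gen P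
        have h1 : N'.mkQ (∑ k, m k • C k) = 0 := by
          rw [Submodule.mkQ_apply, Submodule.Quotient.mk_eq_zero]
          exact Submodule.mem_sup_left (Submodule.sum_mem _ fun k _ =>
            Submodule.smul_mem _ _ (Submodule.subset_span ⟨k, rfl⟩))
        have h2 : N'.mkQ (j • t) = 0 := by
          rw [Submodule.mkQ_apply, Submodule.Quotient.mk_eq_zero]
          exact Submodule.mem_sup_right (Submodule.smul_mem _ _ (Submodule.subset_span rfl))
        rw [map_add, map_add, h1, h2, add_zero, add_zero, map_nsmul, ← natCast_zsmul]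
        exact Submodule.smul_mem_smul (Ideal.subset_span rfl) trivial)
    have r0 : 3 * r ≠ 0 := by
      rw [Ideal.mem_span_singleton] at hr1
      omega
    rw [Module.finrank_eq_zero_iff]
    intro x
    obtain ⟨P, rfl⟩ := N.mkQ_surjective x
    refine ⟨3 * r, r0, ?_⟩
    have := hr (N'.mkQ P) trivial
    rw [← map_smul, Submodule.mkQ_apply, Submodule.Quotient.mk_eq_zero, Submodule.mem_sup] at this
    obtain ⟨y, hy, z, hz, e⟩ := this
    obtain ⟨j, rfl⟩ := Submodule.mem_span_singleton.1 hz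
    rw [← map_smul, Submodule.mkQ_apply, Submodule.Quotient.mk_eq_zero, mul_smul, ← e, smul_add,
      smul_comm (3 : ℤ) j t, ht', smul_zero, add_zero]
    exact N.smul_mem _ hy
  rw [← Submodule.finrank_quotient_add_finrank N, tq, zero_add, hN, finrank_span_eq_card li]

end Pool.Agent.MP_e23604_nt
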