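import Pool.Agent.MP_e23604_nt.BBase
import Pool.Agent.MP_e23604_nt.Mordell

/-!
Division polynomials.
-/

open WeierstrassCurve Polynomial

namespace Pool.Agent.MP_e23604_nt.B

section aux

/-- First coordinate of the addition-and-subtraction map. -/
def BDivU {R : Type} [CommRing R] (W : WeierstrassCurve R) (s t u : R) : R :=
  s ^ 2 - W.b₄ * s * u - W.b₆ * t * u - W.b₈ * u ^ 2

/-- Second coordinate of the addition-and-subtraction map. -/
def BDivV {R : Type} [CommRing R] (W : WeierstrassCurve R) (s t u : R) : R :=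
  2 * t * s + W.b₂ * s * u + W.b₄ * t * u + W.b₆ * u ^ 2

/-- Third coordinate of the addition-and-subtraction map. -/
def BDivW {R : Type} [CommRing R] (s t u : R) : R := t ^ 2 - 4 * s * u

lemma BDiv_eval {R : Type} [CommRing R] (W : WeierstrassCurve R) (s t u : R) :
    (fun i => (addSubMap W i).eval ![s, t, u]) = ![BDivU W s t u, BDivV W s t u, BDivW s t u] := by
  ext i; fin_cases i <;> simp [addSubMap, BDivU, BDivV, BDivW]

lemma BDivU_map {R S : Type} [CommRing R] [CommRing S] (f : R →+* S) (W : WeierstrassCurve R)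
    (s t u : R) : f (BDivU W s t u) = BDivU (W.map f) (f s) (f t) (f u) := by
  simp [BDivU]

lemma BDivV_map {R S : Type} [CommRing R] [CommRing S] (f : R →+* S) (W : WeierstrassCurve R)
    (s t u : R) : f (BDivV W s t u) = BDivV (W.map f) (f s) (f t) (f u) := by
  simp [BDivV, map_ofNat]

lemma BDivW_map {R S : Type} [CommRing R] [CommRing S] (f : R →+* S)
    (s t u : R) : f (BDivW s t u) = BDivW (f s) (f t) (f u) := by
  simp [BDivW, map_ofNat]

variable {F : Type} [Field F]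

/-- The valuation ring. -/
def BDivO (v : AbsoluteValue F ℝ) (hv : IsNonarchimedean v) : Subring F where
  carrier := {x | v x ≤ 1}
  mul_mem' {a b} ha hb := by
    simp only [Set.mem_ofPred_eq, map_mul] at *
    exact mul_le_one₀ ha (v.nonneg _) hb
  one_mem' := by simp
  add_mem' {a b} ha hb := (hv a b).trans (max_le ha hb)
  zero_mem' := by simp
  neg_mem' {a} ha := by simpa using ha

lemma BDiv_int (W : WeierstrassCurve F) (v : AbsoluteValue F ℝ) (hv : IsNonarchimedean v)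
    (hI : Intg v W) (hΔ : v W.Δ = 1) {s t u : F} (h : max (v s) (max (v t) (v u)) = 1) :
    max (v (BDivU W s t u)) (max (v (BDivV W s t u)) (v (BDivW s t u))) = 1 := by
  have hs : v s ≤ 1 := h ▸ le_max_left _ _
  have ht : v t ≤ 1 := h ▸ (le_max_left _ _).trans (le_max_right _ _)
  have hu : v u ≤ 1 := h ▸ (le_max_right _ _).trans (le_max_right _ _)
  let O := BDivO v hv
  let W' : WeierstrassCurve O := ⟨⟨_, hI.1⟩, ⟨_, hI.2.1⟩, ⟨_, hI.2.2.1⟩, ⟨_, hI.2.2.2.1⟩,
    ⟨_, hI.2.2.2.2⟩⟩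
  have hW : W'.map O.subtype = W := rfl
  have hΔ' : (W'.Δ : F) = W.Δ := by rw [← hW, map_Δ]; rfl
  have hΔ0 : W.Δ ≠ 0 := fun e => by simp [e] at hΔ
  have : W'.IsElliptic := ⟨IsUnit.of_mul_eq_one ⟨W.Δ⁻¹, by
    change v _ ≤ 1
    rw [map_inv₀, hΔ, inv_one]⟩ (Subtype.ext (by
      simp only [Subring.coe_mul, hΔ', Subring.coe_one]
      exact mul_inv_cancel₀ hΔ0))⟩
  let s' : O := ⟨s, hs⟩
  let t' : O := ⟨t, ht⟩
  let u' : O := ⟨u, hu⟩
  have eU : ((BDivU W' s' t' u' : O) : F) = BDivU W s t u := BDivU_map O.subtype W' s' t' u'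
  have eV : ((BDivV W' s' t' u' : O) : F) = BDivV W s t u := BDivV_map O.subtype W' s' t' u'
  have eW : ((BDivW s' t' u' : O) : F) = BDivW s t u := BDivW_map O.subtype s' t' u'
  apply le_antisymm
  · exact max_le (eU ▸ (BDivU W' s' t' u').2)
      (max_le (eV ▸ (BDivV W' s' t' u').2) (eW ▸ (BDivW s' t' u').2))
  by_contra hlt
  simp only [not_le, max_lt_iff] at hlt
  obtain ⟨h₁, h₂, h₃⟩ := hlt
  have key : ∀ i, v ((![s', t', u'] i : O) : F) < 1 := by
    intro i
    have e := addSubMapCoeff_condition W' ![s', t', u'] i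
    have e₀ := congrFun (BDiv_eval W' s' t' u') 0
    have e₁ := congrFun (BDiv_eval W' s' t' u') 1
    have e₂ := congrFun (BDiv_eval W' s' t' u') 2
    simp only [Matrix.cons_val_zero, Matrix.cons_val_one, Matrix.cons_val] at e₀ e₁ e₂
    rw [Fin.sum_univ_three, e₀, e₁, e₂] at e
    generalize MvPolynomial.eval ![s', t', u'] (_ * addSubMapCoeff W' (i, 0)) = c₀ at e
    generalize MvPolynomial.eval ![s', t', u'] (_ * addSubMapCoeff W' (i, 1)) = c₁ at e
    generalize MvPolynomial.eval ![s', t', u'] (_ * addSubMapCoeff W' (i, 2)) = c₂ at e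
    have e' := congrArg (fun z : O => (z : F)) e
    simp only [Subring.coe_add, Subring.coe_mul, Subring.coe_pow, eU, eV, eW] at e'
    have m : ∀ (c : O) (z : F), v z < 1 → v (c * z) < 1 := fun c z hz => by
      rw [map_mul]
      exact lt_of_le_of_lt (mul_le_of_le_one_left (v.nonneg _) c.2) hz
    have : v ((![s', t', u'] i : O) : F) ^ 4 < 1 := by
      rw [← map_pow, ← e']
      exact (hv _ _).trans_lt (max_lt ((hv _ _).trans_lt (max_lt (m _ _ h₁) (m _ _ h₂))) (m _ _ h₃))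
    exact lt_of_pow_lt_pow_left₀ 4 zero_le_one (by simpa using this)
  have k₀ : v s < 1 := key 0
  have k₁ : v t < 1 := key 1
  have k₂ : v u < 1 := key 2
  exact absurd h (max_lt k₀ (max_lt k₁ k₂)).ne

lemma BDiv_ht (W : WeierstrassCurve F) (v : AbsoluteValue F ℝ) (hv : IsNonarchimedean v)
    (hI : Intg v W) (hΔ : v W.Δ = 1) (s t u : F) :
    max (v (BDivU W s t u)) (max (v (BDivV W s t u)) (v (BDivW s t u))) =
      max (v s) (max (v t) (v u)) ^ 2 := by
  obtain ⟨l, hl⟩ : ∃ l, max (v s) (max (v t) (v u)) = v l := by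
    rcases max_cases (v s) (max (v t) (v u)) with h | h
    · exact ⟨s, h.1⟩
    · rcases max_cases (v t) (v u) with h' | h'
      · exact ⟨t, h.1.trans h'.1⟩
      · exact ⟨u, h.1.trans h'.1⟩
  by_cases h0 : l = 0
  · subst h0
    rw [map_zero] at hl
    have hs : s = 0 := v.eq_zero.1 (le_antisymm ((le_max_left _ _).trans hl.le) (v.nonneg _))
    have ht : t = 0 := v.eq_zero.1 (le_antisymm
      (((le_max_left _ _).trans (le_max_right _ _)).trans hl.le) (v.nonneg _))
    have hu : u = 0 := v.eq_zero.1 (le_antisymm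
      (((le_max_right _ _).trans (le_max_right _ _)).trans hl.le) (v.nonneg _))
    simp [hs, ht, hu, BDivU, BDivV, BDivW]
  have hp : 0 < v l := v.pos h0
  obtain ⟨s, rfl⟩ : ∃ s', s = l * s' := ⟨s / l, by field_simp⟩
  obtain ⟨t, rfl⟩ : ∃ s', t = l * s' := ⟨t / l, by field_simp⟩
  obtain ⟨u, rfl⟩ : ∃ s', u = l * s' := ⟨u / l, by field_simp⟩
  have h1 : max (v s) (max (v t) (v u)) = 1 := by
    simp only [map_mul, ← mul_max_of_nonneg _ _ hp.le] at hl
    exact mul_left_cancel₀ hp.ne' (by rw [hl, mul_one])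
  have := BDiv_int W v hv hI hΔ h1
  have eU : BDivU W (l * s) (l * t) (l * u) = l ^ 2 * BDivU W s t u := by unfold BDivU; ring
  have eV : BDivV W (l * s) (l * t) (l * u) = l ^ 2 * BDivV W s t u := by unfold BDivV; ring
  have eW : BDivW (l * s) (l * t) (l * u) = l ^ 2 * BDivW s t u := by unfold BDivW; ring
  rw [hl, eU, eV, eW]
  simp only [map_mul, map_pow, ← mul_max_of_nonneg _ _ (pow_pos hp 2).le, this, mul_one]

lemma BDiv_gauss (v : AbsoluteValue F ℝ) (hv : IsNonarchimedean v) (a b a' b' : F) :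
    max (v (a * a')) (max (v (a * b' + a' * b)) (v (b * b'))) =
      max (v a) (v b) * max (v a') (v b') := by
  have n := v.nonneg
  apply le_antisymm
  · have m : ∀ {x y : ℝ}, 0 ≤ y → x ≤ max (v a) (v b) → y ≤ max (v a') (v b') →
        x * y ≤ max (v a) (v b) * max (v a') (v b') := fun hy h₁ h₂ =>
      mul_le_mul h₁ h₂ hy ((n a).trans (le_max_left _ _))
    refine max_le ?_ (max_le ((hv _ _).trans (max_le ?_ ?_)) ?_)
    · rw [map_mul]; exact m (n _) (le_max_left _ _) (le_max_left _ _)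
    · rw [map_mul]; exact m (n _) (le_max_left _ _) (le_max_right _ _)
    · rw [map_mul, mul_comm]; exact m (n _) (le_max_right _ _) (le_max_left _ _)
    · rw [map_mul]; exact m (n _) (le_max_right _ _) (le_max_right _ _)
  rcases lt_trichotomy (v a) (v b) with h | h | h
  · rcases le_or_gt (v a') (v b') with h' | h'
    · rw [max_eq_right h.le, max_eq_right h', ← map_mul]
      exact (le_max_right _ _).trans (le_max_right _ _)
    · rw [max_eq_right h.le, max_eq_left h'.le, ← map_mul, mul_comm b a',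
        ← IsNonarchimedean.add_eq_right_of_lt hv (x := a * b') (y := a' * b)
          (by rw [map_mul, map_mul, mul_comm (v a')]; exact mul_lt_mul'' h h' (n _) (n _))]
      exact (le_max_left _ _).trans (le_max_right _ _)
  · rcases le_total (v a') (v b') with h' | h'
    · rw [max_eq_right h.le, max_eq_right h', ← map_mul]
      exact (le_max_right _ _).trans (le_max_right _ _)
    · rw [max_eq_left h.ge, max_eq_left h', ← map_mul]
      exact le_max_left _ _
  · rcases le_or_gt (v b') (v a') with h' | h'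
    · rw [max_eq_left h.le, max_eq_left h', ← map_mul]
      exact le_max_left _ _
    · rw [max_eq_left h.le, max_eq_right h'.le, ← map_mul,
        ← IsNonarchimedean.add_eq_left_of_lt hv (x := a * b') (y := a' * b)
          (by rw [map_mul, map_mul, mul_comm (v a')]; exact mul_lt_mul'' h h' (n _) (n _))]
      exact (le_max_left _ _).trans (le_max_right _ _)

end aux

variable {F : Type} [Field F] [DecidableEq F] [IsAlgClosed F] [CharZero F]

/-- The pair (A, B) represents the x-coordinate of multiplication by n. -/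
def BDivPt (W : WeierstrassCurve F) (n : ℕ) (A B : F[X]) : Prop :=
  ∀ (x y : F) (h : W.toAffine.Nonsingular x y), ∃ c : F, c ≠ 0 ∧
    (n • Affine.Point.some x y h).xRep = c • ![A.eval x, B.eval x]

/-- The height identity. -/
def BDivHt (W : WeierstrassCurve F) (n : ℕ) (A B : F[X]) : Prop :=
  ∀ v : AbsoluteValue F ℝ, IsNonarchimedean v → Intg v W → v W.Δ = 1 → ∀ x : F,
    max (v (A.eval x)) (v (B.eval x)) = max 1 (v x) ^ (n ^ 2)

omit [DecidableEq F] [CharZero F] in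
lemma BDiv_ex (W : WeierstrassCurve F) [W.IsElliptic] (x : F) :
    ∃ y, W.toAffine.Nonsingular x y := by
  have hd : (X ^ 2 + C (W.a₁ * x + W.a₃) * X
      - C (x ^ 3 + W.a₂ * x ^ 2 + W.a₄ * x + W.a₆) : F[X]).degree = 2 := by
    compute_degree!
  obtain ⟨y, hy⟩ := IsAlgClosed.exists_root _ (hd ▸ two_ne_zero)
  refine ⟨y, Affine.equation_iff_nonsingular.1 ((Affine.equation_iff _ _).2 ?_)⟩
  simp only [IsRoot.def, eval_sub, eval_add, eval_mul, eval_pow, eval_X, eval_C] at hy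
  linear_combination hy

omit [IsAlgClosed F] [CharZero F] in
lemma BDiv_pt (W : WeierstrassCurve F) [W.IsElliptic] {n : ℕ} {A B A₁ B₁ : F[X]}
    (h₀ : BDivPt W n A B) (h₁ : BDivPt W (n + 1) A₁ B₁) (x y : F)
    (h : W.toAffine.Nonsingular x y) : ∃ e : F, e ≠ 0 ∧
      BDivU W (A₁.eval x * x) (A₁.eval x + x * B₁.eval x) (B₁.eval x) =
        e * (A.eval x * ((n + 2) • Affine.Point.some x y h).xRep 0) ∧
      BDivV W (A₁.eval x * x) (A₁.eval x + x * B₁.eval x) (B₁.eval x) =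
        e * (A.eval x * ((n + 2) • Affine.Point.some x y h).xRep 1 +
          ((n + 2) • Affine.Point.some x y h).xRep 0 * B.eval x) ∧
      BDivW (A₁.eval x * x) (A₁.eval x + x * B₁.eval x) (B₁.eval x) =
        e * (B.eval x * ((n + 2) • Affine.Point.some x y h).xRep 1) := by
  obtain ⟨c₀, hc₀, e₀⟩ := h₀ x y h
  obtain ⟨c₁, hc₁, e₁⟩ := h₁ x y h
  obtain ⟨c, hc, e⟩ := addSub ((n + 1) • Affine.Point.some x y h) (Affine.Point.some x y h)
  have a₁ : (n + 1) • Affine.Point.some x y h + Affine.Point.some x y h =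
      (n + 2) • Affine.Point.some x y h := (succ_nsmul _ _).symm
  have a₂ : (n + 1) • Affine.Point.some x y h - Affine.Point.some x y h =
      n • Affine.Point.some x y h := by rw [succ_nsmul, add_sub_cancel_right]
  rw [a₁, a₂] at e
  simp only [Affine.Point.sym2x, e₀, e₁] at e
  rw [BDiv_eval] at e
  generalize ((n + 2) • Affine.Point.some x y h).xRep = r at *
  have f₀ := congrFun e 0
  have f₁ := congrFun e 1
  have f₂ := congrFun e 2
  simp [BDivU, BDivV, BDivW] at f₀ f₁ f₂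
  refine ⟨c * c₀ / c₁ ^ 2, by positivity, ?_, ?_, ?_⟩
  · unfold BDivU; field_simp; linear_combination f₀
  · unfold BDivV; field_simp; linear_combination f₁
  · unfold BDivW; field_simp; linear_combination f₂

omit [DecidableEq F] [IsAlgClosed F] [CharZero F] in
lemma BDiv_evU (W : WeierstrassCurve F) (s t u : F[X]) (x : F) :
    (BDivU (W.map C) s t u).eval x = BDivU W (s.eval x) (t.eval x) (u.eval x) := by
  simp [BDivU]

omit [DecidableEq F] [IsAlgClosed F] [CharZero F] in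
lemma BDiv_evV (W : WeierstrassCurve F) (s t u : F[X]) (x : F) :
    (BDivV (W.map C) s t u).eval x = BDivV W (s.eval x) (t.eval x) (u.eval x) := by
  simp [BDivV]

omit [DecidableEq F] [IsAlgClosed F] [CharZero F] in
lemma BDiv_evW (s t u : F[X]) (x : F) :
    (BDivW s t u).eval x = BDivW (s.eval x) (t.eval x) (u.eval x) := by
  simp [BDivW]

omit [IsAlgClosed F] [CharZero F] in
lemma BDiv_ne {W : WeierstrassCurve F} {n : ℕ} {A B : F[X]} (h₀ : BDivPt W n A B) {x y : F}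
    (h : W.toAffine.Nonsingular x y) : A.eval x ≠ 0 ∨ B.eval x ≠ 0 := by
  obtain ⟨c₀, -, e₀⟩ := h₀ x y h
  by_contra hn
  simp only [not_or, not_not] at hn
  refine Affine.Point.xRep_ne_zero (n • Affine.Point.some x y h) ?_
  rw [e₀, hn.1, hn.2]
  ext i; fin_cases i <;> simp

omit [IsAlgClosed F] [CharZero F] in
lemma BDiv_core (W : WeierstrassCurve F) [W.IsElliptic] {n : ℕ} {A B A₁ B₁ A' B' : F[X]}
    (h₀ : BDivPt W n A B) (h₁ : BDivPt W (n + 1) A₁ B₁) (k₀ : BDivHt W n A B)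
    (k₁ : BDivHt W (n + 1) A₁ B₁)
    (hU : A * A' = BDivU (W.map C) (A₁ * X) (A₁ + X * B₁) B₁)
    (hV : A * B' + A' * B = BDivV (W.map C) (A₁ * X) (A₁ + X * B₁) B₁)
    (hW : B * B' = BDivW (A₁ * X) (A₁ + X * B₁) B₁) :
    BDivPt W (n + 2) A' B' ∧ BDivHt W (n + 2) A' B' := by
  have eU := fun x => congrArg (eval x) hU
  have eV := fun x => congrArg (eval x) hV
  have eW := fun x => congrArg (eval x) hW
  simp only [BDiv_evU, BDiv_evV, BDiv_evW, eval_add, eval_mul, eval_X] at eU eV eW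
  constructor
  · intro x y h
    obtain ⟨e, he, f₀, f₁, f₂⟩ := BDiv_pt W h₀ h₁ x y h
    rw [← eU] at f₀
    rw [← eV] at f₁
    rw [← eW] at f₂
    generalize ((n + 2) • Affine.Point.some x y h).xRep = r at *
    have : A'.eval x = e * r 0 ∧ B'.eval x = e * r 1 := by
      rcases BDiv_ne h₀ h with hA | hB
      · have g : A'.eval x = e * r 0 := mul_left_cancel₀ hA (by linear_combination f₀)
        exact ⟨g, mul_left_cancel₀ hA (by linear_combination f₁ - B.eval x * g)⟩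
      · have g : B'.eval x = e * r 1 := mul_left_cancel₀ hB (by linear_combination f₂)
        exact ⟨mul_left_cancel₀ hB (by linear_combination f₁ - A.eval x * g), g⟩
    refine ⟨e⁻¹, inv_ne_zero he, ?_⟩
    rw [this.1, this.2]
    ext i; fin_cases i <;> simp [he]
  · intro v hv hI hΔ x
    have g₁ := BDiv_ht W v hv hI hΔ (A₁.eval x * x) (A₁.eval x + x * B₁.eval x) (B₁.eval x)
    have g₂ := BDiv_gauss v hv (A₁.eval x) (B₁.eval x) x 1
    rw [mul_one, mul_one, map_one, k₁ v hv hI hΔ x, max_comm (v x)] at g₂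
    rw [g₂, ← eU, ← eV, ← eW, BDiv_gauss v hv, k₀ v hv hI hΔ x] at g₁
    have hp : (0 : ℝ) < max 1 (v x) := lt_max_of_lt_left one_pos
    refine mul_left_cancel₀ (pow_pos hp (n ^ 2)).ne' ?_
    rw [g₁]
    ring

omit [CharZero F] in
lemma BDiv_split (W : WeierstrassCurve F) [W.IsElliptic] {n : ℕ} {A B A₁ B₁ : F[X]}
    (h₀ : BDivPt W n A B) (h₁ : BDivPt W (n + 1) A₁ B₁) (hA : A ≠ 0) (hB : B ≠ 0) :
    ∃ A' B', A * A' = BDivU (W.map C) (A₁ * X) (A₁ + X * B₁) B₁ ∧
      A * B' + A' * B = BDivV (W.map C) (A₁ * X) (A₁ + X * B₁) B₁ ∧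
      B * B' = BDivW (A₁ * X) (A₁ + X * B₁) B₁ := by
  have hid : BDivW (A₁ * X) (A₁ + X * B₁) B₁ * A ^ 2
      - BDivV (W.map C) (A₁ * X) (A₁ + X * B₁) B₁ * A * B
      + BDivU (W.map C) (A₁ * X) (A₁ + X * B₁) B₁ * B ^ 2 = 0 := by
    apply Polynomial.funext
    intro x
    obtain ⟨y, h⟩ := BDiv_ex W x
    obtain ⟨e, -, f₀, f₁, f₂⟩ := BDiv_pt W h₀ h₁ x y h
    simp only [BDiv_evU, BDiv_evV, BDiv_evW, eval_add, eval_sub, eval_mul, eval_pow, eval_X,
      eval_zero, f₀, f₁, f₂]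
    ring
  have hco : IsCoprime A B := (Polynomial.isCoprime_iff_aeval_ne_zero_of_isAlgClosed F F A B).2
    fun x => by
      obtain ⟨y, h⟩ := BDiv_ex W x
      simpa using BDiv_ne h₀ h
  generalize BDivW (A₁ * X) (A₁ + X * B₁) B₁ = w at *
  generalize BDivV (W.map C) (A₁ * X) (A₁ + X * B₁) B₁ = V at *
  generalize BDivU (W.map C) (A₁ * X) (A₁ + X * B₁) B₁ = U at *
  obtain ⟨A', rfl⟩ : A ∣ U := (hco.pow_right (n := 2)).dvd_of_dvd_mul_right
    ⟨V * B - w * A, by linear_combination hid⟩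
  obtain ⟨B', rfl⟩ : B ∣ w := (hco.symm.pow_right (n := 2)).dvd_of_dvd_mul_right
    ⟨V * A - A * A' * B, by linear_combination hid⟩
  exact ⟨A', B', rfl, mul_left_cancel₀ (mul_ne_zero hA hB) (by linear_combination hid), rfl⟩

/-- The full invariant. -/
def BDivInv (W : WeierstrassCurve F) (n : ℕ) (A B : F[X]) : Prop :=
  A.Monic ∧ A.natDegree = n ^ 2 ∧ B.natDegree = n ^ 2 - 1 ∧ B.leadingCoeff = (n : F) ^ 2 ∧
    (Odd n → IsSquare B) ∧ BDivPt W n A B ∧ BDivHt W n A B

omit [IsAlgClosed F] [CharZero F] in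
lemma BDiv_one (W : WeierstrassCurve F) : BDivInv W 1 X 1 := by
  refine ⟨monic_X, by simp, by simp, by simp, fun _ => IsSquare.one, fun x y h => ⟨1, one_ne_zero,
    by simp⟩, fun v _ _ _ x => by simp [max_comm]⟩

omit [IsAlgClosed F] in
lemma BDiv_two (W : WeierstrassCurve F) [W.IsElliptic] : ∃ A B, BDivInv W 2 A B := by
  have h := BDiv_one W
  have := BDiv_core W (n := 0) (A := 1) (B := 0) (A₁ := X) (B₁ := 1)
    (A' := X ^ 4 - C W.b₄ * X ^ 2 - C (2 * W.b₆) * X - C W.b₈)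
    (B' := C 4 * X ^ 3 + C W.b₂ * X ^ 2 + C (2 * W.b₄) * X + C W.b₆)
    (fun x y h => ⟨1, one_ne_zero, by simp⟩) h.2.2.2.2.2.1 (fun v _ _ _ x => by simp)
    h.2.2.2.2.2.2 (by simp [BDivU, map_ofNat]; ring) (by simp [BDivV, map_ofNat]; ring)
    (by simp [BDivW]; ring)
  refine ⟨_, _, ?_, ?_, ?_, ?_, fun h => absurd h (by decide), this⟩
  · monicity!
  · compute_degree!
  · compute_degree!
  · have : (C 4 * X ^ 3 + C W.b₂ * X ^ 2 + C (2 * W.b₄) * X + C W.b₆ : F[X]).natDegree = 3 := by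
      compute_degree!
    rw [leadingCoeff, this]
    simp
    norm_num

lemma BDiv_step (W : WeierstrassCurve F) [W.IsElliptic] {n : ℕ} (hn : 0 < n) {A B A₁ B₁ : F[X]}
    (h₀ : BDivInv W n A B) (h₁ : BDivInv W (n + 1) A₁ B₁) : ∃ A' B', BDivInv W (n + 2) A' B' := by
  obtain ⟨a₁, a₂, a₃, a₄, a₅, a₆, a₇⟩ := h₀
  obtain ⟨b₁, b₂, b₃, b₄, -, b₆, b₇⟩ := h₁
  have hn' : (n : F) ≠ 0 := Nat.cast_ne_zero.2 hn.ne'
  have hn₂ : (n : F) + 2 ≠ 0 := by exact_mod_cast (by omega : n + 2 ≠ 0)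
  have hB : B ≠ 0 := leadingCoeff_ne_zero.1 (a₄ ▸ pow_ne_zero 2 hn')
  obtain ⟨A', B', hU, hV, hW⟩ := BDiv_split W a₆ b₆ a₁.ne_zero hB
  obtain ⟨m, hm⟩ : ∃ m, (n + 1) ^ 2 = m + 1 := ⟨n ^ 2 + 2 * n, by ring⟩
  rw [hm] at b₂ b₃
  rw [Nat.add_sub_cancel] at b₃
  have hs : (A₁ * X).Monic := b₁.mul monic_X
  have ds : (A₁ * X).natDegree = m + 2 := by rw [natDegree_mul_X b₁.ne_zero, b₂]
  have dX : (X * B₁).natDegree ≤ m + 1 :=
    natDegree_mul_le.trans (by rw [natDegree_X, b₃]; omega)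
  have dt : (A₁ + X * B₁).natDegree ≤ m + 1 :=
    (natDegree_add_le _ _).trans (max_le b₂.le dX)
  have dr : (C W.b₄ * (A₁ * X) * B₁ + C W.b₆ * (A₁ + X * B₁) * B₁ + C W.b₈ * B₁ ^ 2).natDegree
      ≤ 2 * m + 2 := by
    refine (natDegree_add_le _ _).trans (max_le ((natDegree_add_le _ _).trans (max_le ?_ ?_)) ?_)
    · refine natDegree_mul_le.trans ?_
      have := natDegree_C_mul_le W.b₄ (A₁ * X)
      omega
    · refine natDegree_mul_le.trans ?_
      have := natDegree_C_mul_le W.b₆ (A₁ + X * B₁)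
      omega
    · refine (natDegree_C_mul_le _ _).trans (natDegree_pow_le.trans ?_)
      omega
  have d2 : ((A₁ * X) ^ 2).natDegree = 2 * m + 4 := by rw [hs.natDegree_pow, ds]; ring
  have eU : A * A' = (A₁ * X) ^ 2 -
      (C W.b₄ * (A₁ * X) * B₁ + C W.b₆ * (A₁ + X * B₁) * B₁ + C W.b₈ * B₁ ^ 2) := by
    rw [hU]; simp only [BDivU, map_b₄, map_b₆, map_b₈]; ring
  have mU : (A * A').Monic := by
    rw [eU]
    exact (hs.pow 2).sub_of_left (degree_lt_degree (by omega))
  have dU : (A * A').natDegree = 2 * m + 4 := by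
    rw [eU, natDegree_sub_eq_left_of_natDegree_lt (by omega), d2]
  have mA' : A'.Monic := a₁.of_mul_monic_left mU
  rw [a₁.natDegree_mul mA', a₂] at dU
  have eW : B * B' = (A₁ - X * B₁) ^ 2 := by rw [hW, BDivW]; ring
  have cD : (A₁ - X * B₁).coeff (m + 1) = -((n : F) * (n + 2)) := by
    rw [coeff_sub, coeff_X_mul, ← b₂, b₁.coeff_natDegree, ← b₃, coeff_natDegree, b₄]
    push_cast; ring
  have cD0 : (A₁ - X * B₁).coeff (m + 1) ≠ 0 := cD ▸ neg_ne_zero.2 (mul_ne_zero hn' hn₂)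
  have dD : (A₁ - X * B₁).natDegree = m + 1 :=
    natDegree_eq_of_le_of_coeff_ne_zero ((natDegree_sub_le _ _).trans (max_le b₂.le dX)) cD0
  have lD : (A₁ - X * B₁).leadingCoeff = -((n : F) * (n + 2)) := by rw [leadingCoeff, dD, cD]
  have lB : B'.leadingCoeff = ((n : F) + 2) ^ 2 := by
    have := congrArg leadingCoeff eW
    rw [leadingCoeff_mul, leadingCoeff_pow, a₄, lD] at this
    exact mul_left_cancel₀ (pow_ne_zero 2 hn') (by linear_combination this)
  have hB' : B' ≠ 0 := leadingCoeff_ne_zero.1 (lB ▸ pow_ne_zero 2 hn₂)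
  have dB := congrArg natDegree eW
  rw [natDegree_mul hB hB', natDegree_pow, a₃, dD] at dB
  have p₁ : 1 ≤ n ^ 2 := Nat.one_le_pow _ _ hn
  have q₁ : (n + 1) ^ 2 = n ^ 2 + 2 * n + 1 := by ring
  have q₂ : (n + 2) ^ 2 = n ^ 2 + 4 * n + 4 := by ring
  refine ⟨A', B', mA', by omega, by omega, by rw [lB]; push_cast; rfl, fun ho => ?_,
    BDiv_core W a₆ b₆ a₇ b₇ hU hV hW⟩
  obtain ⟨D, hD⟩ := a₅ ((Nat.odd_add.1 ho).2 even_two)
  obtain ⟨E, hE⟩ : D ∣ A₁ - X * B₁ := (IsIntegrallyClosed.pow_dvd_pow_iff two_ne_zero).1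
    ⟨B', by rw [← eW, hD]; ring⟩
  exact ⟨E, mul_left_cancel₀ hB (by rw [eW, hE, hD]; ring)⟩

theorem div_poly (W : WeierstrassCurve F) [W.IsElliptic] (n : ℕ) (hn : 0 < n) :
    ∃ A B : F[X], A.Monic ∧ A.natDegree = n ^ 2 ∧ B.natDegree = n ^ 2 - 1 ∧
      B.leadingCoeff = (n : F) ^ 2 ∧ (Odd n → IsSquare B) ∧
      (∀ (x y : F) (h : W.toAffine.Nonsingular x y), ∃ c : F, c ≠ 0 ∧
        (n • Affine.Point.some x y h).xRep = c • ![A.eval x, B.eval x]) ∧
      ∀ v : AbsoluteValue F ℝ, IsNonarchimedean v → Intg v W → v W.Δ = 1 → ∀ x : F,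
        max (v (A.eval x)) (v (B.eval x)) = max 1 (v x) ^ (n ^ 2) := by
  have key : ∀ k : ℕ, (∃ A B, BDivInv W (k + 1) A B) ∧ ∃ A B, BDivInv W (k + 2) A B := by
    intro k
    induction k with
    | zero => exact ⟨⟨_, _, BDiv_one W⟩, BDiv_two W⟩
    | succ k ih =>
      obtain ⟨⟨A, B, h₀⟩, A₁, B₁, h₁⟩ := ih
      exact ⟨⟨A₁, B₁, h₁⟩, BDiv_step W k.succ_pos h₀ h₁⟩
  obtain ⟨k, rfl⟩ : ∃ k, n = k + 1 := ⟨n - 1, by omega⟩
  exact (key k).1

end Pool.Agent.MP_e23604_nt.B
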