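import Pool.Agent.MP_e23604_nt.BDefs
import Pool.Agent.MP_e23604_nt.BVC

/-!
Sanity check: the curves y^2 = x^3 + a x satisfy HasCM.
-/

open WeierstrassCurve Polynomial
open scoped Classical

namespace Pool.Agent.MP_e23604_nt.B

theorem hasCM_1728 (a : ℚ) : HasCM ⟨0, 0, 0, a, 0⟩ 0 1 := by
  obtain ⟨i, hi⟩ := IsAlgClosed.exists_pow_nat_eq (-1 : Qb) two_pos
  have i0 : i ≠ 0 := fun e => by simp [e] at hi
  obtain ⟨Ψ, hΨ⟩ := vc_equiv ((⟨0, 0, 0, a, 0⟩ : WeierstrassCurve ℚ).baseChange Qb)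
    ((⟨0, 0, 0, a, 0⟩ : WeierstrassCurve ℚ).baseChange Qb) ⟨Units.mk0 i i0, 0, 0, 0⟩ (by
      have : i⁻¹ ^ 4 = 1 := by
        rw [inv_pow, show 4 = 2 * 2 from rfl, pow_mul, hi]
        norm_num
      ext <;> simp [variableChange_def, this])
  have h3 : i ^ 3 = -i := by linear_combination i * hi
  have key : ∀ x y h, ∃ h', Ψ (.some x y h) = .some (-x) (i * y) h' := fun x y h => by
    obtain ⟨h', e⟩ := hΨ x y h
    have e1 : (x - 0) / i ^ 2 = -x := by rw [hi]; ring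
    have e2 : (y - 0 * (x - 0) - 0) / i ^ 3 = i * y := by
      rw [h3]
      field_simp
      linear_combination (-y) * hi
    exact ⟨by rw [← e1, ← e2]; exact h', e.trans ((Affine.Point.some.injEq ..).mpr ⟨e1, e2⟩)⟩
  refine ⟨by norm_num, Ψ.toAddMonoidHom, fun P => ?_, -X, C i, 0, 1, one_ne_zero,
    C_ne_zero.2 i0, by simp, by simp, by simp, fun x y h _ => ?_⟩
  · rw [zero_smul, sub_zero, one_smul, add_eq_zero_iff_eq_neg]
    rcases P with _ | ⟨x, y, h⟩
    · exact (congrArg Ψ (map_zero Ψ)).trans (map_zero Ψ)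
    · obtain ⟨h1, e1⟩ := key x y h
      obtain ⟨h2, e2⟩ := key _ _ h1
      refine ((congrArg Ψ e1).trans e2).trans ((Affine.Point.some.injEq ..).mpr ⟨neg_neg x, ?_⟩)
      simp [Affine.negY, baseChange]
      linear_combination y * hi
  · simpa using key x y h

end Pool.Agent.MP_e23604_nt.B
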