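import Pool.Agent.MP_e23604_nt.BBase

/-!
Hilbert 90 for roots of unity, and the field cut out by a character.
-/

open scoped Classical

namespace Pool.Agent.MP_e23604_nt.B

section

variable {k L : Type} [Field k] [Field L] [Algebra k L] [IsGalois k L]

theorem h90n {n : ℕ} (hn : 0 < n) (U : Subgroup (L ≃ₐ[k] L)) (c : (L ≃ₐ[k] L) → L) (hc3 : ∀ σ ∈ U, c σ ^ n = 1)
    (hmul : ∀ σ ∈ U, ∀ τ ∈ U, c (σ * τ) = c σ * σ (c τ))
    (hopen : IsOpen {σ | σ ∈ U ∧ c σ = 1}) : ∃ δ : L, δ ≠ 0 ∧ ∀ σ ∈ U, σ δ = c σ * δ := by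
  have c0 : ∀ σ ∈ U, c σ ≠ 0 := fun σ hσ e => by simpa [e, hn.ne'] using hc3 σ hσ
  have c1 : c 1 = 1 := by
    have := hmul 1 U.one_mem 1 U.one_mem
    simp only [mul_one, AlgEquiv.one_apply] at this
    exact (mul_eq_left₀ (c0 1 U.one_mem)).1 this.symm
  have ceq : ∀ σ ∈ U, ∀ τ ∈ U, c σ = c τ → c (τ⁻¹ * σ) = 1 := by
    intro σ hσ τ hτ e
    have := hmul τ hτ _ (U.mul_mem (U.inv_mem hτ) hσ)
    rw [mul_inv_cancel_left, e] at this
    have h2 : τ (c (τ⁻¹ * σ)) = τ 1 := by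
      rw [map_one]; exact (mul_eq_left₀ (c0 τ hτ)).1 this.symm
    exact τ.injective h2
  let H : Subgroup (L ≃ₐ[k] L) :=
    { carrier := {σ | σ ∈ U ∧ c σ = 1}
      one_mem' := ⟨U.one_mem, c1⟩
      mul_mem' := by
        rintro σ τ ⟨h1, h2⟩ ⟨h3, h4⟩
        exact ⟨U.mul_mem h1 h3, by rw [hmul σ h1 τ h3, h2, h4]; simp⟩
      inv_mem' := by
        rintro σ ⟨h1, h2⟩
        exact ⟨U.inv_mem h1, by simpa using ceq 1 U.one_mem σ h1 (c1.trans h2.symm)⟩ }
  have hH : (IntermediateField.fixedField H).fixingSubgroup = H :=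
    InfiniteGalois.fixingSubgroup_fixedField ⟨H, H.isClosed_of_isOpen hopen⟩
  set A := IntermediateField.fixedField H with hA
  let I : Set L := c '' U
  have hI : I.Finite := by
    refine (Polynomial.nthRootsFinset n (1 : L)).finite_toSet.subset ?_
    rintro _ ⟨σ, hσ, rfl⟩
    simpa [Polynomial.mem_nthRootsFinset hn] using hc3 σ hσ
  have : Fintype I := hI.fintype
  choose s hs hcs using fun z : I => z.2
  have agree : ∀ σ ∈ U, ∀ τ ∈ U, c σ = c τ → ∀ η : A, σ η = τ η := by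
    intro σ hσ τ hτ e η
    have hm : τ⁻¹ * σ ∈ H := ⟨U.mul_mem (U.inv_mem hτ) hσ, ceq σ hσ τ hτ e⟩
    have := (IntermediateField.mem_fixedField_iff H η.1).1 η.2 _ hm
    nth_rewrite 2 [← this]
    rw [← AlgEquiv.mul_apply, mul_inv_cancel_left]
  let f : I → (A →* L) := fun z => ((s z : L →ₐ[k] L).comp A.val : A →ₐ[k] L)
  have finj : Function.Injective f := by
    intro z z' e
    have hm : (s z')⁻¹ * s z ∈ A.fixingSubgroup := by
      rw [IntermediateField.mem_fixingSubgroup_iff]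
      intro x hx
      have := DFunLike.congr_fun e ⟨x, hx⟩
      have h2 : s z x = s z' x := this
      rw [AlgEquiv.mul_apply, h2, ← AlgEquiv.mul_apply, inv_mul_cancel, AlgEquiv.one_apply]
    rw [hH] at hm
    have := hmul _ (hs z') _ hm.1
    rw [mul_inv_cancel_left, hm.2, map_one, mul_one, hcs, hcs] at this
    exact Subtype.ext this
  have li := (linearIndependent_monoidHom A L).comp f finj
  rw [Fintype.linearIndependent_iff] at li
  have z0 : ∀ z : I, (z : L) ≠ 0 := fun z => hcs z ▸ c0 _ (hs z)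
  obtain ⟨η, hη⟩ : ∃ η : A, ∑ z : I, (z : L)⁻¹ * s z η ≠ 0 := by
    by_contra hcon
    push Not at hcon
    have := li (fun z => (z : L)⁻¹) (by
      ext η
      simpa [f] using hcon η) ⟨c 1, 1, U.one_mem, rfl⟩
    exact inv_ne_zero (z0 _) this
  refine ⟨_, hη, fun σ hσ => ?_⟩
  let π : I → I := fun z => ⟨c (σ * s z), _, U.mul_mem hσ (hs z), rfl⟩
  have πv : ∀ z, (π z : L) = c σ * σ z := fun z => by
    change c (σ * s z) = _
    rw [hmul σ hσ _ (hs z), hcs]
  have πinj : Function.Injective π := by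
    intro z z' e
    have := congrArg Subtype.val e
    rw [πv, πv] at this
    exact Subtype.ext (σ.injective (mul_left_cancel₀ (c0 σ hσ) this))
  rw [map_sum, Finset.mul_sum]
  refine Fintype.sum_bijective π (Finite.injective_iff_bijective.1 πinj) _ _ fun z => ?_
  rw [map_mul, map_inv₀, πv, ← AlgEquiv.mul_apply,
    agree _ (U.mul_mem hσ (hs z)) _ (hs (π z)) (hcs (π z)).symm]
  have := c0 σ hσ
  field_simp

end

theorem char_field {U H : Subgroup GQ} (hHU : H ≤ U) (hU : U.index = 2) (hH : IsOpen (H : Set GQ))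
    (hn : ∀ σ ∈ U, ∀ h ∈ H, σ⁻¹ * h * σ ∈ H) {g : GQ} (hgU : g ∈ U) {n : ℕ}
    (hg : ∀ m : ℕ, g ^ m ∈ H ↔ n ∣ m) (hgen : ∀ σ ∈ U, ∃ m : ℕ, (g ^ m)⁻¹ * σ ∈ H)
    (hn0 : n ≠ 0) :
    FiniteDimensional ℚ (IntermediateField.fixedField H) ∧
      Module.finrank ℚ (IntermediateField.fixedField H) = 2 * n ∧
      (∀ σ : GQ, (∀ x ∈ IntermediateField.fixedField H, σ x = x) → σ ∈ H) ∧
      ∃ gb : IntermediateField.fixedField H ≃ₐ[ℚ] IntermediateField.fixedField H,
        (∀ (m : ℕ) (x : IntermediateField.fixedField H), ((gb ^ m) x : Qb) = (g ^ m) (x : Qb)) ∧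
          orderOf gb = n := by
  have hfix : (IntermediateField.fixedField H).fixingSubgroup = H :=
    InfiniteGalois.fixingSubgroup_fixedField ⟨H, H.isClosed_of_isOpen hH⟩
  set L := IntermediateField.fixedField H with hL
  have hfix' : ∀ σ : GQ, (∀ x ∈ L, σ x = x) → σ ∈ H := fun σ h => by
    rw [← hfix]; exact (IntermediateField.mem_fixingSubgroup_iff _ _).2 h
  have hnorm : (H.subgroupOf U).Normal := by
    refine ⟨fun h hh σ => ?_⟩
    rw [Subgroup.mem_subgroupOf] at hh ⊢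
    simpa using hn _ (U.inv_mem σ.2) _ hh
  have hord : orderOf (QuotientGroup.mk ⟨g, hgU⟩ : U ⧸ H.subgroupOf U) = n := by
    refine Nat.dvd_antisymm (orderOf_dvd_of_pow_eq_one ?_) ?_
    · rw [← QuotientGroup.mk_pow, QuotientGroup.eq_one_iff, Subgroup.mem_subgroupOf]
      exact (hg n).2 dvd_rfl
    · have := pow_orderOf_eq_one (QuotientGroup.mk ⟨g, hgU⟩ : U ⧸ H.subgroupOf U)
      rw [← QuotientGroup.mk_pow, QuotientGroup.eq_one_iff, Subgroup.mem_subgroupOf] at this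
      exact (hg _).1 this
  have hrel : H.relIndex U = n := by
    rw [← hord]
    refine (orderOf_eq_card_of_forall_mem_zpowers fun x => ?_).symm
    obtain ⟨σ, rfl⟩ := QuotientGroup.mk_surjective x
    obtain ⟨m, hm⟩ := hgen σ σ.2
    refine ⟨m, ?_⟩
    simp only [zpow_natCast]
    rw [← QuotientGroup.mk_pow, QuotientGroup.eq, Subgroup.mem_subgroupOf]
    exact hm
  have hind : H.index = 2 * n := by
    rw [← Subgroup.relIndex_mul_index hHU, hrel, hU, mul_comm]
  have hrank : Module.finrank ℚ L = 2 * n := by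
    rw [IntermediateField.finrank_eq_fixingSubgroup_index, hfix, hind]
  have hfd : FiniteDimensional ℚ L := Module.finite_of_finrank_pos (by omega)
  have hmap : ∀ σ ∈ U, ∀ x ∈ L, σ x ∈ L := fun σ hσ x hx => by
    rw [IntermediateField.mem_fixedField_iff] at hx ⊢
    intro h hh
    have := hx _ (hn σ hσ h hh)
    nth_rewrite 2 [← this]
    rw [← AlgEquiv.mul_apply, ← AlgEquiv.mul_apply, ← mul_assoc, mul_inv_cancel_left]
  let f : L →ₐ[ℚ] L := ((g : Qb →ₐ[ℚ] Qb).comp L.val).codRestrict L.toSubalgebra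
    fun x => hmap g hgU x x.2
  let gb : L ≃ₐ[ℚ] L := AlgEquiv.ofBijective f (Algebra.IsAlgebraic.algHom_bijective f)
  have hgb : ∀ (m : ℕ) (x : L), ((gb ^ m) x : Qb) = (g ^ m) (x : Qb) := by
    intro m
    induction m with
    | zero => intro x; rfl
    | succ m ih => intro x; rw [pow_succ, pow_succ, AlgEquiv.mul_apply, AlgEquiv.mul_apply, ih]; rfl
  have hiff : ∀ m : ℕ, gb ^ m = 1 ↔ n ∣ m := fun m => by
    rw [← hg]
    constructor
    · intro h
      refine hfix' _ fun x hx => ?_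
      rw [← hgb m ⟨x, hx⟩, h]; rfl
    · intro h
      ext x
      rw [hgb]
      exact (IntermediateField.mem_fixedField_iff H x.1).1 x.2 _ h
  refine ⟨hfd, hrank, hfix', gb, hgb, Nat.dvd_antisymm (orderOf_dvd_of_pow_eq_one ?_) ?_⟩
  · exact (hiff n).2 dvd_rfl
  · exact (hiff _).1 (pow_orderOf_eq_one gb)

end Pool.Agent.MP_e23604_nt.B
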