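import Pool.Agent.MP_e23604_nt.BValA

/-!
Global inertia elements come from the local Galois group.
-/

open NumberField

namespace Pool.Agent.MP_e23604_nt.B

open Polynomial

theorem BLift_fix (q : ℕ) [Fact q.Prime] {τ : GQ} (hτ : Inr (nv q 1) τ) {c : Qb} {a : ℚ_[q]}
    (h : emb ℚ_[q] c = algebraMap ℚ_[q] (PadicAlgCl q) a) : τ c = c := by
  have key : ∀ ε : ℝ, 0 < ε → nv q 1 (τ c - c) < ε := by
    intro ε hε
    obtain ⟨r, hr⟩ := Padic.rat_dense q a hε
    have h1 : nv q 1 (c - r) < ε := by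
      rw [nv_apply, AlgEquiv.one_apply, map_sub, h, map_ratCast,
        ← map_ratCast (algebraMap ℚ_[q] (PadicAlgCl q)), ← map_sub, norm_algebraMap']
      exact hr
    have h2 : nv q 1 (τ c - r) < ε := by
      have := Inr_eq (nv_na q 1) hτ (c - r)
      rw [map_sub, map_ratCast] at this
      rwa [this]
    have e : τ c - c = (τ c - r) + -(c - r) := by ring
    rw [e]
    refine (nv_na q 1 _ _).trans_lt (max_lt h2 ?_)
    rwa [AbsoluteValue.map_neg]
  have h0 : nv q 1 (τ c - c) = 0 := by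
    by_contra hc
    exact lt_irrefl _ (key _ (lt_of_le_of_ne ((nv q 1).nonneg _) (Ne.symm hc)))
  exact sub_eq_zero.1 ((nv q 1).eq_zero.1 h0)

theorem BLift_root (q : ℕ) [Fact q.Prime] {g : ℚ[X]} (hg : g ≠ 0) {b : PadicAlgCl q}
    (hb : aeval b g = 0) : b ∈ (emb ℚ_[q]).range := by
  have h1 : (g.map (algebraMap ℚ Qb)).Splits := IsAlgClosed.splits _
  refine h1.mem_range_of_isRoot (Polynomial.map_ne_zero hg) ?_
  rw [Polynomial.map_map, IsRoot.def, eval_map,
    Subsingleton.elim ((emb ℚ_[q]).comp (algebraMap ℚ Qb)) (algebraMap ℚ (PadicAlgCl q))]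
  exact hb

theorem BLift_conj (q : ℕ) [Fact q.Prime] {τ : GQ} (hτ : Inr (nv q 1) τ) (x : Qb) :
    ∃ σ : PadicAlgCl q ≃ₐ[ℚ_[q]] PadicAlgCl q, σ (emb ℚ_[q] x) = emb ℚ_[q] (τ x) := by
  have halg : IsAlgebraic ℚ_[q] (emb ℚ_[q] x) := Algebra.IsAlgebraic.isAlgebraic _
  have hx : IsIntegral ℚ x := Algebra.IsIntegral.isIntegral x
  refine minpoly.exists_algEquiv_of_root' halg ?_
  set m := minpoly ℚ_[q] (emb ℚ_[q] x) with hm
  have hmon : m.Monic := minpoly.monic halg.isIntegral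
  have hdvd : m ∣ (minpoly ℚ x).map (algebraMap ℚ ℚ_[q]) := by
    refine minpoly.dvd _ _ ?_
    rw [aeval_map_algebraMap]
    have := aeval_algHom_apply (emb ℚ_[q]).toRatAlgHom x (minpoly ℚ x)
    rw [minpoly.aeval, map_zero] at this
    exact this
  have hl : m.map (algebraMap ℚ_[q] (PadicAlgCl q)) ∈ lifts (emb ℚ_[q]) := by
    refine (IsAlgClosed.splits _).mem_lift_of_roots_mem_range (hmon.map _) _ fun a ha => ?_
    refine BLift_root q (minpoly.ne_zero hx) ?_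
    have h1 : aeval a m = 0 := by
      rw [aeval_def, ← eval_map]
      exact (mem_roots'.1 ha).2
    rw [← aeval_map_algebraMap ℚ_[q]]
    exact aeval_eq_zero_of_dvd_aeval_eq_zero hdvd h1
  obtain ⟨m0, h0⟩ := (mem_lifts _).1 hl
  have hfix : m0.map (τ : Qb →+* Qb) = m0 := by
    ext i
    rw [coeff_map]
    refine BLift_fix q hτ (a := m.coeff i) ?_
    rw [← coeff_map, h0, coeff_map]
  have ev : ∀ z : Qb, aeval (emb ℚ_[q] z) m = emb ℚ_[q] (m0.eval z) := fun z => by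
    rw [aeval_def, ← eval_map, ← h0, eval_map, eval₂_hom]
  have z0 : m0.eval x = 0 := by
    apply (emb ℚ_[q]).injective
    rw [← ev, map_zero]
    exact minpoly.aeval _ _
  have z1 : m0.eval (τ x) = 0 := by
    have := eval₂_hom (p := m0) (τ : Qb →+* Qb) x
    rw [← eval_map, hfix, z0, map_zero] at this
    exact this
  rw [ev, z1, map_zero]

theorem BLift_near (q : ℕ) [Fact q.Prime] (y : PadicAlgCl q) :
    ∃ x : Qb, ‖y‖ ≤ 1 → ‖y - emb ℚ_[q] x‖ < 1 := by
  by_cases hy : ‖y‖ ≤ 1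
  swap
  · exact ⟨0, fun h => absurd h hy⟩
  have hi : IsIntegral ℚ_[q] y := Algebra.IsIntegral.isIntegral y
  have hmon := minpoly.monic hi
  have hd : DenseRange (algebraMap ℚ ℚ_[q]) := by
    have e : (algebraMap ℚ ℚ_[q] : ℚ → ℚ_[q]) = Rat.cast := funext fun r => eq_ratCast _ r
    rw [e]
    exact Padic.denseRange_ratCast q
  have hε : (0 : ℝ) < 1 / ((minpoly ℚ_[q] y).natDegree + 1) := by positivity
  obtain ⟨g, gmon, gdeg, gc⟩ :=
    exists_monic_and_natDegree_eq_and_norm_map_algebraMap_coeff_sub_lt hd hmon hε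
  obtain ⟨b, hb, hab⟩ := exists_aroots_norm_sub_lt_of_norm_coeff_sub_lt (L := PadicAlgCl q)
    hε (minpoly.aeval ℚ_[q] y) hmon (gmon.map _) (by rw [natDegree_map, gdeg]) gc
    (IsAlgClosed.splits _)
  rw [mul_one_div_cancel (by positivity), Real.one_rpow, max_eq_right hy, one_mul] at hab
  have hb' : aeval b g = 0 := by
    rw [← aeval_map_algebraMap ℚ_[q]]
    exact (mem_aroots.1 hb).2
  obtain ⟨x, hx⟩ := BLift_root q gmon.ne_zero hb'
  exact ⟨x, fun _ => by rw [hx]; exact hab⟩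

theorem BLift_prim (S : Finset Qb) :
    ∃ x : Qb, ∀ σ τ : GQ, σ x = τ x → ∀ s ∈ S, σ s = τ s := by
  let K : IntermediateField ℚ Qb := IntermediateField.adjoin ℚ (S : Set Qb)
  have : FiniteDimensional ℚ K :=
    IntermediateField.finiteDimensional_adjoin fun x _ => Algebra.IsIntegral.isIntegral x
  obtain ⟨α, hα⟩ := Field.exists_primitive_element ℚ K
  refine ⟨α, fun σ τ h s hs => ?_⟩
  have hs' : s ∈ K := IntermediateField.subset_adjoin ℚ _ hs
  have h1 : (⟨s, hs'⟩ : K) ∈ IntermediateField.adjoin ℚ {α} := by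
    rw [hα]
    trivial
  have h2 : ∀ z : K, z ∈ IntermediateField.adjoin ℚ {α} → σ z = τ z := by
    intro z hz
    induction hz using IntermediateField.adjoin_induction with
    | mem x hx => rw [Set.mem_singleton_iff.1 hx]; exact h
    | algebraMap x => simp
    | add x y _ _ hx hy => simp [hx, hy]
    | inv x _ hx => simp [hx]
    | mul x y _ _ hx hy => simp [hx, hy]
  exact h2 _ h1

theorem loc_lift (q : ℕ) [Fact q.Prime] {τ : GQ} (hτ : Inr (nv q 1) τ) (X : Finset Qb)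
    (Y : Finset (PadicAlgCl q)) :
    ∃ (σ : PadicAlgCl q ≃ₐ[ℚ_[q]] PadicAlgCl q) (τ' : GQ),
      (∀ x, emb ℚ_[q] (τ' x) = σ (emb ℚ_[q] x)) ∧ (∀ x ∈ X, τ' x = τ x) ∧
        ∀ y ∈ Y, ‖y‖ ≤ 1 → ‖σ y - y‖ < 1 := by
  classical
  choose f hf using BLift_near q
  obtain ⟨x0, hx0⟩ := BLift_prim (X ∪ Y.image f)
  obtain ⟨σ, hσ⟩ := BLift_conj q hτ x0
  obtain ⟨τ', hτ'⟩ := exists_res ℚ_[q] σ
  have e0 : τ' x0 = τ x0 := (emb ℚ_[q]).injective ((hτ' x0).trans hσ)
  have hS := hx0 τ' τ e0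
  refine ⟨σ, τ', hτ', fun x hx => hS x (Finset.mem_union_left _ hx), fun y hy h1 => ?_⟩
  have h2 := hf y h1
  have h3 := hS (f y) (Finset.mem_union_right _ (Finset.mem_image_of_mem f hy))
  have h4 : nv q 1 (f y) ≤ 1 := by
    rw [nv_apply, AlgEquiv.one_apply]
    have e : emb ℚ_[q] (f y) = y + -(y - emb ℚ_[q] (f y)) := by ring
    rw [e]
    refine (IsUltrametricDist.norm_add_le_max _ _).trans (max_le h1 ?_)
    rw [norm_neg]
    exact h2.le
  have h5 := hτ _ h4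
  rw [nv_apply, AlgEquiv.one_apply, map_sub, ← h3, hτ'] at h5
  have e : σ y - y = σ (y - emb ℚ_[q] (f y)) +
      ((σ (emb ℚ_[q] (f y)) - emb ℚ_[q] (f y)) + -(y - emb ℚ_[q] (f y))) := by
    rw [map_sub]
    ring
  rw [e]
  refine (IsUltrametricDist.norm_add_le_max _ _).trans_lt (max_lt ?_ ?_)
  · rwa [norm_gal]
  · refine (IsUltrametricDist.norm_add_le_max _ _).trans_lt (max_lt h5 ?_)
    rwa [norm_neg]

end Pool.Agent.MP_e23604_nt.B
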