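import Pool.Agent.MP_e23604_nt.BBase

/-!
The kernel of reduction and the local parameter z.
-/

open WeierstrassCurve

namespace Pool.Agent.MP_e23604_nt.B

section Aux

variable {F : Type} [Field F] {v : AbsoluteValue F ℝ}

theorem bLocA_add_le (hv : IsNonarchimedean v) {a b : F} {c : ℝ} (ha : v a ≤ c) (hb : v b ≤ c) :
    v (a + b) ≤ c := (hv a b).trans (max_le ha hb)

theorem bLocA_sub_le (hv : IsNonarchimedean v) {a b : F} {c : ℝ} (ha : v a ≤ c) (hb : v b ≤ c) :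
    v (a - b) ≤ c := by
  rw [sub_eq_add_neg]
  exact bLocA_add_le hv ha (by rwa [v.map_neg])

theorem bLocA_add_lt (hv : IsNonarchimedean v) {a b : F} {c : ℝ} (ha : v a < c) (hb : v b < c) :
    v (a + b) < c := (hv a b).trans_lt (max_lt ha hb)

theorem bLocA_sub_lt (hv : IsNonarchimedean v) {a b : F} {c : ℝ} (ha : v a < c) (hb : v b < c) :
    v (a - b) < c := by
  rw [sub_eq_add_neg]
  exact bLocA_add_lt hv ha (by rwa [v.map_neg])

theorem bLocA_add_eq (hv : IsNonarchimedean v) {a b : F} (h : v b < v a) : v (a + b) = v a := by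
  refine le_antisymm (bLocA_add_le hv le_rfl h.le) (not_lt.1 fun h' => ?_)
  have := bLocA_sub_lt hv h' h
  rw [add_sub_cancel_right] at this
  exact lt_irrefl _ this

theorem bLocA_mul_le {a b : F} (ha : v a ≤ 1) : v (a * b) ≤ v b := by
  rw [map_mul]
  exact mul_le_of_le_one_left (v.nonneg _) ha

theorem bLocA_mul_one {a b : F} (ha : v a ≤ 1) (hb : v b ≤ 1) : v (a * b) ≤ 1 :=
  (bLocA_mul_le ha).trans hb

theorem bLocA_nat (hv : IsNonarchimedean v) (n : ℕ) : v n ≤ 1 := by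
  induction n with
  | zero => simp
  | succ n ih =>
    rw [Nat.cast_succ]
    exact bLocA_add_le hv ih (by simp)

theorem bLocA_two (hv : IsNonarchimedean v) : v 2 ≤ 1 := by simpa using bLocA_nat hv 2

theorem bLocA_three (hv : IsNonarchimedean v) : v 3 ≤ 1 := by simpa using bLocA_nat hv 3

theorem bLocA_lt {a b : ℝ} (ha : 1 < a) (hb : 0 ≤ b) (h : b ^ 2 = a ^ 3) : a < b := by
  by_contra h'
  have h₁ : b ^ 2 ≤ a ^ 2 := pow_le_pow_left₀ hb (not_lt.1 h') 2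
  have h₂ : a ^ 2 < a ^ 3 := pow_lt_pow_right₀ ha (by norm_num)
  linarith

/-- The size of the coefficients of the line through two points near the origin. -/
theorem bLocA_line (hv : IsNonarchimedean v) {a₁ a₃ a₄ a₆ x₁ x₂ x₃ l m : F} (h₁ : v a₁ ≤ 1)
    (h₃ : v a₃ ≤ 1) (h₄ : v a₄ ≤ 1) (h₆ : v a₆ ≤ 1)
    (e₂ : x₁ * x₂ + x₁ * x₃ + x₂ * x₃ = a₄ - 2 * (l * m) - a₁ * m - a₃ * l)
    (e₃ : x₁ * x₂ * x₃ = m ^ 2 + a₃ * m - a₆) (hx : 1 < v x₁) (hle : v x₁ ≤ v x₂)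
    (hy₁ : v (l * x₁ + m) ^ 2 = v x₁ ^ 3) (hy₂ : v (l * x₂ + m) ^ 2 = v x₂ ^ 3) :
    v (l * x₁ + m) ≤ v m ∧ v l * v x₁ ≤ v m := by
  by_contra hc
  have hA : v m < v (l * x₁) := by
    by_contra h
    rw [not_lt] at h
    exact hc ⟨bLocA_add_le hv h le_rfl, by rwa [← map_mul]⟩
  have hB : v m < v (l * x₂) := by
    rw [map_mul] at hA ⊢
    exact hA.trans_le (mul_le_mul_of_nonneg_left hle (v.nonneg _))
  rw [bLocA_add_eq hv hA, map_mul] at hy₁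
  rw [bLocA_add_eq hv hB, map_mul] at hy₂
  rw [map_mul] at hA
  have hx₂ : 1 < v x₂ := hx.trans_le hle
  have k₁ : v x₁ = v l ^ 2 := by
    have : v x₁ ^ 2 * v x₁ = v x₁ ^ 2 * v l ^ 2 := by linarith
    exact mul_left_cancel₀ (by positivity) this
  have k₂ : v x₂ = v l ^ 2 := by
    have : v x₂ ^ 2 * v x₂ = v x₂ ^ 2 * v l ^ 2 := by linarith
    exact mul_left_cancel₀ (by positivity) this
  have hL : 1 < v l := by
    by_contra h
    have := pow_le_one₀ (n := 2) (v.nonneg l) (not_lt.1 h)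
    linarith
  have hM : v m < v l ^ 3 := by
    rw [k₁] at hA
    linarith
  have p : ∀ {i j : ℕ}, i ≤ j → v l ^ i ≤ v l ^ j := fun h => pow_le_pow_right₀ hL.le h
  have q : ∀ {i j : ℕ}, i < j → v l ^ i < v l ^ j := fun h => pow_lt_pow_right₀ hL h
  have hx₃ : v x₃ < v l ^ 2 := by
    have t₁ : v (m ^ 2) < v l ^ 6 := by
      rw [map_pow]
      have := pow_lt_pow_left₀ hM (v.nonneg _) two_ne_zero
      linarith
    have t₂ : v (a₃ * m) < v l ^ 6 := (bLocA_mul_le h₃).trans_lt (hM.trans_le (p (by norm_num)))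
    have t₃ : v a₆ < v l ^ 6 := h₆.trans_lt (one_lt_pow₀ hL (by norm_num))
    have t := bLocA_sub_lt hv (bLocA_add_lt hv t₁ t₂) t₃
    rw [← e₃, map_mul, map_mul, k₁, k₂] at t
    have : v l ^ 4 * v x₃ < v l ^ 4 * v l ^ 2 := by linarith
    exact lt_of_mul_lt_mul_left this (by positivity)
  have hpos : 0 < v l ^ 2 := by positivity
  have s₀ : v (x₁ * x₂) = v l ^ 4 := by
    rw [map_mul, k₁, k₂]
    ring
  have s₁ : v (x₁ * x₃) < v l ^ 4 := by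
    rw [map_mul, k₁]
    have := mul_lt_mul_of_pos_left hx₃ hpos
    linarith
  have s₂ : v (x₂ * x₃) < v l ^ 4 := by
    rw [map_mul, k₂]
    have := mul_lt_mul_of_pos_left hx₃ hpos
    linarith
  have t₁ : v a₄ < v l ^ 4 := h₄.trans_lt (one_lt_pow₀ hL (by norm_num))
  have t₂ : v (2 * (l * m)) < v l ^ 4 := by
    refine (bLocA_mul_le (bLocA_two hv)).trans_lt ?_
    rw [map_mul]
    have := mul_lt_mul_of_pos_left hM (zero_lt_one.trans hL)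
    linarith
  have t₃ : v (a₁ * m) < v l ^ 4 := (bLocA_mul_le h₁).trans_lt (hM.trans_le (p (by norm_num)))
  have t₄ : v (a₃ * l) < v l ^ 4 :=
    (bLocA_mul_le h₃).trans_lt (by simpa using q (i := 1) (j := 4) (by norm_num))
  have t := bLocA_sub_lt hv (bLocA_sub_lt hv (bLocA_sub_lt hv (bLocA_sub_lt hv
    (bLocA_sub_lt hv t₁ t₂) t₃) t₄) s₁) s₂
  rw [← e₂, show x₁ * x₂ + x₁ * x₃ + x₂ * x₃ - x₁ * x₃ - x₂ * x₃ = x₁ * x₂ by ring, s₀] at t
  exact lt_irrefl _ t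

/-- The sum of the local parameters of three collinear points. -/
theorem bLocA_sum (hv : IsNonarchimedean v) {a₁ a₂ a₃ a₄ a₆ x₁ x₂ x₃ l m : F} {r : ℝ}
    (h₁ : v a₁ ≤ 1) (h₂ : v a₂ ≤ 1) (h₃ : v a₃ ≤ 1) (h₄ : v a₄ ≤ 1) (h₆ : v a₆ ≤ 1)
    (e₁ : x₁ + x₂ + x₃ = l ^ 2 + a₁ * l - a₂)
    (e₂ : x₁ * x₂ + x₁ * x₃ + x₂ * x₃ = a₄ - 2 * (l * m) - a₁ * m - a₃ * l)
    (e₃ : x₁ * x₂ * x₃ = m ^ 2 + a₃ * m - a₆) (hm : m ≠ 0) (hr : r < 1) (hl : v (l / m) ≤ r)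
    (hn : v (1 / m) ≤ r) : l * x₃ + m ≠ 0 ∧
      v (-x₃ / (l * x₃ + m) + -x₁ / (l * x₁ + m) + -x₂ / (l * x₂ + m)) ≤ r := by
  obtain ⟨p, rfl⟩ : ∃ p, l = p * m := ⟨l / m, by field_simp⟩
  rw [mul_div_cancel_right₀ _ hm] at hl
  have hp : v p ≤ 1 := hl.trans hr.le
  have hq : v (1 / m) ≤ 1 := hn.trans hr.le
  have hD : v (1 + (a₄ * p - a₂ - a₆ * (p * p)) * p) = 1 := by
    rw [bLocA_add_eq hv, map_one]
    rw [map_one]
    exact (bLocA_mul_le (bLocA_sub_le hv (bLocA_sub_le hv (bLocA_mul_one h₄ hp) h₂)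
      (bLocA_mul_one h₆ (bLocA_mul_one hp hp)))).trans_lt (hl.trans_lt hr)
  have hN : v (a₂ * (1 / m) - (a₃ * p - 3 * (a₆ * (p * (1 / m))) + 2 * (a₄ * (1 / m)) - a₁) * p) ≤
      r :=
    bLocA_sub_le hv ((bLocA_mul_le h₂).trans hn) ((bLocA_mul_le (bLocA_sub_le hv (bLocA_add_le hv
      (bLocA_sub_le hv (bLocA_mul_one h₃ hp) (bLocA_mul_one (bLocA_three hv) (bLocA_mul_one h₆
      (bLocA_mul_one hp hq)))) (bLocA_mul_one (bLocA_two hv) (bLocA_mul_one h₄ hq))) h₁)).trans hl)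
  have hD0 : 1 + (a₄ * p - a₂ - a₆ * (p * p)) * p ≠ 0 := fun h => by
    rw [h, map_zero] at hD
    exact zero_ne_one hD
  have k₁ : (p * m * x₁ + m) * (p * m * x₂ + m) * (p * m * x₃ + m) =
      m ^ 3 * (1 + (a₄ * p - a₂ - a₆ * (p * p)) * p) := by
    linear_combination p ^ 3 * m ^ 3 * e₃ + p ^ 2 * m ^ 3 * e₂ + p * m ^ 3 * e₁
  have k₂ : (p * m * x₁ + m) * (p * m * x₂ + m) * (p * m * x₃ + m) ≠ 0 := by
    rw [k₁]
    exact mul_ne_zero (pow_ne_zero _ hm) hD0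
  have y₁ := left_ne_zero_of_mul (left_ne_zero_of_mul k₂)
  have y₂ := right_ne_zero_of_mul (left_ne_zero_of_mul k₂)
  have y₃ := right_ne_zero_of_mul k₂
  refine ⟨y₃, ?_⟩
  have k₃ : -(x₃ * (p * m * x₁ + m) * (p * m * x₂ + m) + x₁ * (p * m * x₂ + m) * (p * m * x₃ + m) +
      x₂ * (p * m * x₁ + m) * (p * m * x₃ + m)) = m ^ 3 * (a₂ * (1 / m) -
        (a₃ * p - 3 * (a₆ * (p * (1 / m))) + 2 * (a₄ * (1 / m)) - a₁) * p) := by
    have : m ^ 3 * (a₂ * (1 / m) -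
        (a₃ * p - 3 * (a₆ * (p * (1 / m))) + 2 * (a₄ * (1 / m)) - a₁) * p) =
        m ^ 2 * (a₂ - (a₃ * p * m - 3 * (a₆ * p) + 2 * a₄ - a₁ * m) * p) := by
      field_simp
    rw [this]
    linear_combination -3 * p ^ 2 * m ^ 2 * e₃ - 2 * p * m ^ 2 * e₂ - m ^ 2 * e₁
  have k₄ : -x₃ / (p * m * x₃ + m) + -x₁ / (p * m * x₁ + m) + -x₂ / (p * m * x₂ + m) =
      -(x₃ * (p * m * x₁ + m) * (p * m * x₂ + m) + x₁ * (p * m * x₂ + m) * (p * m * x₃ + m) +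
      x₂ * (p * m * x₁ + m) * (p * m * x₃ + m)) /
        ((p * m * x₁ + m) * (p * m * x₂ + m) * (p * m * x₃ + m)) := by
    generalize p * m * x₁ + m = u₁ at *
    generalize p * m * x₂ + m = u₂ at *
    generalize p * m * x₃ + m = u₃ at *
    field_simp
    ring
  rw [k₄, k₁, k₃, mul_div_mul_left _ _ (pow_ne_zero _ hm), map_div₀, hD, div_one]
  exact hN

end Aux

variable {F : Type} [Field F] [DecidableEq F] {v : AbsoluteValue F ℝ} {W : WeierstrassCurve F}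

omit [DecidableEq F] in
theorem y_le (hv : IsNonarchimedean v) (hW : Intg v W) {x y : F} (h : W.toAffine.Equation x y)
    (hx : v x ≤ 1) : v y ≤ 1 := by
  obtain ⟨h₁, h₂, h₃, h₄, h₆⟩ := hW
  rw [Affine.equation_iff] at h
  by_contra hy
  rw [not_le] at hy
  have e : y * (y + (W.a₁ * x + W.a₃)) = x * (x * x) + W.a₂ * (x * x) + W.a₄ * x + W.a₆ := by
    linear_combination h
  have k₁ : v (y + (W.a₁ * x + W.a₃)) = v y :=
    bLocA_add_eq hv ((bLocA_add_le hv (bLocA_mul_one h₁ hx) h₃).trans_lt hy)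
  have k₂ := bLocA_add_le hv (bLocA_add_le hv (bLocA_add_le hv
    (bLocA_mul_one hx (bLocA_mul_one hx hx)) (bLocA_mul_one h₂ (bLocA_mul_one hx hx)))
    (bLocA_mul_one h₄ hx)) h₆
  rw [← e, map_mul, k₁] at k₂
  nlinarith

omit [DecidableEq F] in
theorem E1_xy (hv : IsNonarchimedean v) (hW : Intg v W) {x y : F} (h : W.toAffine.Equation x y)
    (hx : 1 < v x) : v y ^ 2 = v x ^ 3 := by
  obtain ⟨h₁, h₂, h₃, h₄, h₆⟩ := hW
  rw [Affine.equation_iff] at h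
  have e : y * (y + (W.a₁ * x + W.a₃)) = x ^ 3 + (W.a₂ * x ^ 2 + W.a₄ * x + W.a₆) := by
    linear_combination h
  have p₁ : v x ≤ v x ^ 2 := by nlinarith
  have p₂ : v x ^ 2 < v x ^ 3 := pow_lt_pow_right₀ hx (by norm_num)
  have k₁ : v (x ^ 3 + (W.a₂ * x ^ 2 + W.a₄ * x + W.a₆)) = v x ^ 3 := by
    rw [bLocA_add_eq hv, map_pow]
    rw [map_pow]
    exact (bLocA_add_le hv (bLocA_add_le hv ((bLocA_mul_le h₂).trans (map_pow v x 2).le)
      ((bLocA_mul_le h₄).trans p₁)) (h₆.trans (hx.le.trans p₁))).trans_lt p₂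
  have k₂ : v (W.a₁ * x + W.a₃) ≤ v x := bLocA_add_le hv (bLocA_mul_le h₁) (h₃.trans hx.le)
  rw [← e, map_mul] at k₁
  rcases le_or_gt (v y) (v x) with hy | hy
  · have := mul_le_mul hy (bLocA_add_le hv hy k₂) (v.nonneg _) (v.nonneg _)
    linarith
  · rw [bLocA_add_eq hv (k₂.trans_lt hy)] at k₁
    linarith

omit [DecidableEq F] in
theorem E1_lt (hv : IsNonarchimedean v) (hW : Intg v W) {P : W.toAffine.Point} (hP : E1 v P) :
    v (zz P) < 1 := by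
  rcases P with _ | ⟨x, y, h⟩
  · simp [zz]
  · have hx : 1 < v x := hP
    have := bLocA_lt hx (v.nonneg _) (E1_xy hv hW h.1 hx)
    rw [zz_some, map_div₀, v.map_neg, div_lt_one (by linarith)]
    exact this

omit [DecidableEq F] in
theorem E1_eq_zero (hv : IsNonarchimedean v) (hW : Intg v W) {P : W.toAffine.Point} (hP : E1 v P)
    (h : zz P = 0) : P = 0 := by
  rcases P with _ | ⟨x, y, h'⟩
  · rfl
  · have hx : 1 < v x := hP
    have := bLocA_lt hx (v.nonneg _) (E1_xy hv hW h'.1 hx)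
    rw [zz_some, div_eq_zero_iff, neg_eq_zero] at h
    rcases h with rfl | rfl
    · rw [map_zero] at hx
      linarith
    · rw [map_zero] at this
      linarith

omit [DecidableEq F] in
theorem E1_neg (hv : IsNonarchimedean v) (hW : Intg v W) {P : W.toAffine.Point} (hP : E1 v P) :
    E1 v (-P) ∧ v (zz (-P) + zz P) ≤ v (zz P) ^ 2 := by
  rcases P with _ | ⟨x, y, h⟩
  · refine ⟨trivial, ?_⟩
    change v (0 + 0) ≤ v 0 ^ 2
    simp
  · have hx : 1 < v x := hP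
    have hy := bLocA_lt hx (v.nonneg _) (E1_xy hv hW h.1 hx)
    refine ⟨hP, ?_⟩
    have k₂ : v (W.a₁ * x + W.a₃) ≤ v x :=
      bLocA_add_le hv (bLocA_mul_le hW.1) (hW.2.2.1.trans hx.le)
    have k₁ := bLocA_add_eq hv (k₂.trans_lt hy)
    have y0 : 0 < v y := by linarith
    have y₁ : y ≠ 0 := v.pos_iff.1 y0
    have y₂ : y + (W.a₁ * x + W.a₃) ≠ 0 := v.pos_iff.1 (by rw [k₁]; exact y0)
    rw [Affine.Point.neg_some, zz_some, zz_some, Affine.negY]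
    have e : -x / (-y - W.a₁ * x - W.a₃) + -x / y =
        -(x * (W.a₁ * x + W.a₃)) / (y * (y + (W.a₁ * x + W.a₃))) := by
      rw [show -y - W.a₁ * x - W.a₃ = -(y + (W.a₁ * x + W.a₃)) by ring]
      generalize W.a₁ * x + W.a₃ = t at *
      field_simp
      ring
    erw [e]
    rw [map_div₀, map_div₀, v.map_neg, v.map_neg, map_mul, map_mul, k₁, div_pow, sq, sq]
    gcongr

theorem bLocA_add (hv : IsNonarchimedean v) (hW : Intg v W) {x₁ y₁ x₂ y₂ : F}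
    (h₁ : W.toAffine.Nonsingular x₁ y₁) (h₂ : W.toAffine.Nonsingular x₂ y₂) (hx : 1 < v x₁)
    (hle : v x₁ ≤ v x₂) : E1 v (Affine.Point.some _ _ h₁ + Affine.Point.some _ _ h₂) ∧
      v (zz (Affine.Point.some _ _ h₁ + Affine.Point.some _ _ h₂) - -x₁ / y₁ - -x₂ / y₂) ≤
        v (-x₁ / y₁) ^ 2 := by
  have hx₂ : 1 < v x₂ := hx.trans_le hle
  have q₁ := E1_xy hv hW h₁.1 hx
  have q₂ := E1_xy hv hW h₂.1 hx₂
  have g₁ := bLocA_lt hx (v.nonneg _) q₁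
  have g₂ := bLocA_lt hx₂ (v.nonneg _) q₂
  have r₁ : v (-x₁ / y₁) ^ 2 = 1 / v x₁ := by
    rw [map_div₀, v.map_neg, div_pow, q₁]
    field_simp
  have r₂ : v (-x₂ / y₂) ^ 2 = 1 / v x₂ := by
    rw [map_div₀, v.map_neg, div_pow, q₂]
    field_simp
  have r₃ : v (-x₂ / y₂) ^ 2 ≤ v (-x₁ / y₁) ^ 2 := by
    rw [r₁, r₂]
    gcongr
  have r₄ : v (-x₂ / y₂) ≤ v (-x₁ / y₁) :=
    (pow_le_pow_iff_left₀ (v.nonneg _) (v.nonneg _) two_ne_zero).1 r₃
  have r₅ : v (-x₁ / y₁) < 1 := E1_lt hv hW (P := Affine.Point.some _ _ h₁) hx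
  have r₆ : v (-x₁ / y₁) ^ 2 ≤ v (-x₁ / y₁) := by nlinarith [v.nonneg (-x₁ / y₁)]
  by_cases hxy : x₁ = x₂ ∧ y₁ = W.toAffine.negY x₂ y₂
  · rw [Affine.Point.add_of_Y_eq hxy.1 hxy.2]
    refine ⟨trivial, ?_⟩
    have := (E1_neg hv hW (P := Affine.Point.some _ _ h₂) hx₂).2
    rw [Affine.Point.neg_some, zz_some, zz_some, ← hxy.2] at this
    rw [zz_zero, zero_sub, ← neg_add', v.map_neg]
    refine le_trans ?_ r₃
    rw [hxy.1]
    exact this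
  have hp := Affine.addPolynomial_slope h₁.1 h₂.1 hxy
  rw [Affine.addPolynomial_eq, neg_inj, Cubic.prod_X_sub_C_eq, Cubic.toPoly_injective,
    Cubic.ext_iff] at hp
  obtain ⟨-, e₁, e₂, e₃⟩ := hp
  dsimp only at e₁ e₂ e₃
  have hy₂ : y₂ = W.toAffine.slope x₁ x₂ y₁ y₂ * (x₂ - x₁) + y₁ := by
    by_cases h : x₁ = x₂
    · rw [← Affine.Y_eq_of_Y_ne h₁.1 h₂.1 h fun h' => hxy ⟨h, h'⟩, h]
      ring
    · have := sub_ne_zero.2 h
      rw [Affine.slope_of_X_ne h]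
      field_simp
      ring
  have h₃ : W.toAffine.Nonsingular _ (_ * (_ - x₁) + y₁) := Affine.nonsingular_negAdd h₁ h₂ hxy
  have hs : Affine.Point.some _ _ h₁ + Affine.Point.some _ _ h₂ = -Affine.Point.some _ _ h₃ :=
    Affine.Point.add_some hxy
  rw [hs]
  clear hs
  generalize W.toAffine.slope x₁ x₂ y₁ y₂ = l at *
  generalize W.toAffine.addX x₁ x₂ l = x₃ at *
  obtain ⟨m, rfl⟩ : ∃ m, y₁ = l * x₁ + m := ⟨y₁ - l * x₁, by ring⟩
  obtain rfl : y₂ = l * x₂ + m := by rw [hy₂]; ring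
  have e₂' : x₁ * x₂ + x₁ * x₃ + x₂ * x₃ = W.a₄ - 2 * (l * m) - W.a₁ * m - W.a₃ * l := by
    linear_combination -e₂
  have e₃' : x₁ * x₂ * x₃ = m ^ 2 + W.a₃ * m - W.a₆ := by linear_combination e₃
  obtain ⟨k₁, k₂⟩ := bLocA_line hv hW.1 hW.2.2.1 hW.2.2.2.1 hW.2.2.2.2 e₂' e₃' hx hle q₁ q₂
  have m0 : 0 < v m := by linarith
  have k₃ : v (l / m) ≤ v (-x₁ / (l * x₁ + m)) ^ 2 := by
    rw [r₁, map_div₀, div_le_div_iff₀ m0 (by linarith), one_mul]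
    exact k₂
  have k₄ : v (1 / m) ≤ v (-x₁ / (l * x₁ + m)) ^ 2 := by
    rw [r₁, map_div₀, map_one]
    gcongr
    linarith
  obtain ⟨y₃, k₅⟩ := bLocA_sum hv hW.1 hW.2.1 hW.2.2.1 hW.2.2.2.1 hW.2.2.2.2
    (by linear_combination e₁) e₂' e₃' (v.pos_iff.1 m0) (r₆.trans_lt r₅) k₃ k₄
  have ey : l * (x₃ - x₁) + (l * x₁ + m) = l * x₃ + m := by ring
  have k₆ : v (-x₃ / (l * x₃ + m)) ≤ v (-x₁ / (l * x₁ + m)) := by
    have := bLocA_sub_le hv (bLocA_sub_le hv (k₅.trans r₆) r₄) le_rfl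
    rwa [add_sub_cancel_right, add_sub_cancel_right] at this
  have k₇ : 1 < v x₃ := by
    by_contra hc
    have t₁ := y_le hv hW h₃.1 (not_lt.1 hc)
    rw [ey] at t₁
    have m₁ := v.pos_iff.1 m0
    have t₂ : 1 / (l * x₃ + m) = -x₃ / (l * x₃ + m) * (l / m) + 1 / m := by
      field_simp
      ring
    have t₃ : v (1 / (l * x₃ + m)) < 1 := by
      rw [t₂]
      exact (bLocA_add_le hv ((bLocA_mul_le (k₆.trans r₅.le)).trans k₃) k₄).trans_lt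
        (r₆.trans_lt r₅)
    rw [map_div₀, map_one, div_lt_one (v.pos y₃)] at t₃
    linarith
  obtain ⟨n₁, n₂⟩ := E1_neg hv hW (P := Affine.Point.some _ _ h₃) k₇
  refine ⟨n₁, ?_⟩
  rw [zz_some] at n₂
  generalize zz (-Affine.Point.some _ _ h₃) = z at n₂ ⊢
  rw [ey] at n₂
  have := bLocA_sub_le hv (n₂.trans (pow_le_pow_left₀ (v.nonneg _) k₆ 2)) k₅
  convert this using 2
  ring

theorem E1_add (hv : IsNonarchimedean v) (hW : Intg v W) {P Q : W.toAffine.Point} (hP : E1 v P)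
    (hQ : E1 v Q) :
    E1 v (P + Q) ∧ v (zz (P + Q) - zz P - zz Q) ≤ max (v (zz P)) (v (zz Q)) ^ 2 := by
  rcases P with _ | ⟨x₁, y₁, h₁⟩
  · rw [← Affine.Point.zero_def, zero_add, zz_zero, sub_zero, sub_self, map_zero]
    exact ⟨hQ, sq_nonneg _⟩
  rcases Q with _ | ⟨x₂, y₂, h₂⟩
  · rw [← Affine.Point.zero_def, add_zero, zz_zero, sub_zero, sub_self, map_zero]
    exact ⟨hP, sq_nonneg _⟩
  rcases le_total (v x₁) (v x₂) with h | h
  · obtain ⟨k₁, k₂⟩ := bLocA_add hv hW h₁ h₂ hP h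
    exact ⟨k₁, k₂.trans (pow_le_pow_left₀ (v.nonneg _) (le_max_left _ _) 2)⟩
  · obtain ⟨k₁, k₂⟩ := bLocA_add hv hW h₂ h₁ hQ h
    rw [add_comm, sub_right_comm]
    exact ⟨k₁, k₂.trans (pow_le_pow_left₀ (v.nonneg _) (le_max_right _ _) 2)⟩

theorem bLocA_nsmul (hv : IsNonarchimedean v) (hW : Intg v W) {P : W.toAffine.Point} (hP : E1 v P)
    (n : ℕ) : E1 v (n • P) ∧ v (zz (n • P) - n * zz P) ≤ v (zz P) ^ 2 ∧
      v (zz (n • P)) ≤ v (zz P) := by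
  have r₁ := E1_lt hv hW hP
  have r₂ : v (zz P) ^ 2 ≤ v (zz P) := by nlinarith [v.nonneg (zz P)]
  induction n with
  | zero => simp
  | succ n ih =>
    obtain ⟨k₁, k₂⟩ := E1_add hv hW ih.1 hP
    rw [max_eq_right ih.2.2] at k₂
    rw [succ_nsmul]
    refine ⟨k₁, ?_, ?_⟩
    · convert bLocA_add_le hv k₂ ih.2.1 using 2
      push_cast
      ring
    · convert bLocA_add_le hv (bLocA_add_le hv (k₂.trans r₂) le_rfl) ih.2.2 using 2
      ring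

theorem E1_zsmul (hv : IsNonarchimedean v) (hW : Intg v W) {P : W.toAffine.Point} (hP : E1 v P)
    (n : ℤ) : E1 v (n • P) ∧ v (zz (n • P) - n * zz P) ≤ v (zz P) ^ 2 := by
  obtain ⟨n, rfl | rfl⟩ := n.eq_nat_or_neg
  · obtain ⟨k₁, k₂, -⟩ := bLocA_nsmul hv hW hP n
    rw [natCast_zsmul, Int.cast_natCast]
    exact ⟨k₁, k₂⟩
  · obtain ⟨k₁, k₂, k₃⟩ := bLocA_nsmul hv hW hP n
    obtain ⟨k₄, k₅⟩ := E1_neg hv hW k₁
    rw [neg_smul, natCast_zsmul]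
    refine ⟨k₄, ?_⟩
    convert bLocA_sub_le hv (k₅.trans (pow_le_pow_left₀ (v.nonneg _) k₃ 2)) k₂ using 2
    push_cast
    ring

theorem E1_tors (hv : IsNonarchimedean v) (hW : Intg v W) {P : W.toAffine.Point} (hP : E1 v P)
    {n : ℤ} (hn : v n = 1) (h : n • P = 0) : P = 0 := by
  have k := (E1_zsmul hv hW hP n).2
  have r₁ := E1_lt hv hW hP
  rw [h, zz_zero, zero_sub, v.map_neg, map_mul, hn, one_mul] at k
  refine E1_eq_zero hv hW hP (v.eq_zero.1 ?_)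
  nlinarith [v.nonneg (zz P)]

end Pool.Agent.MP_e23604_nt.B
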