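import Pool.Agent.MP_e23604_nt.BLocA

/-!
Points with the same nonsingular reduction differ by a point of the kernel of reduction.
-/

open WeierstrassCurve

namespace Pool.Agent.MP_e23604_nt.B

variable {F : Type} [Field F] [DecidableEq F] {v : AbsoluteValue F ℝ} {W : WeierstrassCurve F}

/-- The valuation ring. -/
def blocBO (hv : IsNonarchimedean v) : Subring F where
  carrier := {x | v x ≤ 1}
  zero_mem' := by simp
  one_mem' := by simp
  add_mem' := fun {a b} ha hb => (hv a b).trans (max_le ha hb)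
  neg_mem' := fun {a} ha => by simpa using ha
  mul_mem' := fun {a b} ha hb => by
    show v (a * b) ≤ 1
    rw [map_mul]
    exact mul_le_one₀ ha (v.nonneg b) hb

omit [DecidableEq F] in
lemma blocB_add (hv : IsNonarchimedean v) {a b : F} (ha : v a < 1) (hb : v b < 1) :
    v (a + b) < 1 := (hv a b).trans_lt (max_lt ha hb)

omit [DecidableEq F] in
lemma blocB_mul (hv : IsNonarchimedean v) {a b : F} (ha : a ∈ blocBO hv) (hb : v b < 1) :
    v (a * b) < 1 := by
  rw [map_mul]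
  exact (mul_le_of_le_one_left (v.nonneg b) ha).trans_lt hb

omit [DecidableEq F] in
lemma blocB_two (hv : IsNonarchimedean v) {a b s t : F} (ha : a ∈ blocBO hv) (hb : b ∈ blocBO hv)
    (hs : v s < 1) (ht : v t < 1) : v (a * s + b * t) < 1 :=
  blocB_add hv (blocB_mul hv ha hs) (blocB_mul hv hb ht)

omit [DecidableEq F] in
lemma blocB_slope (hv : IsNonarchimedean v) (hW : Intg v W) {x y x' y' l : F} (hx : v x ≤ 1)
    (hns : NS v W x y) (h1 : v (x' - x) < 1) (h2 : v (y' - y) < 1)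
    (ea : l * (x' - x) = y' + y + W.a₁ * x + W.a₃)
    (eb : l * (y' - y + W.a₁ * (x' - x)) = x' ^ 2 + x' * x + x ^ 2 + W.a₂ * (x' + x) + W.a₄ +
      W.a₁ * (y + W.a₁ * x + W.a₃)) : 1 < v (W.toAffine.addX x' x l) := by
  have a1 : W.a₁ ∈ blocBO hv := hW.1
  have a2 : W.a₂ ∈ blocBO hv := hW.2.1
  have mx : x ∈ blocBO hv := hx
  have mx' : x' ∈ blocBO hv := by
    have := add_mem (show x' - x ∈ blocBO hv from h1.le) mx
    rwa [sub_add_cancel] at this
  have hl : 1 < v l := by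
    by_contra hc
    have ml : l ∈ blocBO hv := not_lt.1 hc
    have e1 : 2 * y + W.a₁ * x + W.a₃ = l * (x' - x) + -1 * (y' - y) := by
      linear_combination -ea
    have s1 : v (2 * y + W.a₁ * x + W.a₃) < 1 := by
      rw [e1]
      exact blocB_two hv ml (neg_mem (one_mem _)) h1 h2
    have e2 : 3 * x ^ 2 + 2 * W.a₂ * x + W.a₄ - W.a₁ * y =
        (l * W.a₁ - (x' + x + x) - W.a₂) * (x' - x) + l * (y' - y) +
          -W.a₁ * (2 * y + W.a₁ * x + W.a₃) := by
      linear_combination -eb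
    have s2 : v (3 * x ^ 2 + 2 * W.a₂ * x + W.a₄ - W.a₁ * y) < 1 := by
      rw [e2]
      exact blocB_add hv (blocB_two hv (sub_mem (sub_mem (mul_mem ml a1)
        (add_mem (add_mem mx' mx) mx)) a2) ml h1 h2) (blocB_mul hv (neg_mem a1) s1)
    rcases hns with h | h
    · exact absurd s2 (not_lt.2 h)
    · exact absurd s1 (not_lt.2 h)
  by_contra hc
  have ma : W.toAffine.addX x' x l ∈ blocBO hv := not_lt.1 hc
  have l0 : l ≠ 0 := fun h => by
    rw [h, map_zero] at hl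
    linarith
  have li : v l⁻¹ < 1 := by
    rw [map_inv₀]
    exact inv_lt_one_of_one_lt₀ hl
  have mi : l⁻¹ ∈ blocBO hv := li.le
  have e : (1 : F) = ((W.toAffine.addX x' x l + W.a₂ + x' + x) * l⁻¹ - W.a₁) * l⁻¹ := by
    rw [Affine.addX]
    field_simp
    ring
  have s := blocB_mul hv (sub_mem (mul_mem (add_mem (add_mem (add_mem ma a2) mx') mx) mi) a1) li
  rw [← e, map_one] at s
  exact lt_irrefl _ s

omit [DecidableEq F] in
theorem ns_good (hv : IsNonarchimedean v) (hW : Intg v W) (hΔ : v W.Δ = 1) {x y : F}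
    (h : W.toAffine.Equation x y) (hx : v x ≤ 1) : NS v W x y := by
  by_contra hc
  rw [NS, not_or, not_le, not_le] at hc
  obtain ⟨s1, s2⟩ := hc
  have a1 : W.a₁ ∈ blocBO hv := hW.1
  have a2 : W.a₂ + 3 * x ∈ blocBO hv :=
    add_mem hW.2.1 (mul_mem (ofNat_mem _ 3) (show x ∈ blocBO hv from hx))
  rw [Affine.equation_iff] at h
  have e6 : W.a₆ = y ^ 2 + W.a₁ * x * y + W.a₃ * y - (x ^ 3 + W.a₂ * x ^ 2 + W.a₄ * x) := by
    linear_combination -h
  have key : ∀ a b s t : F, a = W.a₁ → b = W.a₂ + 3 * x →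
      s = 3 * x ^ 2 + 2 * W.a₂ * x + W.a₄ - W.a₁ * y → t = 2 * y + W.a₁ * x + W.a₃ →
      W.Δ = ((a ^ 2 + 4 * b) ^ 2 * (a * t + s) - 16 * (2 * s + a * t) ^ 2 +
          18 * (a ^ 2 + 4 * b) * t ^ 2) * s +
        (-((a ^ 2 + 4 * b) ^ 2 * b * t) - 8 * a * (2 * s + a * t) ^ 2 - 27 * t ^ 3 +
          9 * (a ^ 2 + 4 * b) * a * t ^ 2) * t := by
    rintro _ _ _ _ rfl rfl rfl rfl
    simp only [Δ, b₂, b₄, b₆, b₈]
    rw [e6]
    ring
  have e := key _ _ _ _ rfl rfl rfl rfl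
  generalize W.a₂ + 3 * x = b at a2 e
  generalize 3 * x ^ 2 + 2 * W.a₂ * x + W.a₄ - W.a₁ * y = s at s1 e
  generalize 2 * y + W.a₁ * x + W.a₃ = t at s2 e
  generalize W.a₁ = a at a1 e
  have ms : s ∈ blocBO hv := s1.le
  have mt : t ∈ blocBO hv := s2.le
  have b2 : a ^ 2 + 4 * b ∈ blocBO hv := add_mem (pow_mem a1 2) (mul_mem (ofNat_mem _ 4) a2)
  have b4 : 2 * s + a * t ∈ blocBO hv := add_mem (mul_mem (ofNat_mem _ 2) ms) (mul_mem a1 mt)
  have := blocB_two hv
    (add_mem (sub_mem (mul_mem (pow_mem b2 2) (add_mem (mul_mem a1 mt) ms))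
      (mul_mem (ofNat_mem _ 16) (pow_mem b4 2)))
      (mul_mem (mul_mem (ofNat_mem _ 18) b2) (pow_mem mt 2)))
    (add_mem (sub_mem (sub_mem (neg_mem (mul_mem (mul_mem (pow_mem b2 2) a2) mt))
      (mul_mem (mul_mem (ofNat_mem _ 8) a1) (pow_mem b4 2)))
      (mul_mem (ofNat_mem _ 27) (pow_mem mt 3)))
      (mul_mem (mul_mem (mul_mem (ofNat_mem _ 9) b2) a1) (pow_mem mt 2))) s1 s2
  rw [← e, hΔ] at this
  exact lt_irrefl _ this

theorem close (hv : IsNonarchimedean v) (hW : Intg v W) {x y x' y' : F}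
    (h : W.toAffine.Nonsingular x y) (h' : W.toAffine.Nonsingular x' y') (hx : v x ≤ 1)
    (hns : NS v W x y) (h1 : v (x' - x) < 1) (h2 : v (y' - y) < 1) :
    E1 v (Affine.Point.some x' y' h' - Affine.Point.some x y h) := by
  rw [sub_eq_add_neg, Affine.Point.neg_some]
  by_cases hxy : x' = x ∧ y' = W.toAffine.negY x (W.toAffine.negY x y)
  · rw [Affine.Point.add_of_Y_eq hxy.1 hxy.2]
    exact E1_zero v
  rw [Affine.Point.add_some hxy, E1_some]
  have q := (Affine.equation_iff _ _).1 h.1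
  have q' := (Affine.equation_iff _ _).1 h'.1
  by_cases e : x' = x
  · have e1 : y' ≠ W.toAffine.negY x (W.toAffine.negY x y) := fun h3 => hxy ⟨e, h3⟩
    have e2 : y' ≠ y := by rwa [Affine.negY_negY] at e1
    have e3 : y' = W.toAffine.negY x y := (Affine.Y_eq_of_X_eq h'.1 h.1 e).resolve_left e2
    have e4 : W.toAffine.negY x' y' = y := by rw [e, e3, Affine.negY_negY]
    have e5 : y' - y ≠ 0 := sub_ne_zero.2 e2
    rw [Affine.negY] at e3
    refine blocB_slope hv hW hx hns h1 h2 ?_ ?_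
    · rw [e]
      linear_combination -e3
    · rw [Affine.slope_of_Y_ne e e1, e4, e, sub_self, mul_zero, add_zero, div_mul_cancel₀ _ e5]
      linear_combination -W.a₁ * e3
  · have e5 : x' - x ≠ 0 := sub_ne_zero.2 e
    refine blocB_slope hv hW hx hns h1 h2 ?_ ?_
    · rw [Affine.slope_of_X_ne e, div_mul_cancel₀ _ e5, Affine.negY]
      ring
    · rw [Affine.slope_of_X_ne e, div_mul_eq_mul_div, div_eq_iff e5, Affine.negY]
      linear_combination q' - q

theorem close_good (hv : IsNonarchimedean v) (hW : Intg v W) (hΔ : v W.Δ = 1) {x y x' y' : F}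
    (h : W.toAffine.Nonsingular x y) (h' : W.toAffine.Nonsingular x' y')
    (h0 : 1 < v x → 1 < v x') (h1 : v x ≤ 1 → v (x' - x) < 1) (h2 : v y ≤ 1 → v (y' - y) < 1) :
    E1 v (Affine.Point.some x' y' h' - Affine.Point.some x y h) := by
  rcases lt_or_ge 1 (v x) with hx | hx
  · rw [sub_eq_add_neg]
    exact (E1_add hv hW ((E1_some v h').2 (h0 hx)) (E1_neg hv hW ((E1_some v h).2 hx)).1).1
  · exact close hv hW h h' hx (ns_good hv hW hΔ h.1 hx) (h1 hx) (h2 (y_le hv hW h.1 hx))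

end Pool.Agent.MP_e23604_nt.B
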