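import Pool.Agent.MP_e23604_nt.BDiv
import Pool.Agent.MP_e23604_nt.BLocA

/-!
Torsion points.
-/

open WeierstrassCurve Polynomial

namespace Pool.Agent.MP_e23604_nt.B

variable {F : Type} [Field F] [DecidableEq F] [IsAlgClosed F] [CharZero F]
  {W : WeierstrassCurve F} [W.IsElliptic]

/-- The x-coordinate of n P is A(x) / B(x), projectively. -/
def BTorsRep (W : WeierstrassCurve F) (n : ℕ) (A B : F[X]) : Prop :=
  ∀ (x y : F) (h : W.toAffine.Nonsingular x y), ∃ c : F, c ≠ 0 ∧
    (n • Affine.Point.some x y h).xRep = c • ![A.eval x, B.eval x]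

omit [DecidableEq F] [CharZero F] in
lemma btors_exists_y (W : WeierstrassCurve F) [W.IsElliptic] (x : F) :
    ∃ y, W.toAffine.Nonsingular x y := by
  have hd : (X ^ 2 + C (W.a₁ * x + W.a₃) * X - C (x ^ 3 + W.a₂ * x ^ 2 + W.a₄ * x + W.a₆) :
      F[X]).degree = 2 := by
    compute_degree!
  obtain ⟨y, hy⟩ := IsAlgClosed.exists_root _ (by rw [hd]; decide)
  refine ⟨y, Affine.equation_iff_nonsingular.mp ?_⟩
  rw [Affine.equation_iff]
  simp only [IsRoot.def, eval_sub, eval_add, eval_pow, eval_X, eval_mul, eval_C] at hy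
  show y ^ 2 + W.a₁ * x * y + W.a₃ * y = x ^ 3 + W.a₂ * x ^ 2 + W.a₄ * x + W.a₆
  linear_combination hy

omit [IsAlgClosed F] [CharZero F] [W.IsElliptic] in
lemma btors_zero_iff {n : ℕ} {A B : F[X]} (hr : BTorsRep W n A B) {x y : F}
    (h : W.toAffine.Nonsingular x y) : n • Affine.Point.some x y h = 0 ↔ B.eval x = 0 := by
  obtain ⟨c, hc, he⟩ := hr x y h
  have h1 := congrFun he 1
  constructor
  · intro h0
    rw [h0] at h1
    simp at h1
    exact h1.resolve_left hc
  · intro hB
    rcases hP : n • Affine.Point.some x y h with _ | ⟨x', y', h'⟩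
    · rfl
    · rw [hP] at h1
      simp [hB] at h1

omit [CharZero F] in
lemma btors_no_common {n : ℕ} {A B : F[X]} (hr : BTorsRep W n A B) (x : F) :
    A.eval x ≠ 0 ∨ B.eval x ≠ 0 := by
  obtain ⟨y, h⟩ := btors_exists_y W x
  obtain ⟨c, hc, he⟩ := hr x y h
  by_contra hn
  push Not at hn
  apply Affine.Point.xRep_ne_zero (n • Affine.Point.some x y h)
  rw [he, hn.1, hn.2]
  simp

omit [IsAlgClosed F] [CharZero F] [W.IsElliptic] in
lemma btors_some {n : ℕ} {A B : F[X]} (hr : BTorsRep W n A B) {x y : F}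
    (h : W.toAffine.Nonsingular x y) {x' y' : F} (h' : W.toAffine.Nonsingular x' y')
    (he : n • Affine.Point.some x y h = Affine.Point.some x' y' h') :
    A.eval x = x' * B.eval x := by
  obtain ⟨c, hc, hx⟩ := hr x y h
  rw [he] at hx
  have h0 := congrFun hx 0
  have h1 := congrFun hx 1
  simp at h0 h1
  apply mul_left_cancel₀ hc
  linear_combination -h0 + x' * h1

omit [IsAlgClosed F] [CharZero F] [W.IsElliptic] in
lemma btors_pm {n : ℕ} {A B : F[X]} (hr : BTorsRep W n A B) {x y : F}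
    (h : W.toAffine.Nonsingular x y) {x' y' : F} (h' : W.toAffine.Nonsingular x' y')
    (he : A.eval x = x' * B.eval x) :
    n • Affine.Point.some x y h = Affine.Point.some x' y' h' ∨
      n • Affine.Point.some x y h = -Affine.Point.some x' y' h' := by
  obtain ⟨c, hc, hx⟩ := hr x y h
  apply Affine.Point.eq_or_eq_neg_of_xRep_eq_xRep
  rcases hP : n • Affine.Point.some x y h with _ | ⟨x'', y'', h''⟩
  · exfalso
    rw [hP] at hx
    have h0 := congrFun hx 0
    have h1 := congrFun hx 1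
    simp [Affine.Point.xRep] at h0 h1
    have hB := h1.resolve_left hc
    rw [he, hB] at h0
    simp at h0
  · rw [hP] at hx
    have h0 := congrFun hx 0
    have h1 := congrFun hx 1
    simp at h0 h1
    have : x'' = x' := by
      rw [h0, he]
      linear_combination -x' * h1
    simp [this]

omit [DecidableEq F] [IsAlgClosed F] [CharZero F] in
lemma btors_deg {n : ℕ} (hn : 0 < n) {A B : F[X]} (hA : A.Monic) (hdA : A.natDegree = n ^ 2)
    (hdB : B.natDegree = n ^ 2 - 1) (c : F) :
    (A - C c * B).Monic ∧ (A - C c * B).natDegree = n ^ 2 := by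
  have hpos : 0 < n ^ 2 := pow_pos hn 2
  have h1 : (C c * B).natDegree < A.natDegree := by
    have := natDegree_C_mul_le c B
    omega
  have h2 : (C c * B).degree < A.degree := degree_lt_degree h1
  exact ⟨hA.sub_of_left h2, by rw [natDegree_sub_eq_left_of_natDegree_lt h1, hdA]⟩

omit [CharZero F] in
lemma btors_lift {n : ℕ} {A B : F[X]} (hr : BTorsRep W n A B) {x' y' : F}
    (h' : W.toAffine.Nonsingular x' y') {x : F} (hx : (A - C x' * B).IsRoot x) :
    ∃ S : W.toAffine.Point, n • S = Affine.Point.some x' y' h' ∧ S.xRep 0 = x := by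
  obtain ⟨y, h⟩ := btors_exists_y W x
  have he : A.eval x = x' * B.eval x := by
    simp only [IsRoot.def, eval_sub, eval_mul, eval_C] at hx
    linear_combination hx
  rcases btors_pm hr h h' he with h1 | h1
  · exact ⟨_, h1, by simp⟩
  · refine ⟨-Affine.Point.some x y h, ?_, ?_⟩
    · rw [smul_neg, h1, neg_neg]
    · rw [Affine.Point.xRep_neg]
      simp

theorem smul_surj {n : ℕ} (hn : 0 < n) (R : W.toAffine.Point) : ∃ S, n • S = R := by
  rcases R with _ | ⟨x', y', h'⟩
  · exact ⟨0, smul_zero n⟩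
  · obtain ⟨A, B, hA, hdA, hdB, -, -, hr, -⟩ := div_poly W n hn
    obtain ⟨hm, hd⟩ := btors_deg hn hA hdA hdB x'
    have hpos : 0 < n ^ 2 := pow_pos hn 2
    obtain ⟨x, hx⟩ := IsAlgClosed.exists_root (A - C x' * B)
      (natDegree_pos_iff_degree_pos.mp (hd ▸ hpos)).ne'
    obtain ⟨S, hS, -⟩ := btors_lift hr h' hx
    exact ⟨S, hS⟩

lemma btors_card (W : WeierstrassCurve F) [W.IsElliptic] {n : ℕ} (hn : 0 < n) :
    Nat.card {P : W.toAffine.Point // n • P = 0} = n ^ 2 := by
  classical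
  obtain ⟨A, B, hA, hdA, hdB, -, -, hr, -⟩ := div_poly W n hn
  obtain ⟨A2, B2, -, -, -, hl2, -, hr2, -⟩ := div_poly W 2 two_pos
  have hpos : 0 < n ^ 2 := pow_pos hn 2
  have hB2 : B2 ≠ 0 := by
    intro h0
    rw [h0] at hl2
    norm_num at hl2
  have hco : IsCoprime A B :=
    (Polynomial.isCoprime_iff_aeval_ne_zero_of_isAlgClosed F F A B).mpr fun a => by
      simpa using btors_no_common hr a
  have hw : wronskian A B ≠ 0 := by
    intro h0
    have := (hco.wronskian_eq_zero_iff.mp h0).1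
    have := Polynomial.derivative_eq_zero.mp this
    omega
  obtain ⟨c, hc⟩ := Infinite.exists_notMem_finset
    (B2.roots.toFinset ∪ (wronskian A B).roots.toFinset.image fun x => A.eval x / B.eval x)
  rw [Finset.mem_union, not_or] at hc
  obtain ⟨hc1, hc2⟩ := hc
  obtain ⟨y', h'⟩ := btors_exists_y W c
  have h2R : 2 • Affine.Point.some c y' h' ≠ 0 := by
    intro h0
    apply hc1
    rw [Multiset.mem_toFinset, mem_roots hB2]
    exact (btors_zero_iff hr2 h').mp h0
  obtain ⟨hm, hd⟩ := btors_deg hn hA hdA hdB c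
  have hnd : (A - C c * B).roots.Nodup := by
    rw [Multiset.nodup_iff_count_le_one]
    intro x
    rw [count_roots]
    by_contra hlt
    push Not at hlt
    obtain ⟨h1, h2⟩ := (one_lt_rootMultiplicity_iff_isRoot hm.ne_zero).mp hlt
    simp only [IsRoot.def, eval_sub, eval_mul, eval_C, derivative_sub, derivative_mul,
      derivative_C, zero_mul, zero_add] at h1 h2
    have hB : B.eval x ≠ 0 := by
      intro hB
      rcases btors_no_common hr x with h3 | h3
      · apply h3
        rw [hB] at h1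
        linear_combination h1
      · exact h3 hB
    apply hc2
    rw [Finset.mem_image]
    refine ⟨x, ?_, ?_⟩
    · rw [Multiset.mem_toFinset, mem_roots hw]
      simp only [wronskian, IsRoot.def, eval_sub, eval_mul]
      linear_combination (derivative B).eval x * h1 - B.eval x * h2
    · field_simp
      linear_combination h1
  have hcard : (A - C c * B).roots.toFinset.card = n ^ 2 := by
    rw [Multiset.toFinset_card_of_nodup hnd, IsAlgClosed.card_roots_eq_natDegree, hd]
  obtain ⟨S0, hS0⟩ := smul_surj hn (Affine.Point.some c y' h')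
  have hmem : ∀ P : W.toAffine.Point, n • P = Affine.Point.some c y' h' →
      P.xRep = ![P.xRep 0, 1] ∧ P.xRep 0 ∈ (A - C c * B).roots.toFinset := by
    intro P hP
    rcases P with _ | ⟨x, y, h⟩
    · rw [← Affine.Point.zero_def, smul_zero] at hP
      exact absurd hP.symm (Affine.Point.some_ne_zero _)
    · refine ⟨by simp, ?_⟩
      rw [Multiset.mem_toFinset, mem_roots hm.ne_zero]
      have := btors_some hr h h' hP
      simp only [IsRoot.def, eval_sub, eval_mul, eval_C, Affine.Point.xRep_some,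
        Matrix.cons_val_zero]
      linear_combination this
  have hfib : ∀ P : {P : W.toAffine.Point // n • P = 0},
      n • (P.1 + S0) = Affine.Point.some c y' h' := by
    intro P
    rw [smul_add, P.2, zero_add, hS0]
  let f : {P : W.toAffine.Point // n • P = 0} → (A - C c * B).roots.toFinset :=
    fun P => ⟨(P.1 + S0).xRep 0, (hmem _ (hfib P)).2⟩
  have hf : Function.Bijective f := by
    constructor
    · intro P Q hPQ
      have h1 : (P.1 + S0).xRep 0 = (Q.1 + S0).xRep 0 := congrArg Subtype.val hPQ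
      have h2 : (P.1 + S0).xRep = (Q.1 + S0).xRep := by
        rw [(hmem _ (hfib P)).1, (hmem _ (hfib Q)).1, h1]
      rcases Affine.Point.eq_or_eq_neg_of_xRep_eq_xRep h2 with h3 | h3
      · exact Subtype.ext (add_right_cancel h3)
      · exfalso
        apply h2R
        have h4 := hfib P
        rw [h3, smul_neg, hfib Q] at h4
        rw [two_smul]
        nth_rewrite 1 [← h4]
        exact neg_add_cancel _
    · rintro ⟨x, hx⟩
      rw [Multiset.mem_toFinset, mem_roots hm.ne_zero] at hx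
      obtain ⟨S, hS, hSx⟩ := btors_lift hr h' hx
      refine ⟨⟨S - S0, by rw [smul_sub, hS, hS0, sub_self]⟩, Subtype.ext ?_⟩
      simp only [f, sub_add_cancel, hSx]
  rw [Nat.card_congr (Equiv.ofBijective f hf), Nat.card_eq_fintype_card, Fintype.card_coe, hcard]

theorem tors_card (W : WeierstrassCurve F) [W.IsElliptic] {p : ℕ} (hp : p.Prime) (h2 : p ≠ 2) :
    Nat.card {P : W.toAffine.Point // p • P = 0} = p ^ 2 :=
  btors_card W hp.pos

omit [DecidableEq F] [IsAlgClosed F] [CharZero F] [W.IsElliptic] in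
lemma btors_xRep {P : W.toAffine.Point} (h : P ≠ 0) : P.xRep = ![P.xRep 0, 1] := by
  rcases P with _ | ⟨x, y, h'⟩
  · exact absurd rfl h
  · simp

omit [DecidableEq F] [IsAlgClosed F] [CharZero F] [W.IsElliptic] in
lemma btors_E1_iff {v : AbsoluteValue F ℝ} {P : W.toAffine.Point} (h : P ≠ 0) :
    E1 v P ↔ 1 < v (P.xRep 0) := by
  rcases P with _ | ⟨x, y, h'⟩
  · exact absurd rfl h
  · simp

lemma btors_prod {n : ℕ} (hn : 0 < n) {A B : F[X]} (hr : BTorsRep W n A B)
    (hdB : B.natDegree = n ^ 2 - 1) (hl : B.leadingCoeff = (n : F) ^ 2) (hs : IsSquare B) :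
    ∃ S : Finset W.toAffine.Point, (∀ T, T ∈ S ↔ T ≠ 0 ∧ n • T = 0) ∧
      ∀ x : F, B.eval x = (n : F) ^ 2 * ∏ T ∈ S, (x - T.xRep 0) := by
  classical
  have hc := btors_card W hn
  have hpos : 0 < n ^ 2 := pow_pos hn 2
  have hfin : {P : W.toAffine.Point | n • P = 0}.Finite := by
    have : Finite {P : W.toAffine.Point // n • P = 0} :=
      Nat.finite_of_card_ne_zero (by rw [hc]; exact hpos.ne')
    exact this
  have hc2 : hfin.toFinset.card = n ^ 2 := by
    rw [← hc, ← Set.ncard_eq_toFinset_card _ hfin]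
    rfl
  have hmem : ∀ T, T ∈ hfin.toFinset.erase 0 ↔ T ≠ 0 ∧ n • T = 0 := by
    intro T
    simp
  have hc3 : (hfin.toFinset.erase 0).card = n ^ 2 - 1 := by
    rw [Finset.card_erase_of_mem (by simp), hc2]
  refine ⟨hfin.toFinset.erase 0, hmem, ?_⟩
  generalize hfin.toFinset.erase 0 = S at hmem hc3
  have hB0 : B ≠ 0 := by
    intro h0
    rw [h0, leadingCoeff_zero] at hl
    exact pow_ne_zero 2 (Nat.cast_ne_zero.mpr hn.ne') hl.symm
  have hle : S.val.map (fun T => T.xRep 0) ≤ B.roots := by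
    rw [Multiset.le_iff_count]
    intro r
    rw [count_roots, Multiset.count_map]
    by_cases he : ∃ T ∈ S, r = T.xRep 0
    · obtain ⟨T, hT, hrT⟩ := he
      have h1 : (S.filter fun Q => r = Q.xRep 0) ⊆ {T, -T} := by
        intro Q hQ
        rw [Finset.mem_filter] at hQ
        have : Q.xRep = T.xRep := by
          rw [btors_xRep ((hmem Q).mp hQ.1).1, btors_xRep ((hmem T).mp hT).1, ← hQ.2, ← hrT]
        simpa using Affine.Point.eq_or_eq_neg_of_xRep_eq_xRep this
      have h2 : (S.filter fun Q => r = Q.xRep 0).card ≤ 2 :=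
        (Finset.card_le_card h1).trans Finset.card_le_two
      refine le_trans h2 ?_
      obtain ⟨D, hD⟩ := hs
      have hroot : B.eval r = 0 := by
        obtain ⟨hT0, hTn⟩ := (hmem T).mp hT
        rcases T with _ | ⟨x, y, h⟩
        · exact absurd rfl hT0
        · rw [hrT]
          simpa using (btors_zero_iff hr h).mp hTn
      have hD0 : D.IsRoot r := by
        rw [hD, eval_mul] at hroot
        exact mul_self_eq_zero.mp hroot
      rw [le_rootMultiplicity_iff hB0, hD, pow_two]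
      exact mul_dvd_mul (dvd_iff_isRoot.mpr hD0) (dvd_iff_isRoot.mpr hD0)
    · have : (S.val.filter fun Q => r = Q.xRep 0) = 0 := by
        rw [Multiset.filter_eq_nil]
        intro Q hQ h
        exact he ⟨Q, hQ, h⟩
      rw [this]
      simp
  have heq : S.val.map (fun T => T.xRep 0) = B.roots := by
    apply Multiset.eq_of_le_of_card_le hle
    rw [IsAlgClosed.card_roots_eq_natDegree, hdB, Multiset.card_map, ← hc3]
    rfl
  intro x
  have h := C_leadingCoeff_mul_prod_multiset_X_sub_C (IsAlgClosed.card_roots_eq_natDegree (p := B))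
  rw [← h, ← heq, hl, Multiset.map_map, eval_mul, eval_C, eval_multiset_prod, Multiset.map_map]
  congr 1
  rw [Finset.prod_eq_multiset_prod]
  congr 1
  apply Multiset.map_congr rfl
  intro T _
  simp

omit [DecidableEq F] [IsAlgClosed F] [CharZero F] in
lemma btors_sub_le {v : AbsoluteValue F ℝ} (hv : IsNonarchimedean v) {x y : F} (hx : v x ≤ 1)
    (hy : v y ≤ 1) : v (x - y) ≤ 1 := by
  have := hv x (-y)
  rw [← sub_eq_add_neg, v.map_neg] at this
  exact this.trans (max_le hx hy)

omit [DecidableEq F] [IsAlgClosed F] [CharZero F] in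
lemma btors_sub_eq {v : AbsoluteValue F ℝ} (hv : IsNonarchimedean v) {x y : F} (h : v x < v y) :
    v (x - y) = v y := by
  have h1 : v x < v (-y) := by rwa [v.map_neg]
  rw [sub_eq_add_neg, IsNonarchimedean.add_eq_right_of_lt hv h1, v.map_neg]

omit [DecidableEq F] [CharZero F] in
lemma btors_root_le {v : AbsoluteValue F ℝ} {A : F[X]} (hA : A.Monic) (hd : 0 < A.natDegree)
    (h0 : v (A.eval 0) ≤ 1) : ∃ x, v x ≤ 1 ∧ A.eval x = 0 := by
  by_contra hn
  push Not at hn
  have h := prod_multiset_X_sub_C_of_monic_of_roots_card_eq hA IsAlgClosed.card_roots_eq_natDegree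
  have hne : A.roots ≠ 0 := by
    intro h1
    have := IsAlgClosed.card_roots_eq_natDegree (p := A)
    rw [h1] at this
    simp at this
    omega
  have hall : ∀ r ∈ A.roots, 1 < v r := by
    intro r hr
    by_contra h2
    exact hn r (not_lt.mp h2) ((mem_roots hA.ne_zero).mp hr)
  have key : ∀ m : Multiset F, (∀ r ∈ m, 1 < v r) → m ≠ 0 →
      1 < v ((m.map fun a => X - C a).prod.eval 0) := by
    intro m
    induction m using Multiset.induction_on with
    | empty => intro _ h; exact absurd rfl h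
    | cons a m ih =>
      intro hm _
      rw [Multiset.map_cons, Multiset.prod_cons, eval_mul, v.map_mul]
      have ha : 1 < v ((X - C a).eval 0) := by
        simpa using hm a (Multiset.mem_cons_self a m)
      by_cases hm0 : m = 0
      · subst hm0
        simpa using ha
      · have := ih (fun r hr => hm r (Multiset.mem_cons_of_mem hr)) hm0
        nlinarith
  have := key _ hall hne
  rw [h] at this
  linarith

omit [DecidableEq F] [CharZero F] in
lemma btors_generic {v : AbsoluteValue F ℝ} (hv : IsNonarchimedean v) {ι : Type} (S : Finset ι)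
    (f : ι → F) (hf : ∀ i ∈ S, v (f i) ≤ 1) :
    ∃ x, v x ≤ 1 ∧ ∏ i ∈ S, v (x - f i) = 1 := by
  have hm : (X * ∏ i ∈ S, (X - C (f i)) : F[X]).Monic :=
    monic_X.mul (monic_prod_of_monic _ _ fun i _ => monic_X_sub_C _)
  have hd : 0 < (X * ∏ i ∈ S, (X - C (f i)) : F[X]).natDegree := by
    rw [monic_X.natDegree_mul (monic_prod_of_monic _ _ fun i _ => monic_X_sub_C _), natDegree_X]
    omega
  have h1 : (1 : F[X]).natDegree < (X * ∏ i ∈ S, (X - C (f i)) : F[X]).natDegree := by
    simpa using hd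
  obtain ⟨x, hx, hr⟩ := btors_root_le (v := v) (hm.sub_of_left (degree_lt_degree h1))
    (by rwa [natDegree_sub_eq_left_of_natDegree_lt h1]) (by simp)
  refine ⟨x, hx, ?_⟩
  simp only [eval_sub, eval_mul, eval_X, eval_prod, eval_C, eval_one] at hr
  have h2 : v x * ∏ i ∈ S, v (x - f i) = 1 := by
    rw [← map_prod v, ← v.map_mul, sub_eq_zero.mp hr, v.map_one]
  have h3 : ∏ i ∈ S, v (x - f i) ≤ 1 :=
    Finset.prod_le_one (fun i _ => v.nonneg _) fun i hi => btors_sub_le hv hx (hf i hi)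
  have h4 : 0 ≤ ∏ i ∈ S, v (x - f i) := Finset.prod_nonneg fun i _ => v.nonneg _
  nlinarith [v.nonneg x]

lemma btors_kappa {n : ℕ} (hn : Odd n) {v : AbsoluteValue F ℝ}
    (hv : IsNonarchimedean v) (hW : Intg v W) (hΔ : v W.Δ = 1) :
    ∃ S : Finset W.toAffine.Point, (∀ T, T ∈ S ↔ T ≠ 0 ∧ n • T = 0 ∧ E1 v T) ∧
      v n ^ 2 * ∏ T ∈ S, v (T.xRep 0) = 1 := by
  classical
  obtain ⟨A, B, hA, hdA, hdB, hl, hs, hr, hmax⟩ := div_poly W n hn.pos
  obtain ⟨S, hS, hB⟩ := btors_prod hn.pos hr hdB hl (hs hn)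
  have hm : ∀ x, v x ≤ 1 → max (v (A.eval x)) (v (B.eval x)) = 1 := by
    intro x hx
    rw [hmax v hv hW hΔ x, max_eq_left hx, one_pow]
  refine ⟨S.filter fun T => 1 < v (T.xRep 0), ?_, ?_⟩
  · intro T
    rw [Finset.mem_filter, hS]
    constructor
    · rintro ⟨⟨h1, h2⟩, h3⟩
      exact ⟨h1, h2, (btors_E1_iff h1).mpr h3⟩
    · rintro ⟨h1, h2, h3⟩
      exact ⟨⟨h1, h2⟩, (btors_E1_iff h1).mp h3⟩
  have hvB : ∀ x, v x ≤ 1 → v (B.eval x) =
      (v n ^ 2 * ∏ T ∈ S.filter (fun T => 1 < v (T.xRep 0)), v (T.xRep 0)) *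
        ∏ T ∈ S.filter (fun T => ¬ 1 < v (T.xRep 0)), v (x - T.xRep 0) := by
    intro x hx
    rw [hB, v.map_mul, v.map_pow, map_prod v, mul_assoc,
      ← Finset.prod_filter_mul_prod_filter_not S (fun T => 1 < v (T.xRep 0))]
    congr 2
    apply Finset.prod_congr rfl
    intro T hT
    exact btors_sub_eq hv (hx.trans_lt (Finset.mem_filter.mp hT).2)
  have hf : ∀ T ∈ S.filter (fun T => ¬ 1 < v (T.xRep 0)), v (T.xRep 0) ≤ 1 :=
    fun T hT => not_lt.mp (Finset.mem_filter.mp hT).2
  have hk : 0 ≤ v n ^ 2 * ∏ T ∈ S.filter (fun T => 1 < v (T.xRep 0)), v (T.xRep 0) :=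
    mul_nonneg (sq_nonneg _) (Finset.prod_nonneg fun i _ => v.nonneg _)
  apply le_antisymm
  · obtain ⟨x, hx, h1⟩ := btors_generic hv _ (fun T : W.toAffine.Point => T.xRep 0) hf
    have h2 := hvB x hx
    rw [h1, mul_one] at h2
    rw [← h2, ← hm x hx]
    exact le_max_right _ _
  · obtain ⟨x, hx, h1⟩ := btors_root_le (v := v) hA (by rw [hdA]; exact pow_pos hn.pos 2)
      (by rw [← hm 0 (by simp)]; exact le_max_left _ _)
    have h2 := hm x hx
    rw [h1, v.map_zero, max_eq_right (v.nonneg _), hvB x hx] at h2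
    have h3 : ∏ T ∈ S.filter (fun T => ¬ 1 < v (T.xRep 0)), v (x - T.xRep 0) ≤ 1 :=
      Finset.prod_le_one (fun i _ => v.nonneg _) fun i hi => btors_sub_le hv hx (hf i hi)
    nlinarith

theorem tors_E1 {p : ℕ} (hp : p.Prime) (h2 : p ≠ 2) {v : AbsoluteValue F ℝ}
    (hv : IsNonarchimedean v) (hW : Intg v W) (hΔ : v W.Δ = 1) (hvp : v p < 1) :
    ∃ T : W.toAffine.Point, T ≠ 0 ∧ p • T = 0 ∧ E1 v T := by
  obtain ⟨S, hS, hk⟩ := btors_kappa (hp.odd_of_ne_two h2) hv hW hΔ
  rcases S.eq_empty_or_nonempty with rfl | ⟨T, hT⟩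
  · exfalso
    rw [Finset.prod_empty, mul_one] at hk
    nlinarith [v.nonneg p]
  · exact ⟨T, (hS T).mp hT⟩

omit [IsAlgClosed F] [CharZero F] [W.IsElliptic] in
lemma btors_zz_le {v : AbsoluteValue F ℝ} (hv : IsNonarchimedean v) (hW : Intg v W)
    {P : W.toAffine.Point} (hP : E1 v P) (n : ℤ) : v (zz (n • P)) ≤ v (zz P) := by
  have h1 := (E1_zsmul hv hW hP n).2
  have h2 := E1_lt hv hW hP
  have h3 := hv (zz (n • P) - n * zz P) (n * zz P)
  rw [sub_add_cancel] at h3
  have h4 : v (n : F) ≤ 1 := IsNonarchimedean.apply_intCast_le_one hv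
  have h5 := v.nonneg (zz P)
  refine h3.trans (max_le (h1.trans (by nlinarith)) ?_)
  rw [v.map_mul]
  nlinarith

omit [DecidableEq F] [IsAlgClosed F] [CharZero F] [W.IsElliptic] in
lemma btors_xz {v : AbsoluteValue F ℝ} (hv : IsNonarchimedean v) (hW : Intg v W)
    {P : W.toAffine.Point} (h0 : P ≠ 0) (hP : E1 v P) : v (P.xRep 0) * v (zz P) ^ 2 = 1 := by
  rcases P with _ | ⟨x, y, h⟩
  · exact absurd rfl h0
  · have hx : 1 < v x := hP
    have h1 := E1_xy hv hW h.1 hx
    have hy : v y ≠ 0 := by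
      intro hy
      rw [hy] at h1
      have : 0 < v x ^ 3 := by positivity
      linarith
    simp only [Affine.Point.xRep_some, Matrix.cons_val_zero, zz_some, map_div₀, v.map_neg]
    field_simp
    linear_combination -h1

theorem tors_val {p : ℕ} (hp : p.Prime) (h2 : p ≠ 2) {v : AbsoluteValue F ℝ}
    (hv : IsNonarchimedean v) (hW : Intg v W) (hΔ : v W.Δ = 1) {T : W.toAffine.Point}
    (h0 : T ≠ 0) (hT : p • T = 0) (h1 : E1 v T)
    (hC : ∀ Q : W.toAffine.Point, p • Q = 0 → E1 v Q → ∃ k : ℤ, Q = k • T) :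
    v (zz T) ^ (p - 1) = v p := by
  classical
  obtain ⟨S, hS, hk⟩ := btors_kappa (hp.odd_of_ne_two h2) hv hW hΔ
  have := Fact.mk hp
  have hord : addOrderOf T = p := addOrderOf_eq_prime hT h0
  have hSe : S = ((Finset.range p).image fun k => k • T).erase 0 := by
    ext Q
    rw [hS, Finset.mem_erase, ← hord, ← (isOfFinAddOrder_iff_nsmul_eq_zero.mpr
      ⟨p, hp.pos, hT⟩).mem_zmultiples_iff_mem_range_addOrderOf, hord]
    refine and_congr_right fun _ => ⟨fun h => ?_, fun h => ?_⟩
    · obtain ⟨k, rfl⟩ := hC Q h.1 h.2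
      exact ⟨k, rfl⟩
    · obtain ⟨k, rfl⟩ := h
      refine ⟨?_, (E1_zsmul hv hW h1 k).1⟩
      show p • k • T = 0
      rw [smul_comm, hT, smul_zero]
  have hcard : S.card = p - 1 := by
    rw [hSe, Finset.card_erase_of_mem (Finset.mem_image.mpr ⟨0, by simpa using hp.pos, by simp⟩),
      Finset.card_image_of_injOn, Finset.card_range]
    rw [Finset.coe_range, ← hord]
    exact nsmul_injOn_Iio_addOrderOf
  have hz : ∀ Q ∈ S, v (zz Q) = v (zz T) := by
    intro Q hQ
    obtain ⟨hQ0, hQp, hQ1⟩ := (hS Q).mp hQ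
    obtain ⟨k, hk⟩ := hC Q hQp hQ1
    apply le_antisymm
    · rw [hk]
      exact btors_zz_le hv hW h1 k
    · have hpT : (p : ℤ) • T = 0 := by rw [natCast_zsmul, hT]
      have hnd : ¬ (p : ℤ) ∣ k := by
        rintro ⟨j, rfl⟩
        apply hQ0
        rw [hk, mul_comm, mul_smul, hpT, smul_zero]
      obtain ⟨a, b, hab⟩ :=
        ((Nat.prime_iff_prime_int.mp hp).irreducible.coprime_iff_not_dvd).mpr hnd
      have hTQ : T = b • Q := by
        rw [hk, ← mul_smul]
        nth_rewrite 1 [← one_smul ℤ T]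
        rw [← hab, add_smul, mul_smul, hpT, smul_zero, zero_add]
      have := btors_zz_le hv hW hQ1 b
      rwa [← hTQ] at this
  have h3 : (∏ Q ∈ S, v (Q.xRep 0)) * (v (zz T) ^ (p - 1)) ^ 2 = 1 := by
    rw [← hcard, ← pow_mul, mul_comm S.card, pow_mul, ← Finset.prod_const,
      ← Finset.prod_mul_distrib]
    apply Finset.prod_eq_one
    intro Q hQ
    rw [← hz Q hQ]
    exact btors_xz hv hW ((hS Q).mp hQ).1 ((hS Q).mp hQ).2.2
  have h4 : (v (zz T) ^ (p - 1)) ^ 2 = v p ^ 2 := by
    linear_combination v p ^ 2 * h3 - (v (zz T) ^ (p - 1)) ^ 2 * hk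
  exact (pow_left_inj₀ (pow_nonneg (v.nonneg _) _) (v.nonneg _) two_ne_zero).mp h4

end Pool.Agent.MP_e23604_nt.B
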