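import Pool.Agent.MP_e23604_nt.BLift
import Pool.Agent.MP_e23604_nt.BLocB
import Pool.Agent.MP_e23604_nt.BTors

/-!
Selmer cocycles are unramified at good primes.
-/

open WeierstrassCurve
open scoped Classical

namespace Pool.Agent.MP_e23604_nt.B

section

variable {F F' F'' : Type} [Field F] [CharZero F] [Field F'] [CharZero F'] [Field F'']
  [CharZero F'']

lemma BSel_act_act (W : WeierstrassCurve ℚ) (f : F →+* F') (g : F' →+* F'') (P : Pts W F) :
    act W g (act W f P) = act W (g.comp f) P := by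
  rcases P with _ | ⟨x, y, h⟩ <;> rfl

lemma BSel_act_inj (W : WeierstrassCurve ℚ) (f : F →+* F') : Function.Injective (act W f) :=
  WeierstrassCurve.Affine.Point.map_injective _

lemma BSel_act_some (W : WeierstrassCurve ℚ) (f : F →+* F') {x y : F}
    (h : (W.baseChange F).toAffine.Nonsingular x y) :
    ∃ h', act W f (.some x y h) = .some (f x) (f y) h' := ⟨_, rfl⟩

lemma BSel_E1 (W : WeierstrassCurve ℚ) {v : AbsoluteValue F ℝ} (hv : IsNonarchimedean v)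
    (hW : Intg v (W.baseChange F)) (hΔ : v (W.baseChange F).Δ = 1) (f : F →+* F)
    (hf : ∀ x, v (f x) = v x) (P : Pts W F)
    (H : ∀ x y h, P = .some x y h → (v x ≤ 1 → v (f x - x) < 1) ∧ (v y ≤ 1 → v (f y - y) < 1)) :
    E1 v (act W f P - P) := by
  rcases P with _ | ⟨x, y, h⟩
  · change E1 v (act W f 0 - 0)
    rw [map_zero, sub_zero]
    exact E1_zero v
  · obtain ⟨h', e⟩ := BSel_act_some W f h
    rw [e]
    exact close_good hv hW hΔ h h' (fun h₀ => (hf x).symm ▸ h₀) (H x y h rfl).1 (H x y h rfl).2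

end

lemma BSel_gal_mul (W : WeierstrassCurve ℚ) (σ τ : GQ) (P : Pts W Qb) :
    galQ W (σ * τ) P = galQ W σ (galQ W τ P) := by
  rcases P with _ | ⟨x, y, h⟩ <;> rfl

lemma BSel_gal_one (W : WeierstrassCurve ℚ) (P : Pts W Qb) : galQ W 1 P = P := by
  rcases P with _ | ⟨x, y, h⟩ <;> rfl

/-- The coboundary of R. -/
noncomputable def BSel_dd (W : WeierstrassCurve ℚ) (R : Pts W Qb) : GQ → Pts W Qb :=
  fun σ => galQ W σ R - R

lemma BSel_dd_mem (W : WeierstrassCurve ℚ) (R : Pts W Qb) : BSel_dd W R ∈ cocycles W := by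
  constructor
  · rw [IsLocallyConstant.iff_eventually_eq]
    intro σ
    rcases R with _ | ⟨x, y, h⟩
    · exact Filter.Eventually.of_forall fun τ => rfl
    · filter_upwards [(isLC_apply x).eventually_eq σ, (isLC_apply y).eventually_eq σ]
        with τ h1 h2
      unfold BSel_dd galQ
      obtain ⟨h₁, e₁⟩ := BSel_act_some W (τ : Qb →+* Qb) h
      obtain ⟨h₂, e₂⟩ := BSel_act_some W (σ : Qb →+* Qb) h
      rw [e₁, e₂]
      congr 2
  · intro σ τ
    simp only [BSel_dd, BSel_gal_mul, map_sub]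
    abel

lemma BSel_dd_loc (W : WeierstrassCurve ℚ) (R : Pts W Qb) (F : Type) [Field F] [CharZero F] :
    LocTriv W F (BSel_dd W R) := by
  refine ⟨act W (emb F) R, fun σ τ h => ?_⟩
  rw [BSel_dd, galQ, map_sub, BSel_act_act, BSel_act_act]
  congr 2
  ext x
  exact congrFun (congrArg _ (congrArg _ (RingHom.ext h))) _

theorem sha_rep (W : WeierstrassCurve ℚ) [W.IsElliptic] {p : ℕ} (hp : 0 < p) {c : H1 (galQ W)}
    (hc : c ∈ Sha W) (h : p • c = 0) : ∃ ξ : Z1 (galQ W), QuotientAddGroup.mk ξ = c ∧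
      (∀ σ, p • ξ.1 σ = 0) ∧ ∀ (q : ℕ) [Fact q.Prime], LocTriv W ℚ_[q] ξ.1 := by
  obtain ⟨ξ, rfl⟩ := QuotientAddGroup.mk_surjective c
  have hl : ∀ (q : ℕ) [Fact q.Prime], LocTriv W ℚ_[q] ξ.1 := by
    intro q hq
    obtain ⟨η, hη, e⟩ := AddSubgroup.mem_iInf.1 (AddSubgroup.mem_iInf.1 hc.2 q) hq
    obtain ⟨P, hP⟩ := QuotientAddGroup.eq.1 e
    have : ξ.1 = η.1 + BSel_dd _ P := by
      funext σ
      have := hP σ σ rfl
      simp only [AddMonoidHom.id_apply, AddSubgroup.coe_add, AddSubgroup.coe_neg,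
        AddSubgroup.subtype_apply, Pi.add_apply, Pi.neg_apply] at this
      exact neg_add_eq_iff_eq_add.1 this
    rw [this]
    exact LocTriv.add hη (BSel_dd_loc _ _ _)
  obtain ⟨P, hP⟩ := (QuotientAddGroup.eq_zero_iff (p • ξ)).1 h
  have ell : (W.baseChange Qb).IsElliptic := inferInstanceAs (W.map _).IsElliptic
  obtain ⟨Q, rfl⟩ := smul_surj (W := W.baseChange Qb) hp P
  refine ⟨ξ - ⟨_, BSel_dd_mem W Q⟩, ?_, fun σ => ?_, fun q _ => ?_⟩
  · refine (QuotientAddGroup.eq.2 ⟨Q, ?_⟩)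
    rintro σ _ rfl
    simp [BSel_dd]
  · have : p • ξ.1 σ = galQ W σ (p • Q) - p • Q := hP σ σ rfl
    simp only [AddSubgroup.coe_sub, Pi.sub_apply, BSel_dd, nsmul_sub, this, map_nsmul, sub_self]
  · rw [AddSubgroup.coe_sub, sub_eq_add_neg]
    exact (hl q).add (BSel_dd_loc _ _ _).neg

theorem inr_E1 (W : WeierstrassCurve ℚ) {v : AbsoluteValue Qb ℝ} (hv : IsNonarchimedean v)
    (hW : Intg v (W.baseChange Qb)) (hΔ : v (W.baseChange Qb).Δ = 1) {τ : GQ} (hτ : Inr v τ)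
    (P : Pts W Qb) : E1 v (galQ W τ P - P) :=
  BSel_E1 W hv hW hΔ (τ : Qb →+* Qb) (Inr_eq hv hτ) P fun x y _ _ => ⟨hτ x, hτ y⟩

lemma BSel_finset {M : Type} {ξ : GQ → M} (hξ : IsLocallyConstant ξ) (τ : GQ) :
    ∃ X : Finset Qb, ∀ τ' : GQ, (∀ x ∈ X, τ' x = τ x) → ξ τ' = ξ τ := by
  have h : IsLocallyConstant fun ρ : GQ => ξ (τ * ρ) := hξ.comp_continuous (by fun_prop)
  obtain ⟨E, hE, hs⟩ := (krullTopology_mem_nhds_one_iff ℚ Qb _).1 (h.eventually_eq 1)
  let b := Module.finBasis ℚ E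
  refine ⟨Finset.univ.image fun i => (b i : Qb), fun τ' H => ?_⟩
  have : τ⁻¹ * τ' ∈ E.fixingSubgroup := by
    rw [IntermediateField.mem_fixingSubgroup_iff]
    intro x hx
    have e : (τ' : Qb →ₗ[ℚ] Qb).comp E.val.toLinearMap =
        (τ : Qb →ₗ[ℚ] Qb).comp E.val.toLinearMap :=
      b.ext fun i => H _ (Finset.mem_image_of_mem _ (Finset.mem_univ i))
    have e' : τ' x = τ x := LinearMap.congr_fun e ⟨x, hx⟩
    rw [AlgEquiv.mul_apply, e', ← AlgEquiv.mul_apply, inv_mul_cancel, AlgEquiv.one_apply]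
  simpa using hs this

lemma BSel_rat (q : ℕ) [Fact q.Prime] (g : GQ) (r : ℚ) :
    nv q g (algebraMap ℚ Qb r) =
      NormedField.toAbsoluteValue (PadicAlgCl q) (algebraMap ℚ (PadicAlgCl q) r) := by
  rw [nv_apply, eq_ratCast, eq_ratCast, map_ratCast, map_ratCast]
  rfl

theorem sel_unram (W : WeierstrassCurve ℚ) {ξ : GQ → Pts W Qb} (hξ : ξ ∈ cocycles W) {p : ℕ}
    (hp : ∀ σ, p • ξ σ = 0) (q : ℕ) [Fact q.Prime] (hl : LocTriv W ℚ_[q] ξ) (g : GQ)
    (hW : Intg (nv q g) (W.baseChange Qb)) (hΔ : nv q g (W.baseChange Qb).Δ = 1)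
    (hvp : nv q g p = 1) {τ : GQ} (hτ : Inr (nv q g) τ) : ξ τ = 0 := by
  have hmul : ∀ σ τ, ξ (σ * τ) = ξ σ + galQ W σ (ξ τ) := hξ.2
  have h1 : ξ 1 = 0 := by
    have := hmul 1 1
    rw [mul_one, BSel_gal_one] at this
    simpa using this
  -- the conjugate element
  have hτ₀ : Inr (nv q 1) (g * τ * g⁻¹ : GQ) := by
    intro x hx
    have e : ∀ y, nv q 1 y = nv q g (g⁻¹ y) := fun y => by rw [← nv_mul, mul_inv_cancel]
    rw [e] at hx ⊢
    have := hτ _ hx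
    rwa [map_sub, ← AlgEquiv.mul_apply, ← mul_assoc, inv_mul_cancel_left, AlgEquiv.mul_apply]
  have h0 : ξ (g * τ * g⁻¹) = 0 := by
    obtain ⟨X, hX⟩ := BSel_finset hξ.1 (g * τ * g⁻¹)
    obtain ⟨R, hR⟩ := hl
    obtain ⟨Y, hY⟩ : ∃ Y : Finset (PadicAlgCl q), ∀ x y h, R = .some x y h → x ∈ Y ∧ y ∈ Y := by
      rcases R with _ | ⟨x, y, h⟩
      · exact ⟨∅, fun _ _ _ e => by cases e⟩
      · exact ⟨{x, y}, fun _ _ _ e => by cases e; simp⟩
    obtain ⟨σ, τ', h₁, h₂, h₃⟩ := loc_lift q hτ₀ X Y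
    rw [← hX τ' h₂]
    let w := NormedField.toAbsoluteValue (PadicAlgCl q)
    have hw : IsNonarchimedean w := fun x y => IsUltrametricDist.norm_add_le_max x y
    have hW' : Intg w (W.baseChange (PadicAlgCl q)) := by
      simpa only [Intg, baseChange, map_a₁, map_a₂, map_a₃, map_a₄, map_a₆, BSel_rat] using hW
    have hΔ' : w (W.baseChange (PadicAlgCl q)).Δ = 1 := by
      simpa only [baseChange, map_Δ, BSel_rat] using hΔ
    have hp' : w ((p : ℤ) : PadicAlgCl q) = 1 := by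
      have := BSel_rat q g p
      rw [map_natCast (algebraMap ℚ Qb), map_natCast (algebraMap ℚ (PadicAlgCl q)), hvp] at this
      rw [Int.cast_natCast, ← this]
    have hE := BSel_E1 W hw hW' hΔ' (σ : PadicAlgCl q →+* PadicAlgCl q) (norm_gal σ) R
      fun x y h e => ⟨h₃ x (hY x y h e).1, h₃ y (hY x y h e).2⟩
    rw [← hR σ τ' h₁] at hE
    have := E1_tors hw hW' hE hp' (by rw [natCast_zsmul, ← map_nsmul, hp, map_zero])
    exact BSel_act_inj W _ (this.trans (map_zero _).symm)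
  have hfix : galQ W τ (ξ g⁻¹) = ξ g⁻¹ := by
    refine sub_eq_zero.1 (E1_tors (nv_na q g) hW (inr_E1 W (nv_na q g) hW hΔ hτ _) (n := p)
      (by rw [Int.cast_natCast, hvp]) ?_)
    rw [natCast_zsmul, nsmul_sub, ← map_nsmul, hp, map_zero, sub_zero]
  have h2 := hmul g g⁻¹
  rw [mul_inv_cancel, h1] at h2
  rw [mul_assoc, hmul, hmul, hfix, map_add, add_left_comm, ← h2, add_zero] at h0
  exact BSel_act_inj W _ (h0.trans (map_zero _).symm)

end Pool.Agent.MP_e23604_nt.B
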