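import Pool.Agent.MP_e23604_nt.BBase

/-!
Nonarchimedean absolute values on Qbar.
-/

open NumberField IsDedekindDomain

namespace Pool.Agent.MP_e23604_nt.B

section

variable {F : Type} [Field F] {v : AbsoluteValue F ℝ}

/-- The valuation ring of v. -/
def BValA_ring (hv : IsNonarchimedean v) : ValuationSubring F where
  carrier := {x | v x ≤ 1}
  mul_mem' := fun {a b} ha hb => by
    show v (a * b) ≤ 1
    rw [map_mul]
    exact mul_le_one₀ ha (v.nonneg _) hb
  one_mem' := by simp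
  add_mem' := fun {a b} ha hb => (hv a b).trans (max_le ha hb)
  zero_mem' := by simp
  neg_mem' := fun {a} ha => by simpa using ha
  mem_or_inv_mem' := fun x => by
    rcases le_total (v x) 1 with h | h
    · exact Or.inl h
    · right
      show v x⁻¹ ≤ 1
      rw [map_inv₀]
      exact inv_le_one_of_one_le₀ h

lemma BValA_geom (hv : IsNonarchimedean v) {ζ : F} (h : v ζ ≤ 1) (j : ℕ) :
    v (ζ ^ j - 1) ≤ v (ζ - 1) := by
  induction j with
  | zero => simp
  | succ j ih =>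
    have e : ζ ^ (j + 1) - 1 = ζ * (ζ ^ j - 1) + (ζ - 1) := by ring
    rw [e]
    refine (hv _ _).trans (max_le ?_ le_rfl)
    rw [map_mul]
    exact (mul_le_of_le_one_left (v.nonneg _) h).trans ih

lemma BValA_root {ζ : F} {n : ℕ} (hn : n ≠ 0) (h : ζ ^ n = 1) : v ζ = 1 := by
  have : v ζ ^ n = 1 := by rw [← map_pow, h, map_one]
  exact (pow_eq_one_iff_of_nonneg (v.nonneg _) hn).1 this

lemma BValA_sum (hv : IsNonarchimedean v) {ι : Type} (s : Finset ι) (f : ι → F) {c : ℝ}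
    (hc : 0 ≤ c) (h : ∀ i ∈ s, v (f i) ≤ c) : v (∑ i ∈ s, f i) ≤ c := by
  classical
  induction s using Finset.induction_on with
  | empty => simpa using hc
  | insert a s ha ih =>
    rw [Finset.sum_insert ha]
    exact (hv _ _).trans (max_le (h a (Finset.mem_insert_self _ _))
      (ih fun i hi => h i (Finset.mem_insert_of_mem hi)))

theorem v_int (hv : IsNonarchimedean v) {x : F} (hx : IsIntegral ℤ x) : v x ≤ 1 := by
  have h : IsIntegral (BValA_ring hv) x := hx.tower_top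
  obtain ⟨y, rfl⟩ := IsIntegrallyClosed.isIntegral_iff.1 h
  exact y.2

theorem v_coprime (hv : IsNonarchimedean v) {q : ℕ} (hq : q.Prime) (h : v q < 1) {n : ℤ}
    (hn : ¬ (q : ℤ) ∣ n) : v n = 1 := by
  have hc : IsCoprime (q : ℤ) n := (Nat.prime_iff_prime_int.1 hq).irreducible.coprime_iff_not_dvd.2 hn
  obtain ⟨a, b, hab⟩ := hc
  have e : (a : F) * q + b * n = 1 := by exact_mod_cast congrArg (Int.cast : ℤ → F) hab
  refine le_antisymm hv.apply_intCast_le_one (not_lt.1 fun hlt => ?_)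
  have h1 := hv (a * q) (b * n)
  rw [e, map_one, map_mul, map_mul] at h1
  have ha : v a ≤ 1 := hv.apply_intCast_le_one
  have hb : v b ≤ 1 := hv.apply_intCast_le_one
  have h2 : v a * v q < 1 := (mul_le_of_le_one_left (v.nonneg _) ha).trans_lt h
  have h3 : v b * v n < 1 := (mul_le_of_le_one_left (v.nonneg _) hb).trans_lt hlt
  exact absurd h1 (not_le.2 (max_lt h2 h3))

theorem v_zeta (hv : IsNonarchimedean v) {p : ℕ} (hp : p.Prime) (h : v p < 1) {ζ : F}
    (hζ : IsPrimitiveRoot ζ p) : v (ζ - 1) ^ (p - 1) = v p ∧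
      ∀ j : ℕ, v (ζ ^ j - 1 - j * (ζ - 1)) ≤ v (ζ - 1) ^ 2 := by
  have h1 : v ζ = 1 := BValA_root hp.ne_zero hζ.pow_eq_one
  constructor
  · obtain ⟨n, rfl⟩ : ∃ n, p = n + 1 := ⟨p - 1, (Nat.succ_pred_eq_of_pos hp.pos).symm⟩
    have e := congrArg v hζ.prod_one_sub_pow_eq_order
    rw [map_prod] at e
    rw [Nat.add_sub_cancel, Nat.cast_succ, ← e]
    rw [Finset.prod_congr rfl (g := fun _ => v (ζ - 1)), Finset.prod_const, Finset.card_range]
    intro k hk
    rw [v.map_sub]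
    refine le_antisymm (BValA_geom hv h1.le _) ?_
    have hk' : (k + 1).Coprime (n + 1) :=
      (Nat.coprime_of_lt_prime (Nat.succ_ne_zero k)
        (Nat.succ_lt_succ (Finset.mem_range.1 hk)) hp).symm
    have hζ' := hζ.pow_of_coprime _ hk'
    obtain ⟨i, -, hi⟩ := hζ'.eq_pow_of_pow_eq_one hζ.pow_eq_one
    have := BValA_geom hv (ζ := ζ ^ (k + 1)) (by rw [map_pow, h1, one_pow]) i
    rwa [hi] at this
  · intro j
    induction j with
    | zero => simp
    | succ j ih =>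
      have e : ζ ^ (j + 1) - 1 - ((j + 1 : ℕ) : F) * (ζ - 1) =
          (ζ ^ j - 1 - j * (ζ - 1)) + (ζ ^ j - 1) * (ζ - 1) := by push_cast; ring
      rw [e]
      refine (hv _ _).trans (max_le ih ?_)
      rw [map_mul, sq]
      exact mul_le_mul_of_nonneg_right (BValA_geom hv h1.le j) (v.nonneg _)

end

variable {v : AbsoluteValue Qb ℝ}

theorem unit_away {c : Qb} (hc : c ≠ 0) : ∃ n : ℕ, n ≠ 0 ∧
    ∀ v : AbsoluteValue Qb ℝ, IsNonarchimedean v → v n = 1 → v c = 1 := by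
  have alg : ∀ z : Qb, IsAlgebraic ℤ z := fun z =>
    (IsFractionRing.isAlgebraic_iff ℤ ℚ Qb).2 (Algebra.IsAlgebraic.isAlgebraic z)
  obtain ⟨y, hy, h1⟩ := (alg c).exists_integral_multiple
  obtain ⟨y', hy', h2⟩ := (alg c⁻¹).exists_integral_multiple
  refine ⟨(y * y').natAbs, Int.natAbs_ne_zero.2 (mul_ne_zero hy hy'), fun v hv hn => ?_⟩
  have e : v y * v y' = 1 := by
    rw [← hn, ← map_mul, ← Int.cast_mul, ← Int.cast_natCast (R := Qb), Int.natCast_natAbs]
    rcases abs_choice (y * y') with h | h <;> rw [h]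
    rw [Int.cast_neg, v.map_neg]
  have a1 : v y ≤ 1 := hv.apply_intCast_le_one
  have a2 : v y' ≤ 1 := hv.apply_intCast_le_one
  have b1 : v y = 1 := by nlinarith [v.nonneg y, v.nonneg y']
  have b2 : v y' = 1 := by nlinarith [v.nonneg y, v.nonneg y']
  have c1 := v_int hv h1
  have c2 := v_int hv h2
  rw [zsmul_eq_mul, map_mul, b1, one_mul] at c1
  rw [zsmul_eq_mul, map_mul, b2, one_mul, map_inv₀] at c2
  exact le_antisymm c1 ((inv_le_one₀ (v.pos hc)).1 c2)

theorem v_rat (hv : IsNonarchimedean v) {q : ℕ} (hq : q.Prime) (h : v q < 1) {x : ℚ}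
    (hx : x ≠ 0) : ∃ m : ℤ, v x = v q ^ m := by
  have key : ∀ n : ℕ, n ≠ 0 → ∃ m : ℕ, v n = v q ^ m := fun n hn => by
    obtain ⟨e, n', h1, rfl⟩ := Nat.exists_eq_pow_mul_and_not_dvd hn q hq.ne_one
    refine ⟨e, ?_⟩
    have := v_coprime hv hq h (n := n') (by exact_mod_cast h1)
    rw [Int.cast_natCast] at this
    rw [Nat.cast_mul, Nat.cast_pow, map_mul, map_pow, this, mul_one]
  obtain ⟨a, ha⟩ := key x.num.natAbs (Int.natAbs_ne_zero.2 (Rat.num_ne_zero.2 hx))
  obtain ⟨b, hb⟩ := key x.den x.den_nz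
  have hq0 : v q ≠ 0 := (v.pos (Nat.cast_ne_zero.2 hq.ne_zero)).ne'
  refine ⟨a - b, ?_⟩
  rw [zpow_sub₀ hq0, zpow_natCast, zpow_natCast, ← ha, ← hb, Rat.cast_def, map_div₀]
  congr 1
  rw [← Int.cast_natCast (R := Qb), Int.natCast_natAbs]
  rcases abs_choice x.num with h | h <;> rw [h]
  rw [Int.cast_neg, v.map_neg]

lemma BValA_fix (X : Finset Qb) : ∃ N : ℕ, 0 < N ∧ ∀ σ : GQ, ∀ x ∈ X, (σ ^ N) x = x := by
  have h1 : ∀ x ∈ X, (MulAction.stabilizer GQ x).FiniteIndex := fun x _ => by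
    refine ⟨?_⟩
    rw [MulAction.index_stabilizer]
    refine Set.ncard_ne_zero_of_mem (MulAction.mem_orbit_self x) ?_
    refine ((minpoly ℚ x).rootSet_finite Qb).subset ?_
    rintro _ ⟨σ, rfl⟩
    have hi : IsIntegral ℚ x := Algebra.IsIntegral.isIntegral x
    rw [Polynomial.mem_rootSet_of_ne (minpoly.ne_zero hi)]
    show Polynomial.aeval (σ x) (minpoly ℚ x) = 0
    rw [Polynomial.aeval_algHom_apply σ, minpoly.aeval, map_zero]
  have h2 := Subgroup.finiteIndex_iInf' _ h1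
  refine ⟨(⨅ x ∈ X, MulAction.stabilizer GQ x).index.factorial, Nat.factorial_pos _,
    fun σ x hx => ?_⟩
  have h3 := Subgroup.pow_mem_of_index_ne_zero_of_dvd h2.index_ne_zero σ
    fun m h0 hm => Nat.dvd_factorial h0 hm
  simp only [Subgroup.mem_iInf] at h3
  exact h3 x hx

lemma BValA_lt (hv : IsNonarchimedean v) {τ : GQ} (hτ : Inr v τ) {y : Qb} (hy : v y < 1) :
    v (τ y) < 1 := by
  have := hv (τ y - y) y
  rw [sub_add_cancel] at this
  exact this.trans_lt (max_lt (hτ y hy.le) hy)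

lemma BValA_ge (hv : IsNonarchimedean v) {τ : GQ} (hτ : Inr v τ) (x : Qb) : v x ≤ v (τ x) := by
  by_contra hlt
  rw [not_le] at hlt
  have hx : x ≠ 0 := by rintro rfl; simp at hlt
  have h1 : ∀ k : ℕ, v ((τ ^ k) (τ x / x)) < 1 := fun k => by
    induction k with
    | zero =>
      rw [pow_zero, AlgEquiv.one_apply, map_div₀, div_lt_one (v.pos hx)]
      exact hlt
    | succ k ih =>
      rw [pow_succ', AlgEquiv.mul_apply]
      exact BValA_lt hv hτ ih
  have h2 : StrictAnti fun k : ℕ => v ((τ ^ k) x) := strictAnti_nat_of_succ_lt fun k => by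
    have := h1 k
    rwa [map_div₀, map_div₀, div_lt_one (v.pos ((map_ne_zero _).2 hx)), ← AlgEquiv.mul_apply,
      ← pow_succ] at this
  obtain ⟨N, hN, h3⟩ := BValA_fix {x}
  have h4 := h2 hN
  simp only [h3 τ x (Finset.mem_singleton_self x), pow_zero, AlgEquiv.one_apply] at h4
  exact lt_irrefl _ h4

theorem Inr_eq (hv : IsNonarchimedean v) {τ : GQ} (hτ : Inr v τ) (x : Qb) : v (τ x) = v x := by
  refine le_antisymm ?_ (BValA_ge hv hτ x)
  rcases eq_or_ne x 0 with rfl | hx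
  · simp
  have := BValA_ge hv hτ x⁻¹
  rwa [map_inv₀ τ, map_inv₀, map_inv₀, inv_le_inv₀ (v.pos hx) (v.pos ((map_ne_zero _).2 hx))]
    at this

theorem Inr_mul (hv : IsNonarchimedean v) {σ τ : GQ} (hσ : Inr v σ) (hτ : Inr v τ) :
    Inr v (σ * τ : GQ) := by
  intro x hx
  have e : (σ * τ : GQ) x - x = (σ (τ x) - τ x) + (τ x - x) := by
    rw [AlgEquiv.mul_apply]; ring
  rw [e]
  exact (hv _ _).trans_lt (max_lt (hσ _ ((Inr_eq hv hτ x).trans_le hx)) (hτ x hx))

theorem Inr_inv (hv : IsNonarchimedean v) {τ : GQ} (hτ : Inr v τ) : Inr v (τ⁻¹ : GQ) := by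
  intro x hx
  have e : τ ((τ⁻¹ : GQ) x) = x := by
    rw [← AlgEquiv.mul_apply, mul_inv_cancel, AlgEquiv.one_apply]
  have h1 := hτ ((τ⁻¹ : GQ) x) (by rw [← Inr_eq hv hτ, e]; exact hx)
  rwa [e, v.map_sub] at h1

theorem Inr_pow (hv : IsNonarchimedean v) {τ : GQ} (hτ : Inr v τ) (n : ℕ) :
    Inr v (τ ^ n : GQ) := by
  induction n with
  | zero => intro x _; simp
  | succ n ih => rw [pow_succ]; exact Inr_mul hv ih hτ

theorem Inr_root (hv : IsNonarchimedean v) {τ : GQ} (hτ : Inr v τ) {ζ : Qb} {n : ℕ}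
    (hn : v n = 1) (h : ζ ^ n = 1) : τ ζ = ζ := by
  have hn0 : n ≠ 0 := by rintro rfl; simp at hn
  have h1 : v ζ = 1 := BValA_root hn0 h
  have hζ : ζ ≠ 0 := by rintro rfl; simp at h1
  by_contra hne
  have hη : τ ζ / ζ ≠ 1 := fun e => hne ((div_eq_one_iff_eq hζ).1 e)
  have h2 : (τ ζ / ζ) ^ n = 1 := by rw [div_pow, ← map_pow, h, map_one, div_one]
  have h3 : v (τ ζ / ζ - 1) < 1 := by
    rw [div_sub_one hζ, map_div₀, h1, div_one]
    exact hτ ζ h1.le
  have h4 : ∑ i ∈ Finset.range n, (τ ζ / ζ) ^ i = 0 := by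
    rw [geom_sum_eq hη, h2, sub_self, zero_div]
  have h5 : ∑ i ∈ Finset.range n, ((τ ζ / ζ) ^ i - 1) = -(n : Qb) := by
    rw [Finset.sum_sub_distrib, h4]; simp
  have h6 := BValA_sum hv (Finset.range n) (fun i => (τ ζ / ζ) ^ i - 1) (v.nonneg _)
    fun i _ => BValA_geom hv (BValA_root hn0 h2).le i
  rw [h5, v.map_neg, hn] at h6
  exact absurd h3 (not_lt.2 h6)

theorem pow_fix (X : Finset Qb) : ∃ N : ℕ, 0 < N ∧ ∀ σ : GQ, ∀ x ∈ X, (σ ^ N) x = x := by
  exact BValA_fix X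

theorem val_one {L : Type} [Field L] [NumberField L] {w : AbsoluteValue L ℝ}
    (Q : HeightOneSpectrum (𝓞 L)) (hQ : ∀ x : 𝓞 L, x ∈ Q.asIdeal ↔ w x < 1)
    (hw : IsNonarchimedean w) {y : L} (hy : w y = 1) : Q.valuation L y = 1 := by
  have h1 : ∀ a : 𝓞 L, a ∉ Q.asIdeal ↔ w (algebraMap (𝓞 L) L a) = 1 := fun a => by
    rw [hQ, not_lt]
    exact ⟨fun h => le_antisymm (v_int hw a.isIntegral_coe) h, fun h => h.ge⟩
  obtain ⟨n, d, h | h⟩ := Q.exists_primeCompl_mul_eq_or_mul_eq y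
  · have hd : d.1 ∉ Q.asIdeal := d.2
    have hn : n ∉ Q.asIdeal := by rw [h1, ← h, map_mul, hy, (h1 _).1 hd, mul_one]
    have := congrArg (Q.valuation L) h
    rwa [map_mul, Q.valuation_eq_one_iff_notMem.2 hd, Q.valuation_eq_one_iff_notMem.2 hn,
      mul_one] at this
  · have hd : d.1 ∉ Q.asIdeal := d.2
    have hn : n ∉ Q.asIdeal := by
      have := (h1 _).1 hd
      rwa [← h, map_mul, hy, one_mul, ← h1] at this
    have := congrArg (Q.valuation L) h
    rwa [map_mul, Q.valuation_eq_one_iff_notMem.2 hd, Q.valuation_eq_one_iff_notMem.2 hn,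
      mul_one] at this

theorem frac (hv : IsNonarchimedean v) {q : ℕ} (hq : q.Prime) (h : v q < 1) {x : Qb}
    (hx : v x ≤ 1) : ∃ a b : Qb, IsIntegral ℤ a ∧ IsIntegral ℤ b ∧ v b = 1 ∧ x * b = a := by
  let K := IntermediateField.adjoin ℚ {x}
  have : FiniteDimensional ℚ K :=
    IntermediateField.adjoin.finiteDimensional (Algebra.IsIntegral.isIntegral x)
  have : NumberField K := NumberField.of_module_finite ℚ K
  let f : 𝓞 K →+* Qb := (algebraMap K Qb).comp (algebraMap (𝓞 K) K)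
  have hf : ∀ a : 𝓞 K, IsIntegral ℤ (f a) := fun a =>
    (RingOfIntegers.isIntegral a).map f.toIntAlgHom
  have hf1 : ∀ a : 𝓞 K, v (f a) ≤ 1 := fun a => v_int hv (hf a)
  let P : Ideal (𝓞 K) :=
    { carrier := {a | v (f a) < 1}
      add_mem' := fun {a b} ha hb => by
        show v (f (a + b)) < 1
        rw [map_add]
        exact (hv _ _).trans_lt (max_lt ha hb)
      zero_mem' := by simp
      smul_mem' := fun c a ha => by
        show v (f (c * a)) < 1
        rw [map_mul, map_mul]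
        exact (mul_le_of_le_one_left (v.nonneg _) (hf1 c)).trans_lt ha }
  have hP : ∀ a, a ∈ P ↔ v (f a) < 1 := fun a => Iff.rfl
  have hPp : P.IsPrime := by
    refine ⟨fun e => ?_, fun {a b} hab => ?_⟩
    · have := (hP 1).1 (e ▸ Submodule.mem_top)
      simp at this
    · rw [hP, map_mul, map_mul] at hab
      by_contra hc
      rw [not_or, hP, hP, not_lt, not_lt] at hc
      exact absurd hab (not_lt.2 (one_le_mul_of_one_le_of_one_le hc.1 hc.2))
  have hP0 : P ≠ ⊥ := fun e => by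
    have h1 : (q : 𝓞 K) ∈ P := by rw [hP, map_natCast]; exact h
    rw [e, Ideal.mem_bot] at h1
    exact hq.ne_zero (Nat.cast_eq_zero.1 h1)
  let Q : HeightOneSpectrum (𝓞 K) := ⟨P, hPp, hP0⟩
  obtain ⟨n, d, hnd⟩ := Q.exists_primeCompl_mul_eq_or_mul_eq
    (⟨x, IntermediateField.mem_adjoin_simple_self ℚ x⟩ : K)
  have hd : v (f d) = 1 := le_antisymm (hf1 _) (not_lt.1 d.2)
  rcases hnd with e | e
  · exact ⟨f n, f d, hf _, hf _, hd, congrArg (algebraMap K Qb) e⟩
  · have e' : x * f n = f d := congrArg (algebraMap K Qb) e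
    refine ⟨f d, f n, hf _, hf _, le_antisymm (hf1 _) ?_, e'⟩
    rw [← hd, ← e', map_mul]
    exact mul_le_of_le_one_left (v.nonneg _) hx

end Pool.Agent.MP_e23604_nt.B
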