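import Pool.Agent.MP_e23604_nt.BValA

/-!
Primes of number fields come from absolute values on Qbar; inertia lifts.
-/

open NumberField

namespace Pool.Agent.MP_e23604_nt.B

section generic

open scoped Pointwise

variable (K E : Type) [Field K] [Field E] [Algebra K E]

lemma BValB_coe (g : E ≃ₐ[K] E) (b : 𝓞 E) : ((g • b : 𝓞 E) : E) = g (b : E) := rfl

lemma BValB_alg (x : 𝓞 K) : ((algebraMap (𝓞 K) (𝓞 E) x : 𝓞 E) : E) = algebraMap K E (x : K) :=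
  rfl

lemma BValB_comm : SMulCommClass (E ≃ₐ[K] E) (𝓞 K) (𝓞 E) := by
  refine ⟨fun g a b => RingOfIntegers.ext ?_⟩
  rw [Algebra.smul_def, Algebra.smul_def, BValB_coe]
  simp only [map_mul, RingOfIntegers.coe_eq_algebraMap]
  congr 1
  exact g.commutes (a : K)

variable [IsGalois K E]

lemma BValB_inv : Algebra.IsInvariant (𝓞 K) (𝓞 E) (E ≃ₐ[K] E) := by
  refine ⟨fun b hb => ?_⟩
  obtain ⟨c, hc⟩ := (InfiniteGalois.mem_range_algebraMap_iff_fixed (k := K) (b : E)).2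
    fun g => congrArg (fun z : 𝓞 E => (z : E)) (hb g)
  have hi : IsIntegral ℤ c := by
    rw [← isIntegral_algHom_iff (algebraMap K E).toIntAlgHom (algebraMap K E).injective]
    have := RingOfIntegers.isIntegral_coe b
    rw [← RingOfIntegers.coe_eq_algebraMap, ← hc] at this
    exact this
  exact ⟨⟨c, hi⟩, RingOfIntegers.ext hc⟩

lemma BValB_open (b : 𝓞 E) :
    IsOpen (MulAction.stabilizer (E ≃ₐ[K] E) b : Set (E ≃ₐ[K] E)) := by
  have h := stabilizer_isOpen_of_isIntegral (K := K) (b : E)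
  have e : MulAction.stabilizer (E ≃ₐ[K] E) b = MulAction.stabilizer (E ≃ₐ[K] E) (b : E) := by
    ext g
    rw [MulAction.mem_stabilizer_iff, MulAction.mem_stabilizer_iff, ← RingOfIntegers.eq_iff]
    rfl
  rw [e]
  exact h

variable {E}

lemma BValB_conj (P P' : Ideal (𝓞 E)) [P.IsPrime] [P'.IsPrime]
    (h : ∀ x : 𝓞 K, algebraMap (𝓞 K) (𝓞 E) x ∈ P ↔ algebraMap (𝓞 K) (𝓞 E) x ∈ P') :
    ∃ ρ : E ≃ₐ[K] E, ∀ b, b ∈ P ↔ ρ • b ∈ P' := by
  letI : TopologicalSpace (𝓞 E) := ⊥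
  haveI : DiscreteTopology (𝓞 E) := ⟨rfl⟩
  haveI := BValB_comm K E
  haveI := BValB_inv K E
  haveI : ContinuousSMul (E ≃ₐ[K] E) (𝓞 E) :=
    continuousSMul_iff_stabilizer_isOpen.2 (BValB_open K E)
  obtain ⟨ρ, hρ⟩ := Algebra.IsInvariant.exists_smul_of_under_eq_of_profinite (A := 𝓞 K)
    (G := E ≃ₐ[K] E) P P' (Ideal.ext h)
  exact ⟨ρ, fun b => by rw [hρ, Ideal.smul_mem_pointwise_smul_iff]⟩

lemma BValB_surj (P : Ideal (𝓞 E)) [P.IsPrime] (e : 𝓞 E ≃+* 𝓞 E) (he : ∀ b, b ∈ P ↔ e b ∈ P)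
    (hK : ∀ x : 𝓞 K, e (algebraMap (𝓞 K) (𝓞 E) x) - algebraMap (𝓞 K) (𝓞 E) x ∈ P) :
    ∃ ρ : E ≃ₐ[K] E, (∀ b, b ∈ P → ρ⁻¹ • b ∈ P) ∧ ∀ b, e b - ρ • b ∈ P := by
  letI : TopologicalSpace (𝓞 E) := ⊥
  haveI : DiscreteTopology (𝓞 E) := ⟨rfl⟩
  haveI := BValB_comm K E
  haveI := BValB_inv K E
  haveI : ContinuousSMul (E ≃ₐ[K] E) (𝓞 E) :=
    continuousSMul_iff_stabilizer_isOpen.2 (BValB_open K E)
  have hP : P = P.map (e : 𝓞 E →+* 𝓞 E) := by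
    ext b
    obtain ⟨c, rfl⟩ := e.surjective b
    rw [← he]
    exact (Ideal.apply_mem_of_equiv_iff (f := e)).symm
  let σ : (𝓞 E ⧸ P) ≃ₐ[𝓞 K ⧸ P.under (𝓞 K)] (𝓞 E ⧸ P) :=
    AlgEquiv.ofRingEquiv (f := Ideal.quotientEquiv P P e hP) (by
      intro x
      obtain ⟨x, rfl⟩ := Ideal.Quotient.mk_surjective x
      exact Ideal.Quotient.eq.2 (hK x))
  obtain ⟨ρ, hρ⟩ := Ideal.Quotient.stabilizerHom_surjective_of_profinite (G := E ≃ₐ[K] E)
    (P.under (𝓞 K)) P σ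
  refine ⟨ρ.1, fun b hb => ?_, fun b => ?_⟩
  · have h1 : ρ.1 • P = P := ρ.2
    rw [← Ideal.mem_pointwise_smul_iff_inv_smul_mem, h1]
    exact hb
  · have h1 := DFunLike.congr_fun hρ (Ideal.Quotient.mk P b)
    exact Ideal.Quotient.eq.1 h1.symm

end generic

/-- The center of a nonarchimedean absolute value. -/
def BValB_cen {v : AbsoluteValue Qb ℝ} (hv : IsNonarchimedean v) : Ideal (𝓞 Qb) where
  carrier := {b | v (b : Qb) < 1}
  add_mem' := fun {a b} ha hb => lt_of_le_of_lt (hv (a : Qb) (b : Qb)) (max_lt ha hb)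
  zero_mem' := by
    show v 0 < 1
    rw [map_zero]
    exact one_pos
  smul_mem' := fun c b hb => by
    show v ((c : Qb) * (b : Qb)) < 1
    rw [map_mul]
    exact mul_lt_one_of_nonneg_of_lt_one_right (v_int hv c.2) (v.nonneg _) hb

lemma BValB_mem {v : AbsoluteValue Qb ℝ} (hv : IsNonarchimedean v) (b : 𝓞 Qb) :
    b ∈ BValB_cen hv ↔ v (b : Qb) < 1 := Iff.rfl

lemma BValB_prime {v : AbsoluteValue Qb ℝ} (hv : IsNonarchimedean v) : (BValB_cen hv).IsPrime := by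
  refine ⟨fun h => ?_, fun {a b} h => ?_⟩
  · have h1 : v 1 < 1 := (BValB_mem hv 1).1 (h ▸ Submodule.mem_top)
    rw [map_one] at h1
    exact lt_irrefl _ h1
  · have h1 : v ((a : Qb) * (b : Qb)) < 1 := h
    rw [map_mul] at h1
    by_contra hc
    rw [not_or, BValB_mem, BValB_mem, not_lt, not_lt] at hc
    exact absurd h1 (not_lt.2 (one_le_mul_of_one_le_of_one_le hc.1 hc.2))

lemma BValB_int {R : Type} [CommRing R] (P : Ideal R) [hP : P.IsPrime] {q : ℕ} (hq : q.Prime)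
    (h : (q : R) ∈ P) (n : ℤ) : (n : R) ∈ P ↔ (q : ℤ) ∣ n := by
  constructor
  · intro hn
    by_contra hd
    obtain ⟨a, b, hab⟩ := (Nat.prime_iff_prime_int.1 hq).irreducible.coprime_iff_not_dvd.2 hd
    have h1 := congrArg (fun z : ℤ => (z : R)) hab
    push_cast at h1
    exact hP.ne_top ((Ideal.eq_top_iff_one P).2
      (h1 ▸ P.add_mem (P.mul_mem_left _ h) (P.mul_mem_left _ hn)))
  · rintro ⟨c, rfl⟩
    push_cast
    exact P.mul_mem_right _ h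

theorem center (L : IntermediateField ℚ Qb) [FiniteDimensional ℚ L] (Q : Ideal (𝓞 L))
    [Q.IsMaximal] (q : ℕ) [Fact q.Prime] (hq : (q : 𝓞 L) ∈ Q) :
    ∃ g : GQ, ∀ x : 𝓞 L, x ∈ Q ↔ nv q g ((x : L) : Qb) < 1 := by
  obtain ⟨P, hP, hPQ⟩ := Ideal.exists_ideal_over_maximal_of_isIntegral (S := 𝓞 Qb) Q
    (by rw [RingOfIntegers.ker_algebraMap_eq_bot]; exact bot_le)
  haveI := BValB_prime (nv_na q 1)
  have h1 : (q : 𝓞 Qb) ∈ P := by
    rw [← hPQ, Ideal.mem_comap, map_natCast] at hq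
    exact hq
  have h2 : (q : 𝓞 Qb) ∈ BValB_cen (nv_na q 1) := by
    rw [BValB_mem, RingOfIntegers.coe_eq_algebraMap, map_natCast]
    exact nv_lt q 1
  obtain ⟨ρ, hρ⟩ := BValB_conj ℚ P (BValB_cen (nv_na q 1)) fun x => by
    obtain ⟨n, rfl⟩ := Rat.ringOfIntegersEquiv.symm.surjective x
    rw [eq_intCast Rat.ringOfIntegersEquiv.symm, map_intCast, BValB_int P Fact.out h1,
      BValB_int _ Fact.out h2]
  refine ⟨ρ, fun x => ?_⟩
  rw [← hPQ, Ideal.mem_comap, hρ, BValB_mem]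
  rfl

theorem lift_inr (L : IntermediateField ℚ Qb) [FiniteDimensional ℚ L] {v : AbsoluteValue Qb ℝ}
    (hv : IsNonarchimedean v) {q : ℕ} (hq : q.Prime) (h : v q < 1) (s : L ≃ₐ[ℚ] L)
    (hs : ∀ x : 𝓞 L, v ((s (x : L) : Qb) - ((x : L) : Qb)) < 1) :
    ∃ τ : GQ, Inr v τ ∧ ∀ x : L, τ (x : Qb) = (s x : Qb) := by
  obtain ⟨τ₀, h₀⟩ : ∃ τ₀ : GQ, ∀ x : L, τ₀ (x : Qb) = (s x : Qb) :=
    ⟨s.liftNormal Qb, fun x => s.liftNormal_commutes Qb x⟩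
  haveI := BValB_prime hv
  set P := BValB_cen hv with hPdef
  have hs' : ∀ τ : GQ, (∀ x : L, τ (x : Qb) = (s x : Qb)) → ∀ x : 𝓞 L,
      τ • algebraMap (𝓞 L) (𝓞 Qb) x - algebraMap (𝓞 L) (𝓞 Qb) x ∈ P := by
    intro τ hτ x
    have := hs x
    rw [← hτ] at this
    exact this
  obtain ⟨ρ, hρ⟩ := BValB_conj L P
    (P.comap (MulSemiringAction.toRingHom GQ (𝓞 Qb) τ₀)) fun x => by
      rw [Ideal.mem_comap, MulSemiringAction.toRingHom_apply]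
      have := hs' τ₀ h₀ x
      exact ⟨fun hx => by simpa using P.add_mem this hx,
        fun hx => by simpa using P.sub_mem hx this⟩
  obtain ⟨τ₁, h₁, h₂⟩ : ∃ τ₁ : GQ, (∀ x : L, τ₁ (x : Qb) = (s x : Qb)) ∧
      ∀ b, b ∈ P ↔ τ₁ • b ∈ P := by
    refine ⟨τ₀ * ρ.restrictScalars ℚ, fun x => ?_, fun b => hρ b⟩
    rw [AlgEquiv.mul_apply, ← h₀]
    exact congrArg τ₀ (ρ.commutes x)
  obtain ⟨ρ', h₃, h₄⟩ := BValB_surj L P (MulSemiringAction.toRingEquiv GQ (𝓞 Qb) τ₁) h₂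
    (hs' τ₁ h₁)
  obtain ⟨τ, h₅, h₆⟩ : ∃ τ : GQ, (∀ x : L, τ (x : Qb) = (s x : Qb)) ∧
      ∀ b : 𝓞 Qb, v (τ (b : Qb) - b) < 1 := by
    refine ⟨(ρ'⁻¹).restrictScalars ℚ * τ₁, fun x => ?_, fun b => ?_⟩
    · rw [AlgEquiv.mul_apply, h₁]
      exact (ρ'⁻¹).commutes (s x)
    · have := h₃ _ (h₄ b)
      rw [smul_sub, inv_smul_smul] at this
      exact this
  refine ⟨τ, fun x hx => ?_, h₅⟩
  obtain ⟨a, b, ha, hb, hb1, hab⟩ := frac hv hq h hx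
  have e1 : v (τ a - a) < 1 := h₆ ⟨a, ha⟩
  have e2 : v (τ b - b) < 1 := h₆ ⟨b, hb⟩
  have e3 : 1 ≤ v (τ b) := by
    by_contra hc
    have h7 := hv (τ b) (-(τ b - b))
    rw [v.map_neg, show τ b + -(τ b - b) = b by ring, hb1] at h7
    exact absurd h7 (not_le.2 (max_lt (not_le.1 hc) e2))
  have e4 : (τ x - x) * τ b = (τ a - a) + -(x * (τ b - b)) := by
    rw [← hab, map_mul]
    ring
  have e5 : v (τ x - x) * v (τ b) < 1 := by
    rw [← map_mul, e4]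
    refine lt_of_le_of_lt (hv _ _) (max_lt e1 ?_)
    rw [v.map_neg, map_mul]
    exact mul_lt_one_of_nonneg_of_lt_one_right hx (v.nonneg _) e2
  exact lt_of_le_of_lt (le_mul_of_one_le_right (v.nonneg _) e3) e5

end Pool.Agent.MP_e23604_nt.B
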