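import Pool.Agent.MP_e23604_nt.BValB

/-!
The field fixed by inertia has the same value group.
-/

open NumberField

namespace Pool.Agent.MP_e23604_nt.B

variable {v : AbsoluteValue Qb ℝ}

open IsDedekindDomain in
theorem bvalc_pow {K N : Type} [Field K] [NumberField K] [Field N] [NumberField N] [Algebra K N]
    (G : Type) [Group G] [Finite G] [MulSemiringAction G N] [IsGaloisGroup G K N]
    (w : HeightOneSpectrum (𝓞 N)) (x : K) :
    w.valuation N (algebraMap K N x) =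
      (w.under (𝓞 K)).valuation K x ^ Nat.card (w.asIdeal.inertia G) := by
  have : w.asIdeal.LiesOver (w.under (𝓞 K)).asIdeal := ⟨rfl⟩
  have := w.isPrime
  have := (w.under (𝓞 K)).isMaximal
  rw [← HeightOneSpectrum.valuation_liesOver N (w.under (𝓞 K)) w x,
    Ideal.ramificationIdx'_eq_ramificationIdx _ _ (w.under (𝓞 K)).ne_bot,
    Ideal.card_inertia_eq_ramificationIdxIn (w.under (𝓞 K)).asIdeal w.asIdeal,
    Ideal.ramificationIdxIn_eq_ramificationIdx (w.under (𝓞 K)).asIdeal w.asIdeal G]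

open IsDedekindDomain in
theorem bvalc_top {K N : Type} [Field K] [NumberField K] [Field N] [NumberField N] [Algebra K N]
    (G : Type) [Group G] [Finite G] [MulSemiringAction G N] [IsGaloisGroup G K N]
    (w : HeightOneSpectrum (𝓞 N)) (hG : ∀ (σ : G) (x : 𝓞 N), σ • x - x ∈ w.asIdeal) (x : K) :
    w.valuation N (algebraMap K N x) = (w.under (𝓞 K)).valuation K x ^ Nat.card G := by
  have htop : w.asIdeal.inertia G = ⊤ := eq_top_iff.2 fun σ _ => hG σ
  rw [bvalc_pow G w x, htop, Subgroup.card_top]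

open IsDedekindDomain in
theorem bvalc_ex {K N : Type} [Field K] [NumberField K] [Field N] [NumberField N] [Algebra K N]
    [IsGalois K N] (w : HeightOneSpectrum (𝓞 N)) {y : N}
    (hy : ∀ σ : N ≃ₐ[K] N, (∀ x : 𝓞 N, σ • x - x ∈ w.asIdeal) → σ y = y) :
    ∃ x : K, w.valuation N (algebraMap K N x) = w.valuation N y := by
  set I := w.asIdeal.inertia (N ≃ₐ[K] N) with hI
  set E : IntermediateField K N := FixedPoints.intermediateField I with hE
  have : IsGaloisGroup I E N := IsGaloisGroup.subgroup (N ≃ₐ[K] N) K N I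
  have hyE : y ∈ E := fun σ => hy σ.1 σ.2
  have h1 := bvalc_top I w (fun σ x => σ.2 x) (⟨y, hyE⟩ : E)
  obtain ⟨x, hx⟩ := (w.under (𝓞 K)).valuation_surjective K
    ((w.under (𝓞 E)).valuation E (⟨y, hyE⟩ : E))
  exact ⟨x, by rw [bvalc_pow (N ≃ₐ[K] N) w x, hx]; exact h1.symm⟩

open IsDedekindDomain in
theorem bvalc_le {N : Type} [Field N] [NumberField N] {a : AbsoluteValue N ℝ}
    (ha : IsNonarchimedean a) (w : HeightOneSpectrum (𝓞 N))
    (hw : ∀ x : 𝓞 N, x ∈ w.asIdeal ↔ a x < 1) {u : N} (hu : w.valuation N u ≤ 1) : a u ≤ 1 := by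
  obtain ⟨n, d, h⟩ := w.exists_primeCompl_mul_eq_of_integer u hu
  have hd : 1 ≤ a (d : 𝓞 N) := not_lt.1 fun h1 => d.2 ((hw d).2 h1)
  have hn : a n ≤ 1 := v_int ha n.isIntegral_coe
  have h2 : a u * a (d : 𝓞 N) = a n := by rw [← map_mul]; exact congrArg a h
  nlinarith [a.nonneg u]

open IsDedekindDomain in
theorem bvalc_center {N : Type} [Field N] [NumberField N] {a : AbsoluteValue N ℝ}
    (ha : IsNonarchimedean a) {q : ℕ} (hq : q.Prime) (h : a q < 1) :
    ∃ w : HeightOneSpectrum (𝓞 N), ∀ x : 𝓞 N, x ∈ w.asIdeal ↔ a x < 1 := by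
  let P : Ideal (𝓞 N) :=
    { carrier := {x | a x < 1}
      zero_mem' := by simp
      add_mem' := fun {x y} hx hy => by
        have := ha (x : N) (y : N)
        change a ((x : N) + y) < 1
        exact this.trans_lt (max_lt hx hy)
      smul_mem' := fun c x hx => by
        change a ((c : N) * x) < 1
        rw [map_mul]
        exact mul_lt_one_of_nonneg_of_lt_one_right (v_int ha c.isIntegral_coe) (a.nonneg _) hx }
  have hP : ∀ x : 𝓞 N, x ∈ P ↔ a x < 1 := fun _ => Iff.rfl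
  refine ⟨⟨P, ⟨?_, fun {x y} hxy => ?_⟩, ?_⟩, hP⟩
  · rw [Ideal.ne_top_iff_one, hP]
    simp
  · by_contra hc
    rw [not_or, hP, hP, not_lt, not_lt] at hc
    have h1 : a ((x : N) * y) < 1 := hxy
    rw [map_mul] at h1
    nlinarith [hc.1, hc.2]
  · intro h0
    have h1 : (q : 𝓞 N) ∈ P := by rw [hP]; simpa using h
    rw [h0, Ideal.mem_bot, Nat.cast_eq_zero] at h1
    exact hq.ne_zero h1

theorem ram_a (L : IntermediateField ℚ Qb) [FiniteDimensional ℚ L] (hv : IsNonarchimedean v)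
    {q : ℕ} (hq : q.Prime) (h : v q < 1) {y : Qb}
    (hy : ∀ τ : GQ, (∀ x ∈ L, τ x = x) → Inr v τ → τ y = y) : ∃ x ∈ L, v x = v y := by
  by_cases hy0 : y = 0
  · exact ⟨0, L.zero_mem, by rw [hy0]⟩
  have : FiniteDimensional ℚ (IntermediateField.adjoin ℚ {y}) :=
    IntermediateField.adjoin.finiteDimensional (Algebra.IsIntegral.isIntegral y)
  set M : IntermediateField ℚ Qb := L ⊔ IntermediateField.adjoin ℚ {y} with hM
  set N : IntermediateField ℚ Qb := IntermediateField.normalClosure ℚ M Qb with hN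
  have hMN : M ≤ N := IntermediateField.le_normalClosure M
  have hLN : L ≤ N := le_sup_left.trans hMN
  have hyN : y ∈ N := hMN (le_sup_right (a := L) (IntermediateField.mem_adjoin_simple_self ℚ y))
  have : NumberField L := NumberField.of_module_finite ℚ L
  have : NumberField N := NumberField.of_module_finite ℚ N
  have : Normal ℚ Qb := IsAlgClosure.normal ℚ Qb
  have : Normal ℚ N := normalClosure.normal ℚ M Qb
  have : IsGalois ℚ N := IsGalois.mk
  let _ : Algebra L N := (IntermediateField.inclusion hLN).toAlgebra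
  have : IsScalarTower ℚ L N := IsScalarTower.of_algebraMap_eq fun x => rfl
  have : IsGalois L N := IsGalois.tower_top_of_isGalois ℚ L N
  let a : AbsoluteValue N ℝ := v.comp (f := algebraMap N Qb) (RingHom.injective _)
  have ha : IsNonarchimedean a := fun x z => hv (x : Qb) (z : Qb)
  have hq1 : a q < 1 := by
    change v (algebraMap N Qb q) < 1
    rwa [map_natCast]
  obtain ⟨w, hw⟩ := bvalc_center ha hq hq1
  obtain ⟨x, hx⟩ := bvalc_ex (K := L) w (y := ⟨y, hyN⟩) fun σ hσ => by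
    obtain ⟨τ, hτ, e⟩ := lift_inr N hv hq h (σ.restrictScalars ℚ) fun x => (hw _).1 (hσ x)
    have h1 : τ y = y := hy τ (fun x hx => by
      have h2 := e ⟨x, hLN hx⟩
      have h3 : σ ⟨x, hLN hx⟩ = ⟨x, hLN hx⟩ := σ.commutes ⟨x, hx⟩
      exact h2.trans (congrArg Subtype.val h3)) hτ
    exact Subtype.ext ((e ⟨y, hyN⟩).symm.trans h1)
  have hy1 : (⟨y, hyN⟩ : N) ≠ 0 := fun e => hy0 (congrArg Subtype.val e)
  have hy2 : w.valuation N ⟨y, hyN⟩ ≠ 0 := (Valuation.ne_zero_iff _).2 hy1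
  have hx1 : algebraMap L N x ≠ 0 := (Valuation.ne_zero_iff _).1 (hx ▸ hy2)
  have h1 := bvalc_le ha w hw (u := algebraMap L N x / ⟨y, hyN⟩)
    (by rw [map_div₀, hx, div_self hy2])
  have h2 := bvalc_le ha w hw (u := ⟨y, hyN⟩ / algebraMap L N x)
    (by rw [map_div₀, hx, div_self hy2])
  rw [map_div₀, div_le_one (a.pos hy1)] at h1
  rw [map_div₀, div_le_one (a.pos hx1)] at h2
  exact ⟨x, x.2, le_antisymm h1 h2⟩

theorem omega_surj (hv : IsNonarchimedean v) {p : ℕ} (hp : p.Prime) (h : v p < 1) {ζ : Qb}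
    (hζ : IsPrimitiveRoot ζ p) {j : ℕ} (hj : ¬ p ∣ j) : ∃ τ : GQ, Inr v τ ∧ τ ζ = ζ ^ j := by
  have := Fact.mk hp
  have hp1 : p - 1 ≠ 0 := by have := hp.two_le; omega
  let J : Subgroup GQ :=
    { carrier := {τ | Inr v τ}
      one_mem' := fun x _ => by simp
      mul_mem' := fun h1 h2 => Inr_mul hv h1 h2
      inv_mem' := fun h1 => Inr_inv hv h1 }
  set Om := J.map (hζ.autToPow ℚ) with hOm
  have hmod : ∀ k : ℕ, ζ ^ (k % p) = ζ ^ k := fun k => (pow_eq_pow_mod k hζ.pow_eq_one).symm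
  set r := v (ζ - 1) with hr
  have hrp : r ^ (p - 1) = v p := (v_zeta hv hp h hζ).1
  have hr0 : 0 < r := v.pos (sub_ne_zero.2 (hζ.ne_one hp.one_lt))
  have hr1 : r < 1 := by
    by_contra hc
    have := one_le_pow₀ (n := p - 1) (not_lt.1 hc)
    linarith
  have hval : ∀ u : (ZMod p)ˣ, v (ζ ^ (u : ZMod p).val - 1) = r := fun u => by
    have h1 := (v_zeta hv hp h (hζ.pow_of_coprime _ (ZMod.val_coe_unit_coprime u))).1
    exact (pow_left_inj₀ (v.nonneg _) hr0.le hp1).1 (h1.trans hrp.symm)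
  have := Fintype.ofFinite Om
  set y : Qb := ∏ u : Om, (ζ ^ ((u : (ZMod p)ˣ) : ZMod p).val - 1) with hy
  have hfix : ∀ τ : GQ, Inr v τ → τ y = y := by
    intro τ hτ
    have hmem : hζ.autToPow ℚ τ ∈ Om := ⟨τ, hτ, rfl⟩
    rw [hy, map_prod]
    refine Fintype.prod_equiv (Equiv.mulLeft (⟨_, hmem⟩ : Om)) _ _ fun u => ?_
    rw [map_sub, map_one, map_pow, ← hζ.autToPow_spec ℚ τ, ← pow_mul, ← hmod, ← ZMod.val_mul]
    rfl
  have hvy : v y = r ^ Fintype.card Om := by
    rw [hy, map_prod]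
    simp only [hval, Finset.prod_const, Finset.card_univ]
  obtain ⟨x, hx, e⟩ := ram_a ⊥ hv hp h (y := y) fun τ _ hτ => hfix τ hτ
  obtain ⟨c, rfl⟩ := IntermediateField.mem_bot.1 hx
  have hc : c ≠ 0 := by
    rintro rfl
    rw [map_zero, map_zero, hvy] at e
    exact (pow_pos hr0 _).ne e
  obtain ⟨m, hm⟩ := v_rat hv hp h hc
  have h1 : r ^ ((Fintype.card Om : ℕ) : ℤ) = r ^ (((p - 1 : ℕ) : ℤ) * m) := by
    rw [zpow_natCast, ← hvy, ← e, zpow_mul, zpow_natCast, hrp, ← hm]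
    rfl
  have h2 := zpow_right_injective₀ hr0 hr1.ne h1
  have h3 : 0 < Fintype.card Om := Fintype.card_pos
  have h4 : p - 1 ≤ Fintype.card Om :=
    Nat.le_of_dvd h3 (Int.natCast_dvd_natCast.1 ⟨m, h2⟩)
  have htop : Om = ⊤ := Subgroup.eq_top_of_le_card _ (by
    rw [Nat.card_eq_fintype_card, Nat.card_eq_fintype_card, ZMod.card_units]; exact h4)
  have hco : j.Coprime p := ((Nat.Prime.coprime_iff_not_dvd hp).2 hj).symm
  obtain ⟨τ, hτ, e2⟩ : ZMod.unitOfCoprime j hco ∈ Om := htop ▸ Subgroup.mem_top _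
  refine ⟨τ, hτ, ?_⟩
  rw [← hζ.autToPow_spec ℚ τ, e2, ZMod.coe_unitOfCoprime, ZMod.val_natCast, hmod]

end Pool.Agent.MP_e23604_nt.B
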