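import Pool.Agent.MP_e23604_nt.Defs

/-!
The curve y^2 + a x y + b y = x^3 and symmetric coordinates.
-/

open WeierstrassCurve
open scoped Classical

set_option linter.unusedSectionVars false

noncomputable section

namespace Pool.Agent.MP_e23604_nt

/-- The curve y^2 + a x y + b y = x^3. -/
def E3 (a b : ℚ) : WeierstrassCurve ℚ := ⟨a, 0, b, 0, 0⟩

structure Good (a b : ℚ) : Prop where
  hb : b ≠ 0
  hM : a ^ 3 - 27 * b ≠ 0

variable {a b : ℚ} {F F' : Type} [Field F] [CharZero F] [Field F'] [CharZero F']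

def On (a b : ℚ) (x y : F) : Prop := y ^ 2 + a * x * y + b * y = x ^ 3

lemma E3_Δ (a b : ℚ) : (E3 a b).Δ = b ^ 3 * (a ^ 3 - 27 * b) := by
  simp only [E3, Δ, b₂, b₄, b₆, b₈]; ring

lemma Good.bF (h : Good a b) : (b : F) ≠ 0 := by exact_mod_cast h.hb

lemma Good.MF (h : Good a b) : (a : F) ^ 3 - 27 * b ≠ 0 := by exact_mod_cast h.hM

lemma bc_a₁ : ((E3 a b).baseChange F).toAffine.a₁ = a := by simp [E3, baseChange]
lemma bc_a₂ : ((E3 a b).baseChange F).toAffine.a₂ = 0 := by simp [E3, baseChange]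
lemma bc_a₃ : ((E3 a b).baseChange F).toAffine.a₃ = b := by simp [E3, baseChange]
lemma bc_a₄ : ((E3 a b).baseChange F).toAffine.a₄ = 0 := by simp [E3, baseChange]
lemma bc_a₆ : ((E3 a b).baseChange F).toAffine.a₆ = 0 := by simp [E3, baseChange]

lemma ns_iff (h : Good a b) (x y : F) :
    ((E3 a b).baseChange F).toAffine.Nonsingular x y ↔ On a b x y := by
  have hΔ : ((E3 a b).baseChange F).toAffine.Δ ≠ 0 := by
    have : ((E3 a b).baseChange F).Δ = ((E3 a b).Δ : F) := by simp [baseChange]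
    change ((E3 a b).baseChange F).Δ ≠ 0
    rw [this, E3_Δ]
    exact_mod_cast mul_ne_zero (pow_ne_zero _ h.hb) h.hM
  rw [← Affine.equation_iff_nonsingular_of_Δ_ne_zero hΔ, Affine.equation_iff, bc_a₁, bc_a₂,
    bc_a₃, bc_a₄, bc_a₆, On]
  simp

/-- The point (x,y). -/
def pt (a b : ℚ) (x y : F) : Pts (E3 a b) F :=
  if h : ((E3 a b).baseChange F).toAffine.Nonsingular x y then .some x y h else 0

lemma pt_eq (h : Good a b) {x y : F} (hxy : On a b x y) :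
    pt a b x y = .some x y ((ns_iff h x y).2 hxy) := by
  rw [pt, dif_pos]

lemma pt_cases (h : Good a b) (P : Pts (E3 a b) F) :
    P = 0 ∨ ∃ x y, On a b x y ∧ P = pt a b x y := by
  rcases P with _ | ⟨x, y, hxy⟩
  · exact Or.inl rfl
  · exact Or.inr ⟨x, y, (ns_iff h x y).1 hxy, (pt_eq h ((ns_iff h x y).1 hxy)).symm⟩

lemma pt_ne_zero (h : Good a b) {x y : F} (hxy : On a b x y) : pt a b x y ≠ 0 := by
  rw [pt_eq h hxy]; exact Affine.Point.some_ne_zero _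

lemma pt_inj (h : Good a b) {x y x' y' : F} (hxy : On a b x y) (hxy' : On a b x' y')
    (e : pt a b x y = pt a b x' y') : x = x' ∧ y = y' := by
  rw [pt_eq h hxy, pt_eq h hxy'] at e
  exact Affine.Point.some.inj e

lemma On.neg {x y : F} (hxy : On a b x y) : On a b x (-y - a * x - b) := by
  unfold On at *; linear_combination hxy

lemma pt_neg (h : Good a b) {x y : F} (hxy : On a b x y) :
    -pt a b x y = pt a b x (-y - a * x - b) := by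
  rw [pt_eq h hxy, pt_eq h hxy.neg, Affine.Point.neg_some]
  congr 1

lemma On.map {x y : F} (hxy : On a b x y) (f : F →+* F') : On a b (f x) (f y) := by
  unfold On at *
  have := congrArg f hxy
  simpa using this

lemma act_pt (h : Good a b) (f : F →+* F') {x y : F} (hxy : On a b x y) :
    act (E3 a b) f (pt a b x y) = pt a b (f x) (f y) := by
  rw [pt_eq h hxy, pt_eq h (hxy.map f)]
  rfl

lemma pt_add_ne (h : Good a b) {x₁ y₁ x₂ y₂ x₃ y₃ l : F} (h₁ : On a b x₁ y₁) (h₂ : On a b x₂ y₂)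
    (hx : x₁ ≠ x₂) (hl : l * (x₁ - x₂) = y₁ - y₂) (hx₃ : x₃ = l ^ 2 + a * l - x₁ - x₂)
    (hy₃ : y₃ = -(l * (x₃ - x₁) + y₁) - a * x₃ - b) :
    On a b x₃ y₃ ∧ pt a b x₁ y₁ + pt a b x₂ y₂ = pt a b x₃ y₃ := by
  have hs : ((E3 a b).baseChange F).toAffine.slope x₁ x₂ y₁ y₂ = l := by
    rw [Affine.slope_of_X_ne hx, div_eq_iff (sub_ne_zero.2 hx), hl]
  have e1 : ((E3 a b).baseChange F).toAffine.addX x₁ x₂
      (((E3 a b).baseChange F).toAffine.slope x₁ x₂ y₁ y₂) = x₃ := by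
    rw [hs, Affine.addX, bc_a₁, bc_a₂, hx₃]; ring
  have e2 : ((E3 a b).baseChange F).toAffine.addY x₁ x₂ y₁
      (((E3 a b).baseChange F).toAffine.slope x₁ x₂ y₁ y₂) = y₃ := by
    rw [Affine.addY, Affine.negAddY, e1, hs, Affine.negY, bc_a₁, bc_a₃, hy₃]
  have h₃ := Affine.nonsingular_add ((ns_iff h _ _).2 h₁) ((ns_iff h _ _).2 h₂)
    (fun hxy => hx hxy.left)
  rw [e1, e2] at h₃
  refine ⟨(ns_iff h _ _).1 h₃, ?_⟩
  rw [pt_eq h h₁, pt_eq h h₂, pt_eq h ((ns_iff h _ _).1 h₃), Affine.Point.add_of_X_ne hx]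
  congr 1

lemma pt_add_self (h : Good a b) {x₁ y₁ x₃ y₃ l : F} (h₁ : On a b x₁ y₁)
    (hy : 2 * y₁ + a * x₁ + b ≠ 0) (hl : l * (2 * y₁ + a * x₁ + b) = 3 * x₁ ^ 2 - a * y₁)
    (hx₃ : x₃ = l ^ 2 + a * l - x₁ - x₁)
    (hy₃ : y₃ = -(l * (x₃ - x₁) + y₁) - a * x₃ - b) :
    On a b x₃ y₃ ∧ pt a b x₁ y₁ + pt a b x₁ y₁ = pt a b x₃ y₃ := by
  have hy' : y₁ ≠ ((E3 a b).baseChange F).toAffine.negY x₁ y₁ := by
    rw [Affine.negY, bc_a₁, bc_a₃]
    intro e; apply hy; linear_combination e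
  have hs : ((E3 a b).baseChange F).toAffine.slope x₁ x₁ y₁ y₁ = l := by
    rw [Affine.slope_of_Y_ne rfl hy', div_eq_iff (sub_ne_zero.2 hy'), Affine.negY, bc_a₁, bc_a₂,
      bc_a₃, bc_a₄]
    linear_combination -hl
  have e1 : ((E3 a b).baseChange F).toAffine.addX x₁ x₁
      (((E3 a b).baseChange F).toAffine.slope x₁ x₁ y₁ y₁) = x₃ := by
    rw [hs, Affine.addX, bc_a₁, bc_a₂, hx₃]; ring
  have e2 : ((E3 a b).baseChange F).toAffine.addY x₁ x₁ y₁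
      (((E3 a b).baseChange F).toAffine.slope x₁ x₁ y₁ y₁) = y₃ := by
    rw [Affine.addY, Affine.negAddY, e1, hs, Affine.negY, bc_a₁, bc_a₃, hy₃]
  have h₃ := Affine.nonsingular_add ((ns_iff h _ _).2 h₁) ((ns_iff h _ _).2 h₁)
    (fun hxy => hy' hxy.right)
  rw [e1, e2] at h₃
  refine ⟨(ns_iff h _ _).1 h₃, ?_⟩
  rw [pt_eq h h₁, pt_eq h ((ns_iff h _ _).1 h₃), Affine.Point.add_self_of_Y_ne hy']
  congr 1

/-- The 3-torsion point T = (0,0). -/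
def T (a b : ℚ) (F : Type) [Field F] [CharZero F] : Pts (E3 a b) F := pt a b 0 0

lemma on_T : On a b (0 : F) 0 := by simp [On]

lemma neg_T (h : Good a b) : -T a b F = pt a b (0 : F) (-b) := by
  rw [T, pt_neg h on_T]; simp

lemma T_add_T (h : Good a b) : T a b F + T a b F = -T a b F := by
  rw [neg_T h]
  exact (pt_add_self h (l := 0) on_T (by simpa using h.hb) (by simp) (by simp) (by simp)).2

lemma three_T (h : Good a b) : (3 : ℕ) • T a b F = 0 := by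
  rw [show (3 : ℕ) = 2 + 1 from rfl, add_nsmul, two_nsmul, one_nsmul, T_add_T h, neg_add_cancel]

lemma T_ne_zero (h : Good a b) : T a b F ≠ 0 := pt_ne_zero h on_T

lemma act_T (h : Good a b) (f : F →+* F') : act (E3 a b) f (T a b F) = T a b F' := by
  rw [T, act_pt h f on_T]; simp [T]

/-- Symmetric coordinates. -/
structure Tr (a b : ℚ) (v₁ v₂ v₃ : F) : Prop where
  sum : v₁ + v₂ + v₃ = a
  prod : v₁ * v₂ * v₃ = b

/-- The point with symmetric coordinates v. -/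
def V (a b : ℚ) (v₁ v₂ : F) : Pts (E3 a b) F := pt a b (-(v₁ * v₂)) (v₁ ^ 2 * v₂)

variable {v₁ v₂ v₃ w₁ w₂ w₃ : F}

lemma Tr.on (t : Tr a b v₁ v₂ v₃) : On a b (-(v₁ * v₂)) (v₁ ^ 2 * v₂) := by
  unfold On; rw [← t.sum, ← t.prod]; ring

lemma Tr.rot (t : Tr a b v₁ v₂ v₃) : Tr a b v₃ v₁ v₂ :=
  ⟨by rw [← t.sum]; ring, by rw [← t.prod]; ring⟩

lemma Tr.swap (t : Tr a b v₁ v₂ v₃) : Tr a b v₂ v₁ v₃ :=
  ⟨by rw [← t.sum]; ring, by rw [← t.prod]; ring⟩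

lemma Tr.map (t : Tr a b v₁ v₂ v₃) (f : F →+* F') : Tr a b (f v₁) (f v₂) (f v₃) :=
  ⟨by simpa using congrArg f t.sum, by simpa using congrArg f t.prod⟩

lemma Tr.ne₁ (h : Good a b) (t : Tr a b v₁ v₂ v₃) : v₁ ≠ 0 := by
  rintro rfl; exact h.bF (F := F) (by rw [← t.prod]; ring)

lemma Tr.ne₂ (h : Good a b) (t : Tr a b v₁ v₂ v₃) : v₂ ≠ 0 := t.swap.ne₁ h

lemma Tr.ne₃ (h : Good a b) (t : Tr a b v₁ v₂ v₃) : v₃ ≠ 0 := t.rot.ne₁ h

lemma act_V (h : Good a b) (f : F →+* F') (t : Tr a b v₁ v₂ v₃) :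
    act (E3 a b) f (V a b v₁ v₂) = V a b (f v₁) (f v₂) := by
  rw [V, act_pt h f t.on]; simp [V]

lemma neg_V (h : Good a b) (t : Tr a b v₁ v₂ v₃) : -V a b v₁ v₂ = V a b v₂ v₁ := by
  rw [V, pt_neg h t.on, V]
  congr 1
  · ring
  · rw [← t.sum, ← t.prod]; ring

lemma V_add_T (h : Good a b) (t : Tr a b v₁ v₂ v₃) : V a b v₁ v₂ + T a b F = V a b v₃ v₁ := by
  have h1 := t.ne₁ h
  have h2 := t.ne₂ h
  refine (pt_add_ne h (l := -v₁) t.on on_T (by simp [h1, h2]) (by ring) ?_ ?_).2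
  · rw [← t.sum]; ring
  · rw [← t.sum, ← t.prod]; ring

lemma V_sub_T (h : Good a b) (t : Tr a b v₁ v₂ v₃) : V a b v₁ v₂ - T a b F = V a b v₂ v₃ := by
  rw [sub_eq_iff_eq_add, V_add_T h t.rot.rot]

lemma V_inj (h : Good a b) (t : Tr a b v₁ v₂ v₃) (s : Tr a b w₁ w₂ w₃)
    (e : V a b v₁ v₂ = V a b w₁ w₂) : v₁ = w₁ ∧ v₂ = w₂ ∧ v₃ = w₃ := by
  obtain ⟨e1, e2⟩ := pt_inj h t.on s.on e
  have h1 := t.ne₁ h
  have h2 := t.ne₂ h
  have e3 : v₁ = w₁ := by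
    have : (v₁ * v₂) * (v₁ - w₁) = 0 := by linear_combination e2 + w₁ * e1
    rcases mul_eq_zero.1 this with h3 | h3
    · exact absurd h3 (mul_ne_zero h1 h2)
    · exact sub_eq_zero.1 h3
  subst e3
  have e4 : v₂ = w₂ := mul_left_cancel₀ h1 (neg_injective e1)
  subst e4
  exact ⟨rfl, rfl, by linear_combination t.sum - s.sum⟩

/-- Membership in the subgroup generated by T. -/
def InT (P : Pts (E3 a b) F) : Prop := P = 0 ∨ P = T a b F ∨ P = -T a b F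

lemma V_not_InT (h : Good a b) (t : Tr a b v₁ v₂ v₃) : ¬ InT (V a b v₁ v₂) := by
  have hx : -(v₁ * v₂) ≠ 0 := by simp [t.ne₁ h, t.ne₂ h]
  rintro (e | e | e)
  · exact pt_ne_zero h t.on e
  · exact hx (pt_inj h t.on on_T e).1
  · rw [neg_T h] at e
    exact hx (pt_inj h t.on (by simp [On]; ring) e).1

lemma pt_eq_V {x y : F} (hxy : On a b x y) (hx : x ≠ 0) :
    Tr a b (-y / x) ((y + a * x + b) / x) (-b / x) ∧
      pt a b x y = V a b (-y / x) ((y + a * x + b) / x) := by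
  unfold On at hxy
  refine ⟨⟨by field_simp; ring, by field_simp; linear_combination (b : F) * hxy⟩, ?_⟩
  rw [V]
  congr 1
  · field_simp; linear_combination -hxy
  · field_simp; linear_combination -y * hxy

lemma InT_or_V (h : Good a b) (P : Pts (E3 a b) F) :
    InT P ∨ ∃ v₁ v₂ v₃, Tr a b v₁ v₂ v₃ ∧ P = V a b v₁ v₂ := by
  rcases pt_cases h P with rfl | ⟨x, y, hxy, rfl⟩
  · exact Or.inl (Or.inl rfl)
  by_cases hx : x = 0
  · subst hx
    have : y * (y + b) = 0 := by unfold On at hxy; linear_combination hxy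
    rcases mul_eq_zero.1 this with h1 | h1
    · subst h1; exact Or.inl (Or.inr (Or.inl rfl))
    · left; right; right
      rw [neg_T h, eq_neg_of_add_eq_zero_left h1]
  · exact Or.inr ⟨_, _, _, pt_eq_V hxy hx⟩

lemma InT.zero : InT (0 : Pts (E3 a b) F) := Or.inl rfl

lemma InT.neg {P : Pts (E3 a b) F} (hP : InT P) : InT (-P) := by
  rcases hP with rfl | rfl | rfl
  · simp [InT]
  · simp [InT]
  · simp [InT]

lemma InT.add (h : Good a b) {P Q : Pts (E3 a b) F} (hP : InT P) (hQ : InT Q) : InT (P + Q) := by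
  have e := T_add_T (F := F) h
  have e' : -T a b F + -T a b F = T a b F := by rw [← neg_add, e, neg_neg]
  rcases hP with rfl | rfl | rfl <;> rcases hQ with rfl | rfl | rfl <;> simp [InT, e, e']

lemma InT.sub (h : Good a b) {P Q : Pts (E3 a b) F} (hP : InT P) (hQ : InT Q) : InT (P - Q) := by
  rw [sub_eq_add_neg]; exact hP.add h hQ.neg

lemma InT.three (h : Good a b) {P : Pts (E3 a b) F} (hP : InT P) : (3 : ℕ) • P = 0 := by
  rcases hP with rfl | rfl | rfl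
  · simp
  · exact three_T h
  · rw [neg_nsmul, three_T h, neg_zero]

lemma InT.act (h : Good a b) (f : F →+* F') {P : Pts (E3 a b) F} (hP : InT P) :
    InT (act (E3 a b) f P) := by
  rcases hP with rfl | rfl | rfl
  · simp [InT]
  · simp [InT, act_T h]
  · simp [InT, act_T h]

lemma InT.act_self (h : Good a b) (f : F →+* F) {P : Pts (E3 a b) F} (hP : InT P) :
    Pool.Agent.MP_e23604_nt.act (E3 a b) f P = P := by
  rcases hP with rfl | rfl | rfl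
  · simp
  · simp [act_T h]
  · simp [act_T h]

lemma InT_act_iff (h : Good a b) (f : F →+* F') (P : Pts (E3 a b) F) :
    InT (act (E3 a b) f P) ↔ InT P := by
  refine ⟨fun hP => ?_, InT.act h f⟩
  rcases InT_or_V h P with h1 | ⟨v₁, v₂, v₃, t, rfl⟩
  · exact h1
  · rw [act_V h f t] at hP
    exact absurd hP (V_not_InT h (t.map f))

/-- The quadratic form N. -/
def NN (v₁ v₂ v₃ : F) : F := v₁ ^ 2 + v₂ ^ 2 + v₃ ^ 2 - v₁ * v₂ - v₂ * v₃ - v₃ * v₁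

/-- A cube root of y(3R). -/
def gg (v₁ v₂ v₃ : F) : F :=
  (v₁ ^ 2 * v₂ + v₂ ^ 2 * v₃ + v₃ ^ 2 * v₁ - 3 * v₁ * v₂ * v₃) / NN v₁ v₂ v₃

lemma V_two (h : Good a b) (t : Tr a b v₁ v₂ v₃) (h12 : v₁ ≠ v₂) :
    On a b (-(v₁ * v₂ * (v₂ - v₃) * (v₃ - v₁)) / (v₁ - v₂) ^ 2)
      (v₁ * v₂ ^ 2 * (v₃ - v₁) ^ 3 / (v₁ - v₂) ^ 3) ∧
    V a b v₁ v₂ + V a b v₁ v₂ = pt a b (-(v₁ * v₂ * (v₂ - v₃) * (v₃ - v₁)) / (v₁ - v₂) ^ 2)
      (v₁ * v₂ ^ 2 * (v₃ - v₁) ^ 3 / (v₁ - v₂) ^ 3) := by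
  have h1 := t.ne₁ h
  have h2 := t.ne₂ h
  have h3 : v₁ - v₂ ≠ 0 := sub_ne_zero.2 h12
  refine pt_add_self h (l := v₁ * (2 * v₂ - v₁ - v₃) / (v₁ - v₂)) t.on ?_ ?_ ?_ ?_
  · rw [← t.sum, ← t.prod]
    have : 2 * (v₁ ^ 2 * v₂) + (v₁ + v₂ + v₃) * -(v₁ * v₂) + v₁ * v₂ * v₃
      = v₁ * v₂ * (v₁ - v₂) := by ring
    rw [this]; exact mul_ne_zero (mul_ne_zero h1 h2) h3
  · rw [← t.sum, ← t.prod]; field_simp; ring
  · rw [← t.sum]; field_simp; ring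
  · rw [← t.sum, ← t.prod]; field_simp; ring

lemma V_three_of_ne (h : Good a b) (t : Tr a b v₁ v₂ v₃) (hN : NN v₁ v₂ v₃ ≠ 0) :
    On a b (-(gg v₁ v₂ v₃ * gg v₂ v₁ v₃)) (gg v₁ v₂ v₃ ^ 3) ∧
    (3 : ℕ) • V a b v₁ v₂ = pt a b (-(gg v₁ v₂ v₃ * gg v₂ v₁ v₃)) (gg v₁ v₂ v₃ ^ 3) := by
  have h1 := t.ne₁ h
  have h2 := t.ne₂ h
  have hN' : NN v₂ v₁ v₃ = NN v₁ v₂ v₃ := by unfold NN; ring
  rw [show (3 : ℕ) = 2 + 1 from rfl, add_nsmul, two_nsmul, one_nsmul]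
  by_cases h12 : v₁ = v₂
  · subst h12
    have hN1 : NN v₁ v₁ v₃ = (v₁ - v₃) ^ 2 := by unfold NN; ring
    have h13 : v₁ - v₃ ≠ 0 := by
      intro e; apply hN; rw [hN1, e]; ring
    have e : gg v₁ v₁ v₃ = v₁ := by
      unfold gg; rw [hN1]; field_simp; ring
    have e0 : V a b v₁ v₁ + V a b v₁ v₁ = 0 := by
      nth_rewrite 1 [← neg_V h t]; exact neg_add_cancel _
    rw [e0, zero_add, e]
    have e1 : v₁ ^ 3 = v₁ ^ 2 * v₁ := by ring
    rw [e1]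
    exact ⟨t.on, rfl⟩
  · obtain ⟨o2, e2⟩ := V_two h t h12
    have h3 : v₁ - v₂ ≠ 0 := sub_ne_zero.2 h12
    rw [e2, add_comm (pt _ _ _ _)]
    have hx : -(v₁ * v₂) - -(v₁ * v₂ * (v₂ - v₃) * (v₃ - v₁)) / (v₁ - v₂) ^ 2
        = -(v₁ * v₂ * NN v₁ v₂ v₃) / (v₁ - v₂) ^ 2 := by
      unfold NN; field_simp; ring
    have hx' : -(v₁ * v₂) ≠ -(v₁ * v₂ * (v₂ - v₃) * (v₃ - v₁)) / (v₁ - v₂) ^ 2 := by
      rw [← sub_ne_zero, hx]
      exact div_ne_zero (neg_ne_zero.2 (mul_ne_zero (mul_ne_zero h1 h2) hN)) (pow_ne_zero _ h3)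
    refine pt_add_ne h (l := -(v₁ * (v₁ - v₂) ^ 3 - v₂ * (v₃ - v₁) ^ 3) /
      ((v₁ - v₂) * NN v₁ v₂ v₃)) t.on o2 hx' ?_ ?_ ?_
    · rw [hx]; field_simp
    · unfold gg; rw [hN', ← t.sum]; field_simp; unfold NN; ring
    · unfold gg; rw [hN', ← t.sum, ← t.prod, div_pow, div_eq_iff (pow_ne_zero _ hN)]
      field_simp; unfold NN; ring

lemma V_three_of_eq (h : Good a b) (t : Tr a b v₁ v₂ v₃) (hN : NN v₁ v₂ v₃ = 0) :
    (3 : ℕ) • V a b v₁ v₂ = 0 := by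
  have h12 : v₁ ≠ v₂ := by
    rintro rfl
    have : (v₁ - v₃) ^ 2 = 0 := by rw [← hN]; unfold NN; ring
    have h13 : v₁ = v₃ := sub_eq_zero.1 (pow_eq_zero_iff two_ne_zero |>.1 this)
    subst h13
    apply h.MF (F := F)
    rw [← t.sum, ← t.prod]; ring
  obtain ⟨o2, e2⟩ := V_two h t h12
  have h3 : v₁ - v₂ ≠ 0 := sub_ne_zero.2 h12
  rw [show (3 : ℕ) = 2 + 1 from rfl, add_nsmul, two_nsmul, one_nsmul, e2]
  have : pt a b (-(v₁ * v₂ * (v₂ - v₃) * (v₃ - v₁)) / (v₁ - v₂) ^ 2)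
      (v₁ * v₂ ^ 2 * (v₃ - v₁) ^ 3 / (v₁ - v₂) ^ 3) = V a b v₂ v₁ := by
    unfold NN at hN
    rw [V]
    congr 1
    · field_simp; linear_combination (v₁ * v₂) * hN
    · field_simp; linear_combination (v₁ * v₂ ^ 2) * (v₃ + v₂ - 2 * v₁) * hN
  rw [this, ← neg_V h t, neg_add_cancel]

lemma NN_eq_zero_of_three (h : Good a b) (t : Tr a b v₁ v₂ v₃)
    (h3 : (3 : ℕ) • V a b v₁ v₂ = 0) : NN v₁ v₂ v₃ = 0 := by
  by_contra hN
  obtain ⟨o, e⟩ := V_three_of_ne h t hN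
  exact pt_ne_zero h o (e ▸ h3)

end Pool.Agent.MP_e23604_nt
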