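import Mathlib

/-!
Galois cohomology H^1(Q,E) by continuous cocycles, and the Tate-Shafarevich group.
-/

open WeierstrassCurve
open scoped Classical

noncomputable section

namespace Pool.Agent.MP_e23604_nt

/-- The algebraic closure of Q. -/
abbrev Qb : Type := AlgebraicClosure ℚ

instance instIsAlgClosureQb : IsAlgClosure ℚ Qb := AlgebraicClosure.instIsAlgClosure ℚ

/-- The absolute Galois group of Q (Krull topology). -/
abbrev GQ : Type := Qb ≃ₐ[ℚ] Qb

/-- The group E(F) of F-points of a Weierstrass curve over Q. -/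
abbrev Pts (W : WeierstrassCurve ℚ) (F : Type) [Field F] [CharZero F] : Type :=
  (W.baseChange F).toAffine.Point

/-- The map E(F) → E(F') induced by a field homomorphism F → F'. -/
def act (W : WeierstrassCurve ℚ) {F F' : Type} [Field F] [CharZero F] [Field F'] [CharZero F']
    (f : F →+* F') : Pts W F →+ Pts W F' :=
  Affine.Point.map (W' := W.toAffine) f.toRatAlgHom

section cohomology

variable {G M : Type} [Group G] [TopologicalSpace G] [AddCommGroup M]

/-- Continuous 1-cocycles G → M for the action ρ, with M discrete. -/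
def Z1 (ρ : G → M →+ M) : AddSubgroup (G → M) where
  carrier := {ξ | IsLocallyConstant ξ ∧ ∀ σ τ : G, ξ (σ * τ) = ξ σ + ρ σ (ξ τ)}
  zero_mem' := ⟨IsLocallyConstant.const 0, fun σ τ => by simp⟩
  add_mem' := by
    rintro ξ η ⟨h1, h2⟩ ⟨h3, h4⟩
    refine ⟨h1.add h3, fun σ τ => ?_⟩
    simp only [Pi.add_apply, h2, h4, map_add]
    abel
  neg_mem' := by
    rintro ξ ⟨h1, h2⟩
    refine ⟨h1.neg, fun σ τ => ?_⟩
    simp only [Pi.neg_apply, h2, map_neg]
    abel

/-- Functions ξ : G → M whose restriction along (rel, j) is a coboundary for the action ρ' of G'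
on M': there is R with j (ξ τ) = σ R - R whenever τ is the image of σ. -/
def cob {G G' M' : Type} [AddCommGroup M'] (ρ' : G' → M' →+ M') (rel : G' → G → Prop)
    (j : M →+ M') : AddSubgroup (G → M) where
  carrier := {ξ | ∃ R : M', ∀ (σ : G') (τ : G), rel σ τ → j (ξ τ) = ρ' σ R - R}
  zero_mem' := ⟨0, fun σ τ _ => by simp⟩
  add_mem' := by
    rintro ξ η ⟨P, hP⟩ ⟨Q, hQ⟩
    refine ⟨P + Q, fun σ τ h => ?_⟩
    simp only [Pi.add_apply, map_add, hP σ τ h, hQ σ τ h]
    abel
  neg_mem' := by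
    rintro ξ ⟨P, hP⟩
    refine ⟨-P, fun σ τ h => ?_⟩
    simp only [Pi.neg_apply, map_neg, hP σ τ h]
    abel

/-- H^1(G, M): cocycles modulo the coboundaries σ ↦ σ P - P. -/
def H1 (ρ : G → M →+ M) : Type :=
  Z1 ρ ⧸ (cob ρ Eq (AddMonoidHom.id M)).addSubgroupOf (Z1 ρ)

/-- The quotient group structure on H^1(G, M). -/
instance instAddCommGroupH1 (ρ : G → M →+ M) : AddCommGroup (H1 ρ) :=
  QuotientAddGroup.Quotient.addCommGroup _

/-- The classes in H^1(G, M) of the cocycles that lie in S. -/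
def classes (ρ : G → M →+ M) (S : AddSubgroup (G → M)) : AddSubgroup (H1 ρ) :=
  (S.addSubgroupOf (Z1 ρ)).map (QuotientAddGroup.mk' _)

end cohomology

/-- The action of G_Q on E(Qbar). -/
def galQ (W : WeierstrassCurve ℚ) : GQ → Pts W Qb →+ Pts W Qb := fun σ => act W (σ : Qb →+* Qb)

/-- A fixed embedding of Qbar in the algebraic closure of F. -/
def emb (F : Type) [Field F] [CharZero F] : Qb →+* AlgebraicClosure F :=
  (IsAlgClosed.lift (R := ℚ) (S := Qb) (M := AlgebraicClosure F)).toRingHom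

/-- The kernel of the restriction H^1(Q, E) → H^1(F, E). Here τ is the restriction of
σ in Gal(Fbar/F) along the embedding `emb F`. -/
def resKer (W : WeierstrassCurve ℚ) (F : Type) [Field F] [CharZero F] :
    AddSubgroup (H1 (galQ W)) :=
  classes (galQ W) (cob
    (fun σ : AlgebraicClosure F ≃ₐ[F] AlgebraicClosure F =>
      act W (σ : AlgebraicClosure F →+* AlgebraicClosure F))
    (fun σ τ => ∀ x, emb F (τ x) = σ (emb F x)) (act W (emb F)))

/-- The Tate-Shafarevich group: classes in H^1(Q,E) whose restriction to R and to every Q_p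
vanishes. -/
def Sha (W : WeierstrassCurve ℚ) : AddSubgroup (H1 (galQ W)) :=
  resKer W ℝ ⊓ ⨅ (p : ℕ) (_ : Fact p.Prime), resKer W ℚ_[p]

/-- The six linear forms P_0, ..., P_5 in (r, n). -/
def forms (r n : ℤ) : Fin 6 → ℤ :=
  ![27 * r - 14 * n, 27 * r + 13 * n, r, 27 * r - n, 27 * r - 365 * n, 27 * r + 364 * n]

/-- The curve y^2 + a x y + b y = x^3 with a = P_0 P_1 and b = P_0 P_1 P_2 P_3 P_4 P_5. -/
def curve (r n : ℤ) : WeierstrassCurve ℚ :=
  ⟨(forms r n 0 * forms r n 1 : ℤ), 0, (∏ i, forms r n i : ℤ), 0, 0⟩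

end Pool.Agent.MP_e23604_nt
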