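import Pool.Agent.MP_e23604_nt.Defs

/-!
The eight linear forms and the curve of the second family.
-/

open scoped BigOperators Classical
open Finset Function

noncomputable section

namespace Pool.Agent.MP_e23604_nt

/-- The eight forms m + c n. -/
def qq (m n : ℕ) : Fin 8 → ℕ :=
  ![m, m + 6 * n, m + 12 * n, m + 18 * n, m + 20 * n, m + 21 * n, m + 30 * n, m + 36 * n]

/-- The coefficient a. -/
def a2 (m n : ℕ) : ℤ := -3 * qq m n 6 * qq m n 7

/-- The coefficient b. -/
def b2 (m n : ℕ) : ℤ := 80 * qq m n 0 * qq m n 2 * qq m n 3 * qq m n 5 * qq m n 6 * qq m n 7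

end Pool.Agent.MP_e23604_nt
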