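import Mathlib

/-!
Arithmetic of the Eisenstein integers.
-/

open QuadraticAlgebra

noncomputable section

namespace Pool.Agent.MP_e23604_nt

abbrev Zw : Type := QuadraticAlgebra ℤ (-1) (-1)

abbrev nw (z : Zw) : ℤ := QuadraticAlgebra.norm z

lemma nw_def (z : Zw) : nw z = z.re ^ 2 - z.re * z.im + z.im ^ 2 := by
  rw [nw, norm_def]; ring

lemma nw_nonneg (z : Zw) : 0 ≤ nw z := by
  rw [nw_def]; nlinarith [sq_nonneg (2 * z.re - z.im), sq_nonneg z.im]

lemma nw_eq_zero {z : Zw} (h : nw z = 0) : z = 0 := by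
  rw [nw_def] at h
  have h1 : z.im = 0 := by nlinarith [sq_nonneg (2 * z.re - z.im), sq_nonneg z.im]
  have h2 : z.re = 0 := by rw [h1] at h; simpa using h
  ext <;> simp [h1, h2]

lemma nw_mul (z w : Zw) : nw (z * w) = nw z * nw w := map_mul _ _ _

lemma nw_pow (z : Zw) (n : ℕ) : nw (z ^ n) = nw z ^ n := map_pow _ _ _

lemma nw_star (z : Zw) : nw (star z) = nw z := QuadraticAlgebra.norm_star z

lemma mul_star_eq (z : Zw) : z * star z = (nw z : Zw) := by
  rw [← algebraMap_norm_eq_mul_star]; simp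

instance : IsDomain Zw := by
  have : NoZeroDivisors Zw := ⟨fun {z w} h => by
    have := congrArg nw h
    rw [nw_mul, show nw 0 = 0 from norm_zero] at this
    exact (mul_eq_zero.1 this).imp nw_eq_zero nw_eq_zero⟩
  exact NoZeroDivisors.to_isDomain _

lemma intCast_dvd {p : ℤ} {z : Zw} (h1 : p ∣ z.re) (h2 : p ∣ z.im) : (p : Zw) ∣ z := by
  obtain ⟨c, hc⟩ := h1
  obtain ⟨d, hd⟩ := h2
  exact ⟨⟨c, d⟩, by ext <;> simp [hc, hd]⟩

lemma dvd_of_im {p : ℤ} (hp : Prime p) {z : Zw} (h1 : p ∣ nw z) (h2 : p ∣ z.im) :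
    (p : Zw) ∣ z := by
  refine intCast_dvd (hp.dvd_of_dvd_pow (n := 2) ?_) h2
  have : z.re ^ 2 = nw z + z.im * (z.re - z.im) := by rw [nw_def]; ring
  rw [this]
  exact dvd_add h1 (h2.mul_right _)

lemma dvd_of_split {p : ℤ} (hp : Prime p) {π z : Zw} (hπ : nw π = p) (h : p ∣ nw z) :
    π ∣ z ∨ star π ∣ z := by
  have π0 : π ≠ 0 := by
    rintro rfl
    exact hp.ne_zero (hπ.symm.trans norm_zero)
  have π0' : star π ≠ 0 := star_ne_zero.2 π0
  have e : (z * star π).im * (z * π).im = z.im ^ 2 * nw π - π.im ^ 2 * nw z := by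
    simp [nw_def]; ring
  have : p ∣ (z * star π).im * (z * π).im := by
    rw [e, hπ]; exact dvd_sub (dvd_mul_left _ _) (h.mul_left _)
  rcases hp.dvd_or_dvd this with h1 | h1
  · left
    have := dvd_of_im hp (by rw [nw_mul]; exact h.mul_right _) h1
    rw [← hπ, ← mul_star_eq] at this
    exact (mul_dvd_mul_iff_right π0').1 this
  · right
    have := dvd_of_im hp (by rw [nw_mul]; exact h.mul_right _) h1
    rw [← hπ, ← mul_star_eq, mul_comm π] at this
    exact (mul_dvd_mul_iff_right π0).1 this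

lemma zmod_omega {p : ℕ} [Fact p.Prime] {t : ZMod p} (ht : t ^ 2 + t + 1 = 0) : p % 3 ≠ 2 := by
  intro hp
  have h3 : t ^ 3 = 1 := by linear_combination (t - 1) * ht
  have h0 : t ≠ 0 := by rintro rfl; simp at ht
  have hF := ZMod.pow_card_sub_one_eq_one h0
  obtain ⟨k, hk⟩ : ∃ k, p - 1 = 3 * k + 1 := ⟨p / 3, by omega⟩
  rw [hk, pow_succ, pow_mul, h3, one_pow, one_mul] at hF
  rw [hF] at ht
  have : ((3 : ℕ) : ZMod p) = 0 := by rw [← ht]; norm_num
  rw [ZMod.natCast_eq_zero_iff, Nat.prime_dvd_prime_iff_eq Fact.out Nat.prime_three] at this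
  omega

lemma dvd_of_inert {p : ℕ} (hp : p.Prime) (h3 : p % 3 = 2) {z : Zw} (h : (p : ℤ) ∣ nw z) :
    ((p : ℤ) : Zw) ∣ z := by
  have := Fact.mk hp
  refine dvd_of_im (Nat.prime_iff_prime_int.1 hp) h ?_
  rw [← ZMod.intCast_zmod_eq_zero_iff_dvd] at h ⊢
  by_contra h0
  rw [nw_def] at h
  push_cast at h
  refine zmod_omega (t := -(z.re : ZMod p) / (z.im : ZMod p)) ?_ h3
  field_simp
  linear_combination h

lemma extract {p : ℤ} {g₁ g₂ : Zw} (h1 : 1 < nw g₁) (h2 : 1 < nw g₂)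
    (hd : ∀ z : Zw, p ∣ nw z → g₁ ∣ z ∨ g₂ ∣ z) :
    ∀ (n : ℕ) (z : Zw), z ≠ 0 → (nw z).natAbs = n →
      ∃ (i j : ℕ) (w : Zw), z = g₁ ^ i * g₂ ^ j * w ∧ ¬ p ∣ nw w := by
  intro n
  induction n using Nat.strong_induction_on with
  | _ n ih =>
    intro z hz hn
    by_cases h : p ∣ nw z
    · have lt : ∀ g w : Zw, 1 < nw g → z = g * w → w ≠ 0 ∧ (nw w).natAbs < n := by
        intro g w hg e
        have w0 : w ≠ 0 := by rintro rfl; exact hz (by simpa using e)
        have w1 : 0 < nw w := lt_of_le_of_ne (nw_nonneg w) (fun e => w0 (nw_eq_zero e.symm))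
        refine ⟨w0, ?_⟩
        have : nw w < nw z := by rw [e, nw_mul]; nlinarith
        omega
      rcases hd z h with ⟨w, e⟩ | ⟨w, e⟩
      · obtain ⟨i, j, u, e', hu⟩ := ih _ (lt _ _ h1 e).2 w (lt _ _ h1 e).1 rfl
        exact ⟨i + 1, j, u, by rw [e, e']; ring, hu⟩
      · obtain ⟨i, j, u, e', hu⟩ := ih _ (lt _ _ h2 e).2 w (lt _ _ h2 e).1 rfl
        exact ⟨i, j + 1, u, by rw [e, e']; ring, hu⟩
    · exact ⟨0, 0, z, by simp, h⟩

lemma cube_split {p : ℕ} (hp : p.Prime) {s : ℕ} {n m : ℤ} (hn : ¬ (p : ℤ) ∣ n)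
    (e : (p : ℤ) ^ s * n = m ^ 3) : 3 ∣ s ∧ ∃ m' : ℤ, n = m' ^ 3 := by
  have := Fact.mk hp
  have n0 : n ≠ 0 := by rintro rfl; simp at hn
  have p0 : (p : ℤ) ≠ 0 := by exact_mod_cast hp.ne_zero
  have m0 : m ≠ 0 := by
    rintro rfl
    exact mul_ne_zero (pow_ne_zero _ p0) n0 (by simpa using e)
  have h3 : 3 ∣ s := by
    have h := congrArg (padicValInt p) e
    rw [padicValInt.mul (pow_ne_zero _ p0) n0, padicValInt.eq_zero_of_not_dvd hn,
      show m ^ 3 = m * m * m by ring, padicValInt.mul (mul_ne_zero m0 m0) m0,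
      padicValInt.mul m0 m0, ← Nat.cast_pow, padicValInt.of_nat, padicValNat.prime_pow] at h
    omega
  refine ⟨h3, ?_⟩
  obtain ⟨k, rfl⟩ := h3
  have : ((p : ℤ) ^ k) ^ 3 ∣ m ^ 3 := ⟨n, by rw [← e]; ring⟩
  obtain ⟨m', rfl⟩ := (Int.pow_dvd_pow_iff (by norm_num)).1 this
  refine ⟨m', mul_left_cancel₀ (pow_ne_zero (3 * k) p0) ?_⟩
  rw [e]; ring

lemma unit_cases {z : Zw} (h : nw z = 1) : ∃ (e : ℕ) (s : Zw), s ≠ 0 ∧ z = ω ^ e * s ^ 3 := by
  rw [nw_def] at h
  obtain ⟨x, y⟩ := z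
  simp only at h
  have hy1 : y ≤ 1 := by nlinarith [sq_nonneg (2 * x - y)]
  have hy2 : -1 ≤ y := by nlinarith [sq_nonneg (2 * x - y)]
  have hx1 : x ≤ 1 := by nlinarith [sq_nonneg (2 * y - x)]
  have hx2 : -1 ≤ x := by nlinarith [sq_nonneg (2 * y - x)]
  have m1 : (-1 : Zw) ≠ 0 := by simp
  interval_cases x <;> interval_cases y <;> simp at h
  · exact ⟨2, 1, one_ne_zero, by decide⟩
  · exact ⟨0, -1, m1, by decide⟩
  · exact ⟨1, -1, m1, by decide⟩
  · exact ⟨1, 1, one_ne_zero, by decide⟩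
  · exact ⟨0, 1, one_ne_zero, by decide⟩
  · exact ⟨2, -1, m1, by decide⟩

theorem classify (pi : ℕ → Zw) (hpi : ∀ p : ℕ, p.Prime → p % 3 = 1 → nw (pi p) = p)
    (S : ℕ → Prop) (f : ℕ → Zw →* ℝ)
    (hf1 : ∀ p : ℕ, p.Prime → ∀ z, ¬ (p : ℤ) ∣ nw z → f p z = 1)
    (hf2 : ∀ p : ℕ, p.Prime → p % 3 = 1 → (f p (pi p) = (p : ℝ)⁻¹ ∧ f p (star (pi p)) = 1) ∨
      (f p (pi p) = 1 ∧ f p (star (pi p)) = (p : ℝ)⁻¹))
    (G : Zw → Prop) (Gmul : ∀ z w, G z → G w → G (z * w)) (Gw : G ω)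
    (Gc : ∀ z, z ≠ 0 → G (z ^ 3))
    (GS : ∀ p, S p → G (pi p ^ 2 * star (pi p)) ∧ G (pi p * star (pi p) ^ 2)) :
    ∀ (n : ℕ) (z : Zw), z ≠ 0 → (nw z).natAbs = n → (∃ m : ℤ, nw z = m ^ 3) →
      (∀ p : ℕ, p.Prime → p % 3 = 1 → ¬ S p → ∃ k : ℤ, f p z = (p : ℝ) ^ (3 * k)) → G z := by
  have G1 : G 1 := by simpa using Gc 1 one_ne_zero
  have Gpow : ∀ z (e : ℕ), G z → G (z ^ e) := by
    intro z e hz
    induction e with
    | zero => simpa using G1
    | succ e ih => rw [pow_succ]; exact Gmul _ _ ih hz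
  intro n
  induction n using Nat.strong_induction_on with
  | _ n ih =>
    intro z hz hn ⟨m, hm⟩ hloc
    have z1 : 0 < nw z := lt_of_le_of_ne (nw_nonneg z) (fun e => hz (nw_eq_zero e.symm))
    by_cases h1 : n = 1
    · obtain ⟨e, s, s0, hs⟩ := unit_cases (z := z) (by omega)
      rw [hs]; exact Gmul _ _ (Gpow _ _ Gw) (Gc s s0)
    obtain ⟨p, hp, hpn⟩ := Nat.exists_prime_and_dvd h1
    have hpz : (p : ℤ) ∣ nw z := by rw [← hn] at hpn; exact Int.natCast_dvd.2 hpn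
    have p1 : (1 : ℤ) < p := by exact_mod_cast hp.one_lt
    -- the reduction step
    have step : ∀ (g w : Zw) (s : ℕ), z = g * w → nw g = (p : ℤ) ^ s → ¬ (p : ℤ) ∣ nw w →
        (3 ∣ s → G g) → G z := by
      intro g w s e hg hw hG
      have w0 : w ≠ 0 := by rintro rfl; exact hz (by simpa using e)
      have w1 : 0 < nw w := lt_of_le_of_ne (nw_nonneg w) (fun e => w0 (nw_eq_zero e.symm))
      have e' : (p : ℤ) ^ s * nw w = m ^ 3 := by rw [← hm, e, nw_mul, hg]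
      obtain ⟨h3, hc⟩ := cube_split hp hw e'
      have s0 : s ≠ 0 := by
        rintro rfl
        rw [pow_zero, one_mul, ← hm] at e'
        exact hw (e' ▸ hpz)
      have lt : nw w < nw z := by
        rw [hm, ← e']
        have : 1 < (p : ℤ) ^ s := one_lt_pow₀ p1 s0
        nlinarith
      rw [e]
      refine Gmul _ _ (hG h3) (ih _ (by omega) w w0 rfl hc fun q hq hq3 hS => ?_)
      by_cases hqp : q = p
      · subst hqp
        exact ⟨0, by rw [hf1 q hq w hw]; simp⟩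
      · obtain ⟨k, hk⟩ := hloc q hq hq3 hS
        refine ⟨k, ?_⟩
        rw [← hk, e, map_mul, hf1 q hq g, one_mul]
        rw [hg]
        intro hd
        have := (Nat.prime_iff_prime_int.1 hq).dvd_of_dvd_pow hd
        exact hqp ((Nat.prime_dvd_prime_iff_eq hq hp).1 (by exact_mod_cast this))
    have hp3 : p % 3 = 0 ∨ p % 3 = 1 ∨ p % 3 = 2 := by omega
    rcases hp3 with h3 | h3 | h3
    · have : p = 3 := ((Nat.prime_dvd_prime_iff_eq Nat.prime_three hp).1 (by omega)).symm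
      subst this
      have hπ : nw (1 - ω) = ((3 : ℕ) : ℤ) := by decide
      obtain ⟨i, j, w, e, hw⟩ := extract (p := ((3 : ℕ) : ℤ)) (g₁ := 1 - ω) (g₂ := star (1 - ω))
        (by rw [hπ]; exact p1) (by rw [nw_star, hπ]; exact p1)
        (fun z hz => dvd_of_split (Nat.prime_iff_prime_int.1 hp) hπ hz) _ z hz rfl
      refine step _ w (i + j) e ?_ hw ?_
      · rw [nw_mul, nw_pow, nw_pow, nw_star, pow_add, hπ]
      · rintro ⟨k, hk⟩
        have e1 : star (1 - ω : Zw) = (ω ^ 2 * (-1) ^ 3) * (1 - ω) := by decide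
        have e2 : (1 - ω : Zw) ^ i * star (1 - ω) ^ j
            = (ω ^ 2 * (-1) ^ 3) ^ j * ((1 - ω) ^ k) ^ 3 := by
          rw [e1, mul_pow, ← pow_mul, mul_comm k, ← hk]; ring
        rw [e2]
        exact Gmul _ _ (Gpow _ _ (Gmul _ _ (Gpow _ _ Gw) (Gc _ (by simp))))
          (Gc _ (pow_ne_zero _ (by decide)))
    · have hπ := hpi p hp h3
      have π0 : pi p ≠ 0 := by
        intro e
        rw [e, show nw 0 = 0 from norm_zero] at hπ
        omega
      have π0' : star (pi p) ≠ 0 := star_ne_zero.2 π0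
      obtain ⟨i, j, w, e, hw⟩ := extract (p := (p : ℤ)) (g₁ := pi p) (g₂ := star (pi p))
        (by rw [hπ]; exact p1) (by rw [nw_star, hπ]; exact p1)
        (fun z hz => dvd_of_split (Nat.prime_iff_prime_int.1 hp) hπ hz) _ z hz rfl
      refine step _ w (i + j) e ?_ hw ?_
      · rw [nw_mul, nw_pow, nw_pow, nw_star, pow_add, hπ]
      · intro hij
        have dec : pi p ^ i * star (pi p) ^ j = (pi p ^ (i % 3) * star (pi p) ^ (j % 3)) *
            (pi p ^ (i / 3) * star (pi p) ^ (j / 3)) ^ 3 := by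
          conv_lhs => rw [← Nat.mod_add_div i 3, ← Nat.mod_add_div j 3]
          ring
        rw [dec]
        refine Gmul _ _ ?_ (Gc _ (mul_ne_zero (pow_ne_zero _ π0) (pow_ne_zero _ π0')))
        by_cases hS : S p
        · have : (i % 3 = 0 ∧ j % 3 = 0) ∨ (i % 3 = 2 ∧ j % 3 = 1) ∨ (i % 3 = 1 ∧ j % 3 = 2) := by
            omega
          rcases this with ⟨a, b⟩ | ⟨a, b⟩ | ⟨a, b⟩ <;> rw [a, b]
          · simpa using G1
          · simpa using (GS p hS).1
          · simpa using (GS p hS).2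
        · obtain ⟨k, hk⟩ := hloc p hp h3 hS
          have pr : (1 : ℝ) < p := by exact_mod_cast hp.one_lt
          have : i % 3 = 0 ∧ j % 3 = 0 := by
            rw [e, map_mul, map_mul, map_pow, map_pow, hf1 p hp w hw, mul_one] at hk
            rcases hf2 p hp h3 with ⟨a, b⟩ | ⟨a, b⟩
            · rw [a, b, one_pow, mul_one, inv_pow, ← zpow_natCast, ← zpow_neg,
                zpow_right_inj₀ (by linarith) pr.ne'] at hk
              omega
            · rw [a, b, one_pow, one_mul, inv_pow, ← zpow_natCast, ← zpow_neg,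
                zpow_right_inj₀ (by linarith) pr.ne'] at hk
              omega
          rw [this.1, this.2]
          simpa using G1
    · have hπ : nw ((p : ℤ) : Zw) = (p : ℤ) ^ 2 := norm_intCast _
      have h2 : 1 < nw ((p : ℤ) : Zw) := by rw [hπ]; nlinarith
      obtain ⟨i, j, w, e, hw⟩ := extract (p := (p : ℤ)) h2 h2
        (fun z hz => Or.inl (dvd_of_inert hp h3 hz)) _ z hz rfl
      refine step _ w (2 * (i + j)) e ?_ hw ?_
      · rw [nw_mul, nw_pow, nw_pow, hπ]; ring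
      · intro hij
        obtain ⟨k, hk⟩ : 3 ∣ i + j := by omega
        rw [← pow_add, hk, mul_comm, pow_mul]
        refine Gc _ (pow_ne_zero _ ?_)
        intro e0
        rw [e0, show nw 0 = 0 from norm_zero] at h2
        omega

end Pool.Agent.MP_e23604_nt
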