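import Pool.Agent.MP_e23604_nt.Old.RankTwoSha3

/-!
The hypotheses of the family theorem hold for (r, n) = (389, -160).
-/

namespace Pool.Agent.MP_e23604_nt

theorem example_member : (curve 389 (-160)).IsElliptic ∧
    Module.finrank ℤ (curve 389 (-160)).toAffine.Point = 2 ∧
      ∀ c ∈ Sha (curve 389 (-160)), ∀ k : ℕ, 3 ^ k • c = 0 → c = 0 := by
  have e : forms 389 (-160) = ![12743, 8423, 389, 10663, 68903, -47737] := by decide
  refine Pool.Agent.Results.MP_e23604_nt.RankTwoSha3.result 389 (-160) ?_ ?_ ?_ ?_ (by decide)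
    (by decide) (by decide) (by decide)
  · rw [e]
    intro i
    fin_cases i <;> simp only [Int.prime_iff_natAbs_prime] <;> norm_num
  · rw [e]; decide
  · rw [e]; decide
  · intro p hp h3 hd
    have : p ∣ 12743 * 8423 * 2 ^ 6 * 5 * 19 * 557 := by
      rw [← Int.natCast_dvd_natCast, ← Int.dvd_neg]
      exact hd
    have q : ∀ l : ℕ, l.Prime → p ∣ l → p = l := fun l hl h =>
      (Nat.prime_dvd_prime_iff_eq hp hl).1 h
    simp only [hp.dvd_mul] at this
    rcases this with ((((h | h) | h) | h) | h) | h
    · have := q _ (by norm_num) h; omega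
    · have := q _ (by norm_num) h; omega
    · have := q _ (by norm_num) (hp.dvd_of_dvd_pow h); omega
    · have := q _ (by norm_num) h; omega
    · have := q _ (by norm_num) h; omega
    · have := q _ (by norm_num) h; omega

end Pool.Agent.MP_e23604_nt
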