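import Pool.Agent.MP_e23604_nt.Loc

/-!
Local conditions at an additive prime and at 3.
-/

open scoped BigOperators Classical
open Finset Function

noncomputable section

namespace Pool.Agent.MP_e23604_nt

lemma Loc3_rot {K : Type} [Field K] (P : K → Prop) {v₁ v₂ v₃ B : K} (hp : v₁ * v₂ * v₃ = B)
    (hB : B ≠ 0) : (P v₁ ∧ P v₂ ∧ P v₃) ∨ (¬ P v₁ ∧ ¬ P v₂ ∧ ¬ P v₃) ∨
      ∃ (x y z s : K) (j : ℕ), x + y + z = v₁ + v₂ + v₃ ∧ x * y * z = B ∧ P x ∧ ¬ P y ∧ y ≠ 0 ∧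
        s ≠ 0 ∧ v₁ ^ 2 * v₂ = B ^ j * (z / y) * s ^ 3 := by
  have h1 : v₁ ≠ 0 := by rintro rfl; simp at hp; exact hB hp.symm
  have h2 : v₂ ≠ 0 := by rintro rfl; simp at hp; exact hB hp.symm
  have h3 : v₃ ≠ 0 := by rintro rfl; simp at hp; exact hB hp.symm
  by_cases c1 : P v₃ ∧ ¬ P v₁
  · exact Or.inr (Or.inr ⟨v₃, v₁, v₂, v₁, 0, by ring, by rw [← hp]; ring, c1.1, c1.2, h1, h1,
      by field_simp⟩)
  by_cases c2 : P v₂ ∧ ¬ P v₃
  · exact Or.inr (Or.inr ⟨v₂, v₃, v₁, 1, 1, by ring, by rw [← hp]; ring, c2.1, c2.2, h3,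
      one_ne_zero, by rw [← hp]; field_simp⟩)
  by_cases c3 : P v₁ ∧ ¬ P v₂
  · exact Or.inr (Or.inr ⟨v₁, v₂, v₃, v₃⁻¹, 2, rfl, hp, c3.1, c3.2, h2, inv_ne_zero h3,
      by rw [← hp]; field_simp⟩)
  tauto

variable {p : ℕ} [Fact p.Prime]

lemma Loc3_lt_one {x : ℚ_[p]} (hx : ‖x‖ < 1) : ‖x‖ ≤ (p : ℝ)⁻¹ := by
  have := (Padic.norm_le_pow_iff_norm_lt_pow_add_one x (-1)).2 (by simpa using hx)
  simpa using this

lemma Loc3_one_lt {x : ℚ_[p]} (hx : 1 < ‖x‖) : (p : ℝ) ≤ ‖x‖ := by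
  by_contra h
  have := (Padic.norm_le_pow_iff_norm_lt_pow_add_one x 0).2 (by simpa using not_le.1 h)
  simp at this
  linarith

/-- At a prime dividing a and exactly dividing b = p b', a local class p^i D is a power of b up to
cubes. -/
theorem LocOK.additive {a b' D : ℤ} (ha : (p : ℤ) ∣ a) (hb : ¬ (p : ℤ) ∣ b') (hD : ¬ (p : ℤ) ∣ D)
    (i : ℕ) {r : ℚ} (hr : r ≠ 0) (h : LocOK a (p * b' : ℤ) p (p ^ i * D * r ^ 3)) :
    ∃ x : ZMod p, (D : ZMod p) * (b' : ZMod p) ^ (2 * i) = x ^ 3 := by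
  obtain ⟨e, v₁, v₂, v₃, z, he, t, hz, h⟩ := h
  have hs := t.sum
  have hp := t.prod
  rw [Rat.cast_intCast] at hs hp
  have pr : (1 : ℝ) < p := by exact_mod_cast (Fact.out : p.Prime).one_lt
  have p0 : (p : ℚ_[p]) ≠ 0 := by exact_mod_cast (Fact.out : p.Prime).ne_zero
  have r0 : (r : ℚ_[p]) ≠ 0 := by exact_mod_cast hr
  have b0 : (b' : ZMod p) ≠ 0 := by rwa [Ne, ZMod.intCast_zmod_eq_zero_iff_dvd]
  have nD := norm_int_eq_one hD
  have nb := norm_int_eq_one hb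
  have na : ‖(a : ℚ_[p])‖ < 1 := Padic.norm_intCast_lt_one_iff.2 ha
  have hB : (((p : ℤ) * b' : ℤ) : ℚ_[p]) = (p : ℚ_[p]) * (b' : ℚ_[p]) := by push_cast; ring
  rw [hB] at hp
  have nB : ‖v₁‖ * ‖v₂‖ * ‖v₃‖ = (p : ℝ)⁻¹ := by
    rw [← norm_mul, ← norm_mul, hp, norm_mul, nb, Padic.norm_p, mul_one]
  have ip : (p : ℝ)⁻¹ < 1 := inv_lt_one_of_one_lt₀ pr
  have ip0 : (0 : ℝ) < (p : ℝ)⁻¹ := by positivity
  have B0 : (p : ℚ_[p]) * (b' : ℚ_[p]) ≠ 0 :=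
    mul_ne_zero p0 (by intro h0; rw [h0] at nb; simp at nb)
  rcases Loc3_rot (fun x : ℚ_[p] => ‖x‖ < 1) hp B0 with ⟨a1, a2, a3⟩ | ⟨a1, a2, a3⟩ |
    ⟨x, y, u, s, j, e1, -, hx, hy, y0, s0, e2⟩
  · exfalso
    have c1 := Loc3_lt_one a1
    have c2 : ‖v₂‖ * ‖v₃‖ < 1 := mul_lt_one_of_nonneg_of_lt_one_left (norm_nonneg _) a2 a3.le
    have c3 : ‖v₁‖ * (‖v₂‖ * ‖v₃‖) ≤ (p : ℝ)⁻¹ * (‖v₂‖ * ‖v₃‖) :=
      mul_le_mul_of_nonneg_right c1 (by positivity)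
    have c4 : (p : ℝ)⁻¹ * (‖v₂‖ * ‖v₃‖) < (p : ℝ)⁻¹ * 1 := mul_lt_mul_of_pos_left c2 ip0
    nlinarith
  · exfalso
    have c1 : 1 ≤ ‖v₁‖ * ‖v₂‖ := one_le_mul_of_one_le_of_one_le (not_lt.1 a1) (not_lt.1 a2)
    have c2 := one_le_mul_of_one_le_of_one_le c1 (not_lt.1 a3)
    linarith
  have ht : ‖u / y + 1‖ < 1 := by
    have : u / y + 1 = ((a : ℚ_[p]) - x) / y := by rw [← hs, ← e1]; field_simp; ring
    rw [this, norm_div, div_lt_one (norm_pos_iff.2 y0)]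
    exact (nsub_lt na hx).trans_le (not_lt.1 hy)
  generalize u / y = t at ht e2
  have nt := norm_eq_one_of_add ht
  have U0 : (r : ℚ_[p]) ^ e * z / s ≠ 0 := div_ne_zero (mul_ne_zero (pow_ne_zero _ r0) hz) s0
  have hU : (p : ℚ_[p]) ^ (i * e) * (D : ℚ_[p]) ^ e * ((r : ℚ_[p]) ^ e * z / s) ^ 3 =
      (p : ℚ_[p]) ^ j * (b' : ℚ_[p]) ^ j * t := by
    rw [h] at e2
    push_cast at e2
    field_simp
    linear_combination e2
  generalize (r : ℚ_[p]) ^ e * z / s = U at U0 hU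
  obtain ⟨k, W, nW, rfl⟩ : ∃ (k : ℤ) (W : ℚ_[p]), ‖W‖ = 1 ∧ U = (p : ℚ_[p]) ^ k * W := by
    refine ⟨U.valuation, U / (p : ℚ_[p]) ^ U.valuation, ?_, by field_simp⟩
    rw [norm_div, Padic.norm_p_zpow, Padic.norm_eq_zpow_neg_valuation U0]
    exact div_self (zpow_pos (by linarith) _).ne'
  have hU2 : (p : ℚ_[p]) ^ ((i * e : ℕ) + 3 * k : ℤ) * ((D : ℚ_[p]) ^ e * W ^ 3) =
      (p : ℚ_[p]) ^ (j : ℤ) * ((b' : ℚ_[p]) ^ j * t) := by
    rw [zpow_add₀ p0, zpow_natCast, zpow_natCast, mul_comm (3 : ℤ) k, zpow_mul, zpow_ofNat]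
    linear_combination hU
  have hk : ((i * e : ℕ) + 3 * k : ℤ) = j := by
    have := congrArg norm hU2
    simp only [norm_mul, norm_pow, nD, nb, nt, nW, one_pow, mul_one, Padic.norm_p_zpow] at this
    rw [zpow_right_inj₀ (by linarith) pr.ne'] at this
    omega
  rw [hk] at hU2
  have hU3 := mul_left_cancel₀ (zpow_ne_zero _ p0) hU2
  obtain ⟨t, rfl⟩ := lift_int nt.le
  obtain ⟨W, rfl⟩ := lift_int nW.le
  have hW' : (D : ℤ_[p]) ^ e * W ^ 3 = (b' : ℤ_[p]) ^ j * t := Subtype.ext (by simpa using hU3)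
  have hW'' := congrArg PadicInt.toZMod hW'
  simp only [map_mul, map_pow, map_intCast] at hW''
  have t1 : PadicInt.toZMod t = -1 := by
    have : PadicInt.toZMod (t + 1) = 0 := by rw [toZMod_eq_zero]; simpa using ht
    rw [map_add, map_one] at this
    exact eq_neg_of_add_eq_zero_left this
  have W0 : PadicInt.toZMod W ≠ 0 := by rw [Ne, toZMod_eq_zero, nW]; simp
  rw [t1] at hW''
  generalize PadicInt.toZMod W = w at W0 hW''
  have hj : (b' : ZMod p) ^ j = (b' : ZMod p) ^ (i * e) * ((b' : ZMod p) ^ k) ^ 3 := by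
    rw [← zpow_natCast, ← hk, zpow_add₀ b0, zpow_natCast, mul_comm (3 : ℤ) k, zpow_mul, zpow_ofNat]
  have c0 : (b' : ZMod p) ^ k ≠ 0 := zpow_ne_zero _ b0
  rw [hj] at hW''
  generalize (b' : ZMod p) ^ k = c at c0 hW''
  rcases he with rfl | rfl
  · refine ⟨-((b' : ZMod p) ^ i * c / w), ?_⟩
    field_simp
    linear_combination (b' : ZMod p) ^ (2 * i) * hW''
  · refine ⟨-((D : ZMod p) * w / c), ?_⟩
    field_simp
    linear_combination (D : ZMod p) * hW''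

lemma Loc3_unit : ∀ x y a : ZMod 27, 9 * a ≠ 0 → x * y * (3 * a - x - y) = a ^ 3 →
    3 * (x ^ 2 * y) ^ 2 = 3 := by decide +kernel

lemma Loc3_six : ∀ a : ZMod 27, 9 * a ≠ 0 → 3 * a ^ 6 = 3 := by decide +kernel

lemma Loc3_e1 : ∀ d w : ZMod 27, 3 * (d ^ 1 * w ^ 3) ^ 2 = 3 → 3 * d ^ 2 = 3 := by decide +kernel

lemma Loc3_e2 : ∀ d w : ZMod 27, 3 * (d ^ 2 * w ^ 3) ^ 2 = 3 → 3 * d ^ 2 = 3 := by decide +kernel

/-- At 3, for a = 3 a' with a'^3 = b mod 27, a local class is trivial. -/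
theorem LocOK.three [Fact (Nat.Prime 3)] {a' b D : ℤ} (ha : ¬ 3 ∣ a') (hb : 27 ∣ a' ^ 3 - b)
    (hD : ¬ 3 ∣ D) {r : ℚ} (hr : r ≠ 0) (h : LocOK (3 * a' : ℤ) b 3 (D * r ^ 3)) :
    9 ∣ D ^ 2 - 1 := by
  obtain ⟨e, v₁, v₂, v₃, z, he, t, hz, h⟩ := h
  have hs := t.sum
  have hp := t.prod
  rw [Rat.cast_intCast] at hs hp
  have hb3 : ¬ ((3 : ℕ) : ℤ) ∣ b := by
    intro h3
    have h4 : (3 : ℤ) ∣ a' ^ 3 := by
      have := dvd_add ((by norm_num : (3 : ℤ) ∣ 27).trans hb) (by exact_mod_cast h3 : (3 : ℤ) ∣ b)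
      simpa using this
    exact ha (Int.prime_three.dvd_of_dvd_pow h4)
  have nD : ‖(D : ℚ_[3])‖ = 1 := norm_int_eq_one (by exact_mod_cast hD)
  have nb : ‖(b : ℚ_[3])‖ = 1 := norm_int_eq_one hb3
  have na : ‖((3 * a' : ℤ) : ℚ_[3])‖ ≤ 3⁻¹ := by
    have := Loc3_lt_one (p := 3) (x := ((3 * a' : ℤ) : ℚ_[3]))
      (Padic.norm_intCast_lt_one_iff.2 (by simp))
    simpa using this
  have nB : ‖v₁‖ * ‖v₂‖ * ‖v₃‖ = 1 := by rw [← norm_mul, ← norm_mul, hp, nb]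
  have B0 : (b : ℚ_[3]) ≠ 0 := by intro h0; rw [h0] at nb; simp at nb
  have a9 : 9 * (a' : ZMod 27) ≠ 0 := by
    intro h0
    have : ((9 * a' : ℤ) : ZMod 27) = 0 := by push_cast; exact h0
    rw [ZMod.intCast_zmod_eq_zero_iff_dvd] at this
    omega
  have b27 : (b : ZMod 27) = (a' : ZMod 27) ^ 3 := by
    have := (ZMod.intCast_zmod_eq_zero_iff_dvd (a' ^ 3 - b) 27).2 (by exact_mod_cast hb)
    push_cast at this
    linear_combination -this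
  let f : ℤ_[3] →+* ZMod 27 := PadicInt.toZModPow 3
  suffices ∃ w : ZMod 27, 3 * ((D : ZMod 27) ^ e * w ^ 3) ^ 2 = 3 by
    obtain ⟨w, hw⟩ := this
    have h3 : 3 * (D : ZMod 27) ^ 2 = 3 := by
      rcases he with rfl | rfl
      · exact Loc3_e1 _ _ hw
      · exact Loc3_e2 _ _ hw
    have : ((3 * (D ^ 2 - 1) : ℤ) : ZMod 27) = 0 := by push_cast; linear_combination h3
    rw [ZMod.intCast_zmod_eq_zero_iff_dvd] at this
    omega
  have hW : (D : ℚ_[3]) ^ e * ((r : ℚ_[3]) ^ e * z) ^ 3 = v₁ ^ 2 * v₂ := by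
    rw [h]; push_cast; ring
  generalize (r : ℚ_[3]) ^ e * z = W at hW
  rcases Loc3_rot (fun x : ℚ_[3] => ‖x‖ ≤ 1) hp B0 with ⟨a1, a2, a3⟩ | ⟨a1, a2, a3⟩ |
    ⟨x, y, u, s, j, e1, e3, hx, hy, y0, s0, e2⟩
  · have p1 := norm_nonneg v₁
    have p2 := norm_nonneg v₂
    have p3 := norm_nonneg v₃
    have h13 : ‖v₁‖ * ‖v₃‖ ≤ 1 := mul_le_one₀ a1 p3 a3
    have h23 : ‖v₂‖ * ‖v₃‖ ≤ 1 := mul_le_one₀ a2 p3 a3
    have n1 : ‖v₁‖ = 1 := le_antisymm a1 (by nlinarith)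
    have n2 : ‖v₂‖ = 1 := le_antisymm a2 (by nlinarith)
    have nW : ‖W‖ = 1 := by
      have := congrArg norm hW
      simp only [norm_mul, norm_pow, nD, n1, n2, one_pow, one_mul] at this
      exact (pow_eq_one_iff_of_nonneg (norm_nonneg _) (by norm_num)).1 this
    obtain ⟨v₁, rfl⟩ := lift_int a1
    obtain ⟨v₂, rfl⟩ := lift_int a2
    obtain ⟨v₃, rfl⟩ := lift_int a3
    obtain ⟨W, rfl⟩ := lift_int nW.le
    have hs' : v₁ + v₂ + v₃ = ((3 * a' : ℤ) : ℤ_[3]) :=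
      Subtype.ext (by rw [PadicInt.coe_intCast]; simpa using hs)
    have hp' : v₁ * v₂ * v₃ = b := Subtype.ext (by simpa using hp)
    have hW' : (D : ℤ_[3]) ^ e * W ^ 3 = v₁ ^ 2 * v₂ := Subtype.ext (by simpa using hW)
    have hs'' := congrArg f hs'
    have hp'' := congrArg f hp'
    have hW'' := congrArg f hW'
    simp only [map_add, map_mul, map_pow, map_intCast] at hs'' hp'' hW''
    push_cast at hs''
    refine ⟨f W, ?_⟩
    rw [hW'']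
    refine Loc3_unit _ _ _ a9 ?_
    rw [← b27, ← hp'', ← hs'']
    ring
  · exfalso
    have c1 : 1 < ‖v₁‖ * ‖v₂‖ := by nlinarith [not_le.1 a1, not_le.1 a2]
    nlinarith [not_le.1 a3]
  have hy3 : (3 : ℝ) ≤ ‖y‖ := by simpa using Loc3_one_lt (p := 3) (not_le.1 hy)
  have et : u / y + 1 = (((3 * a' : ℤ) : ℚ_[3]) - x) / y := by rw [← hs, ← e1]; field_simp; ring
  have ht : ‖u / y + 1‖ < 1 := by
    rw [et, norm_div, div_lt_one (by linarith)]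
    exact (nsub_le (na.trans (by norm_num)) hx).trans_lt (by linarith)
  have nt := norm_eq_one_of_add ht
  have nu : ‖u‖ = ‖y‖ := by
    rw [norm_div, div_eq_one_iff_eq (by linarith)] at nt
    exact nt
  have nx : ‖x‖ ≤ 3⁻¹ := by
    have c1 : ‖x‖ * ‖y‖ * ‖y‖ = 1 := by
      have := congrArg norm e3
      rwa [norm_mul, norm_mul, nu, nb] at this
    have c2 : 9 ≤ ‖y‖ * ‖y‖ := by nlinarith
    nlinarith [norm_nonneg x]
  have hc : ‖(u / y + 1) / 9‖ ≤ 1 := by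
    have n9 : ‖(9 : ℚ_[3])‖ = 9⁻¹ := by
      have := Padic.norm_p_pow (p := 3) 2
      norm_num at this ⊢
      exact this
    rw [et, norm_div, norm_div, n9, div_le_one (by norm_num), div_le_iff₀ (by linarith)]
    exact (nsub_le na nx).trans (by linarith)
  obtain ⟨c, hc'⟩ := lift_int hc
  have htc : u / y = 9 * (c : ℚ_[3]) - 1 := by rw [hc']; ring
  have hU : (D : ℚ_[3]) ^ e * (W / s) ^ 3 = (b : ℚ_[3]) ^ j * (u / y) := by
    rw [div_pow, ← mul_div_assoc, hW, e2, mul_div_assoc, div_self (pow_ne_zero _ s0), mul_one]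
  have nW : ‖W / s‖ = 1 := by
    have := congrArg norm hU
    simp only [norm_mul, norm_pow, nD, nb, nt, one_pow, one_mul] at this
    exact (pow_eq_one_iff_of_nonneg (norm_nonneg _) (by norm_num)).1 this
  rw [htc] at hU
  generalize W / s = U at hU nW
  obtain ⟨U, rfl⟩ := lift_int nW.le
  have hU' : (D : ℤ_[3]) ^ e * U ^ 3 = (b : ℤ_[3]) ^ j * (9 * c - 1) :=
    Subtype.ext (by push_cast; exact hU)
  have hU'' := congrArg f hU'
  simp only [map_sub, map_mul, map_pow, map_intCast, map_ofNat, map_one] at hU''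
  refine ⟨f U, ?_⟩
  rw [hU'', b27]
  have h6 : 3 * ((a' : ZMod 27) ^ 6) ^ j = 3 := by
    clear * - a9
    induction j with
    | zero => simp
    | succ j ih => rw [pow_succ, ← mul_assoc, ih]; exact Loc3_six _ a9
  have h27 : (27 : ZMod 27) = 0 := rfl
  linear_combination h6 + ((a' : ZMod 27) ^ (6 * j) * (9 * f c ^ 2 - 2 * f c)) * h27

end Pool.Agent.MP_e23604_nt
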