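import Pool.Agent.MP_e23604_nt.Fam2A
import Pool.Agent.MP_e23604_nt.Loc3
import Pool.Agent.MP_e23604_nt.Defs2

/-!
The descent for the second family.
-/

open scoped BigOperators Classical
open WeierstrassCurve QuadraticAlgebra

noncomputable section

namespace Pool.Agent.MP_e23604_nt

attribute [local instance 2000] decQ

lemma disc2 (m n : ℕ) : a2 m n ^ 3 - 27 * b2 m n =
    -3 ^ 7 * qq m n 6 * qq m n 7 * (qq m n 1) ^ 2 * (qq m n 4) ^ 2 := by
  simp only [a2, b2, qq, Matrix.cons_val]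
  push_cast
  ring

lemma qq_inj {m n : ℕ} (hn : 0 < n) : Function.Injective (qq m n) := by
  intro i j h
  fin_cases i <;> fin_cases j <;> simp [qq] at h ⊢ <;> omega

lemma mod_nine {m n₀ n₁ s : ℕ} (h3 : m % 3 = 1)
    (h : ((2 : ZMod 9) ^ n₀ * 5 ^ n₁ * (m : ZMod 9) ^ s) ^ 2 = 1) :
    ∃ μ : ℕ, 3 ∣ n₀ + 5 * n₁ + μ * s := by
  obtain ⟨μ, hμ⟩ : ∃ μ : ℕ, (m : ZMod 9) = 2 ^ μ := by
    have : m % 9 = 1 ∨ m % 9 = 4 ∨ m % 9 = 7 := by omega
    rw [← ZMod.natCast_mod m 9]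
    rcases this with e | e | e <;> rw [e]
    · exact ⟨0, by decide⟩
    · exact ⟨2, by decide⟩
    · exact ⟨4, by decide⟩
  refine ⟨μ, ?_⟩
  have := Fact.mk Nat.prime_three
  have o : orderOf (4 : ZMod 9) = 3 := orderOf_eq_prime (by decide) (by decide)
  rw [← o, orderOf_dvd_iff_pow_eq_one, ← h, hμ, show (5 : ZMod 9) = 2 ^ 5 by decide,
    show (4 : ZMod 9) = 2 ^ 2 by decide]
  generalize (2 : ZMod 9) = t
  ring

theorem family2 (m n α γ : ℕ) (hn : 0 < n) (h9 : 9 ∣ n) (hp : ∀ i, (qq m n i).Prime)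
    (h3 : m % 3 = 1) (hc : ∀ i, chi (qq m n i) 2 = 1 ∧ chi (qq m n i) 3 ≠ 1 ∧
      chi (qq m n i) 5 ≠ 1 ∧ chi (qq m n i) 5 = chi (qq m n i) 3 ^ α ∧
      chi (qq m n i) n = chi (qq m n i) 3 ^ γ) :
    (E3 (a2 m n) (b2 m n)).IsElliptic ∧
    (letI := instDecidableEqRat; Module.finrank ℤ (E3 (a2 m n) (b2 m n)).toAffine.Point = 2) ∧
      ∀ c ∈ Sha (E3 (a2 m n) (b2 m n)), ∀ k : ℕ, 3 ^ k • c = 0 → c = 0 := by
  have hM := disc2 m n
  have inj := qq_inj (m := m) hn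
  have ea : a2 m n = -3 * qq m n 6 * qq m n 7 := rfl
  have eb : b2 m n = 80 * qq m n 0 * qq m n 2 * qq m n 3 * qq m n 5 * qq m n 6 * qq m n 7 := rfl
  have e0 : qq m n 0 = m := rfl
  have e1 : qq m n 1 = m + 6 * n := rfl
  have e2 : qq m n 2 = m + 12 * n := rfl
  have e3 : qq m n 3 = m + 18 * n := rfl
  have e4 : qq m n 4 = m + 20 * n := rfl
  have e5 : qq m n 5 = m + 21 * n := rfl
  have e6 : qq m n 6 = m + 30 * n := rfl
  have e7 : qq m n 7 = m + 36 * n := rfl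
  have r9 : ∀ i, qq m n i % 9 = m % 9 := fun i => by
    fin_cases i <;> simp [qq] <;> omega
  set q := qq m n with hq
  clear_value q
  have r3 : ∀ i, q i % 3 = 1 := fun i => by have := r9 i; omega
  have big : ∀ i, 5 < q i := fun i => by
    by_contra hle
    have h1 := hp i
    have h2 := r3 i
    have : q i ≤ 5 := by omega
    interval_cases q i <;> simp_all (decide := true)
  have q0 : ∀ i, q i ≠ 0 := fun i => by have := big i; omega
  have ip : ∀ i, Prime (q i : ℤ) := fun i => Nat.prime_iff_prime_int.1 (hp i)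
  have dq : ∀ p : ℕ, p.Prime → ∀ i, (p : ℤ) ∣ q i → p = q i := fun p h i e =>
    (Nat.prime_dvd_prime_iff_eq h (hp i)).1 (by exact_mod_cast e)
  have nq : ∀ i j, i ≠ j → ¬ (q i : ℤ) ∣ q j := fun i j h e => h (inj (dq _ (hp i) j e))
  have ns : ∀ i (c : ℕ), 0 < c → c ≤ 5 → ¬ (q i : ℤ) ∣ c := fun i c h0 h5 e => by
    have := Nat.le_of_dvd h0 (by exact_mod_cast e : q i ∣ c)
    have := big i
    omega
  have n2 : ∀ i, ¬ (q i : ℤ) ∣ 2 := fun i => ns i 2 (by norm_num) (by norm_num)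
  have n5 : ∀ i, ¬ (q i : ℤ) ∣ 5 := fun i => ns i 5 (by norm_num) (by norm_num)
  have good : Good (a2 m n) (b2 m n) := by
    constructor
    · have : b2 m n ≠ 0 := by rw [eb]; simp [q0]
      exact_mod_cast this
    · have : a2 m n ^ 3 - 27 * b2 m n ≠ 0 := by rw [hM]; simp [q0]
      exact_mod_cast this
  have u3 : ∀ i, chi (q i) 3 ^ 3 = 1 := fun i => chi_three_cube (hp i) (r3 i)
  have hα : ¬ 3 ∣ α := by
    rintro ⟨a, rfl⟩
    exact (hc 0).2.2.1 (by rw [(hc 0).2.2.2.1, pow_mul, u3, one_pow])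
  have cf : ∀ i j (x y z : ℕ), ((q i : ℤ) ∣ q j - 2 ^ x * 3 ^ y * 5 ^ z * n ∨
      (q i : ℤ) ∣ q j + 2 ^ x * 3 ^ y * 5 ^ z * n) →
      chi (q i) (q j) = chi (q i) 3 ^ (y + α * z + γ) := fun i j x y z h =>
    chi_form (hp i) (r3 i) (hc i).1 (hc i).2.2.2.1 (hc i).2.2.2.2 x y z h
  have c10 := cf 1 0 1 1 0 (Or.inr ⟨1, by rw [e0, e1]; push_cast; ring⟩)
  have c12 := cf 1 2 1 1 0 (Or.inl ⟨1, by rw [e2, e1]; push_cast; ring⟩)
  have c13 := cf 1 3 2 1 0 (Or.inl ⟨1, by rw [e3, e1]; push_cast; ring⟩)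
  have c15 := cf 1 5 0 1 1 (Or.inl ⟨1, by rw [e5, e1]; push_cast; ring⟩)
  have c16 := cf 1 6 3 1 0 (Or.inl ⟨1, by rw [e6, e1]; push_cast; ring⟩)
  have c17 := cf 1 7 1 1 1 (Or.inl ⟨1, by rw [e7, e1]; push_cast; ring⟩)
  have c40 := cf 4 0 2 0 1 (Or.inr ⟨1, by rw [e0, e4]; push_cast; ring⟩)
  have c42 := cf 4 2 3 0 0 (Or.inr ⟨1, by rw [e2, e4]; push_cast; ring⟩)
  have c43 := cf 4 3 1 0 0 (Or.inr ⟨1, by rw [e3, e4]; push_cast; ring⟩)
  have c45 := cf 4 5 0 0 0 (Or.inl ⟨1, by rw [e5, e4]; push_cast; ring⟩)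
  have c46 := cf 4 6 1 0 1 (Or.inl ⟨1, by rw [e6, e4]; push_cast; ring⟩)
  have c47 := cf 4 7 4 0 0 (Or.inl ⟨1, by rw [e7, e4]; push_cast; ring⟩)
  have c60 := cf 6 0 1 1 1 (Or.inr ⟨1, by rw [e0, e6]; push_cast; ring⟩)
  have c62 := cf 6 2 1 2 0 (Or.inr ⟨1, by rw [e2, e6]; push_cast; ring⟩)
  have c63 := cf 6 3 2 1 0 (Or.inr ⟨1, by rw [e3, e6]; push_cast; ring⟩)
  have c65 := cf 6 5 0 2 0 (Or.inr ⟨1, by rw [e5, e6]; push_cast; ring⟩)
  have c67 := cf 6 7 1 1 0 (Or.inl ⟨1, by rw [e7, e6]; push_cast; ring⟩)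
  have c70 := cf 7 0 2 2 0 (Or.inr ⟨1, by rw [e0, e7]; push_cast; ring⟩)
  have c72 := cf 7 2 3 1 0 (Or.inr ⟨1, by rw [e2, e7]; push_cast; ring⟩)
  have c73 := cf 7 3 1 2 0 (Or.inr ⟨1, by rw [e3, e7]; push_cast; ring⟩)
  have c75 := cf 7 5 0 1 1 (Or.inr ⟨1, by rw [e5, e7]; push_cast; ring⟩)
  have c76 := cf 7 6 1 1 0 (Or.inr ⟨1, by rw [e6, e7]; push_cast; ring⟩)
  have c2 := fun i => (hc i).1
  have c5 := fun i => (hc i).2.2.2.1
  have cm := fun i => (gd (hp i) (r3 i)).mul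
  have cp := fun i => chi_pow (hp i) (r3 i)
  -- the primes dividing b
  let P : Fin 8 → ℤ := ![2, 5, q 0, q 2, q 3, q 5, q 6, q 7]
  have hP : ∀ i, Prime (P i) := fun i => by
    fin_cases i
    · exact Int.prime_two
    · exact Nat.prime_iff_prime_int.1 Nat.prime_five
    all_goals exact ip _
  have hinj : Function.Injective fun i => (P i).natAbs := by
    intro i j h
    have := big 0
    fin_cases i <;> fin_cases j <;> simp [P, e0, e2, e3, e5, e6, e7] at h ⊢ <;> omega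
  have ebP : b2 m n = ∏ i, P i ^ (![4, 1, 1, 1, 1, 1, 1, 1] : Fin 8 → ℕ) i := by
    rw [eb]; simp [P, Fin.prod_univ_eight]
  have vb : ∀ i, ¬ 3 ∣ padicValInt (P i).natAbs (b2 m n) := fun i => by
    have := val_prod_at hP hinj ![4, 1, 1, 1, 1, 1, 1, 1] i
    have e : ((b2 m n : ℤ) : ℚ) = ∏ i, (P i : ℚ) ^ (![4, 1, 1, 1, 1, 1, 1, 1] : Fin 8 → ℕ) i := by
      rw [ebP]; push_cast; rfl
    rw [← e, padicValRat.of_int] at this
    fin_cases i <;> simp at this ⊢ <;> omega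
  have tx : Tr (a2 m n) (b2 m n) (8 * q 0 * q 5 : ℚ) (-(q 6 * q 7)) (-10 * q 3 * q 2) := by
    constructor
    · rw [ea, e0, e2, e3, e5, e6, e7]; push_cast; ring
    · rw [eb]; push_cast; ring
  have ty : Tr (a2 m n) (b2 m n) (8 * q 6 * q 3 : ℚ) (-(q 0 * q 2)) (-10 * q 5 * q 7) := by
    constructor
    · rw [ea, e0, e2, e3, e5, e6, e7]; push_cast; ring
    · rw [eb]; push_cast; ring
  have ne : ∀ i j, i ≠ j → q i ≠ q j := fun i j h e => h (inj e)
  refine layer2 (P := P) good {q 1, q 4, q 6, q 7} (by simp [hp, r3]) (fun p pp p3 hd => ?_)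
    (fun e₀ e he => ?_) hP hinj (fun p pp hd => ?_) (κ := Fin 2) ![V _ _ _ _, V _ _ _ _] 0
    (Fin.forall_fin_two.2 ⟨V_not_InT good tx, V_not_InT good ty⟩)
    (fun j => Option.elim j ![2, 2, 1, 2, 2, 1, 0, 0]
      ![![0, 0, 2, 0, 0, 2, 1, 1], ![0, 0, 1, 1, 2, 0, 2, 0]])
    (fun j => Option.elim j 2 ![-4, -4]) ?_ ?_ (fun k z z0 hk => ?_) (fun k hk => ?_)
  · have ip' := Nat.prime_iff_prime_int.1 pp
    rw [hM] at hd
    simp only [Finset.mem_insert, Finset.mem_singleton]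
    rcases ip'.dvd_or_dvd hd with hd | hd
    · rcases ip'.dvd_or_dvd hd with hd | hd
      · rcases ip'.dvd_or_dvd hd with hd | hd
        · rcases ip'.dvd_or_dvd hd with hd | hd
          · have := (Nat.prime_dvd_prime_iff_eq pp Nat.prime_three).1
              (by exact_mod_cast ip'.dvd_of_dvd_pow (dvd_neg.1 hd))
            omega
          · simp [dq p pp _ hd]
        · simp [dq p pp _ hd]
      · simp [dq p pp _ (ip'.dvd_of_dvd_pow hd)]
    · simp [dq p pp _ (ip'.dvd_of_dvd_pow hd)]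
  · have hS : ∀ f : ℕ → Zw, ∏ l ∈ ({q 1, q 4, q 6, q 7} : Finset ℕ), f l =
        f (q 1) * f (q 4) * f (q 6) * f (q 7) := fun f => by
      rw [Finset.prod_insert (by simp [ne]), Finset.prod_insert (by simp [ne]),
        Finset.prod_insert (by simp [ne]), Finset.prod_singleton]
      ring
    have nm : ∀ x : ℕ, x ≤ 5 → x ∉ ({q 1, q 4, q 6, q 7} : Finset ℕ) := fun x hx => by
      have := big 1; have := big 4; have := big 6; have := big 7
      simp only [Finset.mem_insert, Finset.mem_singleton]; omega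
    have n3 : ∀ i, q i ≠ 3 := fun i => by have := big i; omega
    have k2 := he 2 Nat.prime_two (by norm_num) (nm 2 (by norm_num)) (vb 0)
    have k5 := he 5 Nat.prime_five (by norm_num) (nm 5 le_rfl) (vb 1)
    have l0 := he (q 0) (hp 0) (n3 0) (by simp [ne]) (vb 2)
    have l2 := he (q 2) (hp 2) (n3 2) (by simp [ne]) (vb 3)
    have l3 := he (q 3) (hp 3) (n3 3) (by simp [ne]) (vb 4)
    have l5 := he (q 5) (hp 5) (n3 5) (by simp [ne]) (vb 5)
    obtain ⟨s1, t1, w1⟩ := exists_omega_pow (u3 1) (hc 1).2.1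
    obtain ⟨s4, t4, w4⟩ := exists_omega_pow (u3 4) (hc 4).2.1
    obtain ⟨s6, t6, w6⟩ := exists_omega_pow (u3 6) (hc 6).2.1
    obtain ⟨s7, t7, w7⟩ := exists_omega_pow (u3 7) (hc 7).2.1
    simp only [hS, cp, Nat.cast_ofNat, c2, c5, c10, c12, c13, c15, c40, c42, c43, c45, c60, c62, c63,
      c65, c70, c72, c73, c75, w1, w4, w6, w7, ← pow_mul, ← pow_add, one_pow, mul_one]
      at k2 k5 l0 l2 l3 l5
    have sq : ∀ i, e₀ * (q i ^ 2 / 3) % 3 = e₀ * (m ^ 2 / 3) % 3 := fun i => by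
      have : q i ^ 2 % 9 = m ^ 2 % 9 := by rw [Nat.pow_mod, r9, ← Nat.pow_mod]
      rw [Nat.mul_mod, show q i ^ 2 / 3 % 3 = m ^ 2 / 3 % 3 by omega, ← Nat.mul_mod]
    obtain ⟨z0, z1, z4, z6, z7⟩ := kill_arith (α := α) (γ := γ) (μ := m ^ 2 / 3) (e₀ := e₀)
      (e₁ := s1 * e (q 1)) (e₄ := s4 * e (q 4)) (e₆ := s6 * e (q 6)) (e₇ := s7 * e (q 7)) hα
      (by simpa using omega_pow_inj (A := 0) (by simpa using k2))
      (by refine Eq.trans ?_ (omega_pow_inj k5); congr 1; ring)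
      (by rw [← sq 0, ← omega_pow_inj l0]; congr 1; ring)
      (by rw [← sq 2, ← omega_pow_inj l2]; congr 1; ring)
      (by rw [← sq 3, ← omega_pow_inj l3]; congr 1; ring)
      (by rw [← sq 5, ← omega_pow_inj l5]; congr 1; ring)
    refine ⟨z0, ?_⟩
    simp only [Finset.mem_insert, Finset.mem_singleton]
    rintro l (rfl | rfl | rfl | rfl)
    · rcases t1 with rfl | rfl <;> omega
    · rcases t4 with rfl | rfl <;> omega
    · rcases t6 with rfl | rfl <;> omega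
    · rcases t7 with rfl | rfl <;> omega
  · have ip' := Nat.prime_iff_prime_int.1 pp
    rw [ebP] at hd
    obtain ⟨i, -, hi⟩ := (Prime.dvd_finsetProd_iff ip' _).1 hd
    exact ⟨i, (Nat.prime_dvd_prime_iff_eq pp (Int.prime_iff_natAbs_prime.1 (hP i))).1
      (Int.natCast_dvd.1 (ip'.dvd_of_dvd_pow hi))⟩
  · rintro (_ | j)
    · simp
    · fin_cases j <;> simp
  · rintro (_ | j)
    · simp only [fam, Matrix.cons_val_zero, V_add_T good tx]
      rw [V, cy_pt good tx.rot.on]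
      simp [P, Fin.prod_univ_eight]; ring
    · fin_cases j
      · simp only [fam, Fin.zero_eta, Matrix.cons_val_zero]
        rw [V, cy_pt good tx.on]
        simp [P, Fin.prod_univ_eight]; ring
      · simp only [fam, Fin.mk_one, Matrix.cons_val_one, Matrix.cons_val_zero]
        rw [V, cy_pt good ty.on]
        simp [P, Fin.prod_univ_eight]; ring
  · have eD : ∏ i, (P i : ℚ) ^ k i = ((2 ^ k 0 * 5 ^ k 1 * q 0 ^ k 2 * q 2 ^ k 3 * q 3 ^ k 4 *
        q 5 ^ k 5 * q 6 ^ k 6 * q 7 ^ k 7 : ℤ) : ℚ) := by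
      simp [P, Fin.prod_univ_eight]
    rw [eD] at hk
    have nd : ∀ i {x y : ℤ}, ¬ (q i : ℤ) ∣ x → ¬ (q i : ℤ) ∣ y → ¬ (q i : ℤ) ∣ x * y :=
      fun i _ _ h1 h2 h => ((ip i).dvd_or_dvd h).elim h1 h2
    have np : ∀ i {x : ℤ} (j : ℕ), ¬ (q i : ℤ) ∣ x → ¬ (q i : ℤ) ∣ x ^ j :=
      fun i _ _ h1 h => h1 ((ip i).dvd_of_dvd_pow h)
    have n80 : ∀ i, ¬ (q i : ℤ) ∣ 80 := fun i => by
      rw [show (80 : ℤ) = 2 ^ 4 * 5 by norm_num]; exact nd i (np i _ (n2 i)) (n5 i)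
    have c80 : ∀ i, chi (q i) 80 = chi (q i) 3 ^ α := fun i => by
      rw [show (80 : ℤ) = 2 ^ 4 * 5 by norm_num, cm, cp, c2, c5, one_pow, one_mul]
    have node : ∀ i, i = 1 ∨ i = 4 → chi (q i) (2 ^ k 0 * 5 ^ k 1 * q 0 ^ k 2 * q 2 ^ k 3 *
        q 3 ^ k 4 * q 5 ^ k 5 * q 6 ^ k 6 * q 7 ^ k 7) = 1 := fun i hi => by
      have := Fact.mk (hp i)
      have h0 : ∀ j, j ≠ 1 → j ≠ 4 → ¬ (q i : ℤ) ∣ q j := fun j h1 h4 =>
        nq i j (by rcases hi with rfl | rfl <;> tauto)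
      have hD := nd i (nd i (nd i (nd i (nd i (nd i (nd i (np i (k 0) (n2 i)) (np i (k 1) (n5 i)))
        (np i (k 2) (h0 0 (by decide) (by decide)))) (np i (k 3) (h0 2 (by decide) (by decide))))
        (np i (k 4) (h0 3 (by decide) (by decide)))) (np i (k 5) (h0 5 (by decide) (by decide))))
        (np i (k 6) (h0 6 (by decide) (by decide)))) (np i (k 7) (h0 7 (by decide) (by decide)))
      obtain ⟨w, hw⟩ := zmod_omega_exists (r3 i)
      refine chi_of_cube (hp i) (r3 i) hD (LocOK.cube ?_ ?_ hw (fun e3 => ?_) hD z0 (hk (q i)))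
      · rw [eb]
        exact nd i (nd i (nd i (nd i (nd i (nd i (n80 i) (h0 0 (by decide) (by decide)))
          (h0 2 (by decide) (by decide))) (h0 3 (by decide) (by decide)))
          (h0 5 (by decide) (by decide))) (h0 6 (by decide) (by decide)))
          (h0 7 (by decide) (by decide))
      · rw [hM]
        rcases hi with rfl | rfl
        · exact ((dvd_pow_self _ two_ne_zero).mul_left _).mul_right _
        · exact (dvd_pow_self _ two_ne_zero).mul_left _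
      · refine ns i 3 (by norm_num) (by norm_num) ?_
        rw [← ZMod.intCast_zmod_eq_zero_iff_dvd]
        exact_mod_cast e3
    have k1 := node 1 (Or.inl rfl)
    have k4 := node 4 (Or.inr rfl)
    have k6 : chi (q 6) (2 ^ k 0 * 5 ^ k 1 * q 0 ^ k 2 * q 2 ^ k 3 * q 3 ^ k 4 * q 5 ^ k 5 *
        q 7 ^ k 7 * (80 * q 0 * q 2 * q 3 * q 5 * q 7) ^ (2 * k 6)) = 1 := by
      have := Fact.mk (hp 6)
      have hD := nd 6 (nd 6 (nd 6 (nd 6 (nd 6 (nd 6 (np 6 (k 0) (n2 6)) (np 6 (k 1) (n5 6)))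
        (np 6 (k 2) (nq 6 0 (by decide)))) (np 6 (k 3) (nq 6 2 (by decide))))
        (np 6 (k 4) (nq 6 3 (by decide)))) (np 6 (k 5) (nq 6 5 (by decide))))
        (np 6 (k 7) (nq 6 7 (by decide)))
      have hb := nd 6 (nd 6 (nd 6 (nd 6 (nd 6 (n80 6) (nq 6 0 (by decide))) (nq 6 2 (by decide)))
        (nq 6 3 (by decide))) (nq 6 5 (by decide))) (nq 6 7 (by decide))
      refine chi_of_cube (hp 6) (r3 6) (nd 6 hD (np 6 _ hb)) ?_
      have := LocOK.additive (p := q 6) (a := a2 m n) (by rw [ea]; exact (dvd_mul_left _ _).mul_right _)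
        hb hD (k 6) z0 (by
          convert hk (q 6) using 2
          · rw [eb]; ring
          · push_cast; ring)
      rwa [Int.cast_mul, Int.cast_pow]
    have k7 : chi (q 7) (2 ^ k 0 * 5 ^ k 1 * q 0 ^ k 2 * q 2 ^ k 3 * q 3 ^ k 4 * q 5 ^ k 5 *
        q 6 ^ k 6 * (80 * q 0 * q 2 * q 3 * q 5 * q 6) ^ (2 * k 7)) = 1 := by
      have := Fact.mk (hp 7)
      have hD := nd 7 (nd 7 (nd 7 (nd 7 (nd 7 (nd 7 (np 7 (k 0) (n2 7)) (np 7 (k 1) (n5 7)))
        (np 7 (k 2) (nq 7 0 (by decide)))) (np 7 (k 3) (nq 7 2 (by decide))))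
        (np 7 (k 4) (nq 7 3 (by decide)))) (np 7 (k 5) (nq 7 5 (by decide))))
        (np 7 (k 6) (nq 7 6 (by decide)))
      have hb := nd 7 (nd 7 (nd 7 (nd 7 (nd 7 (n80 7) (nq 7 0 (by decide))) (nq 7 2 (by decide)))
        (nq 7 3 (by decide))) (nq 7 5 (by decide))) (nq 7 6 (by decide))
      refine chi_of_cube (hp 7) (r3 7) (nd 7 hD (np 7 _ hb)) ?_
      have := LocOK.additive (p := q 7) (a := a2 m n) (by rw [ea]; exact dvd_mul_left _ _)
        hb hD (k 7) z0 (by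
          convert hk (q 7) using 2
          · rw [eb]; ring
          · push_cast; ring)
      rwa [Int.cast_mul, Int.cast_pow]
    obtain ⟨μ, k3⟩ : ∃ μ : ℕ, 3 ∣ k 0 + 5 * k 1 + μ * (k 2 + k 3 + k 4 + k 5 + k 6 + k 7) := by
      have := Fact.mk Nat.prime_three
      have i3 : Prime (3 : ℤ) := Int.prime_three
      have t1 : ∀ {x y : ℤ}, ¬ 3 ∣ x → ¬ 3 ∣ y → ¬ 3 ∣ x * y :=
        fun h1 h2 h => (i3.dvd_or_dvd h).elim h1 h2
      have t2 : ∀ {x : ℤ} (j : ℕ), ¬ 3 ∣ x → ¬ 3 ∣ x ^ j := fun _ h1 h => h1 (i3.dvd_of_dvd_pow h)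
      have t3 : ∀ i, ¬ (3 : ℤ) ∣ q i := fun i => by have := r3 i; omega
      have h := LocOK.three (a' := -(q 6 * q 7)) (b := b2 m n) (by
          rw [dvd_neg]; exact t1 (t3 6) (t3 7))
        ⟨-3 * q 6 * q 7 * q 1 ^ 2 * q 4 ^ 2, by
          apply mul_left_cancel₀ (show (27 : ℤ) ≠ 0 by norm_num)
          rw [ea] at hM
          linear_combination hM⟩
        (t1 (t1 (t1 (t1 (t1 (t1 (t1 (t2 (k 0) (show ¬ (3 : ℤ) ∣ 2 by decide))
          (t2 (k 1) (show ¬ (3 : ℤ) ∣ 5 by decide))) (t2 (k 2) (t3 0))) (t2 (k 3) (t3 2)))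
          (t2 (k 4) (t3 3))) (t2 (k 5) (t3 5))) (t2 (k 6) (t3 6))) (t2 (k 7) (t3 7))) z0 (by
          convert hk 3 using 2
          rw [ea]; ring)
      refine mod_nine h3 ?_
      have h' := (ZMod.intCast_zmod_eq_zero_iff_dvd _ 9).2 h
      have cq : ∀ i, (q i : ZMod 9) = m := fun i => (ZMod.natCast_eq_natCast_iff' _ _ _).2 (r9 i)
      push_cast at h'
      simp only [cq] at h'
      linear_combination h'
    simp only [cm, cp, c2, c5, c80, c10, c12, c13, c15, c16, c17, c40, c42, c43, c45, c46, c47, c60,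
      c62, c63, c65, c67, c70, c72, c73, c75, c76, ← pow_mul, ← pow_add, one_pow, one_mul]
      at k1 k4 k6 k7
    obtain ⟨z1, z2, z4, z5, z6⟩ := sel_arith (γ := γ) hα k3
      (by convert pow_three_dvd (u3 1) (hc 1).2.1 k1 using 1; ring)
      (by convert pow_three_dvd (u3 4) (hc 4).2.1 k4 using 1; ring)
      (by convert pow_three_dvd (u3 6) (hc 6).2.1 k6 using 1; ring)
      (by convert pow_three_dvd (u3 7) (hc 7).2.1 k7 using 1; ring)
    refine ⟨fun j => Option.elim j (2 * k 0) ![k 7, k 3 + 2 * k 0], fun i => ?_⟩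
    fin_cases i <;> simp <;> omega
  · have q0 := hk 0
    have q3 := hk 3
    have q7 := hk 7
    simp at q0 q3 q7
    rintro (_ | j)
    · omega
    · fin_cases j <;> simp <;> omega

end Pool.Agent.MP_e23604_nt
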