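import Pool.Agent.MP_e23604_nt.Family

/-!
The descent in terms of exponent vectors, with arbitrary local conditions.
-/

open scoped Classical
open WeierstrassCurve QuadraticAlgebra

noncomputable section

namespace Pool.Agent.MP_e23604_nt

attribute [local instance 2000] decQ

variable {ι : Type} [Fintype ι] {P : ι → ℤ}

theorem layer2 {a b : ℤ} (h : Good a b) (S : Finset ℕ) (hS : ∀ l ∈ S, l.Prime ∧ l % 3 = 1)
    (hM : ∀ p : ℕ, p.Prime → p % 3 = 1 → (p : ℤ) ∣ a ^ 3 - 27 * b → p ∈ S) (hK : Kill S b)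
    (hP : ∀ i, Prime (P i)) (hinj : Function.Injective fun i => (P i).natAbs)
    (hb : ∀ p : ℕ, p.Prime → (p : ℤ) ∣ b → ∃ i, p = (P i).natAbs)
    {κ : Type} [Fintype κ] (C : κ → Pts (E3 a b) ℚ) (k₀ : κ) (hC : ∀ k, ¬ InT (C k))
    (E : Option κ → ι → ℕ) (c : Option κ → ℚ) (c0 : ∀ j, c j ≠ 0)
    (hE : ∀ j, cy (fam C k₀ j) = (∏ i, (P i : ℚ) ^ E j i) * c j ^ 3)
    (H1 : ∀ (n : ι → ℕ) (z : ℚ), z ≠ 0 →
      (∀ (p : ℕ) [Fact p.Prime], LocOK a b p ((∏ i, (P i : ℚ) ^ n i) * z ^ 3)) →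
      ∃ m : Option κ → ℕ, ∀ i, n i % 3 = (∑ j, m j * E j i) % 3)
    (H2 : ∀ m : Option κ → ℕ, (∀ i, 3 ∣ ∑ j, m j * E j i) → ∀ j, 3 ∣ m j) :
    (E3 a b).IsElliptic ∧ (letI := instDecidableEqRat
      Module.finrank ℤ (E3 a b).toAffine.Point = Fintype.card κ) ∧
      ∀ c ∈ Sha (E3 a b), ∀ k : ℕ, 3 ^ k • c = 0 → c = 0 := by
  have prodE : ∀ m : Option κ → ℕ, ∏ j, cy (fam C k₀ j) ^ m j =
      (∏ i, (P i : ℚ) ^ ∑ j, m j * E j i) * (∏ j, c j ^ m j) ^ 3 := by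
    intro m
    simp only [hE, mul_pow, Finset.prod_mul_distrib, ← Finset.prod_pow,
      ← Finset.prod_pow_eq_pow_sum]
    rw [Finset.prod_comm]
    congr 1
    · exact Finset.prod_congr rfl fun i _ => Finset.prod_congr rfl fun j _ => by ring
    · exact Finset.prod_congr rfl fun j _ => by ring
  have cm0 : ∀ m : Option κ → ℕ, ∏ j, c j ^ m j ≠ 0 := fun m =>
    Finset.prod_ne_zero_iff.2 fun j _ => pow_ne_zero _ (c0 j)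
  have := machine h S hS hM hK
    C k₀ hC (fun d d0 hd => by
      obtain ⟨n, z, z0, e⟩ := exists_exps hP hinj d0 (fun p hp hne => by
        have := Fact.mk hp
        refine (hd p).val (fun hpb => ?_) d0
        obtain ⟨i, hi⟩ := hb p hp hpb
        exact hne i hi)
      obtain ⟨m, hm⟩ := H1 n z z0 (fun p _ => e ▸ hd p)
      obtain ⟨u, hu⟩ := prod_congr_cube (fun i => (hP i).ne_zero) hm
      refine ⟨m, u * z / ∏ j, c j ^ m j, ?_⟩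
      have := cm0 m
      rw [prodE, e, hu]
      field_simp)
    (fun m z e => H2 m fun i => by
      have := Fact.mk (Int.prime_iff_natAbs_prime.1 (hP i))
      have D0 : ∏ i, (P i : ℚ) ^ ∑ j, m j * E j i ≠ 0 :=
        Finset.prod_ne_zero_iff.2 fun j _ => pow_ne_zero _ (by exact_mod_cast (hP j).ne_zero)
      rw [prodE] at e
      have z0 : z ≠ 0 := by
        rintro rfl
        exact mul_ne_zero D0 (pow_ne_zero 3 (cm0 m)) (by simpa using e)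
      have := congrArg (padicValRat (P i).natAbs) e
      rw [padicValRat.mul D0 (pow_ne_zero 3 (cm0 m)), val_prod_at hP hinj, padicValRat.pow,
        padicValRat.pow] at this
      omega)
  refine ⟨h.isElliptic, ?_, this.2⟩
  rw [← this.1]
  exact finrank_congr (by ext <;> simp [E3, baseChange]) _ _

section chi

variable {l : ℕ} (h1 : l.Prime) (h2 : l % 3 = 1)

include h1 h2

lemma chi_one : chi l 1 = 1 :=
  ((gd h1 h2).one_iff 1 (by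
    intro e; exact h1.one_lt.ne' (by exact_mod_cast Int.eq_one_of_dvd_one (by omega) e))).2
    ⟨1, by simp⟩

lemma chi_neg (x : ℤ) : chi l (-x) = chi l x :=
  chi_eq h1 h2 (-1) (by
    intro e
    exact h1.one_lt.ne' (by exact_mod_cast Int.eq_one_of_dvd_one (by omega) (dvd_neg.1 e)))
    (by simp)

lemma chi_pow (x : ℤ) (k : ℕ) : chi l (x ^ k) = chi l x ^ k := by
  induction k with
  | zero => simpa using chi_one h1 h2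
  | succ k ih => rw [pow_succ, (gd h1 h2).mul, ih, pow_succ]

lemma chi_three_cube : chi l 3 ^ 3 = 1 :=
  (gd h1 h2).cube 3 fun e => by
    have := (Nat.prime_dvd_prime_iff_eq h1 Nat.prime_three).1 (by exact_mod_cast e)
    omega

lemma chi_form {n : ℤ} {α γ : ℕ} (c2 : chi l 2 = 1) (c5 : chi l 5 = chi l 3 ^ α)
    (cn : chi l n = chi l 3 ^ γ) {Q : ℤ} (x y z : ℕ)
    (h : (l : ℤ) ∣ Q - 2 ^ x * 3 ^ y * 5 ^ z * n ∨ (l : ℤ) ∣ Q + 2 ^ x * 3 ^ y * 5 ^ z * n) :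
    chi l Q = chi l 3 ^ (y + α * z + γ) := by
  have g := gd h1 h2
  have : chi l Q = chi l (2 ^ x * 3 ^ y * 5 ^ z * n) := by
    rcases h with h | h
    · exact g.congr _ _ (by rw [eq_comm, ZMod.intCast_eq_intCast_iff_dvd_sub]; exact h)
    · rw [← chi_neg h1 h2 (2 ^ x * 3 ^ y * 5 ^ z * n)]
      exact g.congr _ _ (by rw [eq_comm, ZMod.intCast_eq_intCast_iff_dvd_sub]; simpa using h)
  rw [this, g.mul, g.mul, g.mul, chi_pow h1 h2, chi_pow h1 h2, chi_pow h1 h2, c2, c5, cn]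
  ring

lemma chi_of_cube {x : ℤ} (hx : ¬ (l : ℤ) ∣ x) (h : ∃ y : ZMod l, (x : ZMod l) = y ^ 3) :
    chi l x = 1 := ((gd h1 h2).one_iff x hx).2 h

end chi

lemma exists_omega_pow {u : Zw} (h3 : u ^ 3 = 1) (h1 : u ≠ 1) :
    ∃ s : ℕ, (s = 1 ∨ s = 2) ∧ u = ω ^ s := by
  have : (u - 1) * ((u - ω) * (u - ω ^ 2)) = 0 := by
    linear_combination h3 + (-u ^ 2 + u * ω - ω + 1) * omega_rel
  rcases mul_eq_zero.1 this with e | e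
  · exact absurd (sub_eq_zero.1 e) h1
  · rcases mul_eq_zero.1 e with e | e
    · exact ⟨1, Or.inl rfl, by simpa using sub_eq_zero.1 e⟩
    · exact ⟨2, Or.inr rfl, sub_eq_zero.1 e⟩

lemma kill_arith {α γ μ e₀ e₁ e₄ e₆ e₇ : ℕ} (hα : ¬ 3 ∣ α)
    (h2 : 0 = e₀ % 3) (h5 : (2 * (α * (e₁ + e₄ + e₆ + e₇))) % 3 = (e₀ * 8) % 3)
    (k0 : (2 * ((1 + γ) * e₁ + (α + γ) * e₄ + (1 + α + γ) * e₆ + (2 + γ) * e₇)) % 3 = (e₀ * μ) % 3)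
    (k2 : (2 * ((1 + γ) * e₁ + γ * e₄ + (2 + γ) * e₆ + (1 + γ) * e₇)) % 3 = (e₀ * μ) % 3)
    (k3 : (2 * ((1 + γ) * e₁ + γ * e₄ + (1 + γ) * e₆ + (2 + γ) * e₇)) % 3 = (e₀ * μ) % 3)
    (k5 : (2 * ((1 + α + γ) * e₁ + γ * e₄ + (2 + γ) * e₆ + (1 + α + γ) * e₇)) % 3 = (e₀ * μ) % 3) :
    3 ∣ e₀ ∧ 3 ∣ e₁ ∧ 3 ∣ e₄ ∧ 3 ∣ e₆ ∧ 3 ∣ e₇ := by
  have key : ∀ α γ μ e₀ e₁ e₄ e₆ e₇ : ZMod 3, α ≠ 0 → e₀ = 0 →
      2 * (α * (e₁ + e₄ + e₆ + e₇)) = e₀ * 8 →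
      2 * ((1 + γ) * e₁ + (α + γ) * e₄ + (1 + α + γ) * e₆ + (2 + γ) * e₇) = e₀ * μ →
      2 * ((1 + γ) * e₁ + γ * e₄ + (2 + γ) * e₆ + (1 + γ) * e₇) = e₀ * μ →
      2 * ((1 + γ) * e₁ + γ * e₄ + (1 + γ) * e₆ + (2 + γ) * e₇) = e₀ * μ →
      2 * ((1 + α + γ) * e₁ + γ * e₄ + (2 + γ) * e₆ + (1 + α + γ) * e₇) = e₀ * μ →
      e₁ = 0 ∧ e₄ = 0 ∧ e₆ = 0 ∧ e₇ = 0 := by
    rintro α γ μ _ e₁ e₄ e₆ e₇ hα rfl
    simp only [zero_mul]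
    revert α γ e₁ e₄ e₆ e₇
    decide
  have cast : ∀ {x y : ℕ}, x % 3 = y % 3 → (x : ZMod 3) = y := fun h =>
    (ZMod.natCast_eq_natCast_iff' _ _ _).2 h
  have := key α γ μ e₀ e₁ e₄ e₆ e₇ (by rwa [Ne, ZMod.natCast_eq_zero_iff])
    (by rw [ZMod.natCast_eq_zero_iff]; omega) (by exact_mod_cast cast h5)
    (by exact_mod_cast cast k0) (by exact_mod_cast cast k2) (by exact_mod_cast cast k3)
    (by exact_mod_cast cast k5)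
  simp only [ZMod.natCast_eq_zero_iff] at this
  exact ⟨by omega, this⟩

lemma sel_arith {α γ μ n₀ n₁ n₂ n₃ n₄ n₅ n₆ n₇ : ℕ} (hα : ¬ 3 ∣ α)
    (h3 : 3 ∣ n₀ + 5 * n₁ + μ * (n₂ + n₃ + n₄ + n₅ + n₆ + n₇))
    (k1 : 3 ∣ α * n₁ + (1 + γ) * n₂ + (1 + γ) * n₃ + (1 + γ) * n₄ + (1 + α + γ) * n₅ +
      (1 + γ) * n₆ + (1 + α + γ) * n₇)
    (k4 : 3 ∣ α * n₁ + (α + γ) * n₂ + γ * n₃ + γ * n₄ + γ * n₅ + (α + γ) * n₆ + γ * n₇)
    (k6 : 3 ∣ α * n₁ + (1 + α + γ) * n₂ + (2 + γ) * n₃ + (1 + γ) * n₄ + (2 + γ) * n₅ +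
      (1 + γ) * n₇ + (α + (1 + α + γ) + (2 + γ) + (1 + γ) + (2 + γ) + (1 + γ)) * (2 * n₆))
    (k7 : 3 ∣ α * n₁ + (2 + γ) * n₂ + (1 + γ) * n₃ + (2 + γ) * n₄ + (1 + α + γ) * n₅ +
      (1 + γ) * n₆ + (α + (2 + γ) + (1 + γ) + (2 + γ) + (1 + α + γ) + (1 + γ)) * (2 * n₇)) :
    3 ∣ n₁ + 2 * n₀ ∧ 3 ∣ n₂ + 2 * (n₀ + 2 * n₇ + n₃) ∧ 3 ∣ n₄ + 2 * (2 * n₀ + 2 * n₃) ∧
      3 ∣ n₅ + 2 * (2 * n₀ + 2 * n₇) ∧ 3 ∣ n₆ + 2 * (n₇ + 2 * n₃ + n₀) := by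
  obtain ⟨a, ha⟩ : ∃ a, α = 3 * a + 1 ∨ α = 3 * a + 2 := ⟨α / 3, by omega⟩
  have hd : 3 ∣ n₂ + n₃ + n₄ + n₅ + n₆ + n₇ := by
    clear h3 hα
    rcases ha with rfl | rfl <;> ring_nf at k1 k4 k6 k7 <;> omega
  have h1 := hd.mul_left γ
  have h2 := hd.mul_left μ
  clear hα
  rcases ha with rfl | rfl <;> ring_nf at h1 h2 h3 k1 k4 k6 k7 <;> omega

end Pool.Agent.MP_e23604_nt
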