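import Pool.Agent.MP_e23604_nt.Layer

/-!
The explicit family.
-/

open scoped Classical
open WeierstrassCurve QuadraticAlgebra

set_option linter.unusedSectionVars false

noncomputable section

namespace Pool.Agent.MP_e23604_nt

attribute [local instance 2000] decQ

lemma chi_eq {l : ℕ} (h1 : l.Prime) (h2 : l % 3 = 1) (c : ℤ) {x y : ℤ} (hc : ¬ (l : ℤ) ∣ c)
    (h : (l : ℤ) ∣ y - c ^ 3 * x) : chi l y = chi l x := by
  have g := gd h1 h2
  rw [g.congr y (c * c * c * x) (by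
    rw [eq_comm, ZMod.intCast_eq_intCast_iff_dvd_sub]; convert h using 2; ring),
    g.mul, g.mul, g.mul]
  linear_combination chi l x * g.cube c hc

lemma chi_ne {l : ℕ} (h1 : l.Prime) (h2 : l % 3 = 1) {x y : ℤ} (hx : ¬ (l : ℤ) ∣ x)
    (hy : ¬ (l : ℤ) ∣ y) (h : ¬ ∃ z : ZMod l, (x : ZMod l) * (y : ZMod l) ^ 2 = z ^ 3) :
    chi l x ≠ chi l y := by
  intro e
  have g := gd h1 h2
  have hp := Nat.prime_iff_prime_int.1 h1
  refine h ?_
  have := (g.one_iff (x * (y * y)) (fun hd => by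
    rcases hp.dvd_or_dvd hd with hd | hd
    · exact hx hd
    · exact hy ((hp.dvd_or_dvd hd).elim id id))).1 (by
      rw [g.mul, g.mul, e, ← g.cube y hy]; ring)
  simpa [sq] using this

lemma pow_eq_dvd {u v : Zw} (hu : u ^ 3 = 1) (hv : v ^ 3 = 1) (h1 : u ≠ v) {A : ℕ}
    (h : u ^ A = v ^ A) : 3 ∣ A :=
  pow_three_dvd₂ (A := 2 * A) hu hv h1 (by rw [← h, ← pow_add, show 2 * A + A = 3 * A by ring,
    pow_mul, hu, one_pow]) (by omega)

lemma cube_ne_zero {u : Zw} (hu : u ^ 3 = 1) : u ≠ 0 := by rintro rfl; simp at hu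

lemma omega_pow_inj {A B : ℕ} (h : (ω : Zw) ^ A = ω ^ B) : A % 3 = B % 3 := by
  rw [pow_eq_pow_mod A omega_prim.pow_eq_one, pow_eq_pow_mod B omega_prim.pow_eq_one] at h
  exact omega_prim.pow_inj (Nat.mod_lt _ (by norm_num)) (Nat.mod_lt _ (by norm_num)) h

lemma sq_div_three {x y : ℤ} (h : (9 : ℤ) ∣ x ^ 2 - y ^ 2) :
    x.natAbs ^ 2 / 3 % 3 = y.natAbs ^ 2 / 3 % 3 := by
  rw [← Int.natAbs_sq x, ← Int.natAbs_sq y, ← Nat.cast_pow, ← Nat.cast_pow] at h
  omega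

lemma sq_div_three' {x y : ℤ} (h : (9 : ℤ) ∣ x ^ 2 - 7 * y ^ 2) (hy : ¬ (3 : ℤ) ∣ y) :
    x.natAbs ^ 2 / 3 % 3 = (y.natAbs ^ 2 / 3 + 2) % 3 := by
  have : y ^ 2 % 3 = 1 := by
    have : y % 3 = 1 ∨ y % 3 = 2 := by omega
    rcases this with e | e <;> simp [sq, Int.mul_emod, e]
  rw [← Int.natAbs_sq y, ← Nat.cast_pow] at this
  rw [← Int.natAbs_sq x, ← Int.natAbs_sq y, ← Nat.cast_pow, ← Nat.cast_pow] at h
  omega

theorem family (r n : ℤ) (h1 : ∀ i, Prime (forms r n i)) (h2 : ∀ i, 19 < |forms r n i|)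
    (h3 : Function.Injective fun i => |forms r n i|)
    (h4 : ∀ p : ℕ, p.Prime → p % 3 = 1 →
      (p : ℤ) ∣ forms r n 0 * forms r n 1 * n * (54 * r - n) → p = 7 ∨ p = 13 ∨ p = 19)
    (h5 : 19 ∣ n * (54 * r - n)) (h6 : ¬ ∃ x : ZMod 19, (r : ZMod 19) = x ^ 3)
    (h7 : ¬ ∃ x : ZMod 7, (r : ZMod 7) * ((27 * r - n : ℤ) : ZMod 7) ^ 2 = x ^ 3)
    (h8 : ¬ ∃ x : ZMod 13, (r : ZMod 13) * ((27 * r - n : ℤ) : ZMod 13) ^ 2 = x ^ 3) :
    (E3 (forms r n 0 * forms r n 1 : ℤ) (∏ i, forms r n i : ℤ)).IsElliptic ∧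
    (letI := instDecidableEqRat; Module.finrank ℤ
      (E3 (forms r n 0 * forms r n 1 : ℤ) (∏ i, forms r n i : ℤ)).toAffine.Point = 2) ∧
      ∀ c ∈ Sha (E3 (forms r n 0 * forms r n 1 : ℤ) (∏ i, forms r n i : ℤ)),
        ∀ k : ℕ, 3 ^ k • c = 0 → c = 0 := by
  set P := forms r n with hP
  have e0 : P 0 = 27 * r - 14 * n := rfl
  have e1 : P 1 = 27 * r + 13 * n := rfl
  have e2 : P 2 = r := rfl
  have e3 : P 3 = 27 * r - n := rfl
  have e4 : P 4 = 27 * r - 365 * n := rfl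
  have e5 : P 5 = 27 * r + 364 * n := rfl
  have hM : (P 0 * P 1) ^ 3 - 27 * ∏ i, P i = 182 ^ 2 * (P 0 * P 1) * (n * (54 * r - n)) ^ 2 := by
    rw [Fin.prod_univ_six, e0, e1, e2, e3, e4, e5]; ring
  have P0 : ∀ i, P i ≠ 0 := fun i => (h1 i).ne_zero
  have m0 : n * (54 * r - n) ≠ 0 := by
    intro e
    have := h4 31 (by norm_num) (by norm_num) (by rw [mul_assoc, e]; simp)
    omega
  have good : Good (P 0 * P 1 : ℤ) (∏ i, P i : ℤ) := by
    constructor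
    · exact_mod_cast Finset.prod_ne_zero_iff.2 fun i _ => P0 i
    · have : (P 0 * P 1) ^ 3 - 27 * ∏ i, P i ≠ 0 := by
        rw [hM]; exact mul_ne_zero (mul_ne_zero (by norm_num) (mul_ne_zero (P0 _) (P0 _)))
          (pow_ne_zero _ m0)
      exact_mod_cast this
  have inj : Function.Injective fun i => (P i).natAbs := fun i j e => h3 (by
    simp only [Int.abs_eq_natAbs] at e ⊢; rw [e])
  have big : ∀ i, 19 < (P i).natAbs := fun i => by have := h2 i; rw [Int.abs_eq_natAbs] at this; omega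
  have dv : ∀ p : ℕ, p.Prime → ∀ i, (p : ℤ) ∣ P i → p = (P i).natAbs := fun p hp i h =>
    (Nat.prime_dvd_prime_iff_eq hp (Int.prime_iff_natAbs_prime.1 (h1 i))).1 (Int.natCast_dvd.1 h)
  have nd : ∀ p : ℕ, p.Prime → p ≤ 19 → ∀ i, ¬ (p : ℤ) ∣ P i := fun p hp hle i h => by
    have := dv p hp i h
    have := big i
    omega
  have hb : ∀ p : ℕ, p.Prime → (p : ℤ) ∣ ∏ i, P i → ∃ i, p = (P i).natAbs := fun p hp h => by
    obtain ⟨i, -, hi⟩ := (Prime.dvd_finsetProd_iff (Nat.prime_iff_prime_int.1 hp) _).1 h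
    exact ⟨i, dv p hp i hi⟩
  have p7 : Nat.Prime 7 := by norm_num
  have p13 : Nat.Prime 13 := by norm_num
  have p19 : Nat.Prime 19 := by norm_num
  -- cubic characters
  have c7 := fun i => (gd p7 rfl).cube _ (nd 7 p7 (by norm_num) i)
  have c13 := fun i => (gd p13 rfl).cube _ (nd 13 p13 (by norm_num) i)
  have c19 := fun i => (gd p19 rfl).cube _ (nd 19 p19 (by norm_num) i)
  have d7 : chi 7 (P 2) ≠ chi 7 (P 3) :=
    chi_ne p7 rfl (nd 7 p7 (by norm_num) 2) (nd 7 p7 (by norm_num) 3) h7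
  have d13 : chi 13 (P 2) ≠ chi 13 (P 3) :=
    chi_ne p13 rfl (nd 13 p13 (by norm_num) 2) (nd 13 p13 (by norm_num) 3) h8
  have d19 : chi 19 (P 2) ≠ 1 := fun e => h6 (((gd p19 rfl).one_iff _ (nd 19 p19 le_rfl 2)).1 e)
  have a0 : chi 7 (P 0) = chi 7 (P 2) := chi_eq p7 rfl 3 (by decide) ⟨-2 * n, by rw [e0, e2]; ring⟩
  have a1 : chi 7 (P 1) = chi 7 (P 3) := chi_eq p7 rfl 1 (by decide) ⟨2 * n, by rw [e1, e3]; ring⟩
  have a4 : chi 7 (P 4) = chi 7 (P 3) := chi_eq p7 rfl 1 (by decide) ⟨-52 * n, by rw [e4, e3]; ring⟩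
  have a5 : chi 7 (P 5) = chi 7 (P 2) := chi_eq p7 rfl 3 (by decide) ⟨52 * n, by rw [e5, e2]; ring⟩
  have b0 : chi 13 (P 0) = chi 13 (P 3) := chi_eq p13 rfl 1 (by decide) ⟨-n, by rw [e0, e3]; ring⟩
  have b1 : chi 13 (P 1) = chi 13 (P 2) := chi_eq p13 rfl 3 (by decide) ⟨n, by rw [e1, e2]; ring⟩
  have b4 : chi 13 (P 4) = chi 13 (P 3) :=
    chi_eq p13 rfl 1 (by decide) ⟨-28 * n, by rw [e4, e3]; ring⟩
  have b5 : chi 13 (P 5) = chi 13 (P 2) :=
    chi_eq p13 rfl 3 (by decide) ⟨28 * n, by rw [e5, e2]; ring⟩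
  obtain ⟨g0, g1, g3, g4, g5⟩ : chi 19 (P 0) = chi 19 (P 2) ∧ chi 19 (P 1) = chi 19 (P 2) ∧
      chi 19 (P 3) = chi 19 (P 2) ∧ chi 19 (P 4) = chi 19 (P 2) ∧ chi 19 (P 5) = chi 19 (P 2) := by
    rcases (Nat.prime_iff_prime_int.1 p19).dvd_or_dvd h5 with ⟨k, hk⟩ | ⟨k, hk⟩
    · exact ⟨chi_eq p19 rfl 3 (by decide) ⟨-14 * k, by rw [e0, e2, hk]; ring⟩,
        chi_eq p19 rfl 3 (by decide) ⟨13 * k, by rw [e1, e2, hk]; ring⟩,
        chi_eq p19 rfl 3 (by decide) ⟨-k, by rw [e3, e2, hk]; ring⟩,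
        chi_eq p19 rfl 3 (by decide) ⟨-365 * k, by rw [e4, e2, hk]; ring⟩,
        chi_eq p19 rfl 3 (by decide) ⟨364 * k, by rw [e5, e2, hk]; ring⟩⟩
    · exact ⟨chi_eq p19 rfl (-9) (by decide) ⟨14 * k, by rw [e0, e2]; linear_combination 14 * hk⟩,
        chi_eq p19 rfl 9 (by decide) ⟨-13 * k, by rw [e1, e2]; linear_combination -13 * hk⟩,
        chi_eq p19 rfl (-3) (by decide) ⟨k, by rw [e3, e2]; linear_combination hk⟩,
        chi_eq p19 rfl (-27) (by decide) ⟨365 * k, by rw [e4, e2]; linear_combination 365 * hk⟩,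
        chi_eq p19 rfl 27 (by decide) ⟨-364 * k, by rw [e5, e2]; linear_combination -364 * hk⟩⟩
  -- the points
  have tG : Tr (P 0 * P 1 : ℤ) (∏ i, P i : ℤ) ((P 3 * P 5 : ℚ) / 3) (9 * P 2 * P 4)
      (P 0 * P 1 / 3) := by
    constructor
    · rw [e0, e1, e2, e3, e4, e5]; push_cast; ring
    · rw [Fin.prod_univ_six]; push_cast; ring
  have tQ : Tr (P 0 * P 1 : ℤ) (∏ i, P i : ℤ) (-729 * (P 2 * P 3 : ℚ) / 10) (-(P 4 * P 5) / 270)
      (100 * (P 0 * P 1) / 27) := by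
    constructor
    · rw [e0, e1, e2, e3, e4, e5]; push_cast; ring
    · rw [Fin.prod_univ_six]; push_cast; ring
  refine layer (P := P) good {7, 13, 19} (by simp [p7, p13, p19]) (fun p hp hp3 hd => ?_)
    (fun l hl => ⟨?_, fun hd => ?_⟩) h1 inj (fun i => by have := big i; omega) hb (fun i => ?_)
    (fun e₀ e he => ?_) (κ := Fin 2) ![V _ _ _ _, V _ _ _ _] 0
    (Fin.forall_fin_two.2 ⟨V_not_InT good tG, V_not_InT good tQ⟩)
    (fun j => Option.elim j ![2, 2, 0, 1, 0, 1] ![![0, 0, 1, 2, 1, 2], ![0, 0, 2, 2, 1, 1]])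
    (fun j => Option.elim j (1 / 3) ![1, -27 / 10]) ?_ ?_ (fun m hm => ?_) (fun m hm => ?_)
  · have hp' := Nat.prime_iff_prime_int.1 hp
    rw [hM] at hd
    simp only [Finset.mem_insert, Finset.mem_singleton]
    rcases hp'.dvd_or_dvd hd with hd | hd
    · rcases hp'.dvd_or_dvd hd with hd | hd
      · have : p ∣ 2 * 7 * 13 := by exact_mod_cast hp'.dvd_of_dvd_pow hd
        rcases (Nat.Prime.dvd_mul hp).1 this with h | h
        · rcases (Nat.Prime.dvd_mul hp).1 h with h | h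
          · have := (Nat.prime_dvd_prime_iff_eq hp Nat.prime_two).1 h
            omega
          · exact Or.inl ((Nat.prime_dvd_prime_iff_eq hp p7).1 h)
        · exact Or.inr (Or.inl ((Nat.prime_dvd_prime_iff_eq hp p13).1 h))
      · exact h4 p hp hp3 ((hd.mul_right _).mul_right _)
    · exact h4 p hp hp3 (by rw [mul_assoc]; exact (hp'.dvd_of_dvd_pow hd).mul_left _)
  · rw [hM]
    simp only [Finset.mem_insert, Finset.mem_singleton] at hl
    rcases hl with rfl | rfl | rfl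
    · exact ((by decide : ((7 : ℕ) : ℤ) ∣ 182 ^ 2).mul_right _).mul_right _
    · exact ((by decide : ((13 : ℕ) : ℤ) ∣ 182 ^ 2).mul_right _).mul_right _
    · exact (h5.trans (dvd_pow_self _ two_ne_zero)).mul_left _
  · simp only [Finset.mem_insert, Finset.mem_singleton] at hl
    have hl' : l.Prime := by rcases hl with rfl | rfl | rfl <;> assumption
    obtain ⟨i, hi⟩ := hb l hl' hd
    have := big i
    omega
  · have := val_prod_at h1 inj (fun _ => 1) i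
    simp only [pow_one] at this
    rw [← Int.cast_prod, padicValRat.of_int] at this
    omega
  · have q0 := he 0
    have q3 := he 3
    have q4 := he 4
    have q5 := he 5
    simp only [Finset.mem_insert, Finset.mem_singleton, Nat.reduceEqDiff, or_self,
      not_false_eq_true, Finset.prod_insert, Finset.prod_singleton, a0, a4, a5, b0, b4, b5, g0, g3,
      g4, g5] at q0 q3 q4 q5
    have n3 : ¬ (3 : ℤ) ∣ P 3 := nd 3 Nat.prime_three (by norm_num) 3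
    have w3 := omega_cube omega_rel
    have s04 : (P 0).natAbs ^ 2 / 3 % 3 = (P 4).natAbs ^ 2 / 3 % 3 :=
      sq_div_three ⟨39 * n * (54 * r - 379 * n), by rw [e0, e4]; ring⟩
    have s05 : (P 0).natAbs ^ 2 / 3 % 3 = (P 5).natAbs ^ 2 / 3 % 3 :=
      sq_div_three ⟨-42 * n * (54 * r + 350 * n), by rw [e0, e5]; ring⟩
    have s43 : (P 4).natAbs ^ 2 / 3 % 3 = ((P 3).natAbs ^ 2 / 3 + 2) % 3 :=
      sq_div_three' ⟨-486 * r ^ 2 - 2148 * r * n + 14802 * n ^ 2, by rw [e3, e4]; ring⟩ n3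
    have t04 : (ω : Zw) ^ (e₀ * ((P 0).natAbs ^ 2 / 3)) = ω ^ (e₀ * ((P 4).natAbs ^ 2 / 3)) := by
      rw [pow_eq_pow_mod _ w3, Nat.mul_mod, s04, ← Nat.mul_mod, ← pow_eq_pow_mod _ w3]
    have t05 : (ω : Zw) ^ (e₀ * ((P 0).natAbs ^ 2 / 3)) = ω ^ (e₀ * ((P 5).natAbs ^ 2 / 3)) := by
      rw [pow_eq_pow_mod _ w3, Nat.mul_mod, s05, ← Nat.mul_mod, ← pow_eq_pow_mod _ w3]
    have k7 : 3 ∣ 2 * e 7 := pow_eq_dvd (c7 2) (c7 3) d7 (mul_right_cancel₀ (mul_ne_zero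
      (pow_ne_zero _ (cube_ne_zero (c13 3))) (pow_ne_zero _ (cube_ne_zero (c19 2))))
      (q0.trans (t04.trans q4.symm)))
    have k13 : 3 ∣ 2 * e 13 := pow_eq_dvd (c13 2) (c13 3) d13 (mul_right_cancel₀
      (pow_ne_zero _ (cube_ne_zero (c19 2))) (mul_left_cancel₀
        (pow_ne_zero _ (cube_ne_zero (c7 2))) (q5.trans (t05.symm.trans q0.symm))))
    have k0 : 3 ∣ e₀ := by
      have := omega_pow_inj (q3.symm.trans q4)
      rw [Nat.mul_mod, Nat.mul_mod e₀ ((P 4).natAbs ^ 2 / 3), s43] at this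
      have h1 : e₀ % 3 = 0 ∨ e₀ % 3 = 1 ∨ e₀ % 3 = 2 := by omega
      rcases h1 with h | h | h <;> rw [h] at this <;> omega
    have k19 : 3 ∣ 2 * e 19 := by
      obtain ⟨x, hx⟩ := k7
      obtain ⟨y, hy⟩ := k13
      obtain ⟨z, hz⟩ := k0
      rw [hx, hy, hz, pow_mul, pow_mul, mul_assoc 3, pow_mul ω, c7, c13, w3] at q0
      exact pow_three_dvd (c19 2) d19 (by simpa using q0)
    refine ⟨k0, ?_⟩
    simp only [Finset.mem_insert, Finset.mem_singleton]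
    rintro l (rfl | rfl | rfl) <;> omega
  · rintro (_ | j)
    · simp
    · fin_cases j <;> simp
  · rintro (_ | j)
    · simp only [fam, Matrix.cons_val_zero, V_add_T good tG]
      rw [V, cy_pt good tG.rot.on]
      simp [Fin.prod_univ_six]; ring
    · fin_cases j
      · simp only [fam, Fin.zero_eta, Matrix.cons_val_zero]
        rw [V, cy_pt good tG.on]
        simp [Fin.prod_univ_six]; ring
      · simp only [fam, Fin.mk_one, Matrix.cons_val_one, Matrix.cons_val_zero]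
        rw [V, cy_pt good tQ.on]
        simp [Fin.prod_univ_six]; ring
  · have q7 := hm 7 (by simp)
    have q13 := hm 13 (by simp)
    have q19 := hm 19 (by simp)
    simp only [Fin.prod_univ_six, a0, a1, a4, a5, b0, b1, b4, b5, g0, g1, g3, g4, g5] at q7 q13 q19
    have k19 : 3 ∣ m 0 + m 1 + m 2 + m 3 + m 4 + m 5 :=
      pow_three_dvd (c19 2) d19 (by rw [← q19]; ring)
    have k7 : 3 ∣ m 1 + m 3 + m 4 := pow_three_dvd₂ (A := m 0 + m 2 + m 5) (c7 2) (c7 3) d7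
      (by rw [← q7]; ring) (by omega)
    have k13 : 3 ∣ m 0 + m 3 + m 4 := pow_three_dvd₂ (A := m 1 + m 2 + m 5) (c13 2) (c13 3) d13
      (by rw [← q13]; ring) (by omega)
    refine ⟨fun j => Option.elim j (2 * m 0) ![2 * m 4 + 2 * m 2, m 2 + 2 * m 4], fun i => ?_⟩
    fin_cases i <;> simp <;> omega
  · have q0 := hm 0
    have q2 := hm 2
    have q4 := hm 4
    simp at q0 q2 q4
    rintro (_ | j)
    · omega
    · fin_cases j <;> simp <;> omega

end Pool.Agent.MP_e23604_nt
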