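import Pool.Agent.MP_14ad9d_nt.FrobD

/-!
Primes modulo which 2 is a cube and 3, 5 are not.
-/

open scoped BigOperators Classical
open Finset Function

noncomputable section

namespace Pool.Agent.MP_e23604_nt

open NumberField Polynomial

theorem Frob3_roots {R : Type*} [CommRing R] [IsDomain R] {w x y : R} (hw : w ^ 2 + w + 1 = 0)
    (h : x ^ 3 = y ^ 3) : ∃ i : ℕ, i < 3 ∧ x = w ^ i * y := by
  have h1 : (x - y) * ((x - w * y) * (x - w ^ 2 * y)) = 0 := by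
    linear_combination h + (-x ^ 2 * y + w * x * y ^ 2 - (w - 1) * y ^ 3) * hw
  rcases mul_eq_zero.1 h1 with h2 | h2
  · exact ⟨0, by norm_num, by linear_combination h2⟩
  rcases mul_eq_zero.1 h2 with h2 | h2
  · exact ⟨1, by norm_num, by linear_combination h2⟩
  · exact ⟨2, by norm_num, by linear_combination h2⟩

theorem Frob3_cube {R : Type*} [CommRing R] {w : R} (hw : w ^ 2 + w + 1 = 0) : w ^ 3 = 1 := by
  linear_combination (w - 1) * hw

theorem Frob3_rat {l : ℕ} (hl : l.Prime) (h2 : l ≠ 2) (v : ℚ) (j : ℕ) : v ^ 3 * 2 ^ j ≠ l := by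
  intro h
  have := Fact.mk hl
  have hl0 : (l : ℚ) ≠ 0 := by exact_mod_cast hl.ne_zero
  have hv : v ≠ 0 := by
    rintro rfl
    exact hl0 (by rw [← h]; simp)
  have h1 := congrArg (padicValRat l) h
  have h3 : padicValRat l (2 : ℚ) = 0 := by
    have : padicValNat l 2 = 0 := padicValNat.eq_zero_of_not_dvd fun hd =>
      h2 ((Nat.prime_dvd_prime_iff_eq hl Nat.prime_two).1 hd)
    have h4 := @padicValRat.of_nat l 2
    rw [this] at h4
    simpa using h4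
  rw [padicValRat.mul (pow_ne_zero _ hv) (by positivity), padicValRat.pow,
    padicValRat.pow, h3, padicValRat.self hl.one_lt] at h1
  push_cast at h1
  omega

section Gal

variable {M : Type*} [Field M] [NumberField M] [IsGalois ℚ M]

omit [IsGalois ℚ M] in
theorem Frob3_pow_apply (g : M ≃ₐ[ℚ] M) {w a : M} {k : ℕ} (hw : g w = w) (ha : g a = w ^ k * a)
    (i : ℕ) : (g ^ i) w = w ∧ (g ^ i) a = w ^ (k * i) * a := by
  induction i with
  | zero => simp
  | succ i ih =>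
    rw [pow_succ', AlgEquiv.mul_apply, AlgEquiv.mul_apply, ih.1, ih.2, map_mul, map_pow, hw, ha]
    exact ⟨rfl, by ring⟩

theorem Frob3_move {w a b : M} (hw : w ^ 2 + w + 1 = 0) (ha : a ^ 3 = 2) {l : ℕ} (hl : l.Prime)
    (h2 : l ≠ 2) (hb : b ^ 3 = l) : ∃ g : M ≃ₐ[ℚ] M, g w = w ∧ g a = a ∧ g b ≠ b := by
  by_contra hcon
  push Not at hcon
  have hw3 := Frob3_cube hw
  have ha0 : a ≠ 0 := by
    rintro rfl
    norm_num at ha
  have hga : ∀ g : M ≃ₐ[ℚ] M, ∃ i : ℕ, i < 3 ∧ g a = w ^ i * a := fun g =>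
    Frob3_roots hw (by rw [← map_pow, ha, map_ofNat])
  have hgb : ∀ g : M ≃ₐ[ℚ] M, ∃ i : ℕ, i < 3 ∧ g b = w ^ i * b := fun g =>
    Frob3_roots hw (by rw [← map_pow, hb, map_natCast])
  have key : ∃ (j : ℕ) (u : M), u ^ 3 * 2 ^ j = l ∧ ∀ g : M ≃ₐ[ℚ] M, g w = w → g u = u := by
    by_cases hA : ∀ g : M ≃ₐ[ℚ] M, g w = w → g a = a
    · exact ⟨0, b, by simpa using hb, fun g hg => hcon g hg (hA g hg)⟩
    push Not at hA
    obtain ⟨g1, hg1, hg1a⟩ := hA
    have : ∃ g0 : M ≃ₐ[ℚ] M, g0 w = w ∧ g0 a = w ^ 1 * a := by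
      obtain ⟨i, hi, h⟩ := hga g1
      interval_cases i
      · exact absurd (by simpa using h) hg1a
      · exact ⟨g1, hg1, h⟩
      · obtain ⟨h3, h4⟩ := Frob3_pow_apply g1 hg1 h 2
        exact ⟨g1 ^ 2, h3, by rw [h4]; linear_combination w * a * hw3⟩
    obtain ⟨g0, hg0, hg0a⟩ := this
    obtain ⟨j, -, hj⟩ := hgb g0
    refine ⟨j, b / a ^ j, ?_, fun g hg => ?_⟩
    · rw [div_pow, ← pow_mul, mul_comm j, pow_mul, ha, hb, div_mul_cancel₀]
      exact pow_ne_zero _ two_ne_zero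
    · obtain ⟨i, -, hi⟩ := hga g
      obtain ⟨h3, h4⟩ := Frob3_pow_apply g0 hg0 hg0a i
      obtain ⟨-, h5⟩ := Frob3_pow_apply g0 hg0 hj i
      have h6 := hcon (g⁻¹ * g0 ^ i)
        (by rw [AlgEquiv.mul_apply, h3]; exact g.symm_apply_eq.2 hg.symm)
        (by rw [AlgEquiv.mul_apply, h4, one_mul]; exact g.symm_apply_eq.2 hi.symm)
      rw [AlgEquiv.mul_apply, h5] at h6
      have h7 : w ^ (j * i) * b = g b := g.symm_apply_eq.1 h6
      have hw0 : w ≠ 0 := by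
        rintro rfl
        norm_num at hw
      rw [map_div₀, map_pow, hi, ← h7]
      field_simp
      ring
  obtain ⟨j, u, hu, hfix⟩ := key
  have key2 : ∃ v : M, v ^ 3 * 2 ^ j = l ∧ ∀ g : M ≃ₐ[ℚ] M, g v = v := by
    by_cases hA : ∀ g : M ≃ₐ[ℚ] M, g w = w
    · exact ⟨u, hu, fun g => hfix g (hA g)⟩
    push Not at hA
    obtain ⟨ρ, hρ⟩ := hA
    have hmv : ∀ g : M ≃ₐ[ℚ] M, g w ≠ w → g w = w ^ 2 := by
      intro g hg
      have h1 : g w ^ 2 + g w + 1 = 0 := by simpa using congrArg g hw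
      have h3 : (g w - w) * (g w - w ^ 2) = 0 := by
        linear_combination h1 + (w - 1 - g w) * hw
      rcases mul_eq_zero.1 h3 with h4 | h4
      · exact absurd (sub_eq_zero.1 h4) hg
      · exact sub_eq_zero.1 h4
    have hu3 : ρ u ^ 3 = u ^ 3 := by
      have h1 := congrArg ρ hu
      rw [map_mul, map_pow, map_pow, map_ofNat, map_natCast, ← hu] at h1
      exact mul_right_cancel₀ (pow_ne_zero _ two_ne_zero) h1
    obtain ⟨k, -, hk⟩ := Frob3_roots hw hu3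
    have hρv : ρ (w ^ (2 * k) * u) = w ^ (2 * k) * u := by
      rw [map_mul, map_pow, hmv ρ hρ, hk]
      have : (w ^ 3) ^ k = 1 := by rw [hw3, one_pow]
      linear_combination w ^ (2 * k) * u * this
    refine ⟨w ^ (2 * k) * u, ?_, fun g => ?_⟩
    · have : (w ^ 3) ^ (2 * k) = 1 := by rw [hw3, one_pow]
      linear_combination hu + u ^ 3 * 2 ^ j * this
    · have hH : ∀ h : M ≃ₐ[ℚ] M, h w = w → h (w ^ (2 * k) * u) = w ^ (2 * k) * u := by
        intro h hh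
        rw [map_mul, map_pow, hh, hfix h hh]
      by_cases hg : g w = w
      · exact hH g hg
      · have h1 := hH (ρ⁻¹ * g)
          (by rw [AlgEquiv.mul_apply, hmv g hg]; exact ρ.symm_apply_eq.2 (hmv ρ hρ).symm)
        rw [AlgEquiv.mul_apply] at h1
        exact (ρ.symm_apply_eq.1 h1).trans hρv
  obtain ⟨v, hv, hfixv⟩ := key2
  obtain ⟨r, rfl⟩ := (IsGalois.mem_range_algebraMap_iff_fixed v).2 hfixv
  apply Frob3_rat hl h2 r j
  apply (algebraMap ℚ M).injective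
  simpa using hv

theorem Frob3_gamma {w a b c : M} (hw : w ^ 2 + w + 1 = 0) (ha : a ^ 3 = 2) (hb : b ^ 3 = 3)
    (hc : c ^ 3 = 5) : ∃ g : M ≃ₐ[ℚ] M, g w = w ∧ g a = a ∧ g b ≠ b ∧ g c ≠ c := by
  obtain ⟨g1, h1, h2, h3⟩ := Frob3_move (l := 3) hw ha (by norm_num) (by norm_num)
    (by exact_mod_cast hb)
  obtain ⟨g2, h4, h5, h6⟩ := Frob3_move (l := 5) hw ha (by norm_num) (by norm_num)
    (by exact_mod_cast hc)
  by_cases h7 : g1 c = c
  · by_cases h8 : g2 b = b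
    · refine ⟨g1 * g2, by rw [AlgEquiv.mul_apply, h4, h1], by rw [AlgEquiv.mul_apply, h5, h2],
        by rwa [AlgEquiv.mul_apply, h8], ?_⟩
      rw [AlgEquiv.mul_apply]
      intro h9
      exact h6 (g1.injective (h9.trans h7.symm))
    · exact ⟨g2, h4, h5, h8, h6⟩
  · exact ⟨g1, h1, h2, h3, h7⟩

end Gal

section Res

variable {F : Type*} [CommRing F] [IsDomain F] {p : ℕ} [Fact p.Prime] [CharP F p]

omit [IsDomain F] in
theorem Frob3_ne {l : ℕ} (hl : l.Prime) (hp : p ≠ l) : (l : F) ≠ 0 := fun h =>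
  hp ((Nat.prime_dvd_prime_iff_eq Fact.out hl).1 ((CharP.cast_eq_zero_iff F p l).1 h))

omit [IsDomain F] in
theorem Frob3_w_ne (h3 : p ≠ 3) {w : F} (hw : w ^ 2 + w + 1 = 0) : w ≠ 1 := by
  rintro rfl
  exact Frob3_ne (F := F) Nat.prime_three h3 (by push_cast; linear_combination hw)

omit [IsDomain F] in
theorem Frob3_mod (h3 : p ≠ 3) {w : F} (hw : w ^ 2 + w + 1 = 0) (hp : w ^ p = w) : p % 3 = 1 := by
  have hw3 := Frob3_cube hw
  have h1 := Frob3_w_ne h3 hw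
  rw [← Nat.div_add_mod p 3, pow_add, pow_mul, hw3, one_pow, one_mul] at hp
  have h4 : p % 3 < 3 := Nat.mod_lt _ (by norm_num)
  interval_cases p % 3
  · exact absurd (by simpa using hp.symm) h1
  · rfl
  · exact absurd (by linear_combination hw3 - (w + 1) * hp - w * hw3 + w * (w - 1) * hw) h1

theorem Frob3_is_cube {a : F} (ha : a ^ 3 = 2) (hp : a ^ p = a) : ∃ x : ZMod p, 2 = x ^ 3 := by
  let φ : F →+* FractionRing F := algebraMap _ _
  have hφ : Function.Injective φ := IsFractionRing.injective _ _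
  have : CharP (FractionRing F) p := charP_of_injective_ringHom hφ p
  have h2 : φ a ∈ (⊥ : Subfield (FractionRing F)) := by
    rw [Subfield.mem_bot_iff_pow_eq_self _ p, ← map_pow, hp]
  obtain ⟨c, hc⟩ := (mem_bot_iff_intCast p _).1 h2
  have h3 : a = c := hφ (by rw [← hc, map_intCast])
  refine ⟨c, (ZMod.castHom (dvd_refl p) F).injective ?_⟩
  rw [map_pow, map_intCast, map_ofNat, ← h3, ha]

theorem Frob3_not_cube (h3 : p ≠ 3) {w b : F} (hw : w ^ 2 + w + 1 = 0) (hp : w ^ p = w) {l : ℕ}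
    (hl : l.Prime) (hpl : p ≠ l) (hb : b ^ 3 = l) {i : ℕ} (hi : i = 1 ∨ i = 2)
    (hbp : b ^ p = w ^ i * b) : ¬ ∃ x : ZMod p, (l : ZMod p) = x ^ 3 := by
  rintro ⟨x, hx⟩
  let ι := ZMod.castHom (dvd_refl p) F
  have h1 : b ^ 3 = ι x ^ 3 := by rw [← map_pow, ← hx, map_natCast, hb]
  obtain ⟨k, -, hk⟩ := Frob3_roots hw h1
  have h2 : b ^ p = b := by
    rw [hk, mul_pow, ← pow_mul, mul_comm k, pow_mul, hp, ← map_pow, ZMod.pow_card]
  have hb0 : b ≠ 0 := by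
    rintro rfl
    exact Frob3_ne (F := F) hl hpl (by rw [← hb]; simp)
  have h4 : w ^ i = 1 := mul_right_cancel₀ hb0 (by rw [← hbp, h2, one_mul])
  have hw3 := Frob3_cube hw
  apply Frob3_w_ne h3 hw
  rcases hi with rfl | rfl
  · simpa using h4
  · linear_combination hw3 - w * h4

end Res

theorem Frob3_main {M : Type*} [Field M] [NumberField M] [IsGalois ℚ M] {w a b c : M}
    (hw : w ^ 2 + w + 1 = 0) (ha : a ^ 3 = 2) (hb : b ^ 3 = 3) (hc : c ^ 3 = 5) :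
    MP_14ad9d_nt.PosDens {q : ℕ | q.Prime ∧ q % 3 = 1 ∧
    (∃ x : ZMod q, (2 : ZMod q) = x ^ 3) ∧ (¬ ∃ x : ZMod q, (3 : ZMod q) = x ^ 3) ∧
    ¬ ∃ x : ZMod q, (5 : ZMod q) = x ^ 3} := by
  obtain ⟨γ, g1, g2, g3, g4⟩ := Frob3_gamma hw ha hb hc
  refine (MP_14ad9d_nt.frob_dens γ).mono {3, 5} ?_
  rintro p ⟨hp, Q, ⟨hQ1, hQ2⟩, σ, hσ, hz⟩ hS
  have hp3 : p ≠ 3 := by
    rintro rfl
    simp at hS
  have hp5 : p ≠ 5 := by
    rintro rfl
    simp at hS
  have := Fact.mk hp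
  have hpQ : (p : 𝓞 M) ∈ Q := by
    have : (p : ℤ) ∈ Q.under ℤ := by rw [← hQ2.over]; exact Ideal.mem_span_singleton_self _
    simpa [Ideal.under_def] using this
  have : CharP (𝓞 M ⧸ Q) p := by
    refine (CharP.charP_iff_prime_eq_zero hp).2 ?_
    rw [← map_natCast (Ideal.Quotient.mk Q), Ideal.Quotient.eq_zero_iff_mem]
    exact hpQ
  have hfix : ∀ x : M, σ x = x ↔ γ x = x := by
    intro x
    have h1 : ∀ g : M ≃ₐ[ℚ] M, g x = x ↔ Subgroup.zpowers g ≤ MulAction.stabilizer _ x :=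
      fun g => by rw [Subgroup.zpowers_le, MulAction.mem_stabilizer_iff]; rfl
    rw [h1, h1, hz]
  have hq : Nat.card (ℤ ⧸ Q.under ℤ) = p := by rw [← hQ2.over, Int.card_ideal_quot]
  let φ := Ideal.Quotient.mk Q
  have hfr : ∀ x y : 𝓞 M, σ (x : M) = y → φ x ^ p = φ y := by
    intro x y h
    have h2 := hσ.mk_apply x
    have h3 : (MulSemiringAction.toAlgHom ℤ (𝓞 M) σ) x = y := Subtype.ext h
    rw [h3, hq] at h2
    exact h2.symm
  have hint : ∀ (x : M) (n : ℕ), x ^ 3 = n → IsIntegral ℤ x := fun x n h =>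
    IsIntegral.of_pow (n := 3) (by norm_num) (h ▸ isIntegral_natCast n)
  let w' : 𝓞 M := ⟨w, hint w 1 (by simpa using Frob3_cube hw)⟩
  let a' : 𝓞 M := ⟨a, hint a 2 (by simpa using ha)⟩
  have hw' : φ w' ^ 2 + φ w' + 1 = 0 := by
    have : w' ^ 2 + w' + 1 = 0 := RingOfIntegers.ext (by simpa [w'] using hw)
    simpa using congrArg φ this
  have ha' : φ a' ^ 3 = 2 := by
    have h0 : ∀ n : ℕ, a ^ 3 = n → a' ^ 3 = n := fun n hn =>
      RingOfIntegers.ext (by simpa [a'] using hn)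
    have := h0 2 (by simpa using ha)
    have h1 := congrArg φ this
    rw [map_pow, map_natCast] at h1
    exact_mod_cast h1
  have hwp : φ w' ^ p = φ w' := hfr w' w' ((hfix w).2 g1)
  have hnc : ∀ (l : ℕ) (x : M), l.Prime → p ≠ l → x ^ 3 = l → γ x ≠ x →
      ¬ ∃ y : ZMod p, (l : ZMod p) = y ^ 3 := by
    intro l x hl hpl hx hγ
    let x' : 𝓞 M := ⟨x, hint x l hx⟩
    have hx' : φ x' ^ 3 = l := by
      have : x' ^ 3 = l := RingOfIntegers.ext (by simpa [x'] using hx)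
      simpa using congrArg φ this
    obtain ⟨i, hi, h⟩ := Frob3_roots (x := σ x) (y := x) hw (by rw [← map_pow, hx, map_natCast])
    have hi0 : i ≠ 0 := by
      rintro rfl
      exact hγ ((hfix x).1 (by simpa using h))
    have h1 := hfr x' (w' ^ i * x') (by simpa [x', w'] using h)
    rw [map_mul, map_pow] at h1
    exact Frob3_not_cube hp3 hw' hwp hl hpl hx' (by omega) h1
  refine ⟨hp, Frob3_mod hp3 hw' hwp, Frob3_is_cube ha' (hfr a' a' ((hfix a).2 g2)), ?_, ?_⟩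
  · simpa using hnc 3 b (by norm_num) hp3 (by simpa using hb) g3
  · simpa using hnc 5 c (by norm_num) hp5 (by simpa using hc) g4

theorem posDens_good : MP_14ad9d_nt.PosDens {q : ℕ | q.Prime ∧ q % 3 = 1 ∧
    (∃ x : ZMod q, (2 : ZMod q) = x ^ 3) ∧ (¬ ∃ x : ZMod q, (3 : ZMod q) = x ^ 3) ∧
    ¬ ∃ x : ZMod q, (5 : ZMod q) = x ^ 3} := by
  let f : ℚ[X] := (X ^ 2 + X + 1) * (X ^ 3 - C 2) * (X ^ 3 - C 3) * (X ^ 3 - C 5)
  have h0 : (X ^ 2 + X + 1 : ℚ[X]).natDegree = 2 := by compute_degree!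
  have h1 : ∀ r : ℚ, (X ^ 3 - C r : ℚ[X]).natDegree = 3 := fun r => natDegree_X_pow_sub_C
  have hne : ∀ g : ℚ[X], g.natDegree ≠ 0 → g ≠ 0 := by
    rintro g hg rfl
    simp at hg
  have hf : f ≠ 0 := by
    refine mul_ne_zero (mul_ne_zero (mul_ne_zero (hne _ ?_) (hne _ ?_)) (hne _ ?_)) (hne _ ?_)
    · rw [h0]; norm_num
    all_goals rw [h1]; norm_num
  let M := f.SplittingField
  have : NumberField M := { }
  have : Normal ℚ M := Polynomial.SplittingField.instNormal f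
  have : IsGalois ℚ M := IsGalois.mk
  have hroot : ∀ g : ℚ[X], g ∣ f → g.natDegree ≠ 0 → ∃ x : M, aeval x g = 0 := by
    intro g hg hd
    have hs : (g.map (algebraMap ℚ M)).Splits :=
      (SplittingField.splits f).of_dvd (map_ne_zero hf) (Polynomial.map_dvd _ hg)
    obtain ⟨x, hx⟩ := hs.exists_eval_eq_zero (by
      rw [degree_map]
      intro h
      exact hd (natDegree_eq_zero_iff_degree_le_zero.2 h.le))
    exact ⟨x, by rwa [eval_map_algebraMap] at hx⟩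
  obtain ⟨w, hw⟩ := hroot (X ^ 2 + X + 1)
    ⟨(X ^ 3 - C 2) * (X ^ 3 - C 3) * (X ^ 3 - C 5), by simp only [f]; ring⟩ (by rw [h0]; norm_num)
  obtain ⟨a, ha⟩ := hroot (X ^ 3 - C 2)
    ⟨(X ^ 2 + X + 1) * (X ^ 3 - C 3) * (X ^ 3 - C 5), by simp only [f]; ring⟩
    (by rw [h1]; norm_num)
  obtain ⟨b, hb⟩ := hroot (X ^ 3 - C 3)
    ⟨(X ^ 2 + X + 1) * (X ^ 3 - C 2) * (X ^ 3 - C 5), by simp only [f]; ring⟩
    (by rw [h1]; norm_num)
  obtain ⟨c, hc⟩ := hroot (X ^ 3 - C 5)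
    ⟨(X ^ 2 + X + 1) * (X ^ 3 - C 2) * (X ^ 3 - C 3), by simp only [f]; ring⟩
    (by rw [h1]; norm_num)
  exact Frob3_main (w := w) (a := a) (b := b) (c := c) (by simpa using hw)
    (by simpa [sub_eq_zero] using ha) (by simpa [sub_eq_zero] using hb)
    (by simpa [sub_eq_zero] using hc)

end Pool.Agent.MP_e23604_nt
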