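import Pool.Agent.MP_e23604_nt.Fam2
import Pool.Agent.MP_e23604_nt.Frob3
import Pool.Agent.GT.GreenTao
import Pool.Agent.GT.MDens

/-!
Infinitely many members of the second family, by the Green-Tao theorem.
-/

open scoped BigOperators Classical
open WeierstrassCurve

noncomputable section

namespace Pool.Agent.MP_e23604_nt

lemma exists_exp (q : ℕ) (x : ℤ) : ∃ g : Fin 3, q.Prime → q % 3 = 1 → chi q 3 ≠ 1 →
    ¬ (q : ℤ) ∣ x → chi q x = chi q 3 ^ (g : ℕ) := by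
  by_cases h : q.Prime ∧ q % 3 = 1 ∧ chi q 3 ≠ 1 ∧ ¬ (q : ℤ) ∣ x
  swap
  · exact ⟨0, fun h1 h2 h3 h4 => absurd ⟨h1, h2, h3, h4⟩ h⟩
  obtain ⟨h1, h2, h3, h4⟩ := h
  have hu := chi_three_cube h1 h2
  have hv := (gd h1 h2).cube x h4
  set u := chi q 3
  set v := chi q x
  have hs : u ^ 2 + u + 1 = 0 := by
    have : (u - 1) * (u ^ 2 + u + 1) = 0 := by linear_combination hu
    exact (mul_eq_zero.1 this).resolve_left (sub_ne_zero.2 h3)
  have : (v - 1) * ((v - u) * (v - u ^ 2)) = 0 := by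
    linear_combination hv + (v - 1) * hu + (v - v ^ 2) * hs
  rcases mul_eq_zero.1 this with e | e
  · exact ⟨0, fun _ _ _ _ => by simpa [sub_eq_zero] using e⟩
  rcases mul_eq_zero.1 e with e | e
  · exact ⟨1, fun _ _ _ _ => by simpa [sub_eq_zero] using e⟩
  · exact ⟨2, fun _ _ _ _ => by simpa [sub_eq_zero] using e⟩

theorem exists_params (B : ℕ) : ∃ m n α γ : ℕ, B < m ∧ 0 < n ∧ 9 ∣ n ∧ (∀ i, (qq m n i).Prime) ∧
    m % 3 = 1 ∧ ∀ i, chi (qq m n i) 2 = 1 ∧ chi (qq m n i) 3 ≠ 1 ∧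
      chi (qq m n i) 5 ≠ 1 ∧ chi (qq m n i) 5 = chi (qq m n i) 3 ^ α ∧
      chi (qq m n i) n = chi (qq m n i) 3 ^ γ := by
  choose ex hex using exists_exp
  obtain ⟨K, hK⟩ := GT.vdw (Fin 3) 36
  obtain ⟨t, ht⟩ := ((GT.udens_of_posDens posDens_good).remove (B + K + 5)).pigeon
    (fun q => ((q : ZMod 9), ex q 5, fun e : Fin (K + 1) => ex q (e : ℕ)))
  obtain ⟨a, d, hd, H⟩ := GT.green_tao (fun q hq => hq.1.1.1) ht (K + 2)
  obtain ⟨j, e, he, heK, hj, hc⟩ := hK fun j => ex (a + j * d) d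
  have hq : ∀ i, ∃ c ≤ 36, qq (a + j * d) (e * d) i = a + (j + c * e) * d := fun i => by
    fin_cases i
    exacts [⟨0, by omega, by simp [qq]⟩, ⟨6, by omega, by simp [qq]; ring⟩,
      ⟨12, by omega, by simp [qq]; ring⟩, ⟨18, by omega, by simp [qq]; ring⟩,
      ⟨20, by omega, by simp [qq]; ring⟩, ⟨21, by omega, by simp [qq]; ring⟩,
      ⟨30, by omega, by simp [qq]; ring⟩, ⟨36, by omega, by simp [qq]; ring⟩]
  have h9 : 9 ∣ d := by
    have e0 := congrArg Prod.fst (H 0 (by omega)).2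
    have e1 := congrArg Prod.fst (H 1 (by omega)).2
    rw [← ZMod.natCast_eq_zero_iff]
    simp only [Nat.cast_add, zero_mul, one_mul, Nat.cast_zero] at e0 e1
    linear_combination e1 - e0
  have hj0 := H j (by omega)
  refine ⟨a + j * d, e * d, t.2.1, (t.2.2 ⟨e, by omega⟩ : ℕ) + ex (a + j * d) d,
    by have := hj0.1.2; omega, by positivity, h9.mul_left e, fun i => ?_, hj0.1.1.2.1, fun i => ?_⟩
  · obtain ⟨c, hc', e1⟩ := hq i
    rw [e1]
    exact (H _ (by nlinarith)).1.1.1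
  obtain ⟨c, hc', e1⟩ := hq i
  rw [e1]
  have lt : j + c * e ≤ K := by nlinarith
  obtain ⟨⟨⟨p1, p2, p3, p4, p5⟩, big⟩, col⟩ := H (j + c * e) (by omega)
  have nxt := (H (j + c * e + 1) (by omega)).1.1.1
  have cc := hc c hc'
  set q := a + (j + c * e) * d with hqd
  have small : ∀ x : ℕ, 0 < x → x ≤ K + 5 → ¬ (q : ℤ) ∣ x := fun x h0 h1 h2 => by
    have := Nat.le_of_dvd h0 (by exact_mod_cast h2 : q ∣ x)
    omega
  have nd : ¬ (q : ℤ) ∣ d := fun h => by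
    have h1 : q ∣ d := by exact_mod_cast h
    have h2 : q ∣ a + (j + c * e + 1) * d := by
      rw [show a + (j + c * e + 1) * d = q + d by rw [hqd]; ring]
      exact (dvd_refl q).add h1
    have := (Nat.prime_dvd_prime_iff_eq p1 nxt).1 h2
    rw [hqd] at this
    nlinarith
  have g := gd p1 p2
  have n3 : chi q 3 ≠ 1 := fun h =>
    p4 (by simpa using (g.one_iff 3 (small 3 (by omega) (by omega))).1 h)
  refine ⟨(g.one_iff 2 (small 2 (by omega) (by omega))).2 (by simpa using p3), n3,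
    fun h => p5 (by simpa using (g.one_iff 5 (small 5 (by omega) (by omega))).1 h), ?_, ?_⟩
  · rw [← col]
    exact hex q 5 p1 p2 n3 (small 5 (by omega) (by omega))
  · rw [← col, ← cc, pow_add, Nat.cast_mul, g.mul, hex q d p1 p2 n3 nd,
      hex q e p1 p2 n3 (small e he (by omega))]

lemma E3_j {a b : ℚ} [h : (E3 a b).IsElliptic] :
    (E3 a b).j * (b ^ 3 * (a ^ 3 - 27 * b)) = (a * (a ^ 3 - 24 * b)) ^ 3 := by
  rw [← E3_Δ, ← coe_Δ', j, mul_comm, ← mul_assoc, Units.mul_inv, one_mul]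
  simp only [E3, c₄, b₂, b₄]
  ring

lemma den_big {m n : ℕ} (hn : 0 < n) (hp : ∀ i, (qq m n i).Prime) (h5 : 5 < m)
    [h : (E3 (a2 m n) (b2 m n)).IsElliptic] : m < (E3 (a2 m n) (b2 m n)).j.den := by
  have e := E3_j (h := h)
  set J := (E3 (a2 m n) (b2 m n)).j
  have e' : J.num * (b2 m n ^ 3 * (a2 m n ^ 3 - 27 * b2 m n)) =
      (a2 m n * (a2 m n ^ 3 - 24 * b2 m n)) ^ 3 * J.den := by
    have := J.mul_den_eq_num
    have e2 : (J.num : ℚ) * ((b2 m n : ℚ) ^ 3 * ((a2 m n : ℚ) ^ 3 - 27 * b2 m n)) =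
        ((a2 m n : ℚ) * ((a2 m n : ℚ) ^ 3 - 24 * b2 m n)) ^ 3 * J.den := by
      rw [← this, ← e]; ring
    exact_mod_cast e2
  have inj := qq_inj (m := m) hn
  have ip : Prime (qq m n 1 : ℤ) := Nat.prime_iff_prime_int.1 (hp 1)
  have e1 : qq m n 1 = m + 6 * n := rfl
  have nq : ∀ i, i ≠ 1 → ¬ (qq m n 1 : ℤ) ∣ qq m n i := fun i hi e => hi (inj
    ((Nat.prime_dvd_prime_iff_eq (hp 1) (hp i)).1 (by exact_mod_cast e)).symm)
  have ns : ∀ c : ℕ, 0 < c → c ≤ 5 → ¬ (qq m n 1 : ℤ) ∣ c := fun c h0 h5 e => by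
    have := Nat.le_of_dvd h0 (by exact_mod_cast e : qq m n 1 ∣ c)
    omega
  have hD : (qq m n 1 : ℤ) ∣ a2 m n ^ 3 - 27 * b2 m n := by
    rw [disc2]
    exact ((dvd_pow_self _ two_ne_zero).mul_left _).mul_right _
  have n2 : ¬ (qq m n 1 : ℤ) ∣ 2 := ns 2 (by omega) (by omega)
  have n3 : ¬ (qq m n 1 : ℤ) ∣ 3 := ns 3 (by omega) (by omega)
  have n5 : ¬ (qq m n 1 : ℤ) ∣ 5 := ns 5 (by omega) (by omega)
  have na : ¬ (qq m n 1 : ℤ) ∣ a2 m n :=
    ip.not_dvd_mul (ip.not_dvd_mul (by rwa [dvd_neg]) (nq 6 (by decide))) (nq 7 (by decide))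
  have nc : ¬ (qq m n 1 : ℤ) ∣ a2 m n ^ 3 - 24 * b2 m n := fun hc => by
    have h1 := (hc.mul_left 9).sub (hD.mul_left 8)
    rw [show 9 * (a2 m n ^ 3 - 24 * b2 m n) - 8 * (a2 m n ^ 3 - 27 * b2 m n) = a2 m n ^ 3 by ring]
      at h1
    exact na (ip.dvd_of_dvd_pow h1)
  have h1 : (qq m n 1 : ℤ) ∣ J.den := by
    have := (hD.mul_left (b2 m n ^ 3)).mul_left J.num
    rw [e'] at this
    exact (ip.dvd_or_dvd this).resolve_left fun h => ip.not_dvd_mul na nc (ip.dvd_of_dvd_pow h)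
  have := Nat.le_of_dvd J.den_pos (by exact_mod_cast h1 : qq m n 1 ∣ J.den)
  omega

lemma order_three {a b : ℚ} [h : (E3 a b).IsElliptic] :
    ∃ P : (E3 a b).toAffine.Point, addOrderOf P = 3 := by
  have hb : b ≠ 0 := by
    rintro rfl
    have := h.isUnit
    rw [E3_Δ] at this
    simp at this
  have ns : (E3 a b).toAffine.Nonsingular 0 0 := by
    rw [Affine.nonsingular_zero]
    exact ⟨rfl, Or.inl hb⟩
  have := Fact.mk Nat.prime_three
  refine ⟨.some _ _ ns, addOrderOf_eq_prime ?_ (Affine.Point.some_ne_zero ns)⟩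
  have hy : (0 : ℚ) ≠ (E3 a b).toAffine.negY 0 0 := by simpa [E3] using hb
  rw [show (3 : ℕ) = 2 + 1 from rfl, add_nsmul, two_nsmul, one_nsmul, add_eq_zero_iff_eq_neg,
    Affine.Point.add_self_of_Y_ne hy, Affine.Point.neg_some]
  have hs : (E3 a b).toAffine.slope 0 0 0 0 = 0 := by
    rw [Affine.slope_of_Y_ne rfl hy]
    simp [E3]
  simp only [hs]
  simp [E3, Affine.addY, Affine.negAddY, Affine.addX]

theorem infinite_rank_two : Set.Infinite {j : ℚ | ∃ (W : WeierstrassCurve ℚ) (_ : W.IsElliptic),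
    W.j = j ∧ Module.finrank ℤ W.toAffine.Point = 2 ∧ (∃ P : W.toAffine.Point, addOrderOf P = 3) ∧
      ∀ c ∈ Sha W, ∀ k : ℕ, 3 ^ k • c = 0 → c = 0} := by
  refine Set.Infinite.of_image Rat.den (Set.infinite_of_forall_exists_gt fun B => ?_)
  obtain ⟨m, n, α, γ, hB, hn, h9, hp, h3, hc⟩ := exists_params (B + 5)
  obtain ⟨h1, h2, h4⟩ := family2 m n α γ hn h9 hp h3 hc
  exact ⟨_, ⟨_, ⟨_, h1, rfl, h2, order_three, h4⟩, rfl⟩,
    lt_trans (by omega) (den_big hn hp (by omega))⟩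

end Pool.Agent.MP_e23604_nt
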