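import Pool.Agent.MP_e23604_nt.Defs

/-!
Generic Galois lemmas: Hilbert 90 for cube roots of unity, the field F(ω), restriction.
-/

open scoped Classical

set_option linter.unusedSectionVars false

noncomputable section

namespace Pool.Agent.MP_e23604_nt

section generic

variable {k L : Type} [Field k] [Field L] [Algebra k L] [IsGalois k L]

lemma h90 (U : Subgroup (L ≃ₐ[k] L)) (c : (L ≃ₐ[k] L) → L) (hc3 : ∀ σ ∈ U, c σ ^ 3 = 1)
    (hmul : ∀ σ ∈ U, ∀ τ ∈ U, c (σ * τ) = c σ * σ (c τ))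
    (hopen : IsOpen {σ | σ ∈ U ∧ c σ = 1}) : ∃ δ : L, δ ≠ 0 ∧ ∀ σ ∈ U, σ δ = c σ * δ := by
  have c0 : ∀ σ ∈ U, c σ ≠ 0 := fun σ hσ e => by simpa [e] using hc3 σ hσ
  have c1 : c 1 = 1 := by
    have := hmul 1 U.one_mem 1 U.one_mem
    simp only [mul_one, AlgEquiv.one_apply] at this
    exact (mul_eq_left₀ (c0 1 U.one_mem)).1 this.symm
  have ceq : ∀ σ ∈ U, ∀ τ ∈ U, c σ = c τ → c (τ⁻¹ * σ) = 1 := by
    intro σ hσ τ hτ e
    have := hmul τ hτ _ (U.mul_mem (U.inv_mem hτ) hσ)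
    rw [mul_inv_cancel_left, e] at this
    have h2 : τ (c (τ⁻¹ * σ)) = τ 1 := by
      rw [map_one]; exact (mul_eq_left₀ (c0 τ hτ)).1 this.symm
    exact τ.injective h2
  let H : Subgroup (L ≃ₐ[k] L) :=
    { carrier := {σ | σ ∈ U ∧ c σ = 1}
      one_mem' := ⟨U.one_mem, c1⟩
      mul_mem' := by
        rintro σ τ ⟨h1, h2⟩ ⟨h3, h4⟩
        exact ⟨U.mul_mem h1 h3, by rw [hmul σ h1 τ h3, h2, h4]; simp⟩
      inv_mem' := by
        rintro σ ⟨h1, h2⟩
        exact ⟨U.inv_mem h1, by simpa using ceq 1 U.one_mem σ h1 (c1.trans h2.symm)⟩ }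
  have hH : (IntermediateField.fixedField H).fixingSubgroup = H :=
    InfiniteGalois.fixingSubgroup_fixedField ⟨H, H.isClosed_of_isOpen hopen⟩
  set A := IntermediateField.fixedField H with hA
  let I : Set L := c '' U
  have hI : I.Finite := by
    refine (Polynomial.nthRootsFinset 3 (1 : L)).finite_toSet.subset ?_
    rintro _ ⟨σ, hσ, rfl⟩
    simpa [Polynomial.mem_nthRootsFinset (by norm_num : 0 < 3)] using hc3 σ hσ
  have : Fintype I := hI.fintype
  choose s hs hcs using fun z : I => z.2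
  have agree : ∀ σ ∈ U, ∀ τ ∈ U, c σ = c τ → ∀ η : A, σ η = τ η := by
    intro σ hσ τ hτ e η
    have hm : τ⁻¹ * σ ∈ H := ⟨U.mul_mem (U.inv_mem hτ) hσ, ceq σ hσ τ hτ e⟩
    have := (IntermediateField.mem_fixedField_iff H η.1).1 η.2 _ hm
    nth_rewrite 2 [← this]
    rw [← AlgEquiv.mul_apply, mul_inv_cancel_left]
  let f : I → (A →* L) := fun z => ((s z : L →ₐ[k] L).comp A.val : A →ₐ[k] L)
  have finj : Function.Injective f := by
    intro z z' e
    have hm : (s z')⁻¹ * s z ∈ A.fixingSubgroup := by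
      rw [IntermediateField.mem_fixingSubgroup_iff]
      intro x hx
      have := DFunLike.congr_fun e ⟨x, hx⟩
      have h2 : s z x = s z' x := this
      rw [AlgEquiv.mul_apply, h2, ← AlgEquiv.mul_apply, inv_mul_cancel, AlgEquiv.one_apply]
    rw [hH] at hm
    have := hmul _ (hs z') _ hm.1
    rw [mul_inv_cancel_left, hm.2, map_one, mul_one, hcs, hcs] at this
    exact Subtype.ext this
  have li := (linearIndependent_monoidHom A L).comp f finj
  rw [Fintype.linearIndependent_iff] at li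
  have z0 : ∀ z : I, (z : L) ≠ 0 := fun z => hcs z ▸ c0 _ (hs z)
  obtain ⟨η, hη⟩ : ∃ η : A, ∑ z : I, (z : L)⁻¹ * s z η ≠ 0 := by
    by_contra hcon
    push Not at hcon
    have := li (fun z => (z : L)⁻¹) (by
      ext η
      simpa [f] using hcon η) ⟨c 1, 1, U.one_mem, rfl⟩
    exact inv_ne_zero (z0 _) this
  refine ⟨_, hη, fun σ hσ => ?_⟩
  let π : I → I := fun z => ⟨c (σ * s z), _, U.mul_mem hσ (hs z), rfl⟩
  have πv : ∀ z, (π z : L) = c σ * σ z := fun z => by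
    change c (σ * s z) = _
    rw [hmul σ hσ _ (hs z), hcs]
  have πinj : Function.Injective π := by
    intro z z' e
    have := congrArg Subtype.val e
    rw [πv, πv] at this
    exact Subtype.ext (σ.injective (mul_left_cancel₀ (c0 σ hσ) this))
  rw [map_sum, Finset.mul_sum]
  refine Fintype.sum_bijective π (Finite.injective_iff_bijective.1 πinj) _ _ fun z => ?_
  rw [map_mul, map_inv₀, πv, ← AlgEquiv.mul_apply,
    agree _ (U.mul_mem hσ (hs z)) _ (hs (π z)) (hcs (π z)).symm]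
  have := c0 σ hσ
  field_simp

lemma omega_cases {w z : L} (hw : w ^ 2 + w + 1 = 0) (hz : z ^ 2 + z + 1 = 0) :
    z = w ∨ z = w ^ 2 := by
  have : (z - w) * (z - w ^ 2) = 0 := by linear_combination hz - (z - w + 1) * hw
  rcases mul_eq_zero.1 this with e | e
  · exact Or.inl (sub_eq_zero.1 e)
  · exact Or.inr (sub_eq_zero.1 e)

lemma cube_cases {w z : L} (hw : w ^ 2 + w + 1 = 0) (hz : z ^ 3 = 1) :
    z = 1 ∨ z = w ∨ z = w ^ 2 := by
  by_cases h : z = 1
  · exact Or.inl h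
  · refine Or.inr (omega_cases hw ?_)
    apply mul_left_cancel₀ (sub_ne_zero.2 h)
    linear_combination hz

lemma map_omega {L' : Type} [Field L'] (f : L →+* L') {w : L} (hw : w ^ 2 + w + 1 = 0) :
    f w ^ 2 + f w + 1 = 0 := by simpa using congrArg f hw

lemma gal_omega (σ : L ≃ₐ[k] L) {w : L} (hw : w ^ 2 + w + 1 = 0) : σ w = w ∨ σ w = w ^ 2 :=
  omega_cases hw (by simpa using congrArg σ hw)

lemma omega_cube {R : Type} [CommRing R] {w : R} (hw : w ^ 2 + w + 1 = 0) : w ^ 3 = 1 := by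
  linear_combination (w - 1) * hw

lemma omega_ne_sq [CharZero L] {w : L} (hw : w ^ 2 + w + 1 = 0) : w - w ^ 2 ≠ 0 := by
  intro e
  have : (w - w ^ 2) ^ 2 = -3 := by linear_combination (w ^ 2 - 3 * w + 3) * hw
  rw [e] at this
  norm_num at this

/-- An element fixed by all automorphisms fixing ω lies in k + kω. -/
lemma omega_decomp [CharZero L] {w : L} (hw : w ^ 2 + w + 1 = 0) {ρ : L ≃ₐ[k] L}
    (hρ : ρ w = w ^ 2) {u : L} (hu : ∀ σ : L ≃ₐ[k] L, σ w = w → σ u = u) :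
    ∃ c d : k, u = algebraMap k L c + algebraMap k L d * w ∧
      algebraMap k L d = (u - ρ u) / (w - w ^ 2) := by
  have h0 := omega_ne_sq hw
  have h3 := omega_cube hw
  have hρ2 : ρ (w ^ 2) = w := by rw [map_pow, hρ]; linear_combination w * h3
  have hρi : ρ⁻¹ (w ^ 2) = w := by rw [← hρ, ← AlgEquiv.mul_apply, inv_mul_cancel]; rfl
  have A : ∀ σ : L ≃ₐ[k] L, σ w = w → σ (ρ u) = ρ u := by
    intro σ hσ
    have := hu (ρ⁻¹ * σ * ρ) (by rw [AlgEquiv.mul_apply, AlgEquiv.mul_apply, hρ, map_pow, hσ, hρi])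
    nth_rewrite 2 [← this]
    rw [← AlgEquiv.mul_apply, ← AlgEquiv.mul_apply, ← mul_assoc, mul_inv_cancel_left]
  have B : ∀ σ : L ≃ₐ[k] L, σ w = w ^ 2 → σ u = ρ u ∧ σ (ρ u) = u := by
    intro σ hσ
    constructor
    · have := hu (ρ⁻¹ * σ) (by rw [AlgEquiv.mul_apply, hσ, hρi])
      nth_rewrite 2 [← this]
      rw [← AlgEquiv.mul_apply, mul_inv_cancel_left]
    · exact hu (σ * ρ) (by rw [AlgEquiv.mul_apply, hρ, map_pow, hσ]; linear_combination w * h3)
  obtain ⟨d, hd⟩ := (InfiniteGalois.mem_range_algebraMap_iff_fixed (k := k)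
    ((u - ρ u) / (w - w ^ 2))).2 (by
      intro σ
      rcases gal_omega σ hw with e | e
      · rw [map_div₀, map_sub, map_sub, map_pow, e, hu σ e, A σ e]
      · rw [map_div₀, map_sub, map_sub, map_pow, e, (B σ e).1, (B σ e).2]
        have : w ^ 2 - (w ^ 2) ^ 2 = -(w - w ^ 2) := by linear_combination (-w) * h3
        rw [this]; field_simp; ring)
  obtain ⟨c, hc⟩ := (InfiniteGalois.mem_range_algebraMap_iff_fixed (k := k)
    ((w * ρ u - w ^ 2 * u) / (w - w ^ 2))).2 (by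
      intro σ
      rcases gal_omega σ hw with e | e
      · rw [map_div₀, map_sub, map_sub, map_mul, map_mul, map_pow, e, hu σ e, A σ e]
      · rw [map_div₀, map_sub, map_sub, map_mul, map_mul, map_pow, e, (B σ e).1, (B σ e).2]
        have : (w ^ 2) ^ 2 = w := by linear_combination w * h3
        rw [this]
        have : w ^ 2 - w = -(w - w ^ 2) := by ring
        rw [this]; field_simp; ring)
  refine ⟨c, d, ?_, hd⟩
  rw [hc, hd, div_mul_eq_mul_div, ← add_div, eq_div_iff h0]; ring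

end generic

/-- Cocycles of G_Q with values in E(Qbar). -/
abbrev cocycles (W : WeierstrassCurve ℚ) : AddSubgroup (GQ → Pts W Qb) := Z1 (galQ W)

/-- Local triviality of a cocycle. -/
def LocTriv (W : WeierstrassCurve ℚ) (F : Type) [Field F] [CharZero F]
    (ξ : GQ → Pts W Qb) : Prop :=
  ∃ R : Pts W (AlgebraicClosure F),
    ∀ (σ : AlgebraicClosure F ≃ₐ[F] AlgebraicClosure F) (τ : GQ),
      (∀ x, emb F (τ x) = σ (emb F x)) →
        act W (emb F) (ξ τ) = act W (σ : AlgebraicClosure F →+* AlgebraicClosure F) R - R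

lemma LocTriv.add {W : WeierstrassCurve ℚ} {F : Type} [Field F] [CharZero F]
    {ξ η : GQ → Pts W Qb} (h1 : LocTriv W F ξ) (h2 : LocTriv W F η) : LocTriv W F (ξ + η) := by
  obtain ⟨P, hP⟩ := h1
  obtain ⟨Q, hQ⟩ := h2
  refine ⟨P + Q, fun σ τ h => ?_⟩
  simp only [Pi.add_apply, map_add, hP σ τ h, hQ σ τ h]
  abel

lemma LocTriv.neg {W : WeierstrassCurve ℚ} {F : Type} [Field F] [CharZero F]
    {ξ : GQ → Pts W Qb} (h1 : LocTriv W F ξ) : LocTriv W F (-ξ) := by
  obtain ⟨P, hP⟩ := h1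
  refine ⟨-P, fun σ τ h => ?_⟩
  simp only [Pi.neg_apply, map_neg, hP σ τ h]
  abel

lemma coc_mul {W : WeierstrassCurve ℚ} {ξ : GQ → Pts W Qb} (h : ξ ∈ cocycles W) (σ τ : GQ) :
    ξ (σ * τ) = ξ σ + act W (σ : Qb →+* Qb) (ξ τ) := h.2 σ τ

/-- Restriction of a local automorphism to Qbar. -/
lemma exists_res (F : Type) [Field F] [CharZero F]
    (σ : AlgebraicClosure F ≃ₐ[F] AlgebraicClosure F) :
    ∃ τ : GQ, ∀ x, emb F (τ x) = σ (emb F x) := by
  let : Algebra Qb (AlgebraicClosure F) := (emb F).toAlgebra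
  have : IsScalarTower ℚ Qb (AlgebraicClosure F) :=
    IsScalarTower.of_algebraMap_eq' (Subsingleton.elim _ _)
  let σ' : AlgebraicClosure F ≃ₐ[ℚ] AlgebraicClosure F :=
    AlgEquiv.ofRingEquiv (f := σ.toRingEquiv) (fun x => by simp)
  exact ⟨σ'.restrictNormal Qb, fun x => σ'.restrictNormal_commutes Qb x⟩

lemma fixed_rat {x : Qb} (hx : ∀ σ : GQ, σ x = x) : ∃ q : ℚ, x = q := by
  obtain ⟨q, hq⟩ := (InfiniteGalois.mem_range_algebraMap_iff_fixed (k := ℚ) x).2 hx
  exact ⟨q, by rw [← hq]; simp⟩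

lemma isLC_apply (x : Qb) : IsLocallyConstant (fun σ : GQ => σ x) := by
  rw [IsLocallyConstant.iff_exists_open]
  intro σ
  refine ⟨(fun τ => σ⁻¹ * τ) ⁻¹' (MulAction.stabilizer GQ x : Set GQ),
    (stabilizer_isOpen_of_isIntegral x).preimage (by fun_prop), by simp, fun τ hτ => ?_⟩
  have : (σ⁻¹ * τ) x = x := hτ
  nth_rewrite 2 [← this]
  rw [← AlgEquiv.mul_apply, mul_inv_cancel_left]

lemma norm_gal {p : ℕ} [Fact p.Prime] (σ : PadicAlgCl p ≃ₐ[ℚ_[p]] PadicAlgCl p)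
    (x : PadicAlgCl p) : ‖σ x‖ = ‖x‖ :=
  (spectralNorm_eq_of_equiv σ x).symm

end Pool.Agent.MP_e23604_nt
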