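import Pool.Agent.MP_e23604_nt.Machine

/-!
The descent in terms of exponent vectors.
-/

open scoped Classical
open WeierstrassCurve QuadraticAlgebra

set_option linter.unusedSectionVars false

noncomputable section

namespace Pool.Agent.MP_e23604_nt

attribute [local instance 2000] decQ

lemma nat_cube {n : ℕ} (h0 : n ≠ 0) (h : ∀ p : ℕ, p.Prime → 3 ∣ padicValNat p n) :
    ∃ m : ℕ, n = m ^ 3 := by
  refine ⟨Nat.floorRoot 3 n, Nat.eq_of_factorization_eq h0
    (pow_ne_zero _ (Nat.floorRoot_ne_zero.2 ⟨by norm_num, h0⟩)) fun p => ?_⟩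
  rw [Nat.factorization_pow, Nat.factorization_floorRoot, Finsupp.smul_apply,
    Finsupp.floorDiv_apply]
  by_cases hp : p.Prime
  · have := h p hp
    rw [← Nat.factorization_def n hp] at this
    simp [Nat.mul_div_cancel' this]
  · simp [Nat.factorization_eq_zero_of_not_prime _ hp]

lemma rat_cube {q : ℚ} (h0 : q ≠ 0) (h : ∀ p : ℕ, p.Prime → (3 : ℤ) ∣ padicValRat p q) :
    ∃ z : ℚ, q = z ^ 3 := by
  have key : ∀ p : ℕ, p.Prime → 3 ∣ padicValNat p q.num.natAbs ∧ 3 ∣ padicValNat p q.den := by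
    intro p hp
    have := h p hp
    rw [padicValRat, padicValInt] at this
    by_cases h1 : p ∣ q.den
    · have h2 : ¬ p ∣ q.num.natAbs := fun h2 =>
        hp.one_lt.ne' (Nat.eq_one_of_dvd_coprimes q.reduced h2 h1)
      rw [padicValNat.eq_zero_of_not_dvd h2] at this ⊢
      omega
    · rw [padicValNat.eq_zero_of_not_dvd h1] at this ⊢
      omega
  obtain ⟨m, hm⟩ := nat_cube (Int.natAbs_ne_zero.2 (Rat.num_ne_zero.2 h0)) fun p hp => (key p hp).1
  obtain ⟨k, hk⟩ := nat_cube q.den_nz fun p hp => (key p hp).2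
  rcases Int.natAbs_eq q.num with e | e
  · exact ⟨m / k, by rw [← Rat.num_div_den q, e, hm, hk]; push_cast; ring⟩
  · exact ⟨-m / k, by rw [← Rat.num_div_den q, e, hm, hk]; push_cast; ring⟩

variable {ι : Type} [Fintype ι] {P : ι → ℤ}

lemma val_P (hP : ∀ i, Prime (P i)) (p : ℕ) [hp : Fact p.Prime] (i : ι) :
    padicValRat p (P i) = if p = (P i).natAbs then 1 else 0 := by
  rw [padicValRat.of_int, padicValInt]
  split_ifs with e
  · rw [← e, padicValNat_self]; rfl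
  · rw [padicValNat.eq_zero_of_not_dvd]
    · rfl
    · rwa [Nat.prime_dvd_prime_iff_eq hp.out (Int.prime_iff_natAbs_prime.1 (hP i))]

lemma val_prod (hP : ∀ i, Prime (P i)) (p : ℕ) [Fact p.Prime] (n : ι → ℕ) :
    padicValRat p (∏ i, (P i : ℚ) ^ n i) = ∑ i, if p = (P i).natAbs then (n i : ℤ) else 0 := by
  have : ∀ s : Finset ι, padicValRat p (∏ i ∈ s, (P i : ℚ) ^ n i) =
      ∑ i ∈ s, if p = (P i).natAbs then (n i : ℤ) else 0 := by
    intro s
    have P0 : ∀ i, (P i : ℚ) ≠ 0 := fun i => by exact_mod_cast (hP i).ne_zero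
    induction s using Finset.induction_on with
    | empty => simp
    | insert i s hi ih =>
      rw [Finset.prod_insert hi, Finset.sum_insert hi, padicValRat.mul (pow_ne_zero _ (P0 i))
        (Finset.prod_ne_zero_iff.2 fun j _ => pow_ne_zero _ (P0 j)), ih, padicValRat.pow,
        val_P hP]
      simp
  exact this _

lemma val_prod_at (hP : ∀ i, Prime (P i)) (hinj : Function.Injective fun i => (P i).natAbs)
    (n : ι → ℕ) (i : ι) : padicValRat (P i).natAbs (∏ i, (P i : ℚ) ^ n i) = n i := by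
  have := Fact.mk (Int.prime_iff_natAbs_prime.1 (hP i))
  rw [val_prod hP, Finset.sum_eq_single i]
  · simp
  · intro j _ hj
    rw [if_neg fun e => hj (hinj e).symm]
  · simp

lemma exists_exps (hP : ∀ i, Prime (P i)) (hinj : Function.Injective fun i => (P i).natAbs)
    {d : ℚ} (d0 : d ≠ 0)
    (h : ∀ p : ℕ, p.Prime → (∀ i, p ≠ (P i).natAbs) → (3 : ℤ) ∣ padicValRat p d) :
    ∃ (n : ι → ℕ) (z : ℚ), z ≠ 0 ∧ d = (∏ i, (P i : ℚ) ^ n i) * z ^ 3 := by
  let n : ι → ℕ := fun i => (padicValRat (P i).natAbs d % 3).toNat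
  have D0 : ∏ i, (P i : ℚ) ^ n i ≠ 0 :=
    Finset.prod_ne_zero_iff.2 fun j _ => pow_ne_zero _ (by exact_mod_cast (hP j).ne_zero)
  obtain ⟨z, hz⟩ := rat_cube (div_ne_zero d0 D0) (fun p hp => by
    have := Fact.mk hp
    rw [padicValRat.div d0 D0]
    by_cases e : ∃ i, p = (P i).natAbs
    · obtain ⟨i, rfl⟩ := e
      rw [val_prod_at hP hinj]
      simp only [n]
      omega
    · push Not at e
      rw [val_prod hP]
      simpa [e] using h p hp e)
  refine ⟨n, z, ?_, by rw [← hz]; field_simp⟩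
  rintro rfl
  exact div_ne_zero d0 D0 (by simpa using hz)

lemma prod_congr_cube (P0 : ∀ i, P i ≠ 0) {n n' : ι → ℕ} (h : ∀ i, n i % 3 = n' i % 3) :
    ∃ z : ℚ, ∏ i, (P i : ℚ) ^ n i = (∏ i, (P i : ℚ) ^ n' i) * z ^ 3 := by
  refine ⟨∏ i, (P i : ℚ) ^ (n i / 3) / (P i : ℚ) ^ (n' i / 3), ?_⟩
  rw [← Finset.prod_pow, ← Finset.prod_mul_distrib]
  refine Finset.prod_congr rfl fun i _ => ?_
  have : (P i : ℚ) ≠ 0 := by exact_mod_cast P0 i
  conv_lhs => rw [← Nat.mod_add_div (n i) 3, h]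
  conv_rhs => enter [1]; rw [← Nat.mod_add_div (n' i) 3]
  field_simp
  ring

lemma zmod_omega_exists {l : ℕ} [hl : Fact l.Prime] (h : l % 3 = 1) :
    ∃ w : ZMod l, w ^ 2 + w + 1 = 0 := by
  have := Fact.mk Nat.prime_three
  obtain ⟨g, hg⟩ := exists_prime_orderOf_dvd_card (G := (ZMod l)ˣ) 3 (by
    rw [ZMod.card_units]; omega)
  have g3 : (g : ZMod l) ^ 3 = 1 := by
    rw [← Units.val_pow_eq_pow_val, ← hg, pow_orderOf_eq_one, Units.val_one]
  have g1 : (g : ZMod l) ≠ 1 := by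
    intro e
    rw [Units.val_eq_one.1 e, orderOf_one] at hg
    omega
  refine ⟨g, mul_left_cancel₀ (sub_ne_zero.2 g1) ?_⟩
  linear_combination g3

lemma chi_prod {l : ℕ} (h1 : l.Prime) (h2 : l % 3 = 1) (n : ι → ℕ) :
    chi l (∏ i, P i ^ n i) = ∏ i, chi l (P i) ^ n i := by
  have g := gd h1 h2
  have c1 : chi l 1 = 1 := (g.one_iff 1 (by
    intro e; exact h1.one_lt.ne' (by exact_mod_cast Int.eq_one_of_dvd_one (by omega) e))).2
    ⟨1, by simp⟩
  let f : ℤ →* Zw := ⟨⟨chi l, c1⟩, g.mul⟩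
  exact (map_prod f _ _).trans (Finset.prod_congr rfl fun i _ => map_pow f _ _)

theorem layer {a b : ℤ} (h : Good a b) (S : Finset ℕ) (hS : ∀ l ∈ S, l.Prime ∧ l % 3 = 1)
    (hM : ∀ p : ℕ, p.Prime → p % 3 = 1 → (p : ℤ) ∣ a ^ 3 - 27 * b → p ∈ S)
    (hM' : ∀ l ∈ S, (l : ℤ) ∣ a ^ 3 - 27 * b ∧ ¬ (l : ℤ) ∣ b)
    (hP : ∀ i, Prime (P i)) (hinj : Function.Injective fun i => (P i).natAbs)
    (hP3 : ∀ i, (P i).natAbs ≠ 3) (hb : ∀ p : ℕ, p.Prime → (p : ℤ) ∣ b → ∃ i, p = (P i).natAbs)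
    (hb3 : ∀ i, ¬ 3 ∣ padicValInt (P i).natAbs b)
    (hK : ∀ (e₀ : ℕ) (e : ℕ → ℕ), (∀ i, ∏ l ∈ S, chi l (P i) ^ (2 * e l) =
      ω ^ (e₀ * ((P i).natAbs ^ 2 / 3))) → 3 ∣ e₀ ∧ ∀ l ∈ S, 3 ∣ e l)
    {κ : Type} [Fintype κ] (C : κ → Pts (E3 a b) ℚ) (k₀ : κ) (hC : ∀ k, ¬ InT (C k))
    (E : Option κ → ι → ℕ) (c : Option κ → ℚ) (c0 : ∀ j, c j ≠ 0)
    (hE : ∀ j, cy (fam C k₀ j) = (∏ i, (P i : ℚ) ^ E j i) * c j ^ 3)
    (H1 : ∀ n : ι → ℕ, (∀ l ∈ S, ∏ i, chi l (P i) ^ n i = 1) →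
      ∃ m : Option κ → ℕ, ∀ i, n i % 3 = (∑ j, m j * E j i) % 3)
    (H2 : ∀ m : Option κ → ℕ, (∀ i, 3 ∣ ∑ j, m j * E j i) → ∀ j, 3 ∣ m j) :
    (E3 a b).IsElliptic ∧ (letI := instDecidableEqRat
      Module.finrank ℤ (E3 a b).toAffine.Point = Fintype.card κ) ∧
      ∀ c ∈ Sha (E3 a b), ∀ k : ℕ, 3 ^ k • c = 0 → c = 0 := by
  have Pb : ∀ i, (P i).natAbs ∉ S := by
    intro i hi
    exact hb3 i (by rw [padicValInt.eq_zero_of_not_dvd (hM' _ hi).2]; simp)
  have prodE : ∀ m : Option κ → ℕ, ∏ j, cy (fam C k₀ j) ^ m j =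
      (∏ i, (P i : ℚ) ^ ∑ j, m j * E j i) * (∏ j, c j ^ m j) ^ 3 := by
    intro m
    simp only [hE, mul_pow, Finset.prod_mul_distrib, ← Finset.prod_pow,
      ← Finset.prod_pow_eq_pow_sum]
    rw [Finset.prod_comm]
    congr 1
    · exact Finset.prod_congr rfl fun i _ => Finset.prod_congr rfl fun j _ => by ring
    · exact Finset.prod_congr rfl fun j _ => by ring
  have cm0 : ∀ m : Option κ → ℕ, ∏ j, c j ^ m j ≠ 0 := fun m =>
    Finset.prod_ne_zero_iff.2 fun j _ => pow_ne_zero _ (c0 j)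
  have := machine h S hS hM (fun e₀ e he => hK e₀ e fun i => by
      rw [← he _ (Int.prime_iff_natAbs_prime.1 (hP i)) (hP3 i) (Pb i) (hb3 i)]
      refine Finset.prod_congr rfl fun l hl => ?_
      rw [Int.natAbs_sq, pow_mul, sq, sq, (gd (hS l hl).1 (hS l hl).2).mul])
    C k₀ hC (fun d d0 hd => by
      obtain ⟨n, z, z0, e⟩ := exists_exps hP hinj d0 (fun p hp hne => by
        have := Fact.mk hp
        refine (hd p).val (fun hpb => ?_) d0
        obtain ⟨i, hi⟩ := hb p hp hpb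
        exact hne i hi)
      obtain ⟨m, hm⟩ := H1 n (fun l hl => by
        have := Fact.mk (hS l hl).1
        have nd : ¬ (l : ℤ) ∣ ∏ i, P i ^ n i := by
          intro hd
          obtain ⟨i, -, hi⟩ := (Prime.dvd_finsetProd_iff
            (Nat.prime_iff_prime_int.1 (hS l hl).1) _).1 hd
          have h1 := (Nat.prime_iff_prime_int.1 (hS l hl).1).dvd_of_dvd_pow hi
          have h2 := (Nat.prime_dvd_prime_iff_eq (hS l hl).1
            (Int.prime_iff_natAbs_prime.1 (hP i))).1 (Int.natCast_dvd.1 h1)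
          exact Pb i (h2 ▸ hl)
        obtain ⟨w, hw⟩ := zmod_omega_exists (hS l hl).2
        rw [← chi_prod (hS l hl).1 (hS l hl).2, (gd (hS l hl).1 (hS l hl).2).one_iff _ nd]
        refine LocOK.cube (hM' l hl).2 (hM' l hl).1 hw (fun e3 => ?_) nd z0 ?_
        · have : ((3 : ℕ) : ZMod l) = 0 := by exact_mod_cast e3
          rw [ZMod.natCast_eq_zero_iff,
            Nat.prime_dvd_prime_iff_eq (hS l hl).1 Nat.prime_three] at this
          have := (hS l hl).2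
          omega
        · have := hd l
          rw [e] at this
          push_cast
          exact this)
      obtain ⟨u, hu⟩ := prod_congr_cube (fun i => (hP i).ne_zero) hm
      refine ⟨m, u * z / ∏ j, c j ^ m j, ?_⟩
      have := cm0 m
      rw [prodE, e, hu]
      field_simp)
    (fun m z e => H2 m fun i => by
      have := Fact.mk (Int.prime_iff_natAbs_prime.1 (hP i))
      have D0 : ∏ i, (P i : ℚ) ^ ∑ j, m j * E j i ≠ 0 :=
        Finset.prod_ne_zero_iff.2 fun j _ => pow_ne_zero _ (by exact_mod_cast (hP j).ne_zero)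
      rw [prodE] at e
      have z0 : z ≠ 0 := by
        rintro rfl
        exact mul_ne_zero D0 (pow_ne_zero 3 (cm0 m)) (by simpa using e)
      have := congrArg (padicValRat (P i).natAbs) e
      rw [padicValRat.mul D0 (pow_ne_zero 3 (cm0 m)), val_prod_at hP hinj, padicValRat.pow,
        padicValRat.pow] at this
      omega)
  refine ⟨h.isElliptic, ?_, this.2⟩
  rw [← this.1]
  exact finrank_congr (by ext <;> simp [E3, baseChange]) _ _

lemma pow_three_dvd {u : Zw} (h3 : u ^ 3 = 1) (h1 : u ≠ 1) {n : ℕ} (h : u ^ n = 1) : 3 ∣ n := by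
  have := Fact.mk Nat.prime_three
  rwa [← orderOf_dvd_iff_pow_eq_one, orderOf_eq_prime h3 h1] at h

lemma pow_three_dvd₂ {u v : Zw} (hu : u ^ 3 = 1) (hv : v ^ 3 = 1) (h1 : u ≠ v) {A B : ℕ}
    (h : u ^ A * v ^ B = 1) (hAB : 3 ∣ A + B) : 3 ∣ B := by
  refine pow_three_dvd (u := u ^ 2 * v) (by linear_combination v ^ 3 * (u ^ 3 + 1) * hu + hv)
    (fun e => h1 (by linear_combination v * hu - u * e)) ?_
  rw [mul_pow, ← pow_mul, pow_eq_pow_mod _ hu, ← h, pow_eq_pow_mod A hu]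
  congr 2
  omega

end Pool.Agent.MP_e23604_nt
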